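import Mathlib

/-!
# The relations between four elements whose forms of degree `m` span a space of dimension
# at most `D m² + C m + C`

If the first three elements have no homogeneous relation then the homogeneous relations between the
four elements are the multiples of one irreducible form, whose degree is at most `2 D`.
-/

set_option autoImplicit false

open MvPolynomial

namespace Pool.Agent.Lib.MP_ed661f_ag.S

section factors

variable {σ K : Type*} [Field K]

private noncomputable def kaT : MvPolynomial σ K →ₐ[K] Polynomial (MvPolynomial σ K) :=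
  aeval (fun i => Polynomial.X * Polynomial.C (X i))

private lemma kaT_monomial (s : σ →₀ ℕ) (c : K) :
    kaT (monomial s c) = Polynomial.monomial s.degree (monomial s c) := by
  unfold kaT
  rw [aeval_monomial, monomial_eq, Finsupp.prod, Finsupp.prod]
  simp only [mul_pow]
  rw [Finset.prod_mul_distrib, Finset.prod_pow_eq_pow_sum, ← Finsupp.degree_apply]
  have h1 : (algebraMap K (Polynomial (MvPolynomial σ K))) c = Polynomial.C (C c) := rfl
  rw [h1, ← Polynomial.C_mul_X_pow_eq_monomial, map_mul, map_prod]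
  simp only [map_pow]
  ring

private lemma kaT_coeff (F : MvPolynomial σ K) (n : ℕ) :
    (kaT F).coeff n = homogeneousComponent n F := by
  conv_lhs => rw [F.as_sum]
  rw [map_sum, Polynomial.finsetSum_coeff, homogeneousComponent_apply, Finset.sum_filter]
  refine Finset.sum_congr rfl fun s _ => ?_
  rw [kaT_monomial, Polynomial.coeff_monomial]

private lemma ka_hom_of_coeff {A : MvPolynomial σ K} {a : ℕ}
    (h : ∀ n, n ≠ a → homogeneousComponent n A = 0) : A.IsHomogeneous a := by
  intro s hs
  by_contra hne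
  have h1 : homogeneousComponent s.degree A = 0 := by
    refine h _ ?_
    intro h2
    apply hne
    rw [← h2, Finsupp.degree_eq_weight_one]
    rfl
  have h2 : coeff s (homogeneousComponent s.degree A) = coeff s A := by
    rw [coeff_homogeneousComponent, if_pos rfl]
  rw [h1, coeff_zero] at h2
  exact hs h2.symm

/-- factors of a form are forms -/
theorem homogeneous_of_mul {A B : MvPolynomial σ K} {d : ℕ} (hAB : (A * B).IsHomogeneous d)
    (hne : A * B ≠ 0) : ∃ a b, A.IsHomogeneous a ∧ B.IsHomogeneous b ∧ a + b = d := by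
  have hT : kaT A * kaT B = Polynomial.monomial d (A * B) := by
    rw [← map_mul]
    ext1 n
    rw [kaT_coeff, Polynomial.coeff_monomial, homogeneousComponent_of_mem hAB]
    by_cases h : n = d
    · rw [if_pos h, if_pos h.symm]
    · rw [if_neg h, if_neg (Ne.symm h)]
  have hT0 : kaT A * kaT B ≠ 0 := by
    rw [hT]
    simpa using hne
  have hA : kaT A ≠ 0 := left_ne_zero_of_mul hT0
  have hB : kaT B ≠ 0 := right_ne_zero_of_mul hT0
  have e1 : (kaT A).natDegree + (kaT B).natDegree = d := by
    rw [← Polynomial.natDegree_mul hA hB, hT, Polynomial.natDegree_monomial_eq d hne]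
  have e2 : (kaT A).natTrailingDegree + (kaT B).natTrailingDegree = d := by
    rw [← Polynomial.natTrailingDegree_mul hA hB, hT, Polynomial.natTrailingDegree_monomial hne]
  have l1 := Polynomial.natTrailingDegree_le_natDegree (kaT A)
  have l2 := Polynomial.natTrailingDegree_le_natDegree (kaT B)
  have k1 : (kaT A).natTrailingDegree = (kaT A).natDegree := by omega
  have k2 : (kaT B).natTrailingDegree = (kaT B).natDegree := by omega
  refine ⟨_, _, ka_hom_of_coeff (a := (kaT A).natDegree) ?_,
    ka_hom_of_coeff (a := (kaT B).natDegree) ?_, e1⟩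
  · intro n hn
    rw [← kaT_coeff]
    rcases lt_or_gt_of_ne hn with h | h
    · exact Polynomial.coeff_eq_zero_of_lt_natTrailingDegree (by rw [k1]; exact h)
    · exact Polynomial.coeff_eq_zero_of_natDegree_lt h
  · intro n hn
    rw [← kaT_coeff]
    rcases lt_or_gt_of_ne hn with h | h
    · exact Polynomial.coeff_eq_zero_of_lt_natTrailingDegree (by rw [k2]; exact h)
    · exact Polynomial.coeff_eq_zero_of_natDegree_lt h

end factors

section dims

variable {K : Type*} [Field K]

/-- the coefficients of a form of degree `k` -/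
private noncomputable def kaCoeffs (K : Type*) [Field K] (r k : ℕ) :
    homogeneousSubmodule (Fin r) K k →ₗ[K]
    (((Finset.univ : Finset (Fin r)).finsuppAntidiag k) → K) where
  toFun F d := MvPolynomial.coeff d.1 F.1
  map_add' F G := by ext d; simp
  map_smul' c F := by ext d; simp

private lemma ka_mem_antidiag {r k : ℕ} {d : Fin r →₀ ℕ} :
    d ∈ (Finset.univ : Finset (Fin r)).finsuppAntidiag k ↔ d.degree = k := by
  rw [Finset.mem_finsuppAntidiag]
  have : (Finset.univ : Finset (Fin r)).sum (⇑d) = d.degree := by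
    rw [Finsupp.degree_eq_sum]
  rw [this]
  simp

private lemma kaCoeffs_bijective (r k : ℕ) : Function.Bijective (kaCoeffs K r k) := by
  constructor
  · rw [← LinearMap.ker_eq_bot, LinearMap.ker_eq_bot']
    intro F hF
    apply Subtype.ext
    apply MvPolynomial.ext
    intro d
    by_cases hd : d.degree = k
    · exact congrFun hF ⟨d, ka_mem_antidiag.2 hd⟩
    · exact F.2.coeff_eq_zero hd
  · intro f
    refine ⟨⟨∑ d, monomial d.1 (f d), ?_⟩, ?_⟩
    · refine Submodule.sum_mem _ fun d _ => ?_
      exact isHomogeneous_monomial _ (ka_mem_antidiag.1 d.2)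
    · ext d
      change MvPolynomial.coeff d.1 (∑ d, monomial d.1 (f d)) = f d
      rw [MvPolynomial.coeff_sum, Finset.sum_eq_single d]
      · simp
      · intro b _ hb
        rw [MvPolynomial.coeff_monomial, if_neg]
        exact fun h => hb (Subtype.ext h)
      · simp

theorem finrank_formsK (r k : ℕ) :
    Module.finrank K (homogeneousSubmodule (Fin r) K k) = (r + k - 1).choose k := by
  rw [(LinearEquiv.ofBijective _ (kaCoeffs_bijective r k)).finrank_eq, Module.finrank_pi,
    Fintype.card_coe, Finset.card_finsuppAntidiag_nat_eq_choose]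
  simp

instance finite_formsK (r k : ℕ) : Module.Finite K (homogeneousSubmodule (Fin r) K k) :=
  Module.Finite.equiv (LinearEquiv.ofBijective _ (kaCoeffs_bijective r k)).symm

/-- `(k+1)(k+2)(k+3)/6` -/
theorem finrank_forms4 (k : ℕ) :
    (Module.finrank K (homogeneousSubmodule (Fin 4) K k) : ℝ) =
      ((k : ℝ) + 1) * (k + 2) * (k + 3) / 6 := by
  rw [finrank_formsK]
  have h1 : 4 + k - 1 = k + 3 := by omega
  have h2 := Nat.add_choose_mul_factorial_mul_factorial k 3
  rw [h1, Nat.choose_symm_add]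
  have h3 : ((k + 3).factorial : ℝ) = (k.factorial : ℝ) * ((k + 1) * (k + 2) * (k + 3)) := by
    have : (k + 3).factorial = k.factorial * ((k + 1) * (k + 2) * (k + 3)) := by
      rw [Nat.factorial_succ, Nat.factorial_succ, Nat.factorial_succ]
      ring
    rw [this]
    push_cast
    ring
  have h4 : (((k + 3).choose 3 : ℕ) : ℝ) * (k.factorial : ℝ) * 6 = ((k + 3).factorial : ℝ) := by
    have h5 : (k + 3).choose 3 * k.factorial * 6 = (k + 3).factorial := by
      rw [← h2]
      rfl
    exact_mod_cast h5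
  have h6 : (k.factorial : ℝ) ≠ 0 := by exact_mod_cast k.factorial_ne_zero
  rw [h3] at h4
  field_simp
  have h7 : (k.factorial : ℝ) * ((((k + 3).choose 3 : ℕ) : ℝ) * 6) =
      (k.factorial : ℝ) * (((k : ℝ) + 1) * (k + 2) * (k + 3)) := by
    linarith
  exact mul_left_cancel₀ h6 h7

/-- `(k+1)(k+2)/2` -/
theorem finrank_forms3 (k : ℕ) :
    (Module.finrank K (homogeneousSubmodule (Fin 3) K k) : ℝ) = ((k : ℝ) + 1) * (k + 2) / 2 := by
  rw [finrank_formsK]
  have h1 : 3 + k - 1 = k + 2 := by omega
  rw [h1, Nat.choose_symm_add]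
  have h2 := Nat.cast_choose_two ℝ (k + 2)
  rw [h2]
  push_cast
  ring

end dims

section main

variable {K A : Type*} [Field K] [CommRing A] [IsDomain A] [Algebra K A]

/-- substitution in forms of degree `m` -/
noncomputable def sub4 (f : Fin 4 → A) (m : ℕ) : homogeneousSubmodule (Fin 4) K m →ₗ[K] A :=
  (aeval f).toLinearMap ∘ₗ (homogeneousSubmodule (Fin 4) K m).subtype

/-- multiples of `F` by forms of degree `k` -/
private noncomputable def kaMul (F : MvPolynomial (Fin 4) K) {e k m : ℕ} (hF : F.IsHomogeneous e)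
    (h : e + k = m) : homogeneousSubmodule (Fin 4) K k →ₗ[K] homogeneousSubmodule (Fin 4) K m :=
  LinearMap.codRestrict _ ((LinearMap.mulLeft K F) ∘ₗ (homogeneousSubmodule (Fin 4) K k).subtype)
    fun G => h ▸ hF.mul G.2

private theorem kaMul_coe (F : MvPolynomial (Fin 4) K) {e k m : ℕ} (hF : F.IsHomogeneous e)
    (h : e + k = m) (G : homogeneousSubmodule (Fin 4) K k) :
    ((kaMul F hF h G : homogeneousSubmodule (Fin 4) K m) : MvPolynomial (Fin 4) K) = F * G.1 := rfl

private theorem kaMul_inj {F : MvPolynomial (Fin 4) K} {e k m : ℕ} (hF : F.IsHomogeneous e)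
    (h : e + k = m) (hF0 : F ≠ 0) : Function.Injective (kaMul F hF h) := by
  intro G G' hG
  have h1 : F * G.1 = F * G'.1 := congrArg Subtype.val hG
  exact Subtype.ext (mul_left_cancel₀ hF0 h1)

/-- a number in place of the dimension of the forms -/
private noncomputable def s4 (k : ℝ) : ℝ := (k + 1) * (k + 2) * (k + 3) / 6

variable {f : Fin 4 → A} {D C : ℝ}

omit [IsDomain A] in
private theorem ka_rank (f : Fin 4 → A) (m : ℕ) :
    (Module.finrank K (LinearMap.range (sub4 (K := K) f m)) : ℝ) +
      Module.finrank K (LinearMap.ker (sub4 (K := K) f m)) = s4 m := by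
  have h1 := LinearMap.finrank_range_add_finrank_ker (sub4 (K := K) f m)
  have h2 := finrank_forms4 (K := K) m
  unfold s4
  rw [← h2, ← h1]
  push_cast
  ring

omit [IsDomain A] in
/-- there is a relation -/
private theorem ka_exists (hdim : ∀ m : ℕ, (Module.finrank K (LinearMap.range (sub4 (K := K) f m)) : ℝ) ≤
    D * m ^ 2 + C * m + C) : ∃ m, LinearMap.ker (sub4 (K := K) f m) ≠ ⊥ := by
  by_contra hcon
  push Not at hcon
  obtain ⟨m, hm⟩ := exists_nat_gt (6 * (|D| + 2 * |C| + 1))
  have h1 := ka_rank (K := K) f m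
  rw [hcon m, finrank_bot] at h1
  have h2 := hdim m
  have h3 : s4 m ≤ D * m ^ 2 + C * m + C := by
    rw [← h1]
    push_cast
    linarith
  have hD := le_abs_self D
  have hC := le_abs_self C
  have hD0 := abs_nonneg D
  have hC0 := abs_nonneg C
  have hm1 : (1 : ℝ) ≤ m := by linarith
  have h4 : D * (m : ℝ) ^ 2 ≤ |D| * (m : ℝ) ^ 2 := mul_le_mul_of_nonneg_right hD (by positivity)
  have h5 : C * (m : ℝ) ≤ |C| * (m : ℝ) ^ 2 := by
    calc C * (m : ℝ) ≤ |C| * m := mul_le_mul_of_nonneg_right hC (by positivity)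
      _ ≤ |C| * (m : ℝ) ^ 2 := mul_le_mul_of_nonneg_left (by nlinarith) hC0
  have h6 : C ≤ |C| * (m : ℝ) ^ 2 := by
    calc C ≤ |C| * 1 := by linarith
      _ ≤ |C| * (m : ℝ) ^ 2 := mul_le_mul_of_nonneg_left (by nlinarith) hC0
  have h7 : (m : ℝ) ^ 3 / 6 ≤ s4 m := by
    unfold s4
    have : (0 : ℝ) ≤ m := by positivity
    nlinarith [this, sq_nonneg (m : ℝ)]
  have h8 : (m : ℝ) ^ 2 * m ≤ (m : ℝ) ^ 2 * (6 * (|D| + 2 * |C|)) := by nlinarith
  have h9 : (0 : ℝ) < (m : ℝ) ^ 2 := by positivity
  have h10 := le_of_mul_le_mul_left h8 h9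
  linarith

/-- the sum of the multiples of two coprime forms -/
private theorem ka_two {F H : MvPolynomial (Fin 4) K} {e h m : ℕ} (hF : F.IsHomogeneous e)
    (hH : H.IsHomogeneous h) (hF0 : F ≠ 0) (hH0 : H ≠ 0) (hrel : IsRelPrime F H)
    (hm : e + h ≤ m) {W : Submodule K (homogeneousSubmodule (Fin 4) K m)}
    (h1 : ∀ G : homogeneousSubmodule (Fin 4) K m, F ∣ G.1 → G ∈ W)
    (h2 : ∀ G : homogeneousSubmodule (Fin 4) K m, H ∣ G.1 → G ∈ W) :
    s4 ((m : ℝ) - e) + s4 ((m : ℝ) - h) - s4 ((m : ℝ) - e - h) ≤ (Module.finrank K W : ℝ) := by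
  have e1 : e + (m - e) = m := by omega
  have e2 : h + (m - h) = m := by omega
  have e3 : (e + h) + (m - e - h) = m := by omega
  set R1 := LinearMap.range (kaMul F hF e1) with hR1
  set R2 := LinearMap.range (kaMul H hH e2) with hR2
  set R3 := LinearMap.range (kaMul (F * H) (hF.mul hH) e3) with hR3
  have hle : R1 ⊔ R2 ≤ W := by
    refine sup_le ?_ ?_
    · rintro _ ⟨G, rfl⟩
      exact h1 _ ⟨G.1, rfl⟩
    · rintro _ ⟨G, rfl⟩
      exact h2 _ ⟨G.1, rfl⟩
  have hinf : R1 ⊓ R2 ≤ R3 := by
    rintro G ⟨⟨G1, hG1⟩, ⟨G2, hG2⟩⟩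
    have k1 : F ∣ G.1 := ⟨G1.1, (congrArg Subtype.val hG1).symm⟩
    have k2 : H ∣ G.1 := ⟨G2.1, (congrArg Subtype.val hG2).symm⟩
    have k3 : F * H ∣ G.1 := by
      obtain ⟨G1', hG1'⟩ := k1
      have k4 : H ∣ G1' := by
        refine (hrel.symm).dvd_of_dvd_mul_left ?_
        rw [← hG1']
        exact k2
      rw [hG1']
      exact mul_dvd_mul_left F k4
    obtain ⟨Q, hQ⟩ := k3
    by_cases hG0 : G.1 = 0
    · have : G = 0 := Subtype.ext hG0
      rw [this]
      exact Submodule.zero_mem _
    · have hQh : Q.IsHomogeneous (m - e - h) := by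
        have hhom : (F * H * Q).IsHomogeneous m := hQ ▸ G.2
        obtain ⟨a, b, ha, hb, hab⟩ := homogeneous_of_mul hhom (by rw [← hQ]; exact hG0)
        have hFH : F * H ≠ 0 := mul_ne_zero hF0 hH0
        have : a = e + h := by
          rw [← ha.totalDegree hFH, (hF.mul hH).totalDegree hFH]
        have hb' : b = m - e - h := by omega
        rwa [hb'] at hb
      exact ⟨⟨Q, hQh⟩, Subtype.ext hQ.symm⟩
  have d1 : (Module.finrank K R1 : ℝ) = s4 ((m : ℝ) - e) := by
    rw [hR1, LinearMap.finrank_range_of_inj (kaMul_inj hF e1 hF0), finrank_forms4,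
      Nat.cast_sub (by omega)]
    rfl
  have d2 : (Module.finrank K R2 : ℝ) = s4 ((m : ℝ) - h) := by
    rw [hR2, LinearMap.finrank_range_of_inj (kaMul_inj hH e2 hH0), finrank_forms4,
      Nat.cast_sub (by omega)]
    rfl
  have d3 : (Module.finrank K R3 : ℝ) = s4 ((m : ℝ) - e - h) := by
    rw [hR3, LinearMap.finrank_range_of_inj (kaMul_inj (hF.mul hH) e3 (mul_ne_zero hF0 hH0)),
      finrank_forms4, Nat.cast_sub (by omega), Nat.cast_sub (by omega)]
    rfl
  have h3 := Submodule.finrank_sup_add_finrank_inf_eq R1 R2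
  have h4 := Submodule.finrank_mono hle
  have h5 := Submodule.finrank_mono hinf
  have h3' : (Module.finrank K ↥(R1 ⊔ R2) : ℝ) + Module.finrank K ↥(R1 ⊓ R2) =
      Module.finrank K R1 + Module.finrank K R2 := by exact_mod_cast h3
  have h4' : (Module.finrank K ↥(R1 ⊔ R2) : ℝ) ≤ Module.finrank K W := by exact_mod_cast h4
  have h5' : (Module.finrank K ↥(R1 ⊓ R2) : ℝ) ≤ Module.finrank K R3 := by exact_mod_cast h5
  linarith

/-- **The relations.** If the forms of degree `m` in `f` span a space of dimension at most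
`D m² + C m + C` and there is no homogeneous relation between the first three of the four elements,
then the homogeneous relations are the multiples of one irreducible form of degree at most `2 D`. -/
theorem exists_relation (hdim : ∀ m : ℕ,
      (Module.finrank K (LinearMap.range (sub4 (K := K) f m)) : ℝ) ≤ D * m ^ 2 + C * m + C)
    (h3 : ∀ (m : ℕ) (G : MvPolynomial (Fin 3) K), G.IsHomogeneous m →
      aeval (fun i : Fin 3 => f i.castSucc) G = 0 → G = 0) :
    ∃ (δ : ℕ) (F0 : MvPolynomial (Fin 4) K), Irreducible F0 ∧ F0.IsHomogeneous δ ∧ 1 ≤ δ ∧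
      (δ : ℝ) ≤ 2 * D ∧ ∀ (m : ℕ) (H : MvPolynomial (Fin 4) K), H.IsHomogeneous m →
        (aeval f H = 0 ↔ F0 ∣ H) := by
  classical
  -- the relation of smallest degree
  have hex := ka_exists (K := K) hdim
  let δ := Nat.find hex
  obtain ⟨F0', hF0', hne'⟩ := (Submodule.ne_bot_iff _).1 (Nat.find_spec hex)
  set F0 : MvPolynomial (Fin 4) K := F0'.1 with hF0def
  have hF0h : F0.IsHomogeneous δ := F0'.2
  have hF0 : F0 ≠ 0 := fun h => hne' (Subtype.ext h)
  have hF0z : aeval f F0 = 0 := LinearMap.mem_ker.1 hF0'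
  have hmin : ∀ (m : ℕ) (H : MvPolynomial (Fin 4) K), H.IsHomogeneous m → H ≠ 0 →
      aeval f H = 0 → δ ≤ m := by
    intro m H hH hH0 hHz
    refine Nat.find_min' hex ?_
    refine (Submodule.ne_bot_iff _).2 ⟨⟨H, hH⟩, LinearMap.mem_ker.2 hHz, ?_⟩
    exact fun h => hH0 (congrArg Subtype.val h)
  have hδ : 1 ≤ δ := by
    by_contra hcon
    have h0 : δ = 0 := by omega
    rw [h0] at hF0h
    have h1 : F0 = MvPolynomial.C (coeff 0 F0) := by
      have := hF0h.totalDegree_le
      exact totalDegree_eq_zero_iff_eq_C.1 (by omega)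
    rw [h1, aeval_C] at hF0z
    have h2 : coeff 0 F0 = 0 := by
      rwa [map_eq_zero] at hF0z
    rw [h2, MvPolynomial.C_0] at h1
    exact hF0 h1
  have hirr : Irreducible F0 := by
    constructor
    · intro hu
      have h1 := hu.map (aeval f : MvPolynomial (Fin 4) K →ₐ[K] A)
      rw [hF0z] at h1
      exact not_isUnit_zero h1
    · intro G H hGH
      have hhom : (G * H).IsHomogeneous δ := hGH ▸ hF0h
      obtain ⟨a, b, ha, hb, hab⟩ := homogeneous_of_mul hhom (by rw [← hGH]; exact hF0)
      have hG0 : G ≠ 0 := by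
        rintro rfl
        exact hF0 (by rw [hGH, zero_mul])
      have hH0 : H ≠ 0 := by
        rintro rfl
        exact hF0 (by rw [hGH, mul_zero])
      have hunit : ∀ Q : MvPolynomial (Fin 4) K, Q.IsHomogeneous 0 → Q ≠ 0 → IsUnit Q := by
        intro Q hQ hQ0
        have h1 : Q = MvPolynomial.C (coeff 0 Q) := by
          have := hQ.totalDegree_le
          exact totalDegree_eq_zero_iff_eq_C.1 (by omega)
        rw [h1]
        refine IsUnit.map _ (isUnit_iff_ne_zero.2 fun h => hQ0 ?_)
        rw [h1, h, MvPolynomial.C_0]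
      have hz : aeval f G * aeval f H = 0 := by rw [← map_mul, ← hGH, hF0z]
      rcases mul_eq_zero.1 hz with h | h
      · have := hmin a G ha hG0 h
        have hb0 : b = 0 := by omega
        rw [hb0] at hb
        exact Or.inr (hunit H hb hH0)
      · have := hmin b H hb hH0 h
        have ha0 : a = 0 := by omega
        rw [ha0] at ha
        exact Or.inl (hunit G ha hG0)
  -- the relations are multiples
  have hker : ∀ (m : ℕ) (H : MvPolynomial (Fin 4) K), H.IsHomogeneous m →
      (aeval f H = 0 ↔ F0 ∣ H) := by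
    intro m H hH
    constructor
    swap
    · rintro ⟨Q, rfl⟩
      rw [map_mul, hF0z, zero_mul]
    intro hHz
    by_contra hnd
    have hH0 : H ≠ 0 := by
      rintro rfl
      exact hnd (dvd_zero _)
    have hrel : IsRelPrime F0 H := (hirr.isRelPrime_iff_not_dvd).2 hnd
    -- a large degree
    set M : ℕ := 2 * δ * m + δ + m with hM
    have hW := ka_two hF0h hH hF0 hH0 hrel (m := M) (by omega)
      (W := LinearMap.ker (sub4 (K := K) f M)) (by
        rintro G ⟨Q, hQ⟩
        refine LinearMap.mem_ker.2 ?_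
        change aeval f G.1 = 0
        rw [hQ, map_mul, hF0z, zero_mul]) (by
        rintro G ⟨Q, hQ⟩
        refine LinearMap.mem_ker.2 ?_
        change aeval f G.1 = 0
        rw [hQ, map_mul, hHz, zero_mul])
    -- the forms in three variables
    have h3' : (Module.finrank K (homogeneousSubmodule (Fin 3) K M) : ℝ) ≤
        Module.finrank K (LinearMap.range (sub4 (K := K) f M)) := by
      let g : homogeneousSubmodule (Fin 3) K M →ₗ[K] LinearMap.range (sub4 (K := K) f M) :=
        LinearMap.codRestrict _ ((aeval (fun i : Fin 3 => f i.castSucc)).toLinearMap ∘ₗ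
          (homogeneousSubmodule (Fin 3) K M).subtype) (by
            intro G
            refine ⟨⟨rename Fin.castSucc G.1, G.2.rename_isHomogeneous⟩, ?_⟩
            change aeval f (rename Fin.castSucc G.1) = aeval (fun i : Fin 3 => f i.castSucc) G.1
            rw [aeval_rename]
            rfl)
      have hg : Function.Injective g := by
        rw [← LinearMap.ker_eq_bot, LinearMap.ker_eq_bot']
        intro G hG
        have h1 : aeval (fun i : Fin 3 => f i.castSucc) G.1 = 0 := congrArg Subtype.val hG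
        exact Subtype.ext (h3 M G.1 G.2 h1)
      exact_mod_cast LinearMap.finrank_le_finrank_of_injective hg
    have h4 := ka_rank (K := K) f M
    rw [finrank_forms3] at h3'
    have hMr : (M : ℝ) = 2 * δ * m + δ + m := by
      rw [hM]
      push_cast
      ring
    have h5 : s4 (M : ℝ) - s4 ((M : ℝ) - δ) - s4 ((M : ℝ) - m) + s4 ((M : ℝ) - δ - m) =
        δ * m * ((M : ℝ) + 2 - (δ + m) / 2) := by
      unfold s4
      ring
    have h6 : ((M : ℝ) + 1) * (M + 2) / 2 ≤ δ * m * ((M : ℝ) + 2 - (δ + m) / 2) := by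
      rw [← h5]
      linarith
    have h7 : (0 : ℝ) ≤ δ := Nat.cast_nonneg _
    have h8 : (0 : ℝ) ≤ m := Nat.cast_nonneg _
    have h9 : (δ : ℝ) * m * ((M : ℝ) + 2 - (δ + m) / 2) ≤ δ * m * ((M : ℝ) + 2) :=
      mul_le_mul_of_nonneg_left (by linarith) (by positivity)
    have h10 : (0 : ℝ) < (M : ℝ) + 2 := by positivity
    have h11 : ((M : ℝ) + 2) * (M + 1) ≤ ((M : ℝ) + 2) * (2 * (δ * m)) := by nlinarith
    have h12 := le_of_mul_le_mul_left h11 h10
    rw [hMr] at h12
    linarith
  refine ⟨δ, F0, hirr, hF0h, hδ, ?_, hker⟩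
  -- the degree
  by_contra hcon
  push Not at hcon
  set ε : ℝ := (δ : ℝ) / 2 - D with hε
  have hε0 : 0 < ε := by
    rw [hε]
    linarith
  set B : ℝ := (δ : ℝ) ^ 2 + |C| + 1 with hB
  have hB0 : 0 < B := by positivity
  obtain ⟨m, hm⟩ := exists_nat_gt (2 * B / ε + δ + 1)
  have hmδ : δ ≤ m := by
    have h1 : (δ : ℝ) ≤ m := by
      have : 0 ≤ 2 * B / ε := by positivity
      linarith
    exact_mod_cast h1
  have e1 : δ + (m - δ) = m := by omega
  have hk : (Module.finrank K (LinearMap.ker (sub4 (K := K) f m)) : ℝ) ≤ s4 ((m : ℝ) - δ) := by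
    have h1 : LinearMap.ker (sub4 (K := K) f m) ≤ LinearMap.range (kaMul F0 hF0h e1) := by
      intro G hG
      obtain ⟨Q, hQ⟩ := (hker m G.1 G.2).1 (LinearMap.mem_ker.1 hG)
      by_cases hG0 : G.1 = 0
      · have : G = 0 := Subtype.ext hG0
        rw [this]
        exact Submodule.zero_mem _
      · have hhom : (F0 * Q).IsHomogeneous m := hQ ▸ G.2
        obtain ⟨a, b, ha, hb, hab⟩ := homogeneous_of_mul hhom (by rw [← hQ]; exact hG0)
        have ha' : a = δ := by
          rw [← ha.totalDegree hF0, hF0h.totalDegree hF0]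
        have hb' : b = m - δ := by omega
        rw [hb'] at hb
        exact ⟨⟨Q, hb⟩, Subtype.ext hQ.symm⟩
    have h2 := Submodule.finrank_mono h1
    rw [LinearMap.finrank_range_of_inj (kaMul_inj hF0h e1 hF0)] at h2
    have h3 := finrank_forms4 (K := K) (m - δ)
    rw [Nat.cast_sub hmδ] at h3
    have h4 : (Module.finrank K (LinearMap.ker (sub4 (K := K) f m)) : ℝ) ≤
        Module.finrank K (homogeneousSubmodule (Fin 4) K (m - δ)) := by exact_mod_cast h2
    rw [h3] at h4
    exact h4
  have h4 := ka_rank (K := K) f m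
  have h5 := hdim m
  have h6 : s4 (m : ℝ) - s4 ((m : ℝ) - δ) ≤ D * m ^ 2 + C * m + C := by linarith
  have h7 : s4 (m : ℝ) - s4 ((m : ℝ) - δ) =
      (δ : ℝ) / 2 * m ^ 2 + (2 * δ - (δ : ℝ) ^ 2 / 2) * m + (δ ^ 3 - 6 * δ ^ 2 + 11 * δ) / 6 := by
    unfold s4
    ring
  have hδr : (1 : ℝ) ≤ δ := by exact_mod_cast hδ
  have hmr : (δ : ℝ) + 1 ≤ m := by
    have : 0 ≤ 2 * B / ε := by positivity
    linarith
  have h8 : (0 : ℝ) ≤ (δ : ℝ) ^ 3 - 6 * δ ^ 2 + 11 * δ := by
    have e2 : (δ : ℝ) ^ 3 - 6 * δ ^ 2 + 11 * δ = δ * ((δ - 3) ^ 2 + 2) := by ring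
    rw [e2]
    positivity
  have hC := neg_abs_le C
  have hC' := le_abs_self C
  have h9 : ε * (m : ℝ) ^ 2 ≤ 2 * B * m := by
    have h10 : ε * (m : ℝ) ^ 2 ≤ ((δ : ℝ) ^ 2 / 2 - 2 * δ + C) * m + C := by
      rw [hε]
      rw [h7] at h6
      nlinarith
    have h11 : ((δ : ℝ) ^ 2 / 2 - 2 * δ + C) * m ≤ B * m := by
      refine mul_le_mul_of_nonneg_right ?_ (by positivity)
      rw [hB]
      nlinarith
    have h12 : C ≤ B * m := by
      calc C ≤ |C| := hC'
        _ ≤ B := by
          rw [hB]
          nlinarith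
        _ = B * 1 := by ring
        _ ≤ B * m := mul_le_mul_of_nonneg_left (by linarith) hB0.le
    linarith
  have hmpos : (0 : ℝ) < m := by linarith
  have h10 : ε * (m : ℝ) ≤ 2 * B := by
    have : (m : ℝ) * (ε * m) ≤ m * (2 * B) := by nlinarith
    exact le_of_mul_le_mul_left this hmpos
  have h11 : (m : ℝ) ≤ 2 * B / ε := by
    rw [le_div_iff₀ hε0]
    linarith
  linarith

end main

end Pool.Agent.Lib.MP_ed661f_ag.S
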