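import Mathlib

/-!
Automorphisms of the field of complex numbers between algebraically independent families.
-/

set_option autoImplicit false

open MvPolynomial Cardinal

namespace Pool.Agent.Lib.MP_ed661f_ag.S

theorem card_basis {s : Set ℂ} (hs : IsTranscendenceBasis ℚ ((↑) : s → ℂ)) : #s = #ℂ :=
  (IsAlgClosed.cardinal_eq_cardinal_transcendence_basis_of_aleph0_lt' _ hs
    (by rw [Cardinal.mk_le_aleph0_iff]; infer_instance)
    (by rw [Cardinal.mk_complex]; exact Cardinal.aleph0_lt_continuum)).symm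

/-- two algebraically independent families of complex numbers with the same finite index set are
conjugate under a field automorphism -/
theorem exists_aut {ι : Type} [Finite ι] {t t' : ι → ℂ} (ht : AlgebraicIndependent ℚ t)
    (ht' : AlgebraicIndependent ℚ t') : ∃ φ : ℂ ≃+* ℂ, ∀ i, φ (t i) = t' i := by
  classical
  obtain ⟨s, hs, hsb⟩ := exists_isTranscendenceBasis_superset (s := Set.range t) ht.coe_range
  obtain ⟨s', hs', hsb'⟩ := exists_isTranscendenceBasis_superset (s := Set.range t') ht'.coe_range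
  set v : s → ℂ := fun x => (x : ℂ) with hv
  set v' : s' → ℂ := fun x => (x : ℂ) with hv'
  have hvb : IsTranscendenceBasis ℚ v := hsb
  have hvb' : IsTranscendenceBasis ℚ v' := hsb'
  have hc : #s = #ℂ := card_basis hsb
  have hc' : #s' = #ℂ := card_basis hsb'
  -- extension of the bijection
  let S : Set s := Set.range fun i => (⟨t i, hs ⟨i, rfl⟩⟩ : s)
  let g : ι → s := fun i => ⟨t i, hs ⟨i, rfl⟩⟩
  let g' : ι → s' := fun i => ⟨t' i, hs' ⟨i, rfl⟩⟩
  have hg : Function.Injective g := by
    intro i j hij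
    exact ht.injective (congrArg (fun x : s => (x : ℂ)) hij)
  have hg' : Function.Injective g' := by
    intro i j hij
    exact ht'.injective (congrArg (fun x : s' => (x : ℂ)) hij)
  let eg : ι ≃ Set.range g := Equiv.ofInjective g hg
  let f : Set.range g ↪ s' := ⟨fun x => g' (eg.symm x), hg'.comp eg.symm.injective⟩
  have hlt : #(Set.range g) < #s := by
    have h1 : #(Set.range g) < ℵ₀ := Cardinal.lt_aleph0_iff_set_finite.2 (Set.finite_range g)
    rw [hc, Cardinal.mk_complex]
    exact h1.trans_le Cardinal.aleph0_le_continuum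
  obtain ⟨τ, hτ⟩ := extend_function_of_lt f hlt (Cardinal.eq.1 (hc.trans hc'.symm))
  have hτ' : ∀ i, τ (g i) = g' i := by
    intro i
    have h1 := hτ (eg i)
    have h2 : ((eg i : Set.range g) : s) = g i := rfl
    rw [h2] at h1
    rw [h1]
    change g' (eg.symm (eg i)) = g' i
    rw [Equiv.symm_apply_apply]
  have := IsAlgClosed.isAlgClosure_of_transcendence_basis v hvb
  have := IsAlgClosed.isAlgClosure_of_transcendence_basis v' hvb'
  let e : Algebra.adjoin ℚ (Set.range v) ≃+* Algebra.adjoin ℚ (Set.range v') :=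
    ((hvb.1.aevalEquiv.symm.trans (renameEquiv ℚ τ)).trans hvb'.1.aevalEquiv).toRingEquiv
  refine ⟨IsAlgClosure.equivOfEquiv ℂ ℂ e, ?_⟩
  intro i
  have h1 : t i = algebraMap (Algebra.adjoin ℚ (Set.range v)) ℂ (hvb.1.aevalEquiv (X (g i))) := by
    rw [hvb.1.algebraMap_aevalEquiv, aeval_X]
  rw [h1, IsAlgClosure.equivOfEquiv_algebraMap]
  have h2 : e (hvb.1.aevalEquiv (X (g i))) = hvb'.1.aevalEquiv (X (g' i)) := by
    change hvb'.1.aevalEquiv (renameEquiv ℚ τ (hvb.1.aevalEquiv.symm
      (hvb.1.aevalEquiv (X (g i))))) = _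
    rw [AlgEquiv.symm_apply_apply, renameEquiv_apply, rename_X, hτ']
  rw [h2, hvb'.1.algebraMap_aevalEquiv, aeval_X]

end Pool.Agent.Lib.MP_ed661f_ag.S
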