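import Pool.Agent.Lib.MP_ed661f_ag.R.Gen
import Pool.Agent.Lib.MP_ed661f_ag.R.Rev
import Pool.Agent.Lib.MP_ed661f_ag.S.KernAlg

/-!
# The sections of `m L` at generic centres: at most `(L²/2) m² + C m + C` of them; the relations
# between four sections of `L`
-/

set_option autoImplicit false

open MvPolynomial

namespace Pool.Agent.Lib.MP_ed661f_ag.S

open Pool.Agent.Lib.MP_ed661f_ag.E Pool.Agent.Lib.MP_ed661f_ag.R

/-- the sections of `m L`, `L = O(a,b) - ∑ c_j (E_j + E'_j)` -/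
noncomputable def Sec (a b : ℕ) (c : Fin 5 → ℕ) (x x' : Fin 5 → Pt) (m : ℕ) : Submodule ℂ Pol where
  carrier := {F | F ∈ Box (m * a) (m * b) ∧
    ∀ j, Bz.Ord (m * c j) (tay (x j) F) ∧ Bz.Ord (m * c j) (tay (x' j) F)}
  add_mem' := by
    rintro F G ⟨h1, h2⟩ ⟨h3, h4⟩
    refine ⟨add_mem h1 h3, fun j => ⟨?_, ?_⟩⟩
    · rw [Bz.tay_add]
      exact (h2 j).1.add (h4 j).1
    · rw [Bz.tay_add]
      exact (h2 j).2.add (h4 j).2
  zero_mem' := by
    refine ⟨zero_mem _, fun j => ⟨?_, ?_⟩⟩ <;>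
    · intro e _
      simp [tay]
  smul_mem' := by
    rintro r F ⟨h1, h2⟩
    refine ⟨Submodule.smul_mem _ r h1, fun j => ⟨?_, ?_⟩⟩
    · intro e he
      have h3 : tay (x j) (r • F) = r • tay (x j) F := by
        unfold tay
        rw [map_smul]
      rw [h3, coeff_smul, (h2 j).1 e he, smul_zero]
    · intro e he
      have h3 : tay (x' j) (r • F) = r • tay (x' j) F := by
        unfold tay
        rw [map_smul]
      rw [h3, coeff_smul, (h2 j).2 e he, smul_zero]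

variable {a b : ℕ} {c : Fin 5 → ℕ} {x x' : Fin 5 → Pt}

theorem mem_Sec {m : ℕ} {F : Pol} : F ∈ Sec a b c x x' m ↔ F ∈ Box (m * a) (m * b) ∧
    ∀ j, Bz.Ord (m * c j) (tay (x j) F) ∧ Bz.Ord (m * c j) (tay (x' j) F) := Iff.rfl

theorem Sec_mul {m k : ℕ} {F G : Pol} (hF : F ∈ Sec a b c x x' m) (hG : G ∈ Sec a b c x x' k) :
    F * G ∈ Sec a b c x x' (m + k) := by
  obtain ⟨h1, h2⟩ := hF
  obtain ⟨h3, h4⟩ := hG
  refine ⟨?_, fun j => ⟨?_, ?_⟩⟩
  · rw [add_mul, add_mul]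
    exact mul_mem_Box h1 h3
  · rw [add_mul, Bz.tay_mul]
    exact (h2 j).1.mul (h4 j).1
  · rw [add_mul, Bz.tay_mul]
    exact (h2 j).2.mul (h4 j).2

theorem Sec_one : (1 : Pol) ∈ Sec a b c x x' 0 := by
  refine ⟨?_, fun j => ⟨?_, ?_⟩⟩
  · rw [mem_Box]
    simp
  · rw [zero_mul]
    exact Bz.ord_zero _
  · rw [zero_mul]
    exact Bz.ord_zero _

theorem Sec_pow {m : ℕ} {F : Pol} (hF : F ∈ Sec a b c x x' m) (k : ℕ) :
    F ^ k ∈ Sec a b c x x' (k * m) := by
  induction k with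
  | zero =>
    rw [pow_zero, zero_mul]
    exact Sec_one
  | succ k ih =>
    rw [pow_succ, add_mul, one_mul]
    exact Sec_mul ih hF

/-- the forms of degree `m` in sections of `L` are sections of `m L` -/
theorem aeval_mem_Sec {σ : Type} [Fintype σ] {f : σ → Pol} (hf : ∀ i, f i ∈ Sec a b c x x' 1)
    {m : ℕ} {H : MvPolynomial σ ℂ} (hH : H.IsHomogeneous m) : aeval f H ∈ Sec a b c x x' m := by
  classical
  rw [H.as_sum, map_sum]
  refine Submodule.sum_mem _ fun e he => ?_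
  have h1 : e.degree = m := by
    have := hH (mem_support_iff.1 he)
    rw [Finsupp.degree_eq_weight_one]
    exact this
  rw [aeval_monomial, ← Algebra.smul_def]
  refine Submodule.smul_mem _ _ ?_
  have h2 : ∀ s : Finset σ, (∏ i ∈ s, f i ^ e i) ∈ Sec a b c x x' (∑ i ∈ s, e i) := by
    intro s
    induction s using Finset.induction_on with
    | empty => exact Sec_one
    | insert i s hi ih =>
      rw [Finset.prod_insert hi, Finset.sum_insert hi]
      refine Sec_mul ?_ ih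
      have := Sec_pow (hf i) (e i)
      rwa [mul_one] at this
  have h3 := h2 Finset.univ
  rw [← Finsupp.degree_eq_sum, h1] at h3
  have h4 : (e.prod fun i k => f i ^ k) = ∏ i, f i ^ e i := by
    rw [Finsupp.prod_fintype]
    intro i
    rw [pow_zero]
  rw [h4]
  exact h3

/-- the order of a section of `m L` at a generic point is at most `m sqrt(L²)` -/
theorem Sec_mlt {n : ℕ} {y : Fin n → Pt} (hn : 1 ≤ n)
    (hz : Generic (Sum.elim x (Sum.elim x' y))) (hab : a + b = ∑ j, c j)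
    (hD : ∑ j, c j ^ 2 < a * b) {m : ℕ} {F : Pol} (hF : F ∈ Sec a b c x x' m) (hF0 : F ≠ 0) :
    (mlt (y ⟨0, hn⟩) F : ℝ) ≤ m * Real.sqrt (2 * ((a : ℝ) * b - ∑ j, (c j : ℝ) ^ 2)) := by
  set D : ℝ := 2 * ((a : ℝ) * b - ∑ j, (c j : ℝ) ^ 2) with hDdef
  have hDpos : 0 < D := by
    have : ((∑ j, c j ^ 2 : ℕ) : ℝ) < ((a * b : ℕ) : ℝ) := by exact_mod_cast hD
    push_cast at this
    rw [hDdef]
    linarith
  set r : ℝ := Real.sqrt D with hr
  have hr0 : 0 < r := Real.sqrt_pos.2 hDpos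
  have hr2 : r ^ 2 = D := Real.sq_sqrt hDpos.le
  -- only the first point
  let g : Fin 5 ⊕ (Fin 5 ⊕ Fin 1) → Fin 5 ⊕ (Fin 5 ⊕ Fin n) :=
    Sum.map id (Sum.map id (fun _ => ⟨0, hn⟩))
  have hg : Function.Injective g :=
    Sum.map_injective.2 ⟨Function.injective_id, Sum.map_injective.2
      ⟨Function.injective_id, Function.injective_of_subsingleton _⟩⟩
  have hz1 := hz.comp g hg
  have e1 : Sum.elim x (Sum.elim x' y) ∘ g = Sum.elim x (Sum.elim x' fun _ => y ⟨0, hn⟩) := by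
    funext i
    rcases i with i | i | i <;> rfl
  rw [e1] at hz1
  have h1 := nef_generic hz1 a b (fun j => (c j : ℝ)) r (Nat.cast_nonneg _) (Nat.cast_nonneg _)
    (fun j => Nat.cast_nonneg _) hr0.le (by exact_mod_cast hab) (by
      rw [hr2, hDdef]
      simp) hF0
  obtain ⟨h2, h3⟩ := hF
  rw [mem_Box] at h2
  have h4 : ∀ j, ((m * c j : ℕ) : ℝ) ≤ mlt (x j) F := fun j => by
    exact_mod_cast (le_mlt_iff hF0 _).2 (h3 j).1
  have h5 : ∀ j, ((m * c j : ℕ) : ℝ) ≤ mlt (x' j) F := fun j => by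
    exact_mod_cast (le_mlt_iff hF0 _).2 (h3 j).2
  have h6 : ∑ j, (c j : ℝ) * (m * c j + m * c j) ≤
      ∑ j, (c j : ℝ) * ((mlt (x j) F : ℝ) + mlt (x' j) F) := by
    refine Finset.sum_le_sum fun j _ => ?_
    have h4' := h4 j
    have h5' := h5 j
    push_cast at h4' h5'
    exact mul_le_mul_of_nonneg_left (add_le_add h4' h5') (Nat.cast_nonneg _)
  have h7 : ∑ j, (c j : ℝ) * (m * c j + m * c j) = 2 * m * ∑ j, (c j : ℝ) ^ 2 := by
    rw [Finset.mul_sum]
    exact Finset.sum_congr rfl fun j _ => by ring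
  have h8 : (F.degreeOf 1 : ℝ) ≤ m * b := by exact_mod_cast h2.2
  have h9 : (F.degreeOf 0 : ℝ) ≤ m * a := by exact_mod_cast h2.1
  have h10 : (a : ℝ) * F.degreeOf 1 ≤ a * (m * b) :=
    mul_le_mul_of_nonneg_left h8 (Nat.cast_nonneg _)
  have h11 : (b : ℝ) * F.degreeOf 0 ≤ b * (m * a) :=
    mul_le_mul_of_nonneg_left h9 (Nat.cast_nonneg _)
  have h12 : r * (mlt (y ⟨0, hn⟩) F : ℝ) ≤ r * (m * r) := by
    have h13 : r * (m * r) = a * (m * b) + b * (m * a) - 2 * m * ∑ j, (c j : ℝ) ^ 2 := by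
      have : r * (m * r) = m * r ^ 2 := by ring
      rw [this, hr2, hDdef]
      ring
    rw [h13]
    simp only [Finset.univ_unique, Finset.sum_singleton] at h1
    linarith
  exact le_of_mul_le_mul_left h12 hr0

/-- the dimension of the space of the sections -/
theorem finrank_Sec {n : ℕ} {y : Fin n → Pt} (hn : 1 ≤ n)
    (hz : Generic (Sum.elim x (Sum.elim x' y))) (hab : a + b = ∑ j, c j)
    (hD : ∑ j, c j ^ 2 < a * b) : ∃ C : ℝ, ∀ m : ℕ,
      (Module.finrank ℂ (Sec a b c x x' m) : ℝ) ≤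
        ((a : ℝ) * b - ∑ j, (c j : ℝ) ^ 2) * m ^ 2 + C * m + C := by
  set D : ℝ := 2 * ((a : ℝ) * b - ∑ j, (c j : ℝ) ^ 2) with hDdef
  have hDpos : 0 < D := by
    have : ((∑ j, c j ^ 2 : ℕ) : ℝ) < ((a * b : ℕ) : ℝ) := by exact_mod_cast hD
    push_cast at this
    rw [hDdef]
    linarith
  set r : ℝ := Real.sqrt D with hr
  have hr0 : 0 < r := Real.sqrt_pos.2 hDpos
  have hr2 : r ^ 2 = D := Real.sq_sqrt hDpos.le
  refine ⟨2 * r + 1, fun m => ?_⟩
  set k : ℕ := ⌊(m : ℝ) * r⌋₊ + 1 with hk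
  have hk1 : (m : ℝ) * r < k := by
    rw [hk]
    push_cast
    exact Nat.lt_floor_add_one _
  have hk2 : (k : ℝ) ≤ m * r + 1 := by
    rw [hk]
    push_cast
    have := Nat.floor_le (a := (m : ℝ) * r) (by positivity)
    linarith
  -- the jets at the generic point
  let J : Sec a b c x x' m →ₗ[ℂ] ({e : Fin 2 →₀ ℕ // e ∈ Bz.S k k} → ℂ) :=
    { toFun := fun F e => coeff e.1 (tay (y ⟨0, hn⟩) F.1)
      map_add' := fun F G => by
        funext e
        simp [Bz.tay_add]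
      map_smul' := fun s F => by
        funext e
        have h3 : tay (y ⟨0, hn⟩) (s • F.1) = s • tay (y ⟨0, hn⟩) F.1 := by
          unfold tay
          rw [map_smul]
        simp only [Submodule.coe_smul, h3, coeff_smul, Pi.smul_apply, RingHom.id_apply] }
  have hJ : Function.Injective J := by
    rw [← LinearMap.ker_eq_bot, LinearMap.ker_eq_bot']
    intro F hF
    by_contra hne
    have hF0 : F.1 ≠ 0 := fun h => hne (Subtype.ext h)
    have h1 : k ≤ mlt (y ⟨0, hn⟩) F.1 := by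
      rw [le_mlt_iff hF0]
      intro e he
      have h2 : e ∈ Bz.S k k := by
        rw [Bz.mem_S]
        rw [Bz.degree_two'] at he
        exact ⟨he, by omega⟩
      exact congrFun hF ⟨e, h2⟩
    have h2 := Sec_mlt hn hz hab hD F.2 hF0
    have h3 : (k : ℝ) ≤ mlt (y ⟨0, hn⟩) F.1 := by exact_mod_cast h1
    have h4 : (mlt (y ⟨0, hn⟩) F.1 : ℝ) ≤ m * r := h2
    linarith
  have h1 := LinearMap.finrank_le_finrank_of_injective hJ
  rw [Module.finrank_pi, Fintype.card_coe] at h1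
  have h2 := Bz.card_S (le_refl k)
  have h3 : 2 * (Module.finrank ℂ (Sec a b c x x' m) : ℝ) ≤ k * (k + 1) := by
    have h4 : 2 * Module.finrank ℂ (Sec a b c x x' m) ≤ k * (k + 1) := by
      have h5 : 2 * k + 1 - k = k + 1 := by omega
      rw [h5] at h2
      omega
    exact_mod_cast h4
  have hk0 : (0 : ℝ) ≤ k := Nat.cast_nonneg _
  have hm0 : (0 : ℝ) ≤ m := Nat.cast_nonneg _
  have h4 : (k : ℝ) * (k + 1) ≤ (m * r + 1) * (m * r + 2) :=
    mul_le_mul hk2 (by linarith) (by linarith) (by positivity)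
  have h5 : ((m : ℝ) * r + 1) * (m * r + 2) = m ^ 2 * D + 3 * r * m + 2 := by
    rw [← hr2]
    ring
  have h6 : ((a : ℝ) * b - ∑ j, (c j : ℝ) ^ 2) * (m : ℝ) ^ 2 = m ^ 2 * D / 2 := by
    rw [hDdef]
    ring
  rw [h6]
  have h7 : 0 ≤ r * m := by positivity
  nlinarith

/-- **(D)** Four sections of `L` at generic centres, the first three without a homogeneous relation:
the homogeneous relations are the multiples of one irreducible form of degree at most `L²`. -/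
theorem exists_relation_Sec {n : ℕ} {y : Fin n → Pt} (hn : 1 ≤ n)
    (hz : Generic (Sum.elim x (Sum.elim x' y))) (hab : a + b = ∑ j, c j)
    (hD : ∑ j, c j ^ 2 < a * b) {f : Fin 4 → Pol} (hf : ∀ i, f i ∈ Sec a b c x x' 1)
    (h3 : ∀ (m : ℕ) (G : MvPolynomial (Fin 3) ℂ), G.IsHomogeneous m →
      aeval (fun i : Fin 3 => f i.castSucc) G = 0 → G = 0) :
    ∃ (δ : ℕ) (F0 : MvPolynomial (Fin 4) ℂ), Irreducible F0 ∧ F0.IsHomogeneous δ ∧ 1 ≤ δ ∧
      δ + 2 * ∑ j, c j ^ 2 ≤ 2 * (a * b) ∧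
      ∀ (m : ℕ) (H : MvPolynomial (Fin 4) ℂ), H.IsHomogeneous m → (aeval f H = 0 ↔ F0 ∣ H) := by
  obtain ⟨C, hC⟩ := finrank_Sec hn hz hab hD
  have hfin : ∀ m, Module.Finite ℂ (Sec a b c x x' m) := by
    intro m
    have h1 : Sec a b c x x' m ≤ Box (m * a) (m * b) := fun F hF => hF.1
    exact Module.Finite.of_injective (Submodule.inclusion h1) (Submodule.inclusion_injective h1)
  have hdim : ∀ m : ℕ, (Module.finrank ℂ (LinearMap.range (sub4 (K := ℂ) f m)) : ℝ) ≤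
      ((a : ℝ) * b - ∑ j, (c j : ℝ) ^ 2) * m ^ 2 + C * m + C := by
    intro m
    refine le_trans ?_ (hC m)
    have h1 : LinearMap.range (sub4 (K := ℂ) f m) ≤ Sec a b c x x' m := by
      rintro _ ⟨H, rfl⟩
      exact aeval_mem_Sec hf H.2
    have := hfin m
    exact_mod_cast Submodule.finrank_mono h1
  obtain ⟨δ, F0, h4, h5, h6, h7, h8⟩ := exists_relation (K := ℂ) hdim h3
  refine ⟨δ, F0, h4, h5, h6, ?_, h8⟩
  have h9 : ((δ + 2 * ∑ j, c j ^ 2 : ℕ) : ℝ) ≤ ((2 * (a * b) : ℕ) : ℝ) := by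
    push_cast
    linarith
  exact_mod_cast h9

end Pool.Agent.Lib.MP_ed661f_ag.S
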