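import Pool.Agent.Lib.MP_ed661f_ag.S.Iface
import Pool.Agent.Lib.MP_ed661f_ag.S.SecDim
import Pool.Agent.Lib.MP_ed661f_ag.R.Extend

/-!
From four sections without relations of low degree to the base datum.
-/

set_option autoImplicit false

open MvPolynomial Cardinal

namespace Pool.Agent.Lib.MP_ed661f_ag.S

open E R H

/-- the linear substitution -/
private noncomputable def sub (z : Fin 4 → ℂ) : Poly 3 →ₐ[ℂ] Poly 3 :=
  aeval ![X 0 + C (z 0) * X 3, X 1 + C (z 1) * X 3, X 2 + C (z 2) * X 3, C (z 3) * X 3]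

private theorem sub_sub {z z' : Fin 4 → ℂ} (h : z 3 * z' 3 = 1)
    (h0 : z 0 + z' 0 * z 3 = 0) (h1 : z 1 + z' 1 * z 3 = 0) (h2 : z 2 + z' 2 * z 3 = 0)
    (F : Poly 3) : sub z (sub z' F) = F := by
  have h3 : (sub z).comp (sub z') = AlgHom.id ℂ (Poly 3) := by
    apply MvPolynomial.algHom_ext
    intro i
    have e0 : (C (z 0) + C (z' 0) * C (z 3) : Poly 3) = 0 := by
      rw [← map_mul, ← map_add, h0, map_zero]
    have e1 : (C (z 1) + C (z' 1) * C (z 3) : Poly 3) = 0 := by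
      rw [← map_mul, ← map_add, h1, map_zero]
    have e2 : (C (z 2) + C (z' 2) * C (z 3) : Poly 3) = 0 := by
      rw [← map_mul, ← map_add, h2, map_zero]
    have e3 : (C (z 3) * C (z' 3) : Poly 3) = 1 := by
      rw [← map_mul, h, map_one]
    fin_cases i
    · simp [sub]
      linear_combination (X 3) * e0
    · simp [sub]
      linear_combination (X 3) * e1
    · simp [sub]
      linear_combination (X 3) * e2
    · simp [sub]
      linear_combination (X 3) * e3
  exact congrArg (fun φ => φ F) h3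

private theorem sub_homogeneous (z : Fin 4 → ℂ) {F : Poly 3} {m : ℕ} (hF : F.IsHomogeneous m) :
    (sub z F).IsHomogeneous m := by
  have h := hF.aeval (![X 0 + C (z 0) * X 3, X 1 + C (z 1) * X 3, X 2 + C (z 2) * X 3,
    C (z 3) * X 3] : Fin 4 → Poly 3) (n := 1) (by
      have hX : ∀ i, (C (z i) * X 3 : Poly 3).IsHomogeneous 1 := fun i => by
        have := (isHomogeneous_C (Fin 4) (z i)).mul (isHomogeneous_X ℂ (3 : Fin 4))
        simpa using this
      intro i
      fin_cases i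
      · exact (isHomogeneous_X ℂ _).add (hX 0)
      · exact (isHomogeneous_X ℂ _).add (hX 1)
      · exact (isHomogeneous_X ℂ _).add (hX 2)
      · exact hX 3)
  rw [one_mul] at h
  exact h

private theorem eval_sub (z : Fin 4 → ℂ) (F : Poly 3) :
    eval (Pi.single 3 1) (sub z F) = eval z F := by
  have h3 : ((aeval (Pi.single 3 1 : Fin 4 → ℂ)).comp (sub z) : Poly 3 →ₐ[ℂ] ℂ) = aeval z := by
    apply MvPolynomial.algHom_ext
    intro i
    fin_cases i <;> simp [sub]
  have h4 := congrArg (fun φ => φ F) h3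
  exact h4

private theorem eval_single {F : Poly 3} {d : ℕ} (hF : F.IsHomogeneous d) :
    eval (Pi.single 3 1) F = coeff (Finsupp.single 3 d) F := by
  classical
  rw [eval_eq']
  rw [Finset.sum_eq_single (Finsupp.single 3 d)]
  · have : ∏ i, (Pi.single 3 1 : Fin 4 → ℂ) i ^ (Finsupp.single 3 d : Fin 4 →₀ ℕ) i = 1 := by
      simp [Fin.prod_univ_four]
    rw [this, mul_one]
  · intro e he hne
    have h1 : e.degree = d := by
      rw [Finsupp.degree_eq_weight_one]
      exact hF (mem_support_iff.1 he)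
    have h2 : ∃ i : Fin 4, i ≠ 3 ∧ e i ≠ 0 := by
      by_contra hcon
      push Not at hcon
      apply hne
      have h3 : e 3 = d := by
        rw [← h1, Finsupp.degree_eq_sum, Finset.sum_eq_single 3]
        · intro j _ hj
          exact hcon j hj
        · simp
      ext j
      by_cases hj : j = 3
      · subst hj
        rw [h3, Finsupp.single_eq_same]
      · rw [hcon j hj, Finsupp.single_eq_of_ne hj]
    obtain ⟨i, hi, hei⟩ := h2
    rw [Finset.prod_eq_zero (Finset.mem_univ i), mul_zero]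
    rw [Pi.single_eq_of_ne hi, zero_pow hei]
  · intro h
    rw [notMem_support_iff.1 h, zero_mul]

theorem countable_closure {s : Set ℂ} (hs : s.Countable) :
    (Subfield.closure s : Set ℂ).Countable := by
  rw [← Cardinal.le_aleph0_iff_set_countable] at hs ⊢
  exact (Subfield.cardinalMk_closure_le_max s).trans (max_le hs le_rfl)

theorem baseD_of_kernel {d n : ℕ} {K0 : Subfield ℂ} (hK0 : (K0 : Set ℂ).Countable)
    {f : Fin 4 → Pol} {F0 : Poly 3} (hF0 : F0.IsHomogeneous d) (h0 : F0 ≠ 0)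
    (hker : ∀ (m : ℕ) (H : Poly 3), H.IsHomogeneous m → (aeval f H = 0 ↔ F0 ∣ H))
    (hnef : ∀ y : Fin n → Pt, AlgebraicIndependent K0 (fun q : Fin n × Fin 2 => y q.1 q.2) →
      ∀ (m w : ℕ) (H : Poly 3), H.IsHomogeneous m → aeval f H ≠ 0 →
        (∀ i, w ≤ mlt (y i) (aeval f H)) → n * w ^ 2 ≤ d * m ^ 2) : BaseD d n := by
  classical
  -- a point off the surface and off the plane
  obtain ⟨z, hz⟩ : ∃ z : Fin 4 → ℂ, eval z (F0 * X 3) ≠ 0 := by
    by_contra hcon
    push Not at hcon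
    have h1 : F0 * X 3 = 0 := MvPolynomial.funext fun x => by rw [hcon x, map_zero]
    rcases mul_eq_zero.1 h1 with h | h
    · exact h0 h
    · exact X_ne_zero _ h
  rw [map_mul, eval_X, mul_ne_zero_iff] at hz
  obtain ⟨hz1, hz2⟩ := hz
  set z' : Fin 4 → ℂ := ![-(z 0 * (z 3)⁻¹), -(z 1 * (z 3)⁻¹), -(z 2 * (z 3)⁻¹), (z 3)⁻¹] with hz'
  have hzz : ∀ F, sub z (sub z' F) = F := sub_sub (by simp [hz', mul_inv_cancel₀ hz2])
    (by simp [hz', mul_assoc, inv_mul_cancel₀ hz2]) (by simp [hz', mul_assoc, inv_mul_cancel₀ hz2])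
    (by simp [hz', mul_assoc, inv_mul_cancel₀ hz2])
  have hzz' : ∀ F, sub z' (sub z F) = F := sub_sub (by simp [hz', inv_mul_cancel₀ hz2])
    (by simp [hz']) (by simp [hz']) (by simp [hz'])
  set f' : Fin 4 → Pol := fun i => aeval f (sub z' (X i)) with hf'
  have haf : ∀ H : Poly 3, aeval f' H = aeval f (sub z' H) := by
    intro H
    have h3 : (aeval f' : Poly 3 →ₐ[ℂ] Pol) = (aeval f).comp (sub z') := by
      apply MvPolynomial.algHom_ext
      intro i
      rw [aeval_X, AlgHom.comp_apply]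
    rw [h3, AlgHom.comp_apply]
  set F0' : Poly 3 := sub z F0 with hF0'
  have hF0'h : F0'.IsHomogeneous d := sub_homogeneous z hF0
  set s : Set ℂ := (K0 : Set ℂ) ∪ ((⋃ i, Set.range fun e => coeff e (f' i)) ∪
    Set.range fun e => coeff e F0') with hs
  have hsc : s.Countable := by
    refine hK0.union ((Set.countable_iUnion fun i => Set.countable_range _).union
      (Set.countable_range _))
  refine ⟨Subfield.closure s, f', F0', countable_closure hsc, ?_, ?_, hF0'h, ?_, ?_, ?_⟩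
  · intro i e
    exact Subfield.subset_closure (Or.inr (Or.inl (Set.mem_iUnion.2 ⟨i, e, rfl⟩)))
  · intro e
    exact Subfield.subset_closure (Or.inr (Or.inr ⟨e, rfl⟩))
  · rw [← eval_single hF0'h, hF0', eval_sub]
    exact hz1
  · intro m H hH
    rw [haf, hker m _ (sub_homogeneous z' hH)]
    constructor
    · rintro ⟨G, hG⟩
      refine ⟨sub z G, ?_⟩
      rw [hF0', ← map_mul, ← hG, hzz]
    · rintro ⟨G, hG⟩
      refine ⟨sub z' G, ?_⟩
      rw [hG, map_mul, hF0', hzz']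
  · intro y hy m w H hH hne hw
    have hK : K0 ≤ Subfield.closure s := fun t ht => Subfield.subset_closure (Or.inl ht)
    let _ : Algebra K0 (Subfield.closure s) := (Subfield.inclusion hK).toAlgebra
    have : IsScalarTower K0 (Subfield.closure s) ℂ := IsScalarTower.of_algebraMap_eq fun t => rfl
    have hy' : AlgebraicIndependent K0 (fun q : Fin n × Fin 2 => y q.1 q.2) :=
      hy.restrictScalars (algebraMap K0 (Subfield.closure s)).injective
    rw [haf] at hne
    refine hnef y hy' m w _ (sub_homogeneous z' hH) hne fun i => ?_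
    rw [← haf]
    exact hw i

/-- the tuple with more points -/
private theorem generic_of_tower {n : ℕ} {x x' : Fin 5 → Pt} {y : Fin n → Pt}
    (hz : Generic (Sum.elim x x')) {K0 : Subfield ℂ}
    (hx : ∀ i k, x i k ∈ K0) (hx' : ∀ i k, x' i k ∈ K0)
    (hy : AlgebraicIndependent K0 (fun q : Fin n × Fin 2 => y q.1 q.2)) :
    Generic (Sum.elim x (Sum.elim x' y)) := by
  have h1 : AlgebraicIndependent ℚ (Sum.elim (fun q : Fin n × Fin 2 => y q.1 q.2)
      (fun q : (Fin 5 ⊕ Fin 5) × Fin 2 => Sum.elim x x' q.1 q.2)) := by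
    refine AlgebraicIndependent.sumElim_of_tower (S := K0) hz ?_ hy
    rintro _ ⟨⟨i | i, k⟩, rfl⟩
    · exact ⟨⟨_, hx i k⟩, rfl⟩
    · exact ⟨⟨_, hx' i k⟩, rfl⟩
  let g : (Fin 5 ⊕ (Fin 5 ⊕ Fin n)) × Fin 2 → (Fin n × Fin 2) ⊕ ((Fin 5 ⊕ Fin 5) × Fin 2) :=
    fun q => match q with
      | (Sum.inl i, k) => Sum.inr (Sum.inl i, k)
      | (Sum.inr (Sum.inl i), k) => Sum.inr (Sum.inr i, k)
      | (Sum.inr (Sum.inr i), k) => Sum.inl (i, k)
  have hg : Function.Injective g := by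
    rintro ⟨i | i | i, k⟩ ⟨j | j | j, l⟩ h <;> simp [g] at h ⊢ <;> exact h
  have h2 := h1.comp g hg
  unfold Generic
  convert h2 using 1
  funext q
  rcases q with ⟨i | i | i, k⟩ <;> rfl

theorem baseD_of_sec {a b : ℕ} {c : Fin 5 → ℕ} {x x' : Fin 5 → Pt}
    (hz : Generic (Sum.elim x x')) (hab : a + b = ∑ j, c j) {d : ℕ} (hd1 : 1 ≤ d)
    (hd : d + 2 * ∑ j, c j ^ 2 = 2 * (a * b)) {f : Fin 4 → Pol}
    (hf : ∀ i, f i ∈ Sec a b c x x' 1)
    (h3 : ∀ (m : ℕ) (G : MvPolynomial (Fin 3) ℂ), G.IsHomogeneous m →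
      aeval (fun i : Fin 3 => f i.castSucc) G = 0 → G = 0)
    (h4 : ∀ (m : ℕ) (H : Poly 3), m < d → H.IsHomogeneous m → aeval f H = 0 → H = 0) (n : ℕ) :
    BaseD d n := by
  classical
  have hD : ∑ j, c j ^ 2 < a * b := by omega
  -- the kernel
  obtain ⟨p, hp⟩ := exists_extend hz
  have hz1 : Generic (Sum.elim x (Sum.elim x' (fun _ : Fin 1 => p))) := by
    have h1 : Generic (Sum.elim (Sum.elim x x') (fun _ : Fin 1 => p)) := hp
    have h2 := h1.comp (Equiv.sumAssoc (Fin 5) (Fin 5) (Fin 1)).symm (Equiv.injective _)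
    convert h2 using 1
    funext q
    rcases q with i | i | i <;> rfl
  obtain ⟨δ, F0, hirr, hF0, -, hδ, hker⟩ := exists_relation_Sec le_rfl hz1 hab hD hf h3
  have hδd : δ = d := by
    refine le_antisymm (by omega) ?_
    by_contra hlt
    have h1 : aeval f F0 = 0 := (hker δ F0 hF0).2 dvd_rfl
    exact hirr.ne_zero (h4 δ F0 (not_le.1 hlt) hF0 h1)
  subst hδd
  set K0 : Subfield ℂ := Subfield.closure ((Set.range fun q : Fin 5 × Fin 2 => x q.1 q.2) ∪
    Set.range fun q : Fin 5 × Fin 2 => x' q.1 q.2) with hK0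
  refine baseD_of_kernel (K0 := K0) (countable_closure ((Set.countable_range _).union
    (Set.countable_range _))) hF0 hirr.ne_zero hker ?_
  intro y hy m w H hH hne hw
  have hg := generic_of_tower hz (K0 := K0)
    (fun i k => Subfield.subset_closure (Or.inl ⟨(i, k), rfl⟩))
    (fun i k => Subfield.subset_closure (Or.inr ⟨(i, k), rfl⟩)) hy
  rcases Nat.eq_zero_or_pos n with rfl | hn
  · simp
  set F : Pol := aeval f H with hF
  obtain ⟨h5, h6⟩ := aeval_mem_Sec hf hH
  rw [← hF] at h5 h6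
  have hn0 : (0 : ℝ) < n := by exact_mod_cast hn
  have hd0 : (0 : ℝ) < δ := by exact_mod_cast hd1
  set r : ℝ := Real.sqrt (δ / n) with hr
  have hr0 : 0 < r := Real.sqrt_pos.2 (div_pos hd0 hn0)
  have hr2 : r ^ 2 = δ / n := Real.sq_sqrt (div_pos hd0 hn0).le
  have hdR : (δ : ℝ) + 2 * ∑ j, (c j : ℝ) ^ 2 = 2 * ((a : ℝ) * b) := by exact_mod_cast hd
  have h1 := nef_generic hg a b (fun j => (c j : ℝ)) r (Nat.cast_nonneg _) (Nat.cast_nonneg _)
    (fun j => Nat.cast_nonneg _) hr0.le (by exact_mod_cast hab) (by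
      rw [hr2, mul_div_cancel₀ _ hn0.ne']
      linarith) hne
  rw [mem_Box] at h5
  have h7 : ∀ j, ((m * c j : ℕ) : ℝ) ≤ mlt (x j) F := fun j => by
    exact_mod_cast (le_mlt_iff hne _).2 (h6 j).1
  have h8 : ∀ j, ((m * c j : ℕ) : ℝ) ≤ mlt (x' j) F := fun j => by
    exact_mod_cast (le_mlt_iff hne _).2 (h6 j).2
  have h9 : ∑ j, (c j : ℝ) * (m * c j + m * c j) ≤
      ∑ j, (c j : ℝ) * ((mlt (x j) F : ℝ) + mlt (x' j) F) := by
    refine Finset.sum_le_sum fun j _ => ?_
    have h7' := h7 j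
    have h8' := h8 j
    push_cast at h7' h8'
    exact mul_le_mul_of_nonneg_left (add_le_add h7' h8') (Nat.cast_nonneg _)
  have h10 : ∑ j, (c j : ℝ) * (m * c j + m * c j) = 2 * m * ∑ j, (c j : ℝ) ^ 2 := by
    rw [Finset.mul_sum]
    exact Finset.sum_congr rfl fun j _ => by ring
  have h11 : (F.degreeOf 1 : ℝ) ≤ m * b := by exact_mod_cast h5.2
  have h12 : (F.degreeOf 0 : ℝ) ≤ m * a := by exact_mod_cast h5.1
  have h13 : (a : ℝ) * F.degreeOf 1 ≤ a * (m * b) :=
    mul_le_mul_of_nonneg_left h11 (Nat.cast_nonneg _)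
  have h14 : (b : ℝ) * F.degreeOf 0 ≤ b * (m * a) :=
    mul_le_mul_of_nonneg_left h12 (Nat.cast_nonneg _)
  have h15 : (n : ℝ) * w ≤ ∑ i, (mlt (y i) F : ℝ) := by
    have : ∑ _i : Fin n, (w : ℝ) ≤ ∑ i, (mlt (y i) F : ℝ) :=
      Finset.sum_le_sum fun i _ => by exact_mod_cast hw i
    simpa using this
  have h16 : r * (n * w) ≤ m * δ := by
    have h17 := mul_le_mul_of_nonneg_left h15 hr0.le
    have h18 : (m : ℝ) * δ = a * (m * b) + b * (m * a) - 2 * m * ∑ j, (c j : ℝ) ^ 2 := by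
      have : (m : ℝ) * (δ + 2 * ∑ j, (c j : ℝ) ^ 2) = m * (2 * ((a : ℝ) * b)) := by rw [hdR]
      linarith
    linarith
  have h19 : (n : ℝ) * w ^ 2 ≤ δ * m ^ 2 := by
    have h20 : (r * (n * w)) ^ 2 ≤ (m * δ) ^ 2 :=
      pow_le_pow_left₀ (by positivity) h16 2
    have h21 : (r * (n * w)) ^ 2 = δ * (n * w ^ 2) := by
      rw [mul_pow, hr2]
      field_simp
    rw [h21] at h20
    have h22 : ((m : ℝ) * δ) ^ 2 = δ * (δ * m ^ 2) := by ring
    rw [h22] at h20
    exact le_of_mul_le_mul_left h20 hd0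
  exact_mod_cast h19

end Pool.Agent.Lib.MP_ed661f_ag.S
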