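import Pool.Agent.Lib.MP_ed661f_ag.H.Kernel
import Pool.Agent.Lib.MP_ed661f_ag.H.Formal
import Pool.Agent.Lib.MP_ed661f_ag.H.Slice
import Pool.Agent.Lib.MP_ed661f_ag.H.Affine

/-!
Power series charts of a surface `F = 0` in the projective space of dimension `3`, at a point
where the last partial derivative of `F` does not vanish.
-/

set_option autoImplicit false

open MvPolynomial Pool.Agent.Lib.MP_ed661f_ag.H

namespace Pool.Agent.Lib.MP_ed661f_ag.S

/-- the ideal of the polynomials which vanish to order `w` at the point `v` of the affine piece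
`x₀ = 1` of the surface `F = 0` -/
noncomputable def K (F : Poly 3) (v : Fin 4 → ℂ) (w : ℕ) : Ideal (Poly 3) :=
  Ideal.span {F} ⊔ vecIdeal v ^ w ⊔ Ideal.span {X 0 - 1}

/-! ### substitution for the first three variables -/

/-- substitution for the first three variables -/
noncomputable def uni {A : Type} [CommRing A] [Algebra ℂ A] (a : Fin 3 → A) :
    Poly 3 →ₐ[ℂ] Polynomial A :=
  aeval ![Polynomial.C (a 0), Polynomial.C (a 1), Polynomial.C (a 2), Polynomial.X]

section uni

variable {A : Type} [CommRing A] [Algebra ℂ A] (a : Fin 3 → A)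

theorem eval_uni (t : A) (G : Poly 3) :
    (uni a G).eval t = aeval ![a 0, a 1, a 2, t] G := by
  have h : ((Polynomial.aeval t : Polynomial A →ₐ[A] A).restrictScalars ℂ).comp (uni a) =
      aeval ![a 0, a 1, a 2, t] := by
    apply MvPolynomial.algHom_ext
    intro i
    fin_cases i <;> simp [uni]
  have h1 := DFunLike.congr_fun h G
  rw [← h1]
  simp

theorem uni_monomial (e : Fin 4 →₀ ℕ) (r : ℂ) :
    uni a (monomial e r) = Polynomial.C (algebraMap ℂ A r * (a 0 ^ e 0 * a 1 ^ e 1 * a 2 ^ e 2)) *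
      Polynomial.X ^ e 3 := by
  rw [uni, aeval_monomial, Finsupp.prod_fintype _ _ (fun i => pow_zero _), Fin.prod_univ_four]
  change algebraMap ℂ (Polynomial A) r * (Polynomial.C (a 0) ^ e 0 * Polynomial.C (a 1) ^ e 1 *
    Polynomial.C (a 2) ^ e 2 * Polynomial.X ^ e 3) = _
  rw [Polynomial.algebraMap_apply]
  simp only [map_mul, map_pow]
  ring

theorem derivative_uni (G : Poly 3) :
    Polynomial.derivative (uni a G) = uni a (pderiv 3 G) := by
  induction G using MvPolynomial.induction_on with
  | C r =>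
    have : uni a (C r) = Polynomial.C (algebraMap ℂ A r) := by
      rw [← MvPolynomial.algebraMap_eq, AlgHom.commutes]
      rfl
    rw [this, pderiv_C, map_zero, Polynomial.derivative_C]
  | add f g hf hg => rw [map_add, map_add, map_add, map_add, hf, hg]
  | mul_X f i hf =>
    rw [map_mul, Polynomial.derivative_mul, hf, Derivation.leibniz, map_add, smul_eq_mul,
      smul_eq_mul, map_mul, map_mul]
    have : Polynomial.derivative (uni a (X i)) = uni a (pderiv 3 (X i)) := by
      rw [uni, aeval_X]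
      fin_cases i
      · simp [pderiv_X]
      · simp [pderiv_X]
      · simp [pderiv_X]
      · simp [pderiv_X]
    rw [this]
    ring

theorem coeff_uni (G : Poly 3) (k : ℕ) :
    (uni a G).coeff k = ∑ e ∈ G.support, if k = e 3 then
      algebraMap ℂ A (coeff e G) * (a 0 ^ e 0 * a 1 ^ e 1 * a 2 ^ e 2) else 0 := by
  conv_lhs => rw [G.as_sum]
  rw [map_sum, Polynomial.finsetSum_coeff]
  refine Finset.sum_congr rfl fun e _ => ?_
  rw [uni_monomial, Polynomial.coeff_C_mul_X_pow]

theorem uni_natDegree_le {F : Poly 3} {d : ℕ} (hF : F.IsHomogeneous d) :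
    (uni a F).natDegree ≤ d := by
  rw [Polynomial.natDegree_le_iff_coeff_eq_zero]
  intro k hk
  rw [coeff_uni]
  refine Finset.sum_eq_zero fun e he => ?_
  have h1 : e.degree = d := by
    have := hF (mem_support_iff.1 he)
    rwa [Finsupp.degree_eq_weight_one]
  have h2 : e 3 ≤ e.degree := Finsupp.le_degree 3 e
  rw [if_neg (by omega)]

theorem uni_coeff {F : Poly 3} {d : ℕ} (hF : F.IsHomogeneous d) :
    (uni a F).coeff d = algebraMap ℂ A (coeff (Finsupp.single 3 d) F) := by
  classical
  rw [coeff_uni]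
  have key : ∀ e ∈ F.support, d = e 3 → e = Finsupp.single 3 d := by
    intro e he hd
    have h1 : e.degree = d := by
      have := hF (mem_support_iff.1 he)
      rwa [Finsupp.degree_eq_weight_one]
    rw [Finsupp.degree_eq_sum, Fin.sum_univ_four] at h1
    ext i
    fin_cases i
    · simp only [Fin.zero_eta, Fin.isValue]
      rw [Finsupp.single_eq_of_ne (by decide)]
      omega
    · simp only [Fin.mk_one, Fin.isValue]
      rw [Finsupp.single_eq_of_ne (by decide)]
      omega
    · simp only [Fin.reduceFinMk, Fin.isValue]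
      rw [Finsupp.single_eq_of_ne (by decide)]
      omega
    · simp only [Fin.reduceFinMk, Fin.isValue]
      rw [Finsupp.single_eq_same]
      omega
  by_cases hs : Finsupp.single 3 d ∈ F.support
  · rw [Finset.sum_eq_single_of_mem _ hs]
    · rw [if_pos (by simp)]
      simp
    · intro e he hne
      rw [if_neg fun h => hne (key e he h)]
  · rw [notMem_support_iff.1 hs, map_zero]
    refine Finset.sum_eq_zero fun e he => ?_
    rw [if_neg]
    intro h
    rw [key e he h] at he
    exact hs he

theorem uni_monic {F : Poly 3} {d : ℕ} (hF : F.IsHomogeneous d)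
    (hm : coeff (Finsupp.single 3 d) F ≠ 0) :
    (uni a (C (coeff (Finsupp.single 3 d) F)⁻¹ * F)).Monic := by
  have h1 : (C (coeff (Finsupp.single 3 d) F)⁻¹ * F).IsHomogeneous d := by
    have := (isHomogeneous_C (Fin 4) (coeff (Finsupp.single 3 d) F)⁻¹).mul hF
    rwa [zero_add] at this
  refine Polynomial.monic_of_natDegree_le_of_coeff_eq_one d (uni_natDegree_le a h1) ?_
  rw [uni_coeff a h1, coeff_C_mul, inv_mul_cancel₀ hm, map_one]

end uni

/-! ### power series charts -/

/-- `T` is the power series chart of the surface `F = 0` at the point `v`: the homomorphism to the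
power series which maps `x₀, x₁, x₂` to `1, v₁ + σ, v₂ + τ` -/
structure IsChart (F : Poly 3) (v : Fin 4 → ℂ) (T : Poly 3 →ₐ[ℂ] MvPowerSeries (Fin 2) ℂ) :
    Prop where
  T0 : T (X 0) = 1
  T1 : T (X 1) = MvPowerSeries.C (v 1) + MvPowerSeries.X 0
  T2 : T (X 2) = MvPowerSeries.C (v 2) + MvPowerSeries.X 1
  TF : T F = 0
  cc : ∀ G, MvPowerSeries.constantCoeff (T G) = eval v G

/-- existence of the chart -/
theorem exists_isChart {F : Poly 3} {d : ℕ} (hF : F.IsHomogeneous d)
    (hm : coeff (Finsupp.single 3 d) F ≠ 0) {v : Fin 4 → ℂ} (h0 : v 0 = 1) (hv : eval v F = 0)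
    (hs : eval v (pderiv 3 F) ≠ 0) : ∃ T, IsChart F v T := by
  set c := coeff (Finsupp.single 3 d) F with hc
  set a : Fin 3 → MvPowerSeries (Fin 2) ℂ := ![1, MvPowerSeries.C (v 1) + MvPowerSeries.X 0,
    MvPowerSeries.C (v 2) + MvPowerSeries.X 1] with ha
  -- constant coefficients
  have hcc : ∀ G, ((uni a G).map (MvPowerSeries.constantCoeff (σ := Fin 2) (R := ℂ))).eval (v 3) =
      eval v G := by
    intro G
    have h : ((Polynomial.evalRingHom (v 3)).comp (Polynomial.mapRingHom
        (MvPowerSeries.constantCoeff (σ := Fin 2) (R := ℂ)))).comp (uni a).toRingHom = eval v := by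
      apply MvPolynomial.ringHom_ext
      · intro r
        have : uni a (C r) = Polynomial.C (MvPowerSeries.C r) := by
          rw [← MvPolynomial.algebraMap_eq, AlgHom.commutes]
          rfl
        change Polynomial.eval (v 3) (Polynomial.map _ (uni a (C r))) = _
        rw [this]
        simp
      · intro i
        change Polynomial.eval (v 3) (Polynomial.map _ (uni a (X i))) = _
        rw [uni, aeval_X, eval_X]
        fin_cases i
        · simp [ha, h0]
        · simp [ha]
        · simp [ha]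
        · simp [ha]
    exact congrArg (fun g => g G) h
  obtain ⟨t, ht, htc⟩ := hensel_two (uni a (C c⁻¹ * F)) (uni_monic a hF hm) (v 3)
    (by rw [hcc, map_mul, hv, mul_zero])
    (by
      rw [derivative_uni, hcc, Derivation.leibniz, pderiv_C, smul_zero, add_zero, smul_eq_mul,
        map_mul, eval_C]
      exact mul_ne_zero (inv_ne_zero hm) hs)
  refine ⟨aeval ![a 0, a 1, a 2, t], ?_, ?_, ?_, ?_, ?_⟩
  · rw [aeval_X]; simp [ha]
  · rw [aeval_X]; simp [ha]
  · rw [aeval_X]; simp [ha]
  · rw [eval_uni, map_mul] at ht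
    have h1 : IsUnit (aeval ![a 0, a 1, a 2, t] (C c⁻¹ : Poly 3)) := by
      rw [← MvPolynomial.algebraMap_eq, AlgHom.commutes]
      exact (isUnit_iff_ne_zero.2 (inv_ne_zero hm)).map _
    exact (h1.mul_right_eq_zero).1 ht
  · intro G
    have h : (MvPowerSeries.constantCoeff (σ := Fin 2) (R := ℂ)).comp
        (aeval ![a 0, a 1, a 2, t] : Poly 3 →ₐ[ℂ] MvPowerSeries (Fin 2) ℂ).toRingHom = eval v := by
      apply MvPolynomial.ringHom_ext
      · intro r
        change MvPowerSeries.constantCoeff (aeval ![a 0, a 1, a 2, t] (C r)) = _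
        rw [← MvPolynomial.algebraMap_eq, AlgHom.commutes]
        simp [MvPowerSeries.algebraMap_apply]
      · intro i
        change MvPowerSeries.constantCoeff (aeval ![a 0, a 1, a 2, t] (X i)) = _
        rw [aeval_X, eval_X]
        fin_cases i
        · simp [ha, h0]
        · simp [ha]
        · simp [ha]
        · simp [htc]
    exact congrArg (fun g => g G) h

/-- the power series of order at least `n` -/
noncomputable def ordIdeal (n : ℕ) : Ideal (MvPowerSeries (Fin 2) ℂ) where
  carrier := {f | (n : ℕ∞) ≤ f.order}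
  add_mem' := fun hf hg => le_trans (le_min hf hg) MvPowerSeries.min_order_le_add
  zero_mem' := by
    change (n : ℕ∞) ≤ MvPowerSeries.order 0
    rw [MvPowerSeries.order_zero]
    exact le_top
  smul_mem' := fun c f hf => le_trans (le_trans hf (self_le_add_left _ _))
    MvPowerSeries.le_order_mul

theorem mem_ordIdeal {n : ℕ} {f : MvPowerSeries (Fin 2) ℂ} :
    f ∈ ordIdeal n ↔ (n : ℕ∞) ≤ f.order := Iff.rfl

theorem mem_ordIdeal' {n : ℕ} {f : MvPowerSeries (Fin 2) ℂ} :
    f ∈ ordIdeal n ↔ ∀ e : Fin 2 →₀ ℕ, e.degree < n → MvPowerSeries.coeff e f = 0 := by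
  rw [mem_ordIdeal]
  constructor
  · intro h e he
    apply MvPowerSeries.coeff_of_lt_order
    exact lt_of_lt_of_le (by exact_mod_cast he) h
  · intro h
    exact MvPowerSeries.nat_le_order h

theorem ordIdeal_mul {m n : ℕ} : ordIdeal m * ordIdeal n ≤ ordIdeal (m + n) := by
  rw [Ideal.mul_le]
  intro f hf g hg
  rw [mem_ordIdeal] at *
  push_cast
  exact le_trans (add_le_add hf hg) MvPowerSeries.le_order_mul

theorem ordIdeal_pow (n : ℕ) : ordIdeal 1 ^ n ≤ ordIdeal n := by
  induction n with
  | zero =>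
    intro f _
    rw [mem_ordIdeal]
    simp
  | succ n ih =>
    rw [pow_succ]
    exact (Ideal.mul_mono_left ih).trans ordIdeal_mul

/-- expansion of a polynomial at the vector `v` up to order `2` -/
theorem taylor_two {N : ℕ} (v : Fin (N + 1) → ℂ) (G : Poly N) :
    G - C (eval v G) - ∑ i, C (eval v (pderiv i G)) * (X i - C (v i)) ∈ vecIdeal v ^ 2 := by
  have hsub : ∀ H : Poly N, H - C (eval v H) ∈ vecIdeal v := fun H => by
    rw [vecIdeal, RingHom.mem_ker, map_sub, eval_C, sub_self]
  induction G using MvPolynomial.induction_on with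
  | C r => simp
  | add f g hf hg =>
    have : f + g - C (eval v (f + g)) - ∑ i, C (eval v (pderiv i (f + g))) * (X i - C (v i)) =
        (f - C (eval v f) - ∑ i, C (eval v (pderiv i f)) * (X i - C (v i))) +
        (g - C (eval v g) - ∑ i, C (eval v (pderiv i g)) * (X i - C (v i))) := by
      simp only [map_add, add_mul, Finset.sum_add_distrib]
      ring
    rw [this]
    exact add_mem hf hg
  | mul_X f j hf =>
    have : f * X j - C (eval v (f * X j)) -
        ∑ i, C (eval v (pderiv i (f * X j))) * (X i - C (v i)) =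
        (f - C (eval v f) - ∑ i, C (eval v (pderiv i f)) * (X i - C (v i))) * C (v j) +
        (f - C (eval v f)) * (X j - C (v j)) := by
      have h1 : ∀ i, C (eval v (pderiv i (f * X j))) * (X i - C (v i)) =
          C (eval v (pderiv i f)) * (X i - C (v i)) * C (v j) +
            if i = j then C (eval v f) * (X j - C (v j)) else (0 : Poly N) := by
        intro i
        rw [Derivation.leibniz, smul_eq_mul, smul_eq_mul, pderiv_X, map_add, map_mul, map_mul,
          map_add, map_mul, map_mul, eval_X]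
        by_cases hij : i = j
        · subst hij
          simp
          ring
        · rw [if_neg hij, Pi.single_eq_of_ne (Ne.symm hij)]
          simp
          ring
      rw [Finset.sum_congr rfl fun i _ => h1 i, Finset.sum_add_distrib, ← Finset.sum_mul,
        Finset.sum_ite_eq' , if_pos (Finset.mem_univ j), map_mul, eval_X, map_mul]
      ring
    rw [this]
    refine add_mem (Ideal.mul_mem_right _ _ hf) ?_
    rw [pow_two]
    refine Ideal.mul_mem_mul (hsub f) ?_
    have := hsub (X j)
    rwa [eval_X] at this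

namespace IsChart

variable {F : Poly 3} {v : Fin 4 → ℂ} {T : Poly 3 →ₐ[ℂ] MvPowerSeries (Fin 2) ℂ}

theorem v0 (h : IsChart F v T) : v 0 = 1 := by
  have := h.cc (X 0)
  rw [h.T0, eval_X] at this
  simpa using this.symm

theorem hv (h : IsChart F v T) : eval v F = 0 := by
  have := h.cc F
  rw [h.TF, map_zero] at this
  exact this.symm

/-- the surface is smooth at the point `v` -/
theorem smooth (h : IsChart F v T) (hs : eval v (pderiv 3 F) ≠ 0) :
    vecIdeal v ≤ (Ideal.span {F} ⊔ Ideal.span {X 0 - 1}) ⊔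
      Ideal.span {X 1 - C (eval v (X 1)), X 2 - C (eval v (X 2))} ⊔ vecIdeal v ^ 2 := by
  set J : Ideal (Poly 3) := (Ideal.span {F} ⊔ Ideal.span {X 0 - 1}) ⊔
      Ideal.span {X 1 - C (eval v (X 1)), X 2 - C (eval v (X 2))} ⊔ vecIdeal v ^ 2 with hJ
  have h2 : vecIdeal v ^ 2 ≤ J := le_sup_right
  have hF : F ∈ J := le_sup_left (α := Ideal (Poly 3)) (le_sup_left (α := Ideal (Poly 3))
    (le_sup_left (α := Ideal (Poly 3)) (Ideal.mem_span_singleton_self F)))
  have hX0 : X 0 - C (v 0) ∈ J := by
    rw [h.v0, C_1]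
    exact le_sup_left (α := Ideal (Poly 3)) (le_sup_left (α := Ideal (Poly 3))
      (le_sup_right (α := Ideal (Poly 3)) (Ideal.mem_span_singleton_self _)))
  have hX1 : X 1 - C (v 1) ∈ J := by
    have : (X 1 - C (eval v (X 1)) : Poly 3) ∈ J :=
      le_sup_left (α := Ideal (Poly 3)) (le_sup_right (α := Ideal (Poly 3))
        (Ideal.subset_span (Or.inl rfl)))
    rwa [eval_X] at this
  have hX2 : X 2 - C (v 2) ∈ J := by
    have : (X 2 - C (eval v (X 2)) : Poly 3) ∈ J :=
      le_sup_left (α := Ideal (Poly 3)) (le_sup_right (α := Ideal (Poly 3))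
        (Ideal.subset_span (Or.inr rfl)))
    rwa [eval_X] at this
  have hX3 : X 3 - C (v 3) ∈ J := by
    have h3 := h2 (taylor_two v F)
    rw [h.hv, map_zero, sub_zero, Fin.sum_univ_four] at h3
    have h4 : C (eval v (pderiv 3 F)) * (X 3 - C (v 3)) ∈ J := by
      have h5 : C (eval v (pderiv 3 F)) * (X 3 - C (v 3)) = F -
          (F - (C (eval v (pderiv 0 F)) * (X 0 - C (v 0)) +
            C (eval v (pderiv 1 F)) * (X 1 - C (v 1)) +
            C (eval v (pderiv 2 F)) * (X 2 - C (v 2)) +
            C (eval v (pderiv 3 F)) * (X 3 - C (v 3)))) -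
          (C (eval v (pderiv 0 F)) * (X 0 - C (v 0)) +
            C (eval v (pderiv 1 F)) * (X 1 - C (v 1)) +
            C (eval v (pderiv 2 F)) * (X 2 - C (v 2))) := by ring
      rw [h5]
      exact sub_mem (sub_mem hF h3) (add_mem (add_mem (J.mul_mem_left _ hX0)
        (J.mul_mem_left _ hX1)) (J.mul_mem_left _ hX2))
    have h6 := J.mul_mem_left (C (eval v (pderiv 3 F))⁻¹) h4
    rwa [← mul_assoc, ← C_mul, inv_mul_cancel₀ hs, C_1, one_mul] at h6
  intro G hG
  have h3 := h2 (taylor_two v G)
  rw [vecIdeal, RingHom.mem_ker] at hG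
  rw [hG, map_zero, sub_zero, Fin.sum_univ_four] at h3
  have h4 : G = (G - (C (eval v (pderiv 0 G)) * (X 0 - C (v 0)) +
            C (eval v (pderiv 1 G)) * (X 1 - C (v 1)) +
            C (eval v (pderiv 2 G)) * (X 2 - C (v 2)) +
            C (eval v (pderiv 3 G)) * (X 3 - C (v 3)))) +
          (C (eval v (pderiv 0 G)) * (X 0 - C (v 0)) +
            C (eval v (pderiv 1 G)) * (X 1 - C (v 1)) +
            C (eval v (pderiv 2 G)) * (X 2 - C (v 2)) +
            C (eval v (pderiv 3 G)) * (X 3 - C (v 3))) := by ring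
  rw [h4]
  exact add_mem h3 (add_mem (add_mem (add_mem (J.mul_mem_left _ hX0)
    (J.mul_mem_left _ hX1)) (J.mul_mem_left _ hX2)) (J.mul_mem_left _ hX3))


/-- **the ideals `K` are the order ideals of the chart** -/
theorem mem_K_iff (h : IsChart F v T) (hs : eval v (pderiv 3 F) ≠ 0) {w : ℕ} {G : Poly 3} :
    G ∈ K F v w ↔ T G ∈ ordIdeal w := by
  constructor
  · intro hG
    have h1 : K F v w ≤ (ordIdeal w).comap T := by
      refine sup_le (sup_le ?_ ?_) ?_
      · rw [Ideal.span_singleton_le_iff_mem, Ideal.mem_comap, h.TF]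
        exact zero_mem _
      · have h2 : vecIdeal v ≤ (ordIdeal 1).comap T := by
          intro H hH
          rw [Ideal.mem_comap, mem_ordIdeal, Nat.cast_one,
            MvPowerSeries.one_le_order_iff_constCoeff_eq_zero, h.cc]
          exact hH
        refine (Ideal.pow_right_mono h2 w).trans ?_
        refine (Ideal.le_comap_pow _ w).trans ?_
        exact Ideal.comap_mono (ordIdeal_pow w)
      · rw [Ideal.span_singleton_le_iff_mem, Ideal.mem_comap, map_sub, h.T0, map_one, sub_self]
        exact zero_mem _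
    exact h1 hG
  · intro hG
    rcases Nat.eq_zero_or_pos w with hw | hw
    · subst hw
      have : K F v 0 = ⊤ := by
        rw [K, pow_zero, Ideal.one_eq_top, sup_top_eq, top_sup_eq]
      rw [this]
      exact Submodule.mem_top
    obtain ⟨s, rfl⟩ : ∃ s, w = s + 1 := ⟨w - 1, by omega⟩
    set τ : Poly 3 →ₐ[ℂ] MvPolynomial (Fin 2) ℂ := aeval ![1, C (v 1) + X 0, C (v 2) + X 1,
      MvPowerSeries.truncTotal (s + 1) (T (X 3))] with hτ
    have hcmp : ∀ H, T H - (τ H : MvPowerSeries (Fin 2) ℂ) ∈ ordIdeal (s + 1) := by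
      intro H
      have hext : ((Ideal.Quotient.mkₐ ℂ (ordIdeal (s + 1))).comp T) =
          ((Ideal.Quotient.mkₐ ℂ (ordIdeal (s + 1))).comp
            ((MvPolynomial.coeToMvPowerSeries.algHom ℂ).comp τ)) := by
        apply MvPolynomial.algHom_ext
        intro i
        simp only [AlgHom.comp_apply, Ideal.Quotient.mkₐ_eq_mk,
          MvPolynomial.coeToMvPowerSeries.algHom_apply]
        rw [Ideal.Quotient.eq]
        have hmap : ∀ p : MvPolynomial (Fin 2) ℂ, MvPowerSeries.map (algebraMap ℂ ℂ)
            (p : MvPowerSeries (Fin 2) ℂ) = p := by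
          intro p
          ext e
          simp
        rw [hmap, hτ, aeval_X]
        fin_cases i
        · simp [h.T0]
        · simp [h.T1]
        · simp [h.T2]
        · change T (X 3) -
            ((MvPowerSeries.truncTotal (s + 1) (T (X 3)) : MvPolynomial (Fin 2) ℂ) :
              MvPowerSeries (Fin 2) ℂ) ∈ ordIdeal (s + 1)
          rw [mem_ordIdeal']
          intro e he
          rw [map_sub, MvPolynomial.coeff_coe, MvPowerSeries.coeff_truncTotal _ he, sub_self]
      have h1 := DFunLike.congr_fun hext H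
      simp only [AlgHom.comp_apply, Ideal.Quotient.mkₐ_eq_mk,
        MvPolynomial.coeToMvPowerSeries.algHom_apply] at h1
      rw [Ideal.Quotient.eq] at h1
      have hmap : ∀ p : MvPolynomial (Fin 2) ℂ, MvPowerSeries.map (algebraMap ℂ ℂ)
          (p : MvPowerSeries (Fin 2) ℂ) = p := by
        intro p
        ext e
        simp
      rwa [hmap] at h1
    have htz : ∀ H, Tz s (τ H) ↔ T H ∈ ordIdeal (s + 1) := by
      intro H
      have h1 : Tz s (τ H) ↔ (τ H : MvPowerSeries (Fin 2) ℂ) ∈ ordIdeal (s + 1) := by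
        rw [mem_ordIdeal']
        constructor
        · intro h2 e he
          rw [MvPolynomial.coeff_coe]
          exact h2 e (by omega)
        · intro h2 e he
          have := h2 e (by omega)
          rwa [MvPolynomial.coeff_coe] at this
      rw [h1]
      constructor
      · intro h2
        have := add_mem (hcmp H) h2
        rwa [sub_add_cancel] at this
      · intro h2
        have := sub_mem h2 (hcmp H)
        rwa [sub_sub_cancel] at this
    have hcc : ∀ H, constantCoeff (τ H) = eval v H := by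
      intro H
      have h1 : (constantCoeff (R := ℂ) (σ := Fin 2)).comp τ.toRingHom = eval v := by
        apply MvPolynomial.ringHom_ext
        · intro r
          change constantCoeff (τ (C r)) = _
          rw [← MvPolynomial.algebraMap_eq, AlgHom.commutes]
          simp [MvPolynomial.algebraMap_eq]
        · intro i
          change constantCoeff (τ (X i)) = _
          rw [hτ, aeval_X, eval_X]
          fin_cases i
          · simp [h.v0]
          · simp
          · simp
          · change constantCoeff (MvPowerSeries.truncTotal (s + 1) (T (X 3)) :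
              MvPolynomial (Fin 2) ℂ) = v 3
            have h2 := h.cc (X 3)
            rw [eval_X] at h2
            rw [← h2, ← MvPowerSeries.coeff_zero_eq_constantCoeff_apply, constantCoeff_eq,
              MvPowerSeries.coeff_truncTotal]
            simp
      exact congrArg (fun g => g H) h1
    have hJ : ∀ H ∈ Ideal.span {F} ⊔ Ideal.span {(X 0 - 1 : Poly 3)}, Tz s (τ H) := by
      intro H hH
      rw [htz]
      have h1 : Ideal.span {F} ⊔ Ideal.span {(X 0 - 1 : Poly 3)} ≤ (ordIdeal (s + 1)).comap T := by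
        refine sup_le ?_ ?_
        · rw [Ideal.span_singleton_le_iff_mem, Ideal.mem_comap, h.TF]
          exact zero_mem _
        · rw [Ideal.span_singleton_le_iff_mem, Ideal.mem_comap, map_sub, h.T0, map_one, sub_self]
          exact zero_mem _
      exact h1 hH
    have h5 := mem_of_tz (h.smooth hs) τ hJ hcc (α := 1) (β := 0) (γ := 0) (δ := 1) (by norm_num)
      (by
        rw [eval_X, hτ, aeval_X]
        intro e _
        simp)
      (by
        rw [eval_X, hτ, aeval_X]
        intro e _
        simp) ((htz G).2 hG)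
    have h6 : Ideal.span {F} ⊔ Ideal.span {(X 0 - 1 : Poly 3)} ⊔ vecIdeal v ^ (s + 1) ≤
        K F v (s + 1) := by
      rw [K]
      refine sup_le (sup_le ?_ ?_) ?_
      · exact le_sup_left.trans le_sup_left
      · exact le_sup_right
      · exact le_sup_right.trans le_sup_left
    exact h6 h5

/-- **the order is a valuation** -/
theorem mem_of_mul_mem (h : IsChart F v T) (hs : eval v (pderiv 3 F) ≠ 0) {w β : ℕ}
    {G H : Poly 3} (hGH : G * H ∈ K F v w) (hG : G ∉ K F v (β + 1)) : H ∈ K F v (w - β) := by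
  rw [h.mem_K_iff hs, mem_ordIdeal] at *
  rw [map_mul, MvPowerSeries.order_mul] at hGH
  push Not at hG
  have h1 : (T G).order ≤ β := by
    push_cast at hG
    exact Order.le_of_lt_add_one hG
  by_cases hT : (T H).order = ⊤
  · rw [hT]; exact le_top
  · obtain ⟨b, hb⟩ := ENat.ne_top_iff_exists.1 hT
    have h2 : (T G).order ≠ ⊤ := ne_top_of_le_ne_top (ENat.natCast_ne_top β) h1
    obtain ⟨a, ha⟩ := ENat.ne_top_iff_exists.1 h2
    rw [← ha] at h1 hGH
    rw [← hb] at hGH ⊢
    norm_cast at *
    omega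

end IsChart

/-- the value of the map on polynomials in `x₁ - v₁` and `x₂ - v₂` -/
theorem IsChart.map_aeval {F : Poly 3} {v : Fin 4 → ℂ} {T : Poly 3 →ₐ[ℂ] MvPowerSeries (Fin 2) ℂ}
    (h : IsChart F v T) (Q : MvPolynomial (Fin 2) ℂ) :
    T (aeval ![X 1 - C (v 1), X 2 - C (v 2)] Q) = (Q : MvPowerSeries (Fin 2) ℂ) := by
  have hC : ∀ c : ℂ, T (C c) = MvPowerSeries.C c := fun c => by
    rw [← MvPolynomial.algebraMap_eq, AlgHom.commutes]; rfl
  have hext : T.comp (aeval ![X 1 - C (v 1), X 2 - C (v 2)]) =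
      MvPolynomial.coeToMvPowerSeries.algHom ℂ := by
    apply MvPolynomial.algHom_ext
    intro i
    fin_cases i
    · simp [h.T1, hC]
    · simp [h.T2, hC]
  have h1 := DFunLike.congr_fun hext Q
  rw [AlgHom.comp_apply] at h1
  rw [h1]
  simp

/-- the exponents of degree less than `w` -/
private noncomputable def ex {w : ℕ} (i : Σ i : Fin w, Fin (i.1 + 1)) : Fin 2 →₀ ℕ :=
  Finsupp.single 0 (i.2 : ℕ) + Finsupp.single 1 ((i.1 : ℕ) - (i.2 : ℕ))

private theorem ex_zero {w : ℕ} (i : Σ i : Fin w, Fin (i.1 + 1)) : ex i 0 = (i.2 : ℕ) := by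
  simp [ex]

private theorem ex_one {w : ℕ} (i : Σ i : Fin w, Fin (i.1 + 1)) :
    ex i 1 = (i.1 : ℕ) - (i.2 : ℕ) := by
  simp [ex]

private theorem ex_degree {w : ℕ} (i : Σ i : Fin w, Fin (i.1 + 1)) :
    (ex i).degree = (i.1 : ℕ) := by
  rw [Finsupp.degree_eq_sum, Fin.sum_univ_two, ex_zero, ex_one]
  have := i.2.2
  omega

private theorem ex_injective {w : ℕ} : Function.Injective (ex (w := w)) := by
  rintro ⟨i, j⟩ ⟨i', j'⟩ h
  have h1 := ex_degree (⟨i, j⟩ : Σ i : Fin w, Fin (i.1 + 1))
  rw [h, ex_degree] at h1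
  have h2 := ex_zero (⟨i, j⟩ : Σ i : Fin w, Fin (i.1 + 1))
  rw [h, ex_zero] at h2
  simp only at h1 h2
  have h3 : i' = i := Fin.ext h1
  subst h3
  have h4 : j' = j := Fin.ext h2
  rw [h4]

private theorem exists_ex {w : ℕ} {e : Fin 2 →₀ ℕ} (he : e.degree < w) :
    ∃ i : Σ i : Fin w, Fin (i.1 + 1), ex i = e := by
  have hd : e.degree = e 0 + e 1 := by
    rw [Finsupp.degree_eq_sum]
    exact Fin.sum_univ_two _
  refine ⟨⟨⟨e.degree, he⟩, ⟨e 0, by simp only; omega⟩⟩, ?_⟩
  ext i
  fin_cases i
  · simp only [Fin.zero_eta, Fin.isValue]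
    rw [ex_zero]
  · simp only [Fin.mk_one, Fin.isValue]
    rw [ex_one]
    simp only
    omega

private theorem card_ex (w : ℕ) :
    2 * Fintype.card (Σ i : Fin w, Fin (i.1 + 1)) = w * (w + 1) := by
  rw [Fintype.card_sigma]
  simp only [Fintype.card_fin]
  rw [Fin.sum_univ_eq_sum_range (fun i => i + 1) w]
  induction w with
  | zero => rfl
  | succ w ih =>
    rw [Finset.sum_range_succ, mul_add, ih]
    ring

/-- **the number of conditions imposed by a point of multiplicity `w`** -/
theorem IsChart.finrank_K {F : Poly 3} {v : Fin 4 → ℂ} {T : Poly 3 →ₐ[ℂ] MvPowerSeries (Fin 2) ℂ}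
    (h : IsChart F v T) (hs : eval v (pderiv 3 F) ≠ 0) (w : ℕ) :
    2 * Module.finrank ℂ (Poly 3 ⧸ K F v w) = w * (w + 1) := by
  classical
  let L : Poly 3 →ₗ[ℂ] ((Σ i : Fin w, Fin (i.1 + 1)) → ℂ) :=
    { toFun := fun G i => MvPowerSeries.coeff (ex i) (T G)
      map_add' := fun G H => by
        funext i
        simp
      map_smul' := fun c G => by
        funext i
        simp }
  have hL : ∀ G, L G = 0 ↔ G ∈ K F v w := by
    intro G
    rw [h.mem_K_iff hs, mem_ordIdeal']
    constructor
    · intro h1 e he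
      obtain ⟨i, rfl⟩ := exists_ex he
      exact congrFun h1 i
    · intro h1
      funext i
      exact h1 _ (by rw [ex_degree]; exact i.1.2)
  let f : (Poly 3 ⧸ K F v w) →ₗ[ℂ] ((Σ i : Fin w, Fin (i.1 + 1)) → ℂ) :=
    (Submodule.liftQ ((K F v w).restrictScalars ℂ) L (by
      intro a ha
      rw [LinearMap.mem_ker]
      exact (hL a).2 ha))
  have hf : ∀ a, f (Ideal.Quotient.mk (K F v w) a) = L a := fun a => rfl
  have hinj : Function.Injective f := by
    rw [injective_iff_map_eq_zero]
    intro x hx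
    obtain ⟨a, rfl⟩ := Ideal.Quotient.mk_surjective x
    rw [hf] at hx
    exact Ideal.Quotient.eq_zero_iff_mem.2 ((hL a).1 hx)
  have hsurj : Function.Surjective f := by
    intro c
    refine ⟨Ideal.Quotient.mk _ (aeval ![X 1 - C (v 1), X 2 - C (v 2)]
      (∑ i, monomial (ex i) (c i))), ?_⟩
    rw [hf]
    funext i
    change MvPowerSeries.coeff (ex i) (T _) = c i
    rw [h.map_aeval, MvPolynomial.coeff_coe, coeff_sum, Finset.sum_eq_single i]
    · simp
    · intro j _ hj
      rw [coeff_monomial, if_neg]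
      intro h1
      exact hj (ex_injective h1)
    · intro h1
      exact absurd (Finset.mem_univ i) h1
  rw [LinearEquiv.finrank_eq (LinearEquiv.ofBijective f ⟨hinj, hsurj⟩), Module.finrank_pi]
  exact card_ex w

/-! ### the kernel of the chart -/

section

attribute [local instance] MvPolynomial.gradedAlgebra

theorem homog_span_singleton {N : ℕ} {F : Poly N} {d : ℕ} (hF : F.IsHomogeneous d) :
    Homog (Ideal.span {F}) := by
  intro G hG k
  refine homogeneousComponent_mem_of_mem (Ideal.homogeneous_span _ _ ?_) hG k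
  rintro x rfl
  exact ⟨d, hF⟩

end

theorem isPrime_span {N : ℕ} {F : Poly N} (hirr : Irreducible F) :
    (Ideal.span {F}).IsPrime :=
  (Ideal.span_singleton_prime hirr.ne_zero).2 hirr.prime

/-- the map of the plane to the affine piece `x₀ = 1` of the surface -/
private noncomputable def psi (F : Poly 3) : MvPolynomial (Fin 2) ℂ →ₐ[ℂ]
    Poly 3 ⧸ (Ideal.span {F} ⊔ Ideal.span {(X 0 - 1 : Poly 3)}) :=
  (Ideal.Quotient.mkₐ ℂ _).comp (aeval ![X 1, X 2])

private theorem psi_integral {F : Poly 3} {d : ℕ} (hF : F.IsHomogeneous d)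
    (hm : coeff (Finsupp.single 3 d) F ≠ 0) : (psi F).toRingHom.IsIntegral := by
  set J := Ideal.span {F} ⊔ Ideal.span {(X 0 - 1 : Poly 3)} with hJ
  have hX0 : Ideal.Quotient.mk J (X 0) = 1 := by
    have h1 : (X 0 - 1 : Poly 3) ∈ J :=
      le_sup_right (α := Ideal (Poly 3)) (Ideal.mem_span_singleton_self _)
    have h2 := Ideal.Quotient.eq_zero_iff_mem.2 h1
    rwa [map_sub, map_one, sub_eq_zero] at h2
  have hpsi : ∀ i, psi F (X i) = Ideal.Quotient.mk J (![X 1, X 2] i) := by
    intro i
    change Ideal.Quotient.mk J (aeval ![X 1, X 2] (X i)) = _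
    rw [aeval_X]
  have hev : ∀ G, (uni ![1, X 0, X 1] G).eval₂ (psi F).toRingHom (Ideal.Quotient.mk J (X 3)) =
      Ideal.Quotient.mk J G := by
    intro G
    have h : (Polynomial.eval₂RingHom (psi F).toRingHom (Ideal.Quotient.mk J (X 3))).comp
        (uni ![1, X 0, X 1] : Poly 3 →ₐ[ℂ] Polynomial (MvPolynomial (Fin 2) ℂ)).toRingHom =
        Ideal.Quotient.mk J := by
      apply MvPolynomial.ringHom_ext
      · intro r
        change Polynomial.eval₂ _ _ (uni ![1, X 0, X 1] (C r)) = _
        have h1 : uni ![1, X 0, X 1] (C r) = Polynomial.C (C r : MvPolynomial (Fin 2) ℂ) := by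
          rw [← MvPolynomial.algebraMap_eq, AlgHom.commutes]
          rfl
        rw [h1, Polynomial.eval₂_C]
        change psi F (C r) = _
        rw [← MvPolynomial.algebraMap_eq, AlgHom.commutes]
        rfl
      · intro i
        change Polynomial.eval₂ _ _ (uni ![1, X 0, X 1] (X i)) = _
        rw [uni, aeval_X]
        fin_cases i
        · change Polynomial.eval₂ _ _ (Polynomial.C 1) = Ideal.Quotient.mk J (X 0)
          rw [hX0, Polynomial.eval₂_C, map_one]
        · change Polynomial.eval₂ _ _ (Polynomial.C (X 0)) = Ideal.Quotient.mk J (X 1)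
          rw [Polynomial.eval₂_C]
          exact hpsi 0
        · change Polynomial.eval₂ _ _ (Polynomial.C (X 1)) = Ideal.Quotient.mk J (X 2)
          rw [Polynomial.eval₂_C]
          exact hpsi 1
        · change Polynomial.eval₂ _ _ Polynomial.X = Ideal.Quotient.mk J (X 3)
          rw [Polynomial.eval₂_X]
    exact congrArg (fun g => g G) h
  intro x
  obtain ⟨G, rfl⟩ := Ideal.Quotient.mk_surjective x
  induction G using MvPolynomial.induction_on with
  | C r =>
    have h1 : Ideal.Quotient.mk J (C r) = (psi F).toRingHom (C r) := by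
      change _ = psi F (C r)
      rw [← MvPolynomial.algebraMap_eq, ← MvPolynomial.algebraMap_eq, AlgHom.commutes]
      rfl
    rw [h1]
    exact RingHom.isIntegralElem_map _
  | add f g hf hg =>
    rw [map_add]
    exact RingHom.IsIntegralElem.add _ hf hg
  | mul_X f i hf =>
    rw [map_mul]
    refine RingHom.IsIntegralElem.mul _ hf ?_
    fin_cases i
    · change (psi F).toRingHom.IsIntegralElem (Ideal.Quotient.mk J (X 0))
      rw [hX0, ← map_one (psi F).toRingHom]
      exact RingHom.isIntegralElem_map _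
    · change (psi F).toRingHom.IsIntegralElem (Ideal.Quotient.mk J (X 1))
      have h1 : Ideal.Quotient.mk J (X 1) = (psi F).toRingHom (X 0) := (hpsi 0).symm
      rw [h1]
      exact RingHom.isIntegralElem_map _
    · change (psi F).toRingHom.IsIntegralElem (Ideal.Quotient.mk J (X 2))
      have h1 : Ideal.Quotient.mk J (X 2) = (psi F).toRingHom (X 1) := (hpsi 1).symm
      rw [h1]
      exact RingHom.isIntegralElem_map _
    · refine ⟨uni ![1, X 0, X 1] (C (coeff (Finsupp.single 3 d) F)⁻¹ * F),
        uni_monic _ hF hm, ?_⟩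
      change Polynomial.eval₂ _ (Ideal.Quotient.mk J (X 3)) _ = 0
      rw [hev, Ideal.Quotient.eq_zero_iff_mem]
      exact le_sup_left (α := Ideal (Poly 3))
        (Ideal.mul_mem_left _ _ (Ideal.mem_span_singleton_self F))

namespace IsChart

variable {F : Poly 3} {v : Fin 4 → ℂ} {T : Poly 3 →ₐ[ℂ] MvPowerSeries (Fin 2) ℂ}

theorem isPrime (h : IsChart F v T) {d : ℕ} (hF : F.IsHomogeneous d) (hirr : Irreducible F) :
    (Ideal.span {F} ⊔ Ideal.span {(X 0 - 1 : Poly 3)}).IsPrime := by
  refine affine_isPrime (isPrime_span hirr) (homog_span_singleton hF) (isHomogeneous_X ℂ (0 : Fin 4)) ?_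
  intro h1
  obtain ⟨G, hG⟩ := Ideal.mem_span_singleton.1 h1
  have h2 := h.T0
  rw [hG, map_mul, h.TF, zero_mul] at h2
  exact zero_ne_one h2

/-- **the kernel of the chart** -/
theorem eq_zero_iff (h : IsChart F v T) {d : ℕ} (hF : F.IsHomogeneous d)
    (hm : coeff (Finsupp.single 3 d) F ≠ 0) (hirr : Irreducible F) {G : Poly 3} :
    T G = 0 ↔ G ∈ Ideal.span {F} ⊔ Ideal.span {(X 0 - 1 : Poly 3)} := by
  set J := Ideal.span {F} ⊔ Ideal.span {(X 0 - 1 : Poly 3)} with hJ
  have hle : J ≤ RingHom.ker T := by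
    refine sup_le ?_ ?_
    · rw [Ideal.span_singleton_le_iff_mem, RingHom.mem_ker, h.TF]
    · rw [Ideal.span_singleton_le_iff_mem, RingHom.mem_ker, map_sub, h.T0, map_one, sub_self]
  constructor
  · intro hG
    have hJp : J.IsPrime := h.isPrime hF hirr
    let Θ : Poly 3 ⧸ J →+* MvPowerSeries (Fin 2) ℂ := Ideal.Quotient.lift J T.toRingHom
      fun a ha => hle ha
    have hΘ : ∀ a, Θ (Ideal.Quotient.mk J a) = T a := fun a => rfl
    let _ : Algebra (MvPolynomial (Fin 2) ℂ) (Poly 3 ⧸ J) := (psi F).toRingHom.toAlgebra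
    have hint : Algebra.IsIntegral (MvPolynomial (Fin 2) ℂ) (Poly 3 ⧸ J) :=
      ⟨psi_integral hF hm⟩
    have hexp : ∀ q, Θ (psi F q) = expand ![v 1, v 2] q := by
      intro q
      have h1 : T.comp (aeval ![X 1, X 2]) = expand ![v 1, v 2] := by
        apply MvPolynomial.algHom_ext
        intro i
        rw [expand_X, AlgHom.comp_apply, aeval_X]
        fin_cases i
        · exact h.T1
        · exact h.T2
      rw [← h1]
      rfl
    have h1 : (RingHom.ker Θ).comap (algebraMap (MvPolynomial (Fin 2) ℂ) (Poly 3 ⧸ J)) = ⊥ := by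
      rw [eq_bot_iff]
      intro r hr
      rw [Ideal.mem_comap, RingHom.mem_ker] at hr
      have hr' : Θ (psi F r) = 0 := hr
      rw [hexp] at hr'
      have := expand_injective _ (hr'.trans (map_zero _).symm)
      rw [this]
      exact zero_mem _
    have h2 := Ideal.eq_bot_of_comap_eq_bot h1
    have h3 : Ideal.Quotient.mk J G ∈ RingHom.ker Θ := by
      rw [RingHom.mem_ker, hΘ, hG]
    rw [h2, Ideal.mem_bot] at h3
    exact Ideal.Quotient.eq_zero_iff_mem.1 h3
  · intro hG
    exact hle hG

/-- a form which vanishes on the chart is a multiple of `F` -/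
theorem dvd_of_eq_zero (h : IsChart F v T) {d : ℕ} (hF : F.IsHomogeneous d)
    (hm : coeff (Finsupp.single 3 d) F ≠ 0) (hirr : Irreducible F) {G : Poly 3} {m : ℕ}
    (hG : G.IsHomogeneous m) (h0 : T G = 0) : F ∣ G := by
  rw [h.eq_zero_iff hF hm hirr] at h0
  rw [← Ideal.mem_span_singleton]
  refine affine_mem (isPrime_span hirr) (homog_span_singleton hF) (isHomogeneous_X ℂ (0 : Fin 4)) ?_ hG h0
  intro h1
  obtain ⟨G, hG⟩ := Ideal.mem_span_singleton.1 h1
  have h2 := h.T0
  rw [hG, map_mul, h.TF, zero_mul] at h2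
  exact zero_ne_one h2

/-- **a form which is not divisible by `F` has finite order** -/
theorem exists_order (h : IsChart F v T) (hs : eval v (pderiv 3 F) ≠ 0) {d : ℕ}
    (hF : F.IsHomogeneous d) (hm : coeff (Finsupp.single 3 d) F ≠ 0) (hirr : Irreducible F)
    {G : Poly 3} {m : ℕ} (hG : G.IsHomogeneous m) (hFG : ¬ F ∣ G) :
    ∃ β : ℕ, G ∉ K F v (β + 1) := by
  have h1 : T G ≠ 0 := fun h0 => hFG (h.dvd_of_eq_zero hF hm hirr hG h0)
  have h2 : (T G).order ≠ ⊤ := fun h3 => h1 (MvPowerSeries.order_eq_top_iff.1 h3)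
  obtain ⟨a, ha⟩ := ENat.ne_top_iff_exists.1 h2
  refine ⟨a, ?_⟩
  rw [h.mem_K_iff hs, mem_ordIdeal, ← ha]
  norm_cast
  omega

end IsChart

/-- **forms of degree at least `w - 1` separate the jets of order `w`** -/
theorem IsChart.exists_form {F : Poly 3} {v : Fin 4 → ℂ}
    {T : Poly 3 →ₐ[ℂ] MvPowerSeries (Fin 2) ℂ} (h : IsChart F v T)
    (hs : eval v (pderiv 3 F) ≠ 0) {w m : ℕ} (hwm : w ≤ m + 1) (f : Poly 3) :
    ∃ g : Poly 3, g.IsHomogeneous m ∧ f - g ∈ K F v w := by
  classical
  have hC : ∀ c : ℂ, T (C c) = MvPowerSeries.C c := fun c => by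
    rw [← MvPolynomial.algebraMap_eq, AlgHom.commutes]; rfl
  set Q : MvPolynomial (Fin 2) ℂ := MvPowerSeries.truncTotal w (T f) with hQ
  have hdeg : ∀ e ∈ Q.support, e.degree < w := by
    intro e he
    by_contra hlt
    rw [mem_support_iff] at he
    exact he (MvPowerSeries.coeff_truncTotal_eq_zero _ (by omega))
  set g : Poly 3 := ∑ e ∈ Q.support, C (coeff e Q) * ((X 1 - C (v 1) * X 0) ^ (e 0) *
    (X 2 - C (v 2) * X 0) ^ (e 1) * X 0 ^ (m - e.degree)) with hg
  have hTg : T g = (Q : MvPowerSeries (Fin 2) ℂ) := by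
    rw [← h.map_aeval Q, aeval_def, eval₂_eq', hg, map_sum, map_sum]
    refine Finset.sum_congr rfl fun e _ => ?_
    rw [Fin.prod_univ_two]
    simp only [map_mul, map_pow, map_sub, hC, h.T0, h.T1, h.T2, MvPolynomial.algebraMap_eq,
      Matrix.cons_val_zero, Matrix.cons_val_one, one_pow, mul_one]
  refine ⟨g, ?_, ?_⟩
  · rw [hg]
    refine IsHomogeneous.sum _ _ _ fun e he => ?_
    have hX : ∀ (i : Fin 4) (c : ℂ), (X i - C c * X 0 : Poly 3).IsHomogeneous 1 := by
      intro i c
      refine IsHomogeneous.sub (isHomogeneous_X ℂ i) ?_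
      have := (isHomogeneous_C (Fin 4) c).mul (isHomogeneous_X ℂ (0 : Fin 4))
      rwa [zero_add] at this
    have h1 := (isHomogeneous_C (Fin 4) (coeff e Q)).mul
      ((((hX 1 (v 1)).pow (e 0)).mul ((hX 2 (v 2)).pow (e 1))).mul
        ((isHomogeneous_X ℂ (0 : Fin 4)).pow (m - e.degree)))
    have h2 : 0 + (1 * e 0 + 1 * e 1 + 1 * (m - e.degree)) = m := by
      have h3 := hdeg e he
      have h4 : e.degree = e 0 + e 1 := by
        rw [Finsupp.degree_eq_sum]
        exact Fin.sum_univ_two _
      omega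
    rwa [h2] at h1
  · rw [h.mem_K_iff hs, map_sub, hTg, mem_ordIdeal']
    intro e he
    rw [map_sub, MvPolynomial.coeff_coe, hQ, MvPowerSeries.coeff_truncTotal _ he, sub_self]

/-! ### the same statements without the chart -/

theorem pow_le_K {F : Poly 3} {v : Fin 4 → ℂ} {w : ℕ} : vecIdeal v ^ w ≤ K F v w :=
  le_sup_right.trans le_sup_left

theorem K_anti {F : Poly 3} {v : Fin 4 → ℂ} {w w' : ℕ} (h : w ≤ w') : K F v w' ≤ K F v w :=
  sup_le_sup_right (sup_le_sup_left (Ideal.pow_le_pow_right h) _) _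

section

variable {F : Poly 3} {v : Fin 4 → ℂ} {d : ℕ} (hF : F.IsHomogeneous d)
  (hm : coeff (Finsupp.single 3 d) F ≠ 0) (h0 : v 0 = 1) (hv : eval v F = 0)
  (hs : eval v (pderiv 3 F) ≠ 0)

include hF hm h0 hv hs

/-- **(C1)** the number of conditions imposed by a point of multiplicity `w` -/
theorem finrank_K (w : ℕ) : 2 * Module.finrank ℂ (Poly 3 ⧸ K F v w) = w * (w + 1) := by
  obtain ⟨T, hT⟩ := exists_isChart hF hm h0 hv hs
  exact hT.finrank_K hs w

/-- **(C2)** the order at `v` is a valuation -/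
theorem K_mul {w β : ℕ} {G H : Poly 3} (hGH : G * H ∈ K F v w) (hG : G ∉ K F v (β + 1)) :
    H ∈ K F v (w - β) := by
  obtain ⟨T, hT⟩ := exists_isChart hF hm h0 hv hs
  exact hT.mem_of_mul_mem hs hGH hG

/-- **(C3)** the order of a form which is not divisible by `F` is finite -/
theorem exists_not_mem_K (hirr : Irreducible F) {G : Poly 3} {m : ℕ} (hG : G.IsHomogeneous m)
    (hFG : ¬ F ∣ G) : ∃ β : ℕ, G ∉ K F v (β + 1) := by
  obtain ⟨T, hT⟩ := exists_isChart hF hm h0 hv hs
  exact hT.exists_order hs hF hm hirr hG hFG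

/-- (C2) and (C3) together -/
theorem exists_beta (hirr : Irreducible F) {b : Poly 3} {m : ℕ} (hb : b.IsHomogeneous m)
    (hFb : ¬ F ∣ b) : ∃ β : ℕ, ∀ w f, b * f ∈ K F v w → f ∈ K F v (w - β) := by
  obtain ⟨β, hβ⟩ := exists_not_mem_K hF hm h0 hv hs hirr hb hFb
  exact ⟨β, fun w f hf => K_mul hF hm h0 hv hs hf hβ⟩

/-- **(C4)** forms of degree at least `w - 1` surject onto the jets of order `w` -/
theorem exists_form_sub_mem_K {w m : ℕ} (hwm : w ≤ m + 1) (f : Poly 3) :
    ∃ g : Poly 3, g.IsHomogeneous m ∧ f - g ∈ K F v w := by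
  obtain ⟨T, hT⟩ := exists_isChart hF hm h0 hv hs
  exact hT.exists_form hs hwm f

end

end Pool.Agent.Lib.MP_ed661f_ag.S
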