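import Pool.Agent.Lib.MP_ed661f_ag.H.Limit
import Pool.Agent.Lib.MP_ed661f_ag.H.Main

/-!
From irreducible curves to arbitrary one-dimensional homogeneous ideals.
-/

set_option autoImplicit false

open MvPolynomial

namespace Pool.Agent.Lib.MP_ed661f_ag.S

open H

variable {N : ℕ}

/-- the weighted sum of the (local) degrees at the vectors `e i` is at most the degree; all
numbers up to `ε` -/
def Bd {r : ℕ} (l : Fin r → Poly N) (e : Fin r → Fin (N + 1) → ℂ) (w : Fin r → ℝ)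
    (J : Ideal (Poly N)) : Prop :=
  ∀ ε : ℝ, 0 < ε → ∃ (D : ℝ) (M : Fin r → ℝ) (C : ℝ),
    (∀ k : ℕ, D * k - C ≤ hilb J k) ∧ (∀ i t, (lam J (l i) (e i) t : ℝ) ≤ M i * t + C) ∧
      ∑ i, w i * M i ≤ D + ε


/-! ### homogeneous components of products -/

private theorem noeth_comp {F : Poly N} {κ : ℕ} (hF : F.IsHomogeneous κ) (G : Poly N) (k : ℕ) :
    homogeneousComponent k (F * G) = F * ∑ i ∈ Finset.range (G.totalDegree + 1),
      if κ + i = k then homogeneousComponent i G else 0 := by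
  conv_lhs => rw [← sum_homogeneousComponent G]
  rw [Finset.mul_sum, map_sum, Finset.mul_sum]
  refine Finset.sum_congr rfl fun i _ => ?_
  have h1 : F * homogeneousComponent i G ∈ homogeneousSubmodule (Fin (N + 1)) ℂ (κ + i) :=
    hF.mul (homogeneousComponent_isHomogeneous i G)
  rw [homogeneousComponent_of_mem h1]
  by_cases h : κ + i = k
  · rw [if_pos h, if_pos h.symm]
  · rw [if_neg h, if_neg (fun h' => h h'.symm), mul_zero]

private theorem noeth_comp' {F : Poly N} {κ : ℕ} (hF : F.IsHomogeneous κ) (G : Poly N) (j : ℕ) :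
    homogeneousComponent (κ + j) (F * G) = F * homogeneousComponent j G := by
  rw [noeth_comp hF]
  congr 1
  by_cases hj : j < G.totalDegree + 1
  · rw [Finset.sum_eq_single j]
    · rw [if_pos rfl]
    · intro i _ hi
      rw [if_neg]
      omega
    · intro h
      exact absurd (Finset.mem_range.2 hj) h
  · rw [homogeneousComponent_eq_zero _ _ (by omega)]
    refine Finset.sum_eq_zero fun i hi => ?_
    rw [if_neg]
    have := Finset.mem_range.1 hi
    omega

private theorem noeth_colon {J J₁ : Ideal (Poly N)} (hJ : Homog J) {F : Poly N} {κ : ℕ}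
    (hF : F.IsHomogeneous κ) (h₁ : ∀ x, x ∈ J₁ ↔ F * x ∈ J) : Homog J₁ := by
  intro x hx j
  rw [h₁, ← noeth_comp' hF]
  exact hJ _ ((h₁ x).1 hx) _

private theorem noeth_sup {J : Ideal (Poly N)} (hJ : Homog J) {F : Poly N} {κ : ℕ}
    (hF : F.IsHomogeneous κ) : Homog (J ⊔ Ideal.span {F}) := by
  intro x hx j
  obtain ⟨p, hp, q, hq, rfl⟩ := Submodule.mem_sup.1 hx
  obtain ⟨c, rfl⟩ := Ideal.mem_span_singleton'.1 hq
  rw [map_add, mul_comm c F, noeth_comp hF]
  exact Submodule.add_mem_sup (hJ p hp j)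
    (Ideal.mul_mem_right _ _ (Ideal.mem_span_singleton_self F))

private theorem noeth_split {J : Ideal (Poly N)} (hJ : Homog J) (hne : J ≠ ⊤)
    (hnp : ¬ J.IsPrime) : ∃ (a b : Poly N) (α : ℕ), a.IsHomogeneous α ∧ a ∉ J ∧ b ∉ J ∧
      a * b ∈ J := by
  by_contra hcon
  push Not at hcon
  apply hnp
  let _ := MvPolynomial.gradedAlgebra (R := ℂ) (σ := Fin (N + 1))
  have h1 : J.IsHomogeneous (homogeneousSubmodule (Fin (N + 1)) ℂ) := by
    intro i x hx
    have := hJ x hx i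
    rw [← decomposition.decompose'_apply] at this
    exact this
  refine h1.isPrime_of_homogeneous_mem_or_mem hne ?_
  intro x y hx _ hxy
  obtain ⟨i, hi⟩ := hx
  by_contra hor
  push Not at hor
  exact hcon x y i hi hor.1 hor.2 hxy

/-! ### the Hilbert function -/

private noncomputable def noethW (J : Ideal (Poly N)) (k : ℕ) : Submodule ℂ (Poly N ⧸ J) :=
  (homogeneousSubmodule (Fin (N + 1)) ℂ k).map (Ideal.Quotient.mkₐ ℂ J).toLinearMap

private theorem noeth_finite (J : Ideal (Poly N)) (k : ℕ) : Module.Finite ℂ (noethW J k) := by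
  have := finite_formsN (N := N) k
  unfold noethW
  infer_instance

private theorem noeth_map {J J' : Ideal (Poly N)} (h : J ≤ J') (k : ℕ) :
    (noethW J k).map (Ideal.Quotient.factorₐ ℂ h).toLinearMap = noethW J' k := by
  unfold noethW
  rw [← Submodule.map_comp]
  rfl

private theorem noeth_hilb {J J₁ : Ideal (Poly N)} {F : Poly N} {κ : ℕ}
    (hF : F.IsHomogeneous κ) (h₁ : ∀ x, x ∈ J₁ ↔ F * x ∈ J) (j : ℕ) :
    hilb J₁ j + hilb (J ⊔ Ideal.span {F}) (j + κ) ≤ hilb J (j + κ) := by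
  have hle : J ≤ J ⊔ Ideal.span {F} := le_sup_left
  set π := (Ideal.Quotient.factorₐ ℂ hle).toLinearMap with hπ
  have hfin := noeth_finite J (j + κ)
  have hfin' := noeth_finite J₁ j
  have h1 := (π.domRestrict (noethW J (j + κ))).finrank_range_add_finrank_ker
  have h2 : LinearMap.range (π.domRestrict (noethW J (j + κ))) =
      noethW (J ⊔ Ideal.span {F}) (j + κ) := by
    rw [LinearMap.range_domRestrict, hπ, noeth_map hle]
  -- multiplication by `F`
  let f0 : Poly N →ₗ[ℂ] (Poly N ⧸ J) :=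
    (Ideal.Quotient.mkₐ ℂ J).toLinearMap.comp (LinearMap.mulLeft ℂ F)
  let φ : (Poly N ⧸ J₁) →ₗ[ℂ] (Poly N ⧸ J) :=
    (Submodule.liftQ (J₁.restrictScalars ℂ) f0 (by
      intro a ha
      rw [LinearMap.mem_ker]
      exact Ideal.Quotient.eq_zero_iff_mem.2 ((h₁ a).1 ha)))
  have hφ : ∀ a, φ (Ideal.Quotient.mk J₁ a) = Ideal.Quotient.mk J (F * a) := fun a => rfl
  have hφinj : Function.Injective φ := by
    rw [← LinearMap.ker_eq_bot, LinearMap.ker_eq_bot']
    intro x hx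
    obtain ⟨a, rfl⟩ := Ideal.Quotient.mk_surjective x
    rw [hφ, Ideal.Quotient.eq_zero_iff_mem, ← h₁] at hx
    exact Ideal.Quotient.eq_zero_iff_mem.2 hx
  have hmem : ∀ x ∈ noethW J₁ j, φ x ∈ noethW J (j + κ) := by
    rintro x ⟨G, hG, rfl⟩
    refine ⟨F * G, ?_, ?_⟩
    · have := hF.mul ((mem_homogeneousSubmodule _ _).1 hG)
      rw [add_comm κ j] at this
      exact this
    · rfl
  have hker : ∀ x : Poly N ⧸ J₁, π (φ x) = 0 := by
    intro x
    obtain ⟨G, rfl⟩ := Ideal.Quotient.mk_surjective x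
    rw [hφ]
    show Ideal.Quotient.mk (J ⊔ Ideal.span {F}) (F * G) = 0
    rw [Ideal.Quotient.eq_zero_iff_mem]
    exact Ideal.mul_mem_right _ _ (Ideal.mem_sup_right (Ideal.mem_span_singleton_self F))
  let f : noethW J₁ j →ₗ[ℂ] LinearMap.ker (π.domRestrict (noethW J (j + κ))) :=
    { toFun := fun x => ⟨⟨φ x, hmem x x.2⟩, hker x⟩
      map_add' := by
        intro x y
        apply Subtype.ext
        apply Subtype.ext
        exact map_add φ (x : Poly N ⧸ J₁) y
      map_smul' := by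
        intro c x
        apply Subtype.ext
        apply Subtype.ext
        exact map_smul φ c (x : Poly N ⧸ J₁) }
  have hf : Function.Injective f := by
    intro x y hxy
    have h3 : φ (x : Poly N ⧸ J₁) = φ y :=
      congrArg (fun z : LinearMap.ker (π.domRestrict (noethW J (j + κ))) =>
        ((z : noethW J (j + κ)) : Poly N ⧸ J)) hxy
    exact Subtype.ext (hφinj h3)
  have h3 := LinearMap.finrank_le_finrank_of_injective hf
  have e1 : hilb J₁ j = Module.finrank ℂ (noethW J₁ j) := rfl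
  have e2 : hilb J (j + κ) = Module.finrank ℂ (noethW J (j + κ)) := rfl
  have e3 : hilb (J ⊔ Ideal.span {F}) (j + κ) =
    Module.finrank ℂ (noethW (J ⊔ Ideal.span {F}) (j + κ)) := rfl
  rw [h2] at h1
  omega

/-! ### the jets -/

private theorem noeth_lam {J J₁ : Ideal (Poly N)} {F : Poly N} (h₁ : ∀ x, x ∈ J₁ ↔ F * x ∈ J)
    (l : Poly N) (v : Fin (N + 1) → ℂ) (t : ℕ) :
    lam J l v t ≤ lam J₁ l v t + lam (J ⊔ Ideal.span {F}) l v t := by
  unfold lam
  obtain ⟨A, hA⟩ : ∃ A, A = J₁ ⊔ vecIdeal v ^ t ⊔ Ideal.span {l - 1} := ⟨_, rfl⟩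
  obtain ⟨B, hB⟩ : ∃ B, B = J ⊔ vecIdeal v ^ t ⊔ Ideal.span {l - 1} := ⟨_, rfl⟩
  obtain ⟨D, hD⟩ : ∃ D, D = J ⊔ Ideal.span {F} ⊔ vecIdeal v ^ t ⊔ Ideal.span {l - 1} :=
    ⟨_, rfl⟩
  rw [← hA, ← hB, ← hD]
  have hf1 : Module.Finite ℂ (Poly N ⧸ A) :=
    finite_quot (v := v) (s := t) (hA ▸ le_sup_right.trans le_sup_left)
  have hf2 : Module.Finite ℂ (Poly N ⧸ B) :=
    finite_quot (v := v) (s := t) (hB ▸ le_sup_right.trans le_sup_left)
  have hBD : B ≤ D := by
    rw [hB, hD]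
    exact sup_le_sup_right (sup_le_sup_right le_sup_left _) _
  have hDB : D ≤ B ⊔ Ideal.span {F} := by
    rw [hD, hB]
    refine sup_le (sup_le (sup_le ?_ le_sup_right) ?_) ?_
    · exact le_sup_left.trans (le_sup_left.trans le_sup_left)
    · exact le_sup_right.trans (le_sup_left.trans le_sup_left)
    · exact le_sup_right.trans le_sup_left
  have hmul : ∀ a ∈ A, F * a ∈ B := by
    intro a ha
    rw [hA] at ha
    obtain ⟨q, hq, s, hs, rfl⟩ := Submodule.mem_sup.1 ha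
    obtain ⟨p, hp, m, hm, rfl⟩ := Submodule.mem_sup.1 hq
    rw [mul_add, mul_add, hB]
    exact Submodule.add_mem_sup (Submodule.add_mem_sup ((h₁ p).1 hp)
      (Ideal.mul_mem_left _ _ hm)) (Ideal.mul_mem_left _ _ hs)
  let f0 : Poly N →ₗ[ℂ] (Poly N ⧸ B) :=
    (Ideal.Quotient.mkₐ ℂ B).toLinearMap.comp (LinearMap.mulLeft ℂ F)
  let f : (Poly N ⧸ A) →ₗ[ℂ] (Poly N ⧸ B) :=
    (Submodule.liftQ (A.restrictScalars ℂ) f0 (by
      intro a ha
      rw [LinearMap.mem_ker]
      exact Ideal.Quotient.eq_zero_iff_mem.2 (hmul a ha)))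
  have hfapp : ∀ a, f (Ideal.Quotient.mk A a) = Ideal.Quotient.mk B (F * a) := fun a => rfl
  let g : (Poly N ⧸ B) →ₗ[ℂ] (Poly N ⧸ D) := (Ideal.Quotient.factorₐ ℂ hBD).toLinearMap
  have hgapp : ∀ a, g (Ideal.Quotient.mk B a) = Ideal.Quotient.mk D a := fun a => rfl
  have hgs : Function.Surjective g := Ideal.Quotient.factor_surjective hBD
  have hker : LinearMap.ker g ≤ LinearMap.range f := by
    intro x hx
    obtain ⟨a, rfl⟩ := Ideal.Quotient.mk_surjective x
    rw [LinearMap.mem_ker, hgapp, Ideal.Quotient.eq_zero_iff_mem] at hx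
    obtain ⟨b, hb, c, hc, rfl⟩ := Submodule.mem_sup.1 (hDB hx)
    obtain ⟨d, rfl⟩ := Ideal.mem_span_singleton'.1 hc
    refine ⟨Ideal.Quotient.mk A d, ?_⟩
    rw [hfapp, map_add, Ideal.Quotient.eq_zero_iff_mem.2 hb, zero_add, mul_comm]
  have h1 := LinearMap.finrank_range_add_finrank_ker g
  rw [LinearMap.range_eq_top.2 hgs, finrank_top] at h1
  have h2 : Module.finrank ℂ (LinearMap.ker g) ≤ Module.finrank ℂ (LinearMap.range f) :=
    Submodule.finrank_mono hker
  have h3 : Module.finrank ℂ (LinearMap.range f) ≤ Module.finrank ℂ (Poly N ⧸ A) :=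
    LinearMap.finrank_range_le f
  omega

/-! ### dimensions -/

private theorem noeth_le {x : WithBot ℕ∞} {n : ℕ} (h : x + 1 ≤ ((n + 1 : ℕ) : WithBot ℕ∞)) :
    x ≤ (n : WithBot ℕ∞) := by
  have h1 : ((n + 1 : ℕ) : WithBot ℕ∞) = (n : WithBot ℕ∞) + 1 := by push_cast; rfl
  rw [h1] at h
  exact ENat.WithBot.add_le_add_one_right_iff.1 h

private theorem noeth_lt {x : WithBot ℕ∞} (h : x ≤ ((2 : ℕ) : WithBot ℕ∞)) (h2 : x ≠ 2) :
    x ≤ ((1 : ℕ) : WithBot ℕ∞) := by
  have h3 : x < ((2 : ℕ) : WithBot ℕ∞) := lt_of_le_of_ne h (by intro h4; exact h2 (by rw [h4]; rfl))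
  exact noeth_le (ENat.WithBot.add_one_le_natCast_iff.2 h3)

/-- a prime quotient loses a dimension modulo an element outside the prime -/
private theorem noeth_dim {P Q : Ideal (Poly N)} (hP : P.IsPrime) {x : Poly N} (hx : x ∉ P)
    (hPQ : P ≤ Q) (hxQ : x ∈ Q) : ringKrullDim (Poly N ⧸ Q) + 1 ≤ ringKrullDim (Poly N ⧸ P) := by
  have : IsDomain (Poly N ⧸ P) := Ideal.Quotient.isDomain P
  have hne : Ideal.Quotient.mk P x ≠ 0 := by
    rw [Ne, Ideal.Quotient.eq_zero_iff_mem]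
    exact hx
  have h1 := ringKrullDim_quotient_succ_le_of_nonZeroDivisor (mem_nonZeroDivisors_of_ne_zero hne)
  refine le_trans (add_le_add_left ?_ 1) h1
  let g : (Poly N ⧸ P) →+* (Poly N ⧸ Q) := Ideal.Quotient.factor hPQ
  have hg : ∀ a ∈ Ideal.span {Ideal.Quotient.mk P x}, g a = 0 := by
    intro a ha
    obtain ⟨c, rfl⟩ := Ideal.mem_span_singleton'.1 ha
    have h2 : g (Ideal.Quotient.mk P x) = 0 := by
      show Ideal.Quotient.mk Q x = 0
      exact Ideal.Quotient.eq_zero_iff_mem.2 hxQ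
    rw [map_mul, h2, mul_zero]
  refine ringKrullDim_le_of_surjective (Ideal.Quotient.lift _ g hg) ?_
  intro y
  obtain ⟨z, rfl⟩ := Ideal.Quotient.mk_surjective y
  exact ⟨Ideal.Quotient.mk _ (Ideal.Quotient.mk P z), rfl⟩

/-- bounded jets in dimension at most one -/
private theorem noeth_bdd {P : Ideal (Poly N)} (hP : P.IsPrime) (hh : Homog P)
    (hd : ringKrullDim (Poly N ⧸ P) ≤ ((1 : ℕ) : WithBot ℕ∞)) {l : Poly N}
    (hl : l.IsHomogeneous 1) (v : Fin (N + 1) → ℂ) : ∃ c : ℕ, ∀ t, lam P l v t ≤ c := by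
  have hlP : l - 1 ∉ P := by
    intro hmem
    have h1 := hh _ hmem 0
    have hl' : l ∈ homogeneousSubmodule (Fin (N + 1)) ℂ 1 := hl
    have h1' : (1 : Poly N) ∈ homogeneousSubmodule (Fin (N + 1)) ℂ 0 := isHomogeneous_one _ _
    rw [map_sub, homogeneousComponent_of_mem hl', homogeneousComponent_of_mem h1',
      if_neg (by norm_num), if_pos rfl, zero_sub] at h1
    exact hP.ne_top ((Ideal.eq_top_iff_one P).2 (by simpa using P.neg_mem h1))
  have h2 := noeth_dim hP hlP (Q := P ⊔ Ideal.span {l - 1}) le_sup_left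
    (Ideal.mem_sup_right (Ideal.mem_span_singleton_self _))
  have h3 : ringKrullDim (Poly N ⧸ (P ⊔ Ideal.span {l - 1})) ≤ ((0 : ℕ) : WithBot ℕ∞) :=
    noeth_le (h2.trans hd)
  have h4 : Ring.KrullDimLE 0 (Poly N ⧸ (P ⊔ Ideal.span {l - 1})) :=
    Ring.krullDimLE_iff.2 h3
  have hart : IsArtinianRing (Poly N ⧸ (P ⊔ Ideal.span {l - 1})) := by
    rw [isArtinianRing_iff_krullDimLE_zero]
    exact h4
  have hfin : Module.Finite ℂ (Poly N ⧸ (P ⊔ Ideal.span {l - 1})) :=
    Module.finite_of_isArtinianRing ℂ _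
  refine ⟨Module.finrank ℂ (Poly N ⧸ (P ⊔ Ideal.span {l - 1})), fun t => ?_⟩
  unfold lam
  exact slice_finrank_anti (sup_le (le_sup_left.trans le_sup_left) le_sup_right)

private theorem noeth_zero {r : ℕ} {l : Fin r → Poly N} {e : Fin r → Fin (N + 1) → ℂ}
    {w : Fin r → ℝ} {J : Ideal (Poly N)} (h : ∀ i, ∃ c : ℕ, ∀ t, lam J (l i) (e i) t ≤ c) :
    Bd l e w J := by
  intro ε hε
  choose c hc using h
  refine ⟨0, fun _ => 0, ∑ i, (c i : ℝ), fun k => ?_, fun i t => ?_, ?_⟩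
  · have h1 : (0 : ℝ) ≤ ∑ i, (c i : ℝ) := Finset.sum_nonneg fun i _ => Nat.cast_nonneg _
    have h2 : (0 : ℝ) ≤ hilb J k := Nat.cast_nonneg _
    linarith
  · have h1 : (c i : ℝ) ≤ ∑ i, (c i : ℝ) :=
      Finset.single_le_sum (f := fun i => (c i : ℝ)) (fun _ _ => Nat.cast_nonneg _)
        (Finset.mem_univ i)
    have h2 : (lam J (l i) (e i) t : ℝ) ≤ c i := by exact_mod_cast hc i t
    linarith
  · simpa using hε.le

private theorem noeth_add {r : ℕ} {l : Fin r → Poly N} {e : Fin r → Fin (N + 1) → ℂ}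
    {w : Fin r → ℝ} {J J₁ : Ideal (Poly N)} {F : Poly N} {κ : ℕ} (hF : F.IsHomogeneous κ)
    (h₁ : ∀ x, x ∈ J₁ ↔ F * x ∈ J) (hB₁ : Bd l e w J₁) (hB₂ : Bd l e w (J ⊔ Ideal.span {F})) :
    Bd l e w J := by
  intro ε hε
  obtain ⟨D₁, M₁, C₁, hh₁, hl₁, hs₁⟩ := hB₁ (ε / 2) (by linarith)
  obtain ⟨D₂, M₂, C₂, hh₂, hl₂, hs₂⟩ := hB₂ (ε / 2) (by linarith)
  have hκ : (0 : ℝ) ≤ κ := Nat.cast_nonneg _
  have p1 : 0 ≤ |D₁| * κ := by positivity
  have p2 : 0 ≤ |D₁ + D₂| * κ := by positivity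
  have q1 : D₁ * κ ≤ |D₁| * κ := mul_le_mul_of_nonneg_right (le_abs_self _) hκ
  have a1 := le_abs_self C₁
  have a2 := le_abs_self C₂
  have b1 := abs_nonneg C₁
  have b2 := abs_nonneg C₂
  refine ⟨D₁ + D₂, fun i => M₁ i + M₂ i, |C₁| + |C₂| + |D₁| * κ + |D₁ + D₂| * κ,
    fun k => ?_, fun i t => ?_, ?_⟩
  · rcases le_or_gt κ k with hk | hk
    · obtain ⟨j, rfl⟩ := Nat.exists_eq_add_of_le hk
      have h1 := noeth_hilb hF h₁ j
      have h1' : (hilb J₁ j : ℝ) + hilb (J ⊔ Ideal.span {F}) (j + κ) ≤ hilb J (j + κ) := by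
        exact_mod_cast h1
      have h2 := hh₁ j
      have h3 := hh₂ (j + κ)
      rw [add_comm κ j]
      push_cast at h3 ⊢
      nlinarith
    · have h2 : (0 : ℝ) ≤ hilb J k := Nat.cast_nonneg _
      have h3 : (k : ℝ) ≤ κ := by exact_mod_cast hk.le
      have h4 : (D₁ + D₂) * k ≤ |D₁ + D₂| * κ :=
        mul_le_mul (le_abs_self _) h3 (Nat.cast_nonneg _) (abs_nonneg _)
      linarith
  · have h1 := noeth_lam h₁ (l i) (e i) t
    have h1' : (lam J (l i) (e i) t : ℝ) ≤ lam J₁ (l i) (e i) t +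
        lam (J ⊔ Ideal.span {F}) (l i) (e i) t := by exact_mod_cast h1
    have h2 := hl₁ i t
    have h3 := hl₂ i t
    show (lam J (l i) (e i) t : ℝ) ≤ (M₁ i + M₂ i) * t + _
    linarith
  · have h1 : ∑ i, w i * (M₁ i + M₂ i) = ∑ i, w i * M₁ i + ∑ i, w i * M₂ i := by
      rw [← Finset.sum_add_distrib]
      exact Finset.sum_congr rfl fun i _ => by ring
    show ∑ i, w i * (M₁ i + M₂ i) ≤ D₁ + D₂ + ε
    rw [h1]
    linarith

/- PROOF. Noetherian induction (`J` maximal counterexample; `Poly N` is Noetherian).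
`J = ⊤`: `hilb = 0`, `lam = 0`, `D = M = 0`.
`J` not prime: there are homogeneous `a, b ∉ J` with `a b ∈ J` (`Ideal.IsHomogeneous.isPrime_iff`
or directly with the components of lowest degree). `J₁ = {x | a x ∈ J}` and `J₂ = J ⊔ (a)` are
homogeneous and strictly larger than `J`. `hilb J k = hilb J₁ (k - deg a) + hilb J₂ k` for
`k ≥ deg a` (only `≥` is needed; as in `H.hilb_mul_le`),
`lam J i t ≤ lam J₁ i t + lam J₂ i t` (multiplication by `a`:
`R/(J₁ + m^t + (l-1)) → R/(J + m^t + (l-1)) → R/(J₂ + m^t + (l-1)) → 0`; as in `H.jetDim_succ_le`).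
Add the constants.
`J` prime: `ringKrullDim (R/J) < 3` because `I < J` are primes and `ringKrullDim (R/I) = 3`;
equal to 2: `hW`. At most 1: `D = 0`, `M = 0`: `l i - 1 ∉ J` (homogeneous, proper), and
`R/(J ⊔ (l i - 1))` is of dimension `0`, hence finite over `ℂ` (`Ring.KrullDimLE 0`,
`isArtinianRing_iff_krullDimLE_zero`, `Module.finite_of_isArtinianRing` as in `H.finite_quot`;
if `l i ∈ J` then `J ⊔ (l i - 1) = ⊤`), so `lam J i t ≤ finrank (R/(J ⊔ (l i - 1))) =: C`. -/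

/-- **(N)** the inequality for all irreducible curves on the surface implies the inequality for
all homogeneous ideals which contain the ideal of the surface properly -/
theorem bd_of_curves {I : Ideal (Poly N)} (hI : IsSurface I) {r : ℕ} {l : Fin r → Poly N}
    {e : Fin r → Fin (N + 1) → ℂ} {w : Fin r → ℝ} (hl : ∀ i, (l i).IsHomogeneous 1)
    (hle : ∀ i, eval (e i) (l i) = 1) (hW : ∀ Q, IsCurveOn I Q → Bd l e w Q)
    {J : Ideal (Poly N)} (hJ : Homog J) (hIJ : I < J) : Bd l e w J := by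
  induction J using WellFoundedGT.induction with
  | ind J ih =>
    by_cases htop : J = ⊤
    · subst htop
      refine noeth_zero fun i => ⟨0, fun t => ?_⟩
      unfold lam
      rw [top_sup_eq, top_sup_eq]
      have : Subsingleton (Poly N ⧸ (⊤ : Ideal (Poly N))) :=
        Ideal.Quotient.subsingleton_iff.2 rfl
      rw [Module.finrank_zero_of_subsingleton]
    · by_cases hp : J.IsPrime
      · obtain ⟨x, hxJ, hxI⟩ := Set.exists_of_ssubset hIJ
        have h1 := noeth_dim hI.prime hxI hIJ.le hxJ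
        rw [hI.dim] at h1
        have h2 : ringKrullDim (Poly N ⧸ J) ≤ ((2 : ℕ) : WithBot ℕ∞) := noeth_le h1
        by_cases hd : ringKrullDim (Poly N ⧸ J) = 2
        · exact hW J ⟨hp, hJ, hd, hIJ.le⟩
        · exact noeth_zero fun i => noeth_bdd hp hJ (noeth_lt h2 hd) (hl i) (e i)
      · obtain ⟨a, b, α, ha, haJ, hbJ, habJ⟩ := noeth_split hJ htop hp
        obtain ⟨J₁, h₁⟩ : ∃ J₁ : Ideal (Poly N), ∀ x, x ∈ J₁ ↔ a * x ∈ J := by
          refine ⟨Submodule.comap (LinearMap.mulLeft (Poly N) a) J, fun x => ?_⟩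
          rw [Submodule.mem_comap]
          rfl
        have hle₁ : J ≤ J₁ := fun x hx => (h₁ x).2 (J.mul_mem_left a hx)
        have hlt₁ : J < J₁ := lt_of_le_of_ne hle₁ (by
          intro h
          apply hbJ
          rw [h]
          exact (h₁ b).2 habJ)
        have hlt₂ : J < J ⊔ Ideal.span {a} := lt_of_le_of_ne le_sup_left (by
          intro h
          apply haJ
          rw [h]
          exact Ideal.mem_sup_right (Ideal.mem_span_singleton_self a))
        exact noeth_add ha h₁ (ih J₁ hlt₁ (noeth_colon hJ ha h₁) (hIJ.trans hlt₁))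
          (ih _ hlt₂ (noeth_sup hJ ha) (hIJ.trans hlt₂))

end Pool.Agent.Lib.MP_ed661f_ag.S
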