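import Pool.Agent.Lib.MP_ed661f_ag.S.LimJet
import Pool.Agent.Lib.MP_ed661f_ag.S.NoethInd

/-!
The collision theorem.
-/

set_option autoImplicit false

open MvPolynomial
open scoped ENNReal

namespace Pool.Agent.Lib.MP_ed661f_ag.S

open H

variable {N : ℕ}

/- PROOF. `P₀ = p.lim P`. `I ≤ P₀` (`span_le_lim`), `P₀` homogeneous (`lim_homog`),
`hilb P₀ k ≤ hilb P k` (`hilb_lim_le`). `I ≠ P₀`: `hilb P k ≤ d (k + b + 1)` (`H.exists_basis`,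
`H.hilb_le`, `H.finrank_forms_two` as in `H.deg_curve`) and `hilb I k ≥ (k+1)(k+2)/2`
(`H.exists_noether` with `r = 3`, `H.le_hilb`, `H.finrank_forms_three`). So `Bd l e w P₀`
(`bd_of_curves`); let `ε > 0` and `D, M, C` as there. `0 ≤ M i` because `lam ≥ 0`.
`D ≤ deg P`: `D k - C ≤ hilb P₀ k ≤ hilb P k`. For every `i`: `∑_{a,b} lam P (y i a b) t ≤
lam P₀ (e i) (k i (t+1)) ≤ M i * k i * (t+1) + C` (`sum_lam_le`), and `H.jetDim_le` gives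
`∑_{a,b} mult P (y i a b) ≤ M i * k i` (as in `H.mult_sum_le`). Sum:
`s ∑ mult ≤ ∑ s k_i M_i ≤ ∑ w_i M_i ≤ D + ε ≤ deg P + ε`. -/

/-- **(E)** the collision theorem -/
theorem collide (p : Place) {I : Ideal (Poly N)} (hI : IsSurface I) {S : Set (Poly N)}
    (hIS : I = Ideal.span S) (hS : ∀ F ∈ S, Over p.K F) {r : ℕ}
    {e : Fin r → Fin (N + 1) → ℂ} {l u v : Fin r → Poly N} {w : Fin r → ℝ}
    (hl1 : ∀ i, (l i).IsHomogeneous 1) (hl : ∀ i, Over p.K (l i)) (hu : ∀ i, Over p.K (u i))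
    (hv : ∀ i, Over p.K (v i)) (hsm : ∀ i, Smooth I (e i) (l i) (u i) (v i))
    (hW : ∀ Q, IsCurveOn I Q → Bd l e w Q)
    {k : Fin r → ℕ} {y : (i : Fin r) → Fin (k i) → Fin (k i) → Fin (N + 1) → ℂ}
    (hy : ∀ i, Grid p (e i) (l i) (u i) (v i) (k i) (y i))
    {s : ℝ} (hs : 0 ≤ s) (hsw : ∀ i, s * k i ≤ w i) {P : Ideal (Poly N)} (hP : IsCurveOn I P) :
    ENNReal.ofReal s * ∑ i, ∑ a, ∑ b, mult P (y i a b) ≤ deg P := by
  sorry

end Pool.Agent.Lib.MP_ed661f_ag.S
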