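import Pool.Agent.Lib.MP_ed661f_ag.S.LiftAlg
import Pool.Agent.Lib.MP_ed661f_ag.S.SecDim

/-!
# Transfer of sections from a special configuration to the generic configuration

`Q` is a ring with a surjection `β` on a field `k` (the value at the special configuration; e.g.
`Q = ℤ[20 variables]`, `k = 𝔽_p`, or `Q = ℚ[20 variables]`, `k = ℚ`) and an injection `α` in a field
`K` (the value at the generic configuration).
-/

set_option autoImplicit false

open MvPolynomial

namespace Pool.Agent.Lib.MP_ed661f_ag.S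

open Pool.Agent.Lib.MP_ed661f_ag.E Pool.Agent.Lib.MP_ed661f_ag.R

section taylor

variable {R R' : Type*} [CommRing R] [CommRing R']

/-- Taylor expansion at the point `p` -/
noncomputable def tayR (p : Fin 2 → R) : MvPolynomial (Fin 2) R →ₐ[R] MvPolynomial (Fin 2) R :=
  aeval (fun i => X i + C (p i))

theorem tayR_eq (p : Fin 2 → ℂ) (F : Pol) : tayR p F = tay p F := rfl

theorem map_tayR (φ : R →+* R') (p : Fin 2 → R) (F : MvPolynomial (Fin 2) R) :
    map φ (tayR p F) = tayR (fun i => φ (p i)) (map φ F) := by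
  have h : (map φ).comp (tayR p).toRingHom =
      ((tayR fun i => φ (p i)).toRingHom).comp (map φ) := by
    refine MvPolynomial.ringHom_ext (fun r => ?_) fun i => ?_
    · simp [tayR]
    · simp [tayR]
  exact congrArg (fun ψ => ψ F) h

/-- the polynomials of bidegree at most `(A,B)` with multiplicity at least `w i` at the points
`z i` -/
noncomputable def SecG (R : Type*) [CommRing R] {ι : Type*} (A B : ℕ) (w : ι → ℕ)
    (z : ι → Fin 2 → R) : Submodule R (MvPolynomial (Fin 2) R) where
  carrier := {F | (∀ e : Fin 2 →₀ ℕ, ¬ (e 0 ≤ A ∧ e 1 ≤ B) → coeff e F = 0) ∧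
    ∀ (i : ι) (e : Fin 2 →₀ ℕ), e.degree < w i → coeff e (tayR (z i) F) = 0}
  add_mem' := by
    rintro F G ⟨h1, h2⟩ ⟨h3, h4⟩
    refine ⟨fun e he => ?_, fun i e he => ?_⟩
    · rw [coeff_add, h1 e he, h3 e he, add_zero]
    · rw [map_add, coeff_add, h2 i e he, h4 i e he, add_zero]
  zero_mem' := ⟨fun _ _ => coeff_zero _, fun i e _ => by rw [map_zero, coeff_zero]⟩
  smul_mem' := by
    rintro r F ⟨h1, h2⟩
    refine ⟨fun e he => ?_, fun i e he => ?_⟩
    · rw [coeff_smul, h1 e he, smul_zero]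
    · rw [map_smul, coeff_smul, h2 i e he, smul_zero]

theorem mem_SecG {ι : Type*} {A B : ℕ} {w : ι → ℕ} {z : ι → Fin 2 → R}
    {F : MvPolynomial (Fin 2) R} : F ∈ SecG R A B w z ↔
      (∀ e : Fin 2 →₀ ℕ, ¬ (e 0 ≤ A ∧ e 1 ≤ B) → coeff e F = 0) ∧
        ∀ (i : ι) (e : Fin 2 →₀ ℕ), e.degree < w i → coeff e (tayR (z i) F) = 0 := Iff.rfl

theorem map_mem_SecG (φ : R →+* R') {ι : Type*} {A B : ℕ} {w : ι → ℕ} {z : ι → Fin 2 → R}
    {F : MvPolynomial (Fin 2) R} (hF : F ∈ SecG R A B w z) :
    map φ F ∈ SecG R' A B w (fun i k => φ (z i k)) := by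
  refine ⟨fun e he => ?_, fun i e he => ?_⟩
  · rw [coeff_map, hF.1 e he, map_zero]
  · rw [← map_tayR, coeff_map, hF.2 i e he, map_zero]

/-- comparison with `Sec` -/
theorem mem_Sec_iff_SecG {a b : ℕ} {c : Fin 5 → ℕ} {x x' : Fin 5 → Pt} {F : Pol} :
    F ∈ Sec a b c x x' 1 ↔ F ∈ SecG ℂ a b (Sum.elim c c) (Sum.elim x x') := by
  rw [mem_Sec, mem_SecG, mem_Box_support, one_mul, one_mul]
  constructor
  · rintro ⟨h1, h2⟩
    refine ⟨fun e he => ?_, ?_⟩
    · by_contra h
      exact he (h1 e (mem_support_iff.2 h))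
    · rintro (j | j) e he
      · have := (h2 j).1 e (by rw [one_mul]; exact he)
        exact this
      · have := (h2 j).2 e (by rw [one_mul]; exact he)
        exact this
  · rintro ⟨h1, h2⟩
    refine ⟨fun e he => ?_, fun j => ⟨fun e he => ?_, fun e he => ?_⟩⟩
    · by_contra h
      exact (mem_support_iff.1 he) (h1 e h)
    · rw [one_mul] at he
      exact h2 (Sum.inl j) e he
    · rw [one_mul] at he
      exact h2 (Sum.inr j) e he

end taylor

section box

variable {R : Type*} [CommRing R]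

/-- the exponent `(i,j)` -/
noncomputable def mexp (c : ℕ × ℕ) : Fin 2 →₀ ℕ := Finsupp.single 0 c.1 + Finsupp.single 1 c.2

theorem mexp_zero (c : ℕ × ℕ) : mexp c 0 = c.1 := by simp [mexp]

theorem mexp_one (c : ℕ × ℕ) : mexp c 1 = c.2 := by simp [mexp]

theorem mexp_self (e : Fin 2 →₀ ℕ) : mexp (e 0, e 1) = e := by
  ext i
  fin_cases i
  · exact mexp_zero _
  · exact mexp_one _

/-- the polynomial with the coefficients `v` -/
noncomputable def ofBox {A B : ℕ} (v : Fin (A + 1) × Fin (B + 1) → R) : MvPolynomial (Fin 2) R :=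
  ∑ c, monomial (mexp (c.1, c.2)) (v c)

theorem coeff_ofBox {A B : ℕ} (v : Fin (A + 1) × Fin (B + 1) → R)
    (c : Fin (A + 1) × Fin (B + 1)) : coeff (mexp (c.1, c.2)) (ofBox v) = v c := by
  classical
  unfold ofBox
  rw [coeff_sum, Finset.sum_eq_single c]
  · rw [coeff_monomial, if_pos rfl]
  · intro c' _ hc
    rw [coeff_monomial, if_neg]
    intro h
    apply hc
    have h0 : mexp ((c'.1 : ℕ), (c'.2 : ℕ)) 0 = mexp ((c.1 : ℕ), (c.2 : ℕ)) 0 := by rw [h]
    have h1 : mexp ((c'.1 : ℕ), (c'.2 : ℕ)) 1 = mexp ((c.1 : ℕ), (c.2 : ℕ)) 1 := by rw [h]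
    rw [mexp_zero, mexp_zero] at h0
    rw [mexp_one, mexp_one] at h1
    exact Prod.ext (Fin.ext h0) (Fin.ext h1)
  · intro h
    exact absurd (Finset.mem_univ c) h

theorem coeff_ofBox_not {A B : ℕ} (v : Fin (A + 1) × Fin (B + 1) → R) {e : Fin 2 →₀ ℕ}
    (he : ¬ (e 0 ≤ A ∧ e 1 ≤ B)) : coeff e (ofBox v) = 0 := by
  classical
  unfold ofBox
  rw [coeff_sum]
  refine Finset.sum_eq_zero fun c _ => ?_
  rw [coeff_monomial, if_neg]
  rintro rfl
  apply he
  rw [mexp_zero, mexp_one]
  exact ⟨Nat.lt_succ_iff.1 c.1.2, Nat.lt_succ_iff.1 c.2.2⟩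

theorem ofBox_coeff {A B : ℕ} {F : MvPolynomial (Fin 2) R}
    (hF : ∀ e : Fin 2 →₀ ℕ, ¬ (e 0 ≤ A ∧ e 1 ≤ B) → coeff e F = 0) :
    ofBox (fun c : Fin (A + 1) × Fin (B + 1) => coeff (mexp (c.1, c.2)) F) = F := by
  ext e
  by_cases he : e 0 ≤ A ∧ e 1 ≤ B
  · have h1 := coeff_ofBox (fun c : Fin (A + 1) × Fin (B + 1) => coeff (mexp (c.1, c.2)) F)
      (⟨e 0, Nat.lt_succ_iff.2 he.1⟩, ⟨e 1, Nat.lt_succ_iff.2 he.2⟩)
    simp only [mexp_self] at h1
    exact h1
  · rw [coeff_ofBox_not _ he, hF e he]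

theorem map_ofBox {R' : Type*} [CommRing R'] (φ : R →+* R') {A B : ℕ}
    (v : Fin (A + 1) × Fin (B + 1) → R) : map φ (ofBox v) = ofBox fun c => φ (v c) := by
  unfold ofBox
  rw [map_sum]
  exact Finset.sum_congr rfl fun c _ => map_monomial _ _ _

end box

section lift

variable {Q k K : Type*} [CommRing Q] [Field k] [Field K] (β : Q →+* k) (α : Q →+* K)

/-- the matrix of the conditions -/
private noncomputable def LT {R : Type*} [CommRing R] {ι : Type*} {A B : ℕ} (w : ι → ℕ)
    (z : ι → Fin 2 → R) (r : (i : ι) × {e : Fin 2 →₀ ℕ // e ∈ Bz.S (w i) (w i)})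
    (c : Fin (A + 1) × Fin (B + 1)) : R :=
  coeff r.2.1 (tayR (z r.1) (monomial (mexp (c.1, c.2)) 1))

private theorem LT_sum {R : Type*} [CommRing R] {ι : Type*} {A B : ℕ} (w : ι → ℕ)
    (z : ι → Fin 2 → R) (r : (i : ι) × {e : Fin 2 →₀ ℕ // e ∈ Bz.S (w i) (w i)})
    (v : Fin (A + 1) × Fin (B + 1) → R) :
    ∑ c, LT w z r c * v c = coeff r.2.1 (tayR (z r.1) (ofBox v)) := by
  unfold ofBox LT
  rw [map_sum, coeff_sum]
  refine Finset.sum_congr rfl fun c _ => ?_
  have h1 : (monomial (mexp ((c.1 : ℕ), (c.2 : ℕ))) (v c) : MvPolynomial (Fin 2) R) =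
      v c • monomial (mexp ((c.1 : ℕ), (c.2 : ℕ))) 1 := by
    rw [smul_monomial, smul_eq_mul, mul_one]
  rw [h1, map_smul, coeff_smul, smul_eq_mul, mul_comm]

private theorem mem_iff_LT {R : Type*} [CommRing R] {ι : Type*} {A B : ℕ} {w : ι → ℕ}
    {z : ι → Fin 2 → R} {v : Fin (A + 1) × Fin (B + 1) → R} :
    ofBox v ∈ SecG R A B w z ↔ ∀ r, ∑ c, LT w z r c * v c = 0 := by
  rw [mem_SecG]
  constructor
  · rintro ⟨_, h⟩ r
    rw [LT_sum]
    refine h _ _ ?_
    have := (Bz.mem_S.1 r.2.2).1
    rw [Bz.degree_two']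
    exact this
  · intro h
    refine ⟨fun e he => coeff_ofBox_not _ he, fun i e he => ?_⟩
    rw [Bz.degree_two'] at he
    have h1 := h ⟨i, ⟨e, Bz.mem_S.2 ⟨he, by omega⟩⟩⟩
    rwa [LT_sum] at h1

/-- the coefficients of the sections -/
private noncomputable def toBox {R : Type*} [CommRing R] (A B : ℕ) :
    (Fin (A + 1) × Fin (B + 1) → R) →ₗ[R] MvPolynomial (Fin 2) R where
  toFun := ofBox
  map_add' u v := by
    unfold ofBox
    rw [← Finset.sum_add_distrib]
    exact Finset.sum_congr rfl fun c _ => by rw [Pi.add_apply, map_add]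
  map_smul' r v := by
    unfold ofBox
    rw [RingHom.id_apply, Finset.smul_sum]
    exact Finset.sum_congr rfl fun c _ => by rw [Pi.smul_apply, smul_monomial]

/-- **T2.** If the sections at the special configuration have (at most) the expected dimension then
every section there lifts. -/
theorem exists_lift_section (hβ : Function.Surjective β) {ι : Type*} [Fintype ι] {A B : ℕ}
    {w : ι → ℕ} {z : ι → Fin 2 → Q}
    (hdim : 2 * Module.finrank k (SecG k A B w (fun i j => β (z i j))) + ∑ i, w i * (w i + 1) ≤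
      2 * ((A + 1) * (B + 1)))
    {f : MvPolynomial (Fin 2) k} (hf : f ∈ SecG k A B w (fun i j => β (z i j))) :
    ∃ g ∈ SecG Q A B w z, map β g = f := by
  classical
  have hLT : ∀ r c, β (LT (A := A) (B := B) w z r c) =
      LT (A := A) (B := B) w (fun i j => β (z i j)) r c := by
    intro r c
    unfold LT
    rw [← coeff_map, map_tayR, map_monomial, map_one]
  -- the conditions are independent
  let L : (Fin (A + 1) × Fin (B + 1) → k) →ₗ[k]
      (((i : ι) × {e : Fin 2 →₀ ℕ // e ∈ Bz.S (w i) (w i)}) → k) :=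
    Matrix.mulVecLin (Matrix.of (LT (A := A) (B := B) w (fun i j => β (z i j))))
  have hL : ∀ v r, L v r = ∑ c, LT (A := A) (B := B) w (fun i j => β (z i j)) r c * v c :=
    fun v r => rfl
  have hker : Module.finrank k (LinearMap.ker L) =
      Module.finrank k (SecG k A B w (fun i j => β (z i j))) := by
    refine LinearEquiv.finrank_eq (LinearEquiv.ofBijective
      (LinearMap.codRestrict _ ((toBox (R := k) A B) ∘ₗ (LinearMap.ker L).subtype) ?_) ⟨?_, ?_⟩)
    · intro v
      exact mem_iff_LT.2 fun r =>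
        (hL v.1 r).symm.trans (congrFun (LinearMap.mem_ker.1 v.2) r)
    · intro u v huv
      have h1 : ofBox u.1 = ofBox v.1 := congrArg Subtype.val huv
      apply Subtype.ext
      funext c
      rw [← coeff_ofBox u.1 c, h1, coeff_ofBox]
    · rintro ⟨F, hF⟩
      have h1 := ofBox_coeff hF.1
      refine ⟨⟨fun c => coeff (mexp (c.1, c.2)) F, ?_⟩, Subtype.ext h1⟩
      rw [LinearMap.mem_ker]
      funext r
      rw [hL]
      exact (mem_iff_LT (A := A) (B := B) (v := fun c => coeff (mexp (c.1, c.2)) F)).1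
        (by rw [h1]; exact hF) r
  have hrange : LinearMap.range L = ⊤ := by
    apply Submodule.eq_top_of_finrank_eq
    have h1 := LinearMap.finrank_range_add_finrank_ker L
    rw [hker, Module.finrank_pi, Fintype.card_prod, Fintype.card_fin, Fintype.card_fin] at h1
    have h2 := Submodule.finrank_le (LinearMap.range L)
    have h3 : 2 * Module.finrank k (((i : ι) × {e : Fin 2 →₀ ℕ // e ∈ Bz.S (w i) (w i)}) → k) =
        ∑ i, w i * (w i + 1) := by
      rw [Module.finrank_pi, Fintype.card_sigma, Finset.mul_sum]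
      refine Finset.sum_congr rfl fun i _ => ?_
      rw [Fintype.card_coe, Bz.card_S le_rfl]
      congr 1
      omega
    omega
  have hsurj : ∀ v : ((i : ι) × {e : Fin 2 →₀ ℕ // e ∈ Bz.S (w i) (w i)}) → k,
      ∃ u : Fin (A + 1) × Fin (B + 1) → k, ∀ r,
        ∑ c, β (LT (A := A) (B := B) w z r c) * u c = v r := by
    intro v
    obtain ⟨u, hu⟩ := LinearMap.range_eq_top.1 hrange v
    refine ⟨u, fun r => ?_⟩
    rw [← hu, hL]
    exact Finset.sum_congr rfl fun c _ => by rw [hLT]
  have hf1 := ofBox_coeff hf.1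
  obtain ⟨g, hg1, hg2⟩ := exists_lift_solution β hβ hsurj
    (f := fun c : Fin (A + 1) × Fin (B + 1) => coeff (mexp (c.1, c.2)) f) (by
      intro r
      have h1 := (mem_iff_LT (A := A) (B := B) (v := fun c => coeff (mexp (c.1, c.2)) f)).1
        (by rw [hf1]; exact hf) r
      rw [← h1]
      exact Finset.sum_congr rfl fun c _ => by rw [hLT])
  refine ⟨ofBox g, mem_iff_LT.2 hg2, ?_⟩
  rw [map_ofBox]
  simp only [hg1]
  exact hf1

/-- the vectors of the coefficients of the monomials of degree `m` in `g` -/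
private theorem indep_iff {F : Type*} [Field F] {σ : Type*} [Fintype σ] [DecidableEq σ] (m : ℕ)
    (g : σ → MvPolynomial (Fin 2) F) (J : Finset (Fin 2 →₀ ℕ))
    (hJ : ∀ i : {e : σ →₀ ℕ // e ∈ (Finset.univ : Finset σ).finsuppAntidiag m},
      ∀ e ∉ J, coeff e (i.1.prod fun j n => g j ^ n) = 0) :
    (LinearIndependent F fun (i : {e : σ →₀ ℕ // e ∈ (Finset.univ : Finset σ).finsuppAntidiag m})
      (j : J) => coeff j.1 (i.1.prod fun j n => g j ^ n)) ↔
    ∀ H : MvPolynomial σ F, H.IsHomogeneous m → aeval g H = 0 → H = 0 := by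
  classical
  have hdeg : ∀ e : σ →₀ ℕ, e ∈ (Finset.univ : Finset σ).finsuppAntidiag m ↔ e.degree = m := by
    intro e
    rw [Finset.mem_finsuppAntidiag]
    have : (Finset.univ : Finset σ).sum (⇑e) = e.degree := by
      rw [Finsupp.degree_eq_sum]
    rw [this]
    simp
  -- the value of a form
  have hval : ∀ (t : {e : σ →₀ ℕ // e ∈ (Finset.univ : Finset σ).finsuppAntidiag m} → F),
      aeval g (∑ i, monomial i.1 (t i)) = ∑ i, t i • (i.1.prod fun j n => g j ^ n) := by
    intro t
    rw [map_sum]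
    refine Finset.sum_congr rfl fun i _ => ?_
    rw [aeval_monomial, Algebra.smul_def]
  have hcoef : ∀ (t : {e : σ →₀ ℕ // e ∈ (Finset.univ : Finset σ).finsuppAntidiag m} → F) i,
      coeff i.1 (∑ i, monomial i.1 (t i) : MvPolynomial σ F) = t i := by
    intro t i
    rw [coeff_sum, Finset.sum_eq_single i]
    · rw [coeff_monomial, if_pos rfl]
    · intro j _ hj
      rw [coeff_monomial, if_neg]
      exact fun h => hj (Subtype.ext h)
    · intro h
      exact absurd (Finset.mem_univ i) h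
  rw [Fintype.linearIndependent_iff]
  constructor
  · intro h H hH hz
    have h1 : H = ∑ i : {e : σ →₀ ℕ // e ∈ (Finset.univ : Finset σ).finsuppAntidiag m},
        monomial i.1 (coeff i.1 H) := by
      ext e
      by_cases he : e ∈ (Finset.univ : Finset σ).finsuppAntidiag m
      · exact (hcoef (fun i => coeff i.1 H) ⟨e, he⟩).symm
      · rw [coeff_sum, Finset.sum_eq_zero, hH.coeff_eq_zero]
        · intro h2
          exact he ((hdeg e).2 h2)
        · intro i _
          rw [coeff_monomial, if_neg]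
          rintro rfl
          exact he i.2
    have h2 := h (fun i => coeff i.1 H) (by
      funext j
      rw [h1, hval] at hz
      have h3 := congrArg (coeff j.1) hz
      rw [coeff_sum, coeff_zero] at h3
      rw [Finset.sum_apply, Pi.zero_apply, ← h3]
      refine Finset.sum_congr rfl fun i _ => ?_
      rw [coeff_smul, Pi.smul_apply])
    rw [h1]
    refine Finset.sum_eq_zero fun i _ => ?_
    rw [h2 i, monomial_zero]
  · intro h t ht i
    have h1 := h (∑ i, monomial i.1 (t i)) (by
      refine IsHomogeneous.sum _ _ _ fun i _ => ?_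
      exact isHomogeneous_monomial _ ((hdeg _).1 i.2)) (by
      rw [hval]
      ext e
      rw [coeff_sum, coeff_zero]
      by_cases he : e ∈ J
      · have h2 := congrFun ht ⟨e, he⟩
        rw [Finset.sum_apply, Pi.zero_apply] at h2
        rw [← h2]
        refine Finset.sum_congr rfl fun i _ => ?_
        rw [coeff_smul, Pi.smul_apply]
      · refine Finset.sum_eq_zero fun i _ => ?_
        rw [coeff_smul, hJ i e he, smul_zero])
    rw [← hcoef t i, h1, coeff_zero]

private theorem map_prod_pow {R R' : Type*} [CommRing R] [CommRing R'] (φ : R →+* R') {σ : Type*}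
    (g : σ → MvPolynomial (Fin 2) R) (i : σ →₀ ℕ) :
    (i.prod fun j n => (map φ (g j)) ^ n) = map φ (i.prod fun j n => g j ^ n) := by
  rw [Finsupp.prod, Finsupp.prod, map_prod]
  exact Finset.prod_congr rfl fun j _ => by rw [map_pow]

/-- **T3.** No relation of degree `m` at the special configuration: no relation of degree `m` at the
generic configuration. -/
theorem no_relation_generic (hβ : Function.Surjective β) (hα : Function.Injective α) {σ : Type*}
    [Fintype σ] {m : ℕ} {g : σ → MvPolynomial (Fin 2) Q}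
    (h : ∀ H : MvPolynomial σ k, H.IsHomogeneous m → aeval (fun i => map β (g i)) H = 0 → H = 0) :
    ∀ H : MvPolynomial σ K, H.IsHomogeneous m → aeval (fun i => map α (g i)) H = 0 → H = 0 := by
  classical
  set J : Finset (Fin 2 →₀ ℕ) :=
    (Finset.univ : Finset {e : σ →₀ ℕ // e ∈ (Finset.univ : Finset σ).finsuppAntidiag m}).biUnion
      fun i => (i.1.prod fun j n => g j ^ n).support with hJ
  have hJ0 : ∀ i : {e : σ →₀ ℕ // e ∈ (Finset.univ : Finset σ).finsuppAntidiag m},
      ∀ e ∉ J, coeff e (i.1.prod fun j n => g j ^ n) = 0 := by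
    intro i e he
    by_contra h0
    exact he (Finset.mem_biUnion.2 ⟨i, Finset.mem_univ i, mem_support_iff.2 h0⟩)
  have h1 := (indep_iff m (fun i => map β (g i)) J (by
    intro i e he
    rw [map_prod_pow β, coeff_map, hJ0 i e he, map_zero])).2 h
  refine (indep_iff m (fun i => map α (g i)) J (by
    intro i e he
    rw [map_prod_pow α, coeff_map, hJ0 i e he, map_zero])).1 ?_
  have h2 := linearIndependent_generic β α hβ hα
    (G := fun (i : {e : σ →₀ ℕ // e ∈ (Finset.univ : Finset σ).finsuppAntidiag m}) (j : J) =>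
      coeff j.1 (i.1.prod fun j n => g j ^ n)) (by
    convert h1 using 3 with i j
    rw [map_prod_pow β, coeff_map])
  convert h2 using 3 with i j
  rw [map_prod_pow α, coeff_map]

/-- a relation of degree `m` gives a relation of every larger degree -/
theorem no_relation_of_le {F : Type*} [Field F] {σ : Type*} {A : Type*} [CommRing A]
    [Algebra F A] {f : σ → A} {m n : ℕ} (hmn : m ≤ n) (i0 : σ)
    (h : ∀ H : MvPolynomial σ F, H.IsHomogeneous n → aeval f H = 0 → H = 0) :
    ∀ H : MvPolynomial σ F, H.IsHomogeneous m → aeval f H = 0 → H = 0 := by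
  intro H hH hz
  have h1 := h (X i0 ^ (n - m) * H) (by
    have h2 : (X i0 ^ (n - m) : MvPolynomial σ F).IsHomogeneous (n - m) := by
      have := (isHomogeneous_X F i0).pow (n - m)
      rwa [one_mul] at this
    have h3 := h2.mul hH
    rwa [Nat.sub_add_cancel hmn] at h3) (by rw [map_mul, hz, mul_zero])
  rcases mul_eq_zero.1 h1 with h2 | h2
  · exact absurd h2 (pow_ne_zero _ (X_ne_zero i0))
  · exact h2

end lift

section final

/-- **Transfer.** Four sections at a special configuration over `k`, where the conditions are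
independent, without relations of degree `m` and without any relation between the first three: there
are such sections at every generic configuration of `ℂ`. (`R₀ = ℤ`, `k = 𝔽_p` or `R₀ = k = ℚ`.) -/
theorem exists_generic_sections {R₀ k : Type} [CommRing R₀] [Algebra R₀ ℂ] [Field k] (φ : R₀ →+* k)
    (hφ : Function.Surjective φ) {a b m : ℕ} {c : Fin 5 → ℕ} {p p' : Fin 5 → Fin 2 → k}
    (hdim : Module.finrank k (SecG k a b (Sum.elim c c) (Sum.elim p p')) + ∑ j, c j * (c j + 1) ≤
      (a + 1) * (b + 1))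
    {f : Fin 4 → MvPolynomial (Fin 2) k}
    (hf : ∀ i, f i ∈ SecG k a b (Sum.elim c c) (Sum.elim p p'))
    (hrel : ∀ H : MvPolynomial (Fin 4) k, H.IsHomogeneous m → aeval f H = 0 → H = 0)
    (hrel3 : ∀ (n : ℕ) (H : MvPolynomial (Fin 3) k), H.IsHomogeneous n →
      aeval (fun i : Fin 3 => f i.castSucc) H = 0 → H = 0)
    {x x' : Fin 5 → Pt}
    (hz : AlgebraicIndependent R₀ (fun q : (Fin 5 ⊕ Fin 5) × Fin 2 => Sum.elim x x' q.1 q.2)) :
    ∃ F : Fin 4 → Pol, (∀ i, F i ∈ Sec a b c x x' 1) ∧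
      (∀ n ≤ m, ∀ H : MvPolynomial (Fin 4) ℂ, H.IsHomogeneous n → aeval F H = 0 → H = 0) ∧
      ∀ (n : ℕ) (H : MvPolynomial (Fin 3) ℂ), H.IsHomogeneous n →
        aeval (fun i : Fin 3 => F i.castSucc) H = 0 → H = 0 := by
  classical
  let Q : Type := MvPolynomial ((Fin 5 ⊕ Fin 5) × Fin 2) R₀
  let α : Q →+* ℂ :=
    (aeval (R := R₀) (fun q : (Fin 5 ⊕ Fin 5) × Fin 2 => Sum.elim x x' q.1 q.2)).toRingHom
  let β : Q →+* k := eval₂Hom φ (fun q : (Fin 5 ⊕ Fin 5) × Fin 2 => Sum.elim p p' q.1 q.2)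
  have hα : Function.Injective α := hz
  have hβ : Function.Surjective β := by
    intro y
    obtain ⟨r, hr⟩ := hφ y
    refine ⟨C r, ?_⟩
    change eval₂Hom φ _ (C r) = y
    rw [eval₂Hom_C, hr]
  let z : Fin 5 ⊕ Fin 5 → Fin 2 → Q := fun i j => X (i, j)
  have hzβ : (fun i j => β (z i j)) = Sum.elim p p' := by
    funext i j
    change eval₂Hom φ _ (X (i, j)) = _
    rw [eval₂Hom_X']
  have hzα : (fun i j => α (z i j)) = Sum.elim x x' := by
    funext i j
    change aeval _ (X (i, j)) = _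
    rw [aeval_X]
  have hsec : ∀ i, ∃ g ∈ SecG Q a b (Sum.elim c c) z, map β g = f i := by
    intro i
    refine exists_lift_section β hβ ?_ ?_
    · rw [hzβ]
      simp only [Fintype.sum_sum_type, Sum.elim_inl, Sum.elim_inr]
      omega
    · rw [hzβ]
      exact hf i
  choose g hg1 hg2 using hsec
  refine ⟨fun i => map α (g i), fun i => ?_, ?_, ?_⟩
  · rw [mem_Sec_iff_SecG, ← hzα]
    exact map_mem_SecG α (hg1 i)
  · intro n hn
    refine no_relation_of_le hn 0 ?_
    refine no_relation_generic β α hβ hα ?_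
    simp only [hg2]
    exact hrel
  · intro n
    have h1 := no_relation_generic β α hβ hα (σ := Fin 3) (m := n)
      (g := fun i : Fin 3 => g i.castSucc) (by
        simp only [hg2]
        exact hrel3 n)
    exact h1

end final

end Pool.Agent.Lib.MP_ed661f_ag.S
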