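import Mathlib
import Pool.Agent.Lib.MP_ed661f_ag.S.Fam.Defs

/-!
# A criterion for the absence of relations

If `f 0` and `f 1` have `d` common transversal zeros at which the ratios `f 3 / f 2` are different
then no form of degree `< d` vanishes on `(f 0, .., f 3)`.
-/

set_option autoImplicit false

open MvPolynomial

namespace Pool.Agent.Lib.MP_ed661f_ag.S.Fam

variable {K : Type} [Field K]

/-- the substitution `P + z w` -/
noncomputable def shiftZ (P : Fin 2 → K) (w : Fin 2 → MvPolynomial (Fin 2) K) :
    MvPolynomial (Fin 2) K →ₐ[K] Polynomial (MvPolynomial (Fin 2) K) :=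
  aeval fun i => Polynomial.C (C (P i)) + Polynomial.X * Polynomial.C (w i)

theorem shiftZ_coeff (P : Fin 2 → K) (w : Fin 2 → MvPolynomial (Fin 2) K)
    (F : MvPolynomial (Fin 2) K) : (shiftZ P w F).coeff 0 = C (eval P F) ∧
      (shiftZ P w F).coeff 1 =
        C (eval P (pderiv 0 F)) * w 0 + C (eval P (pderiv 1 F)) * w 1 := by
  induction F using MvPolynomial.induction_on with
  | C a =>
    have h : shiftZ P w (C a) = Polynomial.C (C a) := by
      unfold shiftZ
      rw [← algebraMap_eq, AlgHom.commutes]
      rfl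
    rw [h]
    simp [Polynomial.coeff_C]
  | add F G hF hG =>
    rw [map_add, Polynomial.coeff_add, Polynomial.coeff_add, hF.1, hF.2, hG.1, hG.2]
    refine ⟨by rw [map_add, map_add], ?_⟩
    simp only [map_add]
    ring
  | mul_X F i hF =>
    have h : shiftZ P w (X i) = Polynomial.C (C (P i)) + Polynomial.X * Polynomial.C (w i) := by
      unfold shiftZ
      rw [aeval_X]
    rw [map_mul, h, Polynomial.mul_coeff_zero, Polynomial.mul_coeff_one, hF.1, hF.2]
    have h0 : (Polynomial.C (C (P i)) + Polynomial.X * Polynomial.C (w i) :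
        Polynomial (MvPolynomial (Fin 2) K)).coeff 0 = C (P i) := by
      simp
    have h1 : (Polynomial.C (C (P i)) + Polynomial.X * Polynomial.C (w i) :
        Polynomial (MvPolynomial (Fin 2) K)).coeff 1 = w i := by
      simp [Polynomial.coeff_C]
    rw [h0, h1]
    refine ⟨by simp, ?_⟩
    simp only [Derivation.leibniz, smul_eq_mul, map_add, map_mul, eval_X]
    fin_cases i
    · simp
      ring
    · simp
      ring

/-- the criterion (Z) -/
theorem zcrit {d : ℕ} {f : Fin 4 → MvPolynomial (Fin 2) K} (P : Fin d → Fin 2 → K)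
    (h0 : ∀ l, eval (P l) (f 0) = 0) (h1 : ∀ l, eval (P l) (f 1) = 0)
    (hJ : ∀ l, eval (P l) (pderiv 0 (f 0)) * eval (P l) (pderiv 1 (f 1)) -
      eval (P l) (pderiv 1 (f 0)) * eval (P l) (pderiv 0 (f 1)) ≠ 0)
    (h2 : ∀ l, eval (P l) (f 2) ≠ 0)
    (h3 : ∀ l l', l ≠ l' →
      eval (P l) (f 2) * eval (P l') (f 3) ≠ eval (P l') (f 2) * eval (P l) (f 3)) :
    NoRel d f := by
  classical
  intro m hm H hH hz
  by_contra hne
  -- a monomial with minimal exponent in the first two variables
  obtain ⟨e₀, he₀, hmin⟩ := H.support.exists_min_image (fun e => e 0 + e 1)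
    (Finset.nonempty_iff_ne_empty.2 fun h => hne (support_eq_empty.1 h))
  set r := e₀ 0 + e₀ 1 with hr
  have hdeg : ∀ e ∈ H.support, e 0 + e 1 + e 2 + e 3 = m := by
    intro e he
    have := hH (mem_support_iff.1 he)
    rw [← this, Finsupp.weight_apply, Finsupp.sum_fintype _ _ (fun i => by simp)]
    simp [Fin.sum_univ_four]
  -- the equation at one point
  have key : ∀ l, ∑ e ∈ H.support.filter (fun e => e 0 = e₀ 0 ∧ e 1 = e₀ 1),
      coeff e H * (eval (P l) (f 2)) ^ (e 2) * (eval (P l) (f 3)) ^ (e 3) = 0 := by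
    intro l
    set a := eval (P l) (pderiv 0 (f 0))
    set b := eval (P l) (pderiv 1 (f 0))
    set c := eval (P l) (pderiv 0 (f 1))
    set g := eval (P l) (pderiv 1 (f 1))
    have hJl : a * g - b * c ≠ 0 := hJ l
    let w : Fin 2 → MvPolynomial (Fin 2) K :=
      ![C (g / (a * g - b * c)) * X 0 - C (b / (a * g - b * c)) * X 1,
        C (a / (a * g - b * c)) * X 1 - C (c / (a * g - b * c)) * X 0]
    have hw0 : C a * w 0 + C b * w 1 = (X 0 : MvPolynomial (Fin 2) K) := by
      have e1 : C a * w 0 + C b * w 1 =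
          C (a * (g / (a * g - b * c)) - b * (c / (a * g - b * c))) * X 0 +
          C (b * (a / (a * g - b * c)) - a * (b / (a * g - b * c))) * X 1 := by
        simp only [w, Matrix.cons_val_zero, Matrix.cons_val_one, map_sub, map_mul]
        ring
      have e2 : a * (g / (a * g - b * c)) - b * (c / (a * g - b * c)) = 1 := by
        field_simp
      have e3 : b * (a / (a * g - b * c)) - a * (b / (a * g - b * c)) = 0 := by
        ring
      rw [e1, e2, e3]
      simp
    have hw1 : C c * w 0 + C g * w 1 = (X 1 : MvPolynomial (Fin 2) K) := by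
      have e1 : C c * w 0 + C g * w 1 =
          C (c * (g / (a * g - b * c)) - g * (c / (a * g - b * c))) * X 0 +
          C (g * (a / (a * g - b * c)) - c * (b / (a * g - b * c))) * X 1 := by
        simp only [w, Matrix.cons_val_zero, Matrix.cons_val_one, map_sub, map_mul]
        ring
      have e2 : g * (a / (a * g - b * c)) - c * (b / (a * g - b * c)) = 1 := by
        have : g * (a / (a * g - b * c)) - c * (b / (a * g - b * c)) =
          (a * g - b * c) / (a * g - b * c) := by ring
        rw [this, div_self hJl]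
      have e3 : c * (g / (a * g - b * c)) - g * (c / (a * g - b * c)) = 0 := by
        ring
      rw [e1, e2, e3]
      simp
    obtain ⟨q00, q01⟩ := shiftZ_coeff (P l) w (f 0)
    obtain ⟨q10, q11⟩ := shiftZ_coeff (P l) w (f 1)
    obtain ⟨q20, -⟩ := shiftZ_coeff (P l) w (f 2)
    obtain ⟨q30, -⟩ := shiftZ_coeff (P l) w (f 3)
    rw [h0 l, map_zero] at q00
    rw [h1 l, map_zero] at q10
    rw [show C (eval (P l) (pderiv 0 (f 0))) * w 0 + C (eval (P l) (pderiv 1 (f 0))) * w 1 =
      X 0 from hw0] at q01
    rw [show C (eval (P l) (pderiv 0 (f 1))) * w 0 + C (eval (P l) (pderiv 1 (f 1))) * w 1 =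
      X 1 from hw1] at q11
    obtain ⟨G0, hG0⟩ := Polynomial.X_dvd_iff.2 q00
    obtain ⟨G1, hG1⟩ := Polynomial.X_dvd_iff.2 q10
    have hG00 : G0.coeff 0 = X 0 := by
      rw [← q01, hG0, Polynomial.coeff_X_mul]
    have hG10 : G1.coeff 0 = X 1 := by
      rw [← q11, hG1, Polynomial.coeff_X_mul]
    -- apply the substitution
    have hΦ : aeval (fun i => shiftZ (P l) w (f i)) H = 0 := by
      have := congrArg (shiftZ (P l) w) hz
      rw [map_zero, ← AlgHom.comp_apply, comp_aeval] at this
      exact this
    rw [aeval_def, eval₂_eq'] at hΦ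
    have h4 := congrArg (fun p => p.coeff r) hΦ
    simp only [Polynomial.finsetSum_coeff, Polynomial.coeff_zero] at h4
    have h5 : ∀ e ∈ H.support, ((algebraMap K (Polynomial (MvPolynomial (Fin 2) K))) (coeff e H) *
        ∏ i, (shiftZ (P l) w (f i)) ^ (e i)).coeff r =
        if e 0 + e 1 = r then monomial (Finsupp.single 0 (e 0) + Finsupp.single 1 (e 1))
          (coeff e H * (eval (P l) (f 2)) ^ (e 2) * (eval (P l) (f 3)) ^ (e 3)) else 0 := by
      intro e he
      have h6 : (algebraMap K (Polynomial (MvPolynomial (Fin 2) K))) (coeff e H) *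
          ∏ i, (shiftZ (P l) w (f i)) ^ (e i) =
          Polynomial.X ^ (e 0 + e 1) * (Polynomial.C (C (coeff e H)) * G0 ^ (e 0) * G1 ^ (e 1) *
            (shiftZ (P l) w (f 2)) ^ (e 2) * (shiftZ (P l) w (f 3)) ^ (e 3)) := by
        rw [Fin.prod_univ_four, hG0, hG1]
        have : (algebraMap K (Polynomial (MvPolynomial (Fin 2) K))) (coeff e H) =
          Polynomial.C (C (coeff e H)) := rfl
        rw [this]
        ring
      rw [h6, Polynomial.coeff_X_pow_mul']
      have h7 : r ≤ e 0 + e 1 := hmin e he
      by_cases h8 : e 0 + e 1 = r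
      · rw [if_pos h8.le, if_pos h8, h8, Nat.sub_self]
        have hpow : ∀ (p : Polynomial (MvPolynomial (Fin 2) K)) (n : ℕ),
            (p ^ n).coeff 0 = (p.coeff 0) ^ n := fun p n =>
          map_pow Polynomial.constantCoeff p n
        simp only [Polynomial.mul_coeff_zero, hpow]
        rw [hG00, hG10, q20, q30, Polynomial.coeff_C_zero]
        have h9 : (monomial (Finsupp.single 0 (e 0) + Finsupp.single 1 (e 1))
          (coeff e H * (eval (P l) (f 2)) ^ (e 2) * (eval (P l) (f 3)) ^ (e 3)) :
            MvPolynomial (Fin 2) K) =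
          C (coeff e H * (eval (P l) (f 2)) ^ (e 2) * (eval (P l) (f 3)) ^ (e 3)) *
            (X 0 ^ (e 0) * X 1 ^ (e 1)) := by
          rw [X_pow_eq_monomial, X_pow_eq_monomial, monomial_mul, C_mul_monomial]
          simp
        rw [h9]
        simp only [map_mul, map_pow]
        ring
      · rw [if_neg h8, if_neg (by omega)]
    rw [Finset.sum_congr rfl h5] at h4
    have h6 := congrArg (coeff (Finsupp.single 0 (e₀ 0) + Finsupp.single 1 (e₀ 1))) h4
    rw [coeff_sum, coeff_zero] at h6
    rw [← h6, Finset.sum_filter]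
    refine Finset.sum_congr rfl fun e he => ?_
    by_cases h7 : e 0 = e₀ 0 ∧ e 1 = e₀ 1
    · rw [if_pos h7, if_pos (by rw [h7.1, h7.2]), h7.1, h7.2, coeff_monomial, if_pos rfl]
    · rw [if_neg h7]
      by_cases h8 : e 0 + e 1 = r
      · rw [if_pos h8, coeff_monomial, if_neg]
        intro h9
        apply h7
        have h10 := DFunLike.congr_fun h9 0
        have h11 := DFunLike.congr_fun h9 1
        simp at h10 h11
        exact ⟨h10, h11⟩
      · rw [if_neg h8, coeff_zero]
  -- a polynomial in one variable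
  let p : Polynomial K := ∑ e ∈ H.support.filter (fun e => e 0 = e₀ 0 ∧ e 1 = e₀ 1),
    Polynomial.monomial (e 3) (coeff e H)
  have hp : p = 0 := by
    refine Polynomial.eq_zero_of_natDegree_lt_card_of_eval_eq_zero p
      (f := fun l : Fin d => eval (P l) (f 3) / eval (P l) (f 2)) ?_ ?_ ?_
    · intro l l' hll
      by_contra hne'
      refine h3 l l' hne' ?_
      have h4 := h2 l
      have h5 := h2 l'
      have h6 : eval (P l) (f 3) / eval (P l) (f 2) = eval (P l') (f 3) / eval (P l') (f 2) := hll
      rw [div_eq_div_iff h4 h5] at h6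
      rw [mul_comm (eval (P l) (f 2)), ← h6]
      ring
    · intro l
      have h4 := h2 l
      have h5 : p.eval (eval (P l) (f 3) / eval (P l) (f 2)) * (eval (P l) (f 2)) ^ (m - r) = 0 := by
        rw [← key l, Polynomial.eval_finsetSum, Finset.sum_mul]
        refine Finset.sum_congr rfl fun e he => ?_
        rw [Finset.mem_filter] at he
        have h6 := hdeg e he.1
        have h7 : m - r = e 2 + e 3 := by
          rw [hr, ← he.2.1, ← he.2.2]
          omega
        rw [Polynomial.eval_monomial, h7, pow_add, div_pow]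
        field_simp
      exact (mul_eq_zero.1 h5).resolve_right (pow_ne_zero _ h4)
    · rw [Fintype.card_fin]
      refine lt_of_le_of_lt ?_ hm
      refine Polynomial.natDegree_sum_le_of_forall_le _ _ fun e he => ?_
      rw [Finset.mem_filter] at he
      refine (Polynomial.natDegree_monomial_le _).trans ?_
      have := hdeg e he.1
      omega
  have h4 : p.coeff (e₀ 3) = coeff e₀ H := by
    rw [Polynomial.finsetSum_coeff, Finset.sum_eq_single e₀]
    · rw [Polynomial.coeff_monomial, if_pos rfl]
    · intro e he hee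
      rw [Finset.mem_filter] at he
      rw [Polynomial.coeff_monomial, if_neg]
      intro h5
      apply hee
      have h6 := hdeg e he.1
      have h7 := hdeg e₀ he₀
      ext i
      fin_cases i
      · exact he.2.1
      · exact he.2.2
      · have h8 := he.2.1
        have h9 := he.2.2
        change e 2 = e₀ 2
        omega
      · exact h5
    · intro h5
      exact absurd (Finset.mem_filter.2 ⟨he₀, rfl, rfl⟩) h5
  rw [hp, Polynomial.coeff_zero] at h4
  exact (mem_support_iff.1 he₀) h4.symm

end Pool.Agent.Lib.MP_ed661f_ag.S.Fam
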