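import Pool.Agent.Lib.MP_ed661f_ag.S.SecW
import Pool.Agent.Lib.MP_ed661f_ag.S.Lift

/-!
Transfer of sections with one more base point from a special to the generic configuration.
-/

set_option autoImplicit false

open MvPolynomial

namespace Pool.Agent.Lib.MP_ed661f_ag.S

open E R H

/-- the multiplicities with one more simple point -/
abbrev wcc (c : Fin 5 → ℕ) : (Fin 5 ⊕ Fin 5) ⊕ Fin 1 → ℕ := Sum.elim (Sum.elim c c) (fun _ => 1)

/-- the points with one more point -/
abbrev wpp {k : Type*} (p p' : Fin 5 → Fin 2 → k) (w : Fin 2 → k) :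
    (Fin 5 ⊕ Fin 5) ⊕ Fin 1 → Fin 2 → k := Sum.elim (Sum.elim p p') (fun _ => w)

/-- comparison with `SecW` -/
theorem mem_SecW_iff_SecG {a b : ℕ} {c : Fin 5 → ℕ} {x x' : Fin 5 → Pt} {w : Pt} {F : Pol} :
    F ∈ SecW a b c 1 x x' w 1 ↔ F ∈ SecG ℂ a b (wcc c) (wpp x x' w) := by
  rw [mem_SecW, mem_Sec_iff_SecG, mem_SecG, mem_SecG]
  constructor
  · rintro ⟨⟨h1, h2⟩, h3⟩
    refine ⟨h1, ?_⟩
    rintro ((i | i) | i) e he
    · exact h2 (Sum.inl i) e he
    · exact h2 (Sum.inr i) e he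
    · exact h3 e (by simpa using he)
  · rintro ⟨h1, h2⟩
    refine ⟨⟨h1, ?_⟩, ?_⟩
    · rintro (i | i) e he
      · exact h2 (Sum.inl (Sum.inl i)) e he
      · exact h2 (Sum.inl (Sum.inr i)) e he
    · intro e he
      exact h2 (Sum.inr 0) e (by simpa using he)

/-- **Transfer.** Four sections at a special configuration over `k`, where the conditions are
independent, without relations of degree `m` and without any relation between the first three: there
are such sections at every generic configuration of `ℂ`. -/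
theorem exists_generic_sectionsW {R₀ k : Type} [CommRing R₀] [Algebra R₀ ℂ] [Field k] (φ : R₀ →+* k)
    (hφ : Function.Surjective φ) {a b m : ℕ} {c : Fin 5 → ℕ} {p p' : Fin 5 → Fin 2 → k}
    {w0 : Fin 2 → k}
    (hdim : Module.finrank k (SecG k a b (wcc c) (wpp p p' w0)) + ∑ j, c j * (c j + 1) + 1 ≤
      (a + 1) * (b + 1))
    {f : Fin 4 → MvPolynomial (Fin 2) k}
    (hf : ∀ i, f i ∈ SecG k a b (wcc c) (wpp p p' w0))
    (hrel : ∀ H : MvPolynomial (Fin 4) k, H.IsHomogeneous m → aeval f H = 0 → H = 0)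
    (hrel3 : ∀ (n : ℕ) (H : MvPolynomial (Fin 3) k), H.IsHomogeneous n →
      aeval (fun i : Fin 3 => f i.castSucc) H = 0 → H = 0)
    {x x' : Fin 5 → Pt} {w : Pt}
    (hz : AlgebraicIndependent R₀ (fun q : ((Fin 5 ⊕ Fin 5) ⊕ Fin 1) × Fin 2 =>
      wpp x x' w q.1 q.2)) :
    ∃ F : Fin 4 → Pol, (∀ i, F i ∈ SecW a b c 1 x x' w 1) ∧
      (∀ n ≤ m, ∀ H : MvPolynomial (Fin 4) ℂ, H.IsHomogeneous n → aeval F H = 0 → H = 0) ∧
      ∀ (n : ℕ) (H : MvPolynomial (Fin 3) ℂ), H.IsHomogeneous n →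
        aeval (fun i : Fin 3 => F i.castSucc) H = 0 → H = 0 := by
  classical
  let Q : Type := MvPolynomial (((Fin 5 ⊕ Fin 5) ⊕ Fin 1) × Fin 2) R₀
  let α : Q →+* ℂ :=
    (aeval (R := R₀) (fun q : ((Fin 5 ⊕ Fin 5) ⊕ Fin 1) × Fin 2 => wpp x x' w q.1 q.2)).toRingHom
  let β : Q →+* k := eval₂Hom φ (fun q : ((Fin 5 ⊕ Fin 5) ⊕ Fin 1) × Fin 2 => wpp p p' w0 q.1 q.2)
  have hα : Function.Injective α := hz
  have hβ : Function.Surjective β := by
    intro y
    obtain ⟨r, hr⟩ := hφ y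
    refine ⟨C r, ?_⟩
    change eval₂Hom φ _ (C r) = y
    rw [eval₂Hom_C, hr]
  let z : (Fin 5 ⊕ Fin 5) ⊕ Fin 1 → Fin 2 → Q := fun i j => X (i, j)
  have hzβ : (fun i j => β (z i j)) = wpp p p' w0 := by
    funext i j
    change eval₂Hom φ _ (X (i, j)) = _
    rw [eval₂Hom_X']
  have hzα : (fun i j => α (z i j)) = wpp x x' w := by
    funext i j
    change aeval _ (X (i, j)) = _
    rw [aeval_X]
  have hsec : ∀ i, ∃ g ∈ SecG Q a b (wcc c) z, map β g = f i := by
    intro i
    refine exists_lift_section β hβ ?_ ?_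
    · rw [hzβ]
      have h1 : ∑ i, wcc c i * (wcc c i + 1) = 2 * ∑ j, c j * (c j + 1) + 2 := by
        simp only [wcc, Fintype.sum_sum_type, Sum.elim_inl, Sum.elim_inr, Finset.univ_unique,
          Finset.sum_singleton]
        ring
      rw [h1]
      omega
    · rw [hzβ]
      exact hf i
  choose g hg1 hg2 using hsec
  refine ⟨fun i => map α (g i), fun i => ?_, ?_, ?_⟩
  · rw [mem_SecW_iff_SecG, ← hzα]
    exact map_mem_SecG α (hg1 i)
  · intro n hn
    refine no_relation_of_le hn 0 ?_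
    refine no_relation_generic β α hβ hα ?_
    simp only [hg2]
    exact hrel
  · intro n
    have h1 := no_relation_generic β α hβ hα (σ := Fin 3) (m := n)
      (g := fun i : Fin 3 => g i.castSucc) (by
        simp only [hg2]
        exact hrel3 n)
    exact h1

end Pool.Agent.Lib.MP_ed661f_ag.S
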