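import Pool.Agent.Lib.MP_ed661f_ag.S.Lim

/-!
Ideals of finitely many points over a ring have finitely generated quotients.
-/

set_option autoImplicit false

open MvPolynomial

namespace Pool.Agent.Lib.MP_ed661f_ag.S

/- PROOF. For every variable the monic polynomial `∏ a ∈ S, (X i - C (y a i)) ^ T` lies in `J`, so
the classes of the variables are integral over `B`; the quotient is generated by them as an
algebra (`fg_adjoin_of_finite`, `Algebra.IsIntegral` + `Algebra.FiniteType`). -/

/-- **(L2b)** an ideal which contains a product of powers of the ideals of finitely many points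
has a finitely generated quotient -/
theorem finite_of_points {B : Type*} [CommRing B] {N : ℕ} {ι : Type*} (S : Finset ι)
    (y : ι → Fin (N + 1) → B) (T : ℕ) {J : Ideal (MvPolynomial (Fin (N + 1)) B)}
    (hJ : ∏ a ∈ S, Ideal.span (Set.range fun i => (X i - C (y a i) :
      MvPolynomial (Fin (N + 1)) B)) ^ T ≤ J) :
    Module.Finite B (MvPolynomial (Fin (N + 1)) B ⧸ J) := by
  have h1 : ∀ i, ∏ a ∈ S, (X i - C (y a i) : MvPolynomial (Fin (N + 1)) B) ^ T ∈ J := by
    intro i
    refine hJ (Ideal.prod_mem_prod fun a _ => Ideal.pow_mem_pow ?_ T)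
    exact Ideal.subset_span ⟨i, rfl⟩
  have h2 : ∀ i, IsIntegral B (Ideal.Quotient.mk J (X i)) := by
    intro i
    refine ⟨∏ a ∈ S, (Polynomial.X - Polynomial.C (y a i)) ^ T,
      Polynomial.monic_prod_of_monic _ _ fun a _ => (Polynomial.monic_X_sub_C _).pow _, ?_⟩
    rw [Polynomial.eval₂_finsetProd]
    have h3 := Ideal.Quotient.eq_zero_iff_mem.2 (h1 i)
    rw [map_prod] at h3
    rw [← h3]
    refine Finset.prod_congr rfl fun a _ => ?_
    rw [Polynomial.eval₂_pow, Polynomial.eval₂_sub, Polynomial.eval₂_X, Polynomial.eval₂_C,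
      map_pow, map_sub]
    rfl
  have h4 : ∀ p : MvPolynomial (Fin (N + 1)) B, IsIntegral B (Ideal.Quotient.mk J p) := by
    intro p
    induction p using MvPolynomial.induction_on with
    | C a => exact isIntegral_algebraMap (R := B) (A := MvPolynomial (Fin (N + 1)) B ⧸ J) (x := a)
    | add p q hp hq =>
      rw [map_add]
      exact hp.add hq
    | mul_X p i hp =>
      rw [map_mul]
      exact hp.mul (h2 i)
  have : Algebra.IsIntegral B (MvPolynomial (Fin (N + 1)) B ⧸ J) := by
    constructor
    intro x
    obtain ⟨p, rfl⟩ := Ideal.Quotient.mk_surjective x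
    exact h4 p
  exact Algebra.IsIntegral.finite

end Pool.Agent.Lib.MP_ed661f_ag.S
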