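import Pool.Agent.Lib.MP_ed661f_ag.R.Defs
import Pool.Agent.Lib.MP_ed661f_ag.H.Defs

/-!
The interface between the base cases (four sections on the blow-up of `ℙ¹ × ℙ¹`) and the very
general surfaces in `ℙ³`.
-/

set_option autoImplicit false

open MvPolynomial

namespace Pool.Agent.Lib.MP_ed661f_ag.S

open E R H

/-- the base datum: four polynomials `f` with coefficients in the countable field `K`, the relations
between them are the multiples of the form `F₀` of degree `d`, and the polynomials `H(f)`, `H` a form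
of degree `m`, satisfy the inequality `n w² ≤ d m²` at `n` points whose coordinates are
algebraically independent over `K` -/
def BaseD (d n : ℕ) : Prop :=
  ∃ (K : Subfield ℂ) (f : Fin 4 → Pol) (F0 : Poly 3),
    (K : Set ℂ).Countable ∧ (∀ i e, coeff e (f i) ∈ K) ∧ (∀ e, coeff e F0 ∈ K) ∧
    F0.IsHomogeneous d ∧ coeff (Finsupp.single 3 d) F0 ≠ 0 ∧
    (∀ (m : ℕ) (H : Poly 3), H.IsHomogeneous m → (aeval f H = 0 ↔ F0 ∣ H)) ∧
    ∀ y : Fin n → Pt, AlgebraicIndependent K (fun q : Fin n × Fin 2 => y q.1 q.2) →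
      ∀ (m w : ℕ) (H : Poly 3), H.IsHomogeneous m → aeval f H ≠ 0 →
        (∀ i, w ≤ mlt (y i) (aeval f H)) → n * w ^ 2 ≤ d * m ^ 2

/-- the forms inequality at the points `v i` -/
def FI {n : ℕ} (d : ℕ) (F : Poly 3) (v : Fin n → Fin 4 → ℂ) : Prop :=
  ∀ (m w : ℕ) (G : Poly 3), G.IsHomogeneous m →
    (∀ i, G ∈ Ideal.span {F} ⊔ vecIdeal (v i) ^ w ⊔ Ideal.span {X 0 - 1}) →
    d * m ^ 2 < n * w ^ 2 → F ∣ G

end Pool.Agent.Lib.MP_ed661f_ag.S
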