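import Pool.Agent.Lib.MP_ed661f_ag.S.Place

/-!
Algebraically independent families over countable subfields of the complex numbers; Hensel's lemma
over a place for polynomials with coefficients in the valuation ring.
-/

set_option autoImplicit false

open MvPolynomial Cardinal

namespace Pool.Agent.Lib.MP_ed661f_ag.S.Hn

/-- finite algebraically independent families over a countable field -/
theorem exists_indep (K : Subfield ℂ) [Countable K] (ι : Type) [Finite ι] :
    ∃ t : ι → ℂ, AlgebraicIndependent K t := by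
  obtain ⟨s, hs⟩ := exists_isTranscendenceBasis K ℂ
  have h1 : #s = #ℂ := (IsAlgClosed.cardinal_eq_cardinal_transcendence_basis_of_aleph0_lt' _ hs
    (by rw [Cardinal.mk_le_aleph0_iff]; infer_instance)
    (by rw [Cardinal.mk_complex]; exact Cardinal.aleph0_lt_continuum)).symm
  have h2 : Infinite s := by
    rw [Cardinal.infinite_iff, h1, Cardinal.mk_complex]
    exact Cardinal.aleph0_le_continuum
  let e : ι → s := fun i => Infinite.natEmbedding s (Finite.equivFin ι i)
  have he : Function.Injective e := by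
    intro i j hij
    exact (Finite.equivFin ι).injective (Fin.ext ((Infinite.natEmbedding s).injective hij))
  exact ⟨fun i => (e i : ℂ), hs.1.comp e he⟩

theorem countable_closure (S : Set ℂ) (hS : S.Countable) : Countable (Subfield.closure S) := by
  rw [← Cardinal.mk_le_aleph0_iff]
  refine (Subfield.cardinalMk_closure_le_max S).trans ?_
  rw [max_le_iff]
  refine ⟨?_, le_refl _⟩
  rw [Cardinal.mk_le_aleph0_iff]
  exact hS

/-- lifting to a subfield -/
theorem exists_over {σ : Type*} {K : Subfield ℂ} {P : MvPolynomial σ ℂ} (h : ∀ e, P.coeff e ∈ K) :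
    ∃ P' : MvPolynomial σ K, map K.subtype P' = P := by
  classical
  refine ⟨∑ d ∈ P.support, monomial d ⟨P.coeff d, h d⟩, ?_⟩
  rw [map_sum]
  simp only [map_monomial]
  exact P.support_sum_monomial_coeff

theorem eval_ne_zero {σ : Type*} {K : Subfield ℂ} {t : σ → ℂ} (ht : AlgebraicIndependent K t)
    {P : MvPolynomial σ K} (h0 : map K.subtype P ≠ 0) : eval t (map K.subtype P) ≠ 0 := by
  intro h
  rw [eval_map] at h
  have h1 : aeval t P = 0 := h
  rw [← map_zero (aeval (R := K) t)] at h1
  have h2 : P = 0 := ht h1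
  rw [h2, map_zero] at h0
  exact h0 rfl

theorem eval_mem_field {σ : Type*} {K : Subfield ℂ} {t : σ → ℂ} (ht : ∀ i, t i ∈ K)
    {P : MvPolynomial σ ℂ} (h : ∀ e, P.coeff e ∈ K) : eval t P ∈ K := by
  rw [eval_eq]
  exact sum_mem fun e _ => mul_mem (h e) (prod_mem fun i _ => pow_mem (ht i) _)

/-- Hensel's lemma for a polynomial with coefficients in the valuation ring -/
theorem exists_root' (p : Place) (P : Polynomial p.B) (z0 : p.B)
    (h0 : p.ρ (P.eval z0) = 0) (h1 : p.ρ (P.derivative.eval z0) ≠ 0) :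
    ∃ z : p.B, P.eval z = 0 ∧ p.ρ z = p.ρ z0 := by
  set Q := Polynomial.taylor z0 P with hQ
  have hc : ∀ j, (Q.map p.B.subtype).coeff j = (Q.coeff j : ℂ) := fun j => by
    rw [Polynomial.coeff_map]
    rfl
  have hcB : ∀ j, (Q.map p.B.subtype).coeff j ∈ p.B := fun j => by
    rw [hc]
    exact (Q.coeff j).2
  have e0 : (⟨(Q.map p.B.subtype).coeff 0, hcB 0⟩ : p.B) = P.eval z0 := by
    apply Subtype.ext
    change (Q.map p.B.subtype).coeff 0 = _
    rw [hc, hQ, Polynomial.taylor_coeff_zero]
  have e1 : (⟨(Q.map p.B.subtype).coeff 1, hcB 1⟩ : p.B) = P.derivative.eval z0 := by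
    apply Subtype.ext
    change (Q.map p.B.subtype).coeff 1 = _
    rw [hc, hQ, Polynomial.taylor_coeff_one]
  obtain ⟨w, hw, hw1, hw2⟩ := p.exists_root hcB (by rw [e0]; exact h0) (by rw [e1]; exact h1)
  refine ⟨z0 + ⟨w, hw⟩, ?_, ?_⟩
  · have h3 : Q.eval ⟨w, hw⟩ = 0 := by
      apply Subtype.ext
      have h4 : Polynomial.eval w (Q.map p.B.subtype) = p.B.subtype (Q.eval ⟨w, hw⟩) := by
        have := Polynomial.eval_map_apply (f := p.B.subtype) (p := Q) ⟨w, hw⟩
        exact this
      rw [h4] at hw1
      exact hw1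
    rw [hQ, Polynomial.taylor_eval] at h3
    rw [add_comm]
    exact h3
  · rw [map_add, hw2, add_zero]

end Pool.Agent.Lib.MP_ed661f_ag.S.Hn
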