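import Pool.Agent.Lib.MP_ed661f_ag.S.Place

/-!
Places of the field of complex numbers with several parameters.
-/

set_option autoImplicit false

open MvPolynomial

namespace Pool.Agent.Lib.MP_ed661f_ag.S

/-- every valuation ring of `ℂ` which contains the subfield `K₀` belongs to a place which is the
identity on `K₀` -/
theorem exists_place_of (B : ValuationSubring ℂ) (K₀ : Subfield ℂ) (h : (K₀ : Set ℂ) ⊆ B) :
    ∃ p : Place, p.B = B ∧ K₀ ≤ p.K := by
  obtain ⟨K, hK₀, hK, hmax⟩ := exists_max B K₀ h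
  let i : K →+* B := ⟨⟨⟨fun z => ⟨z, hK z.2⟩, rfl⟩, fun _ _ => rfl⟩, rfl, fun _ _ => rfl⟩
  let φ : K →+* IsLocalRing.ResidueField B := (IsLocalRing.residue B).comp i
  have hφ : Function.Bijective φ := by
    refine ⟨φ.injective, ?_⟩
    intro y
    obtain ⟨x, rfl⟩ := IsLocalRing.residue_surjective y
    obtain ⟨c, hc⟩ := exists_res B K hK hmax x.2
    refine ⟨c, ?_⟩
    symm
    change IsLocalRing.residue B x = IsLocalRing.residue B (i c)
    rw [← sub_eq_zero, ← map_sub, IsLocalRing.residue_eq_zero_iff]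
    exact B.coe_mem_nonunits_iff.1 hc
  let e : K ≃+* IsLocalRing.ResidueField B := RingEquiv.ofBijective φ hφ
  let ρ : B →+* ℂ := K.subtype.comp ((e.symm : _ →+* K).comp (IsLocalRing.residue B))
  have hρ : ∀ x, ρ x = ((e.symm (IsLocalRing.residue B x) : K) : ℂ) := fun x => rfl
  have hker : ∀ x : B, ρ x = 0 ↔ x ∈ IsLocalRing.maximalIdeal B := by
    intro x
    rw [hρ, ← IsLocalRing.residue_eq_zero_iff]
    constructor
    · intro h
      have h1 : e.symm (IsLocalRing.residue B x) = 0 := Subtype.ext h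
      rwa [EmbeddingLike.map_eq_zero_iff] at h1
    · intro h
      rw [h, map_zero]
      rfl
  refine ⟨⟨B, K, fun x hx => hK hx, ρ, fun x => (e.symm (IsLocalRing.residue B x)).2, ?_, hker⟩,
    rfl, hK₀⟩
  intro x hx
  rw [hρ]
  have h1 : IsLocalRing.residue B ⟨x, hK hx⟩ = e ⟨x, hx⟩ := rfl
  rw [h1, RingEquiv.symm_apply_apply]

/-- **places with several parameters**: algebraically independent numbers can be specialised to
arbitrary elements of the base field -/
theorem exists_place_multi (K₀ : Subfield ℂ) {ι : Type*} {a a0 : ι → ℂ}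
    (ha : AlgebraicIndependent K₀ a) (h0 : ∀ i, a0 i ∈ K₀) :
    ∃ p : Place, K₀ ≤ p.K ∧ ∀ i, ∃ h : a i ∈ p.B, p.ρ ⟨a i, h⟩ = a0 i := by
  set A : Subalgebra K₀ ℂ := Algebra.adjoin K₀ (Set.range a) with hA
  have haA : ∀ i, a i ∈ A := fun i => Algebra.subset_adjoin ⟨i, rfl⟩
  let b : ι → A := fun i => ⟨a i, haA i⟩ - algebraMap K₀ A ⟨a0 i, h0 i⟩
  -- the evaluation at `a0`
  let e : MvPolynomial ι K₀ ≃ₐ[K₀] A := ha.aevalEquiv
  let f : A →ₐ[K₀] K₀ := (aeval fun i => (⟨a0 i, h0 i⟩ : K₀)).comp (e.symm : A →ₐ[K₀] _)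
  have hf : ∀ i, f (b i) = 0 := by
    intro i
    have h1 : (⟨a i, haA i⟩ : A) = e (X i) := by
      apply Subtype.ext
      have := ha.algebraMap_aevalEquiv (X i)
      rw [aeval_X] at this
      exact this.symm
    have h2 : f ⟨a i, haA i⟩ = ⟨a0 i, h0 i⟩ := by
      rw [h1]
      change (aeval fun i => (⟨a0 i, h0 i⟩ : K₀)) (e.symm (e (X i))) = _
      rw [AlgEquiv.symm_apply_apply, aeval_X]
    rw [map_sub, h2, AlgHom.commutes]
    exact sub_self _
  obtain ⟨B, hAB, hB⟩ := Ideal.image_subset_nonunits_valuationSubring (K := ℂ) (A := A.toSubring)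
    (Ideal.span (Set.range b)) (by
      intro htop
      have h1 : (1 : A) ∈ Ideal.span (Set.range b) := (Ideal.eq_top_iff_one _).1 htop
      have h2 : Ideal.span (Set.range b) ≤ RingHom.ker (f : A →+* K₀) := by
        rw [Ideal.span_le]
        rintro _ ⟨i, rfl⟩
        exact hf i
      have h3 := h2 h1
      rw [RingHom.mem_ker, map_one] at h3
      exact one_ne_zero h3)
  have hbB : ∀ i, a i - a0 i ∈ B.nonunits := fun i => hB ⟨b i, Ideal.subset_span ⟨i, rfl⟩, rfl⟩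
  have hK₀B : (K₀ : Set ℂ) ⊆ B := fun x hx => hAB (A.algebraMap_mem ⟨x, hx⟩)
  obtain ⟨p, hp, hpK⟩ := exists_place_of B K₀ hK₀B
  subst hp
  refine ⟨p, hpK, fun i => ?_⟩
  have h1 : a i ∈ p.B := hAB (haA i)
  refine ⟨h1, ?_⟩
  have h2 : a0 i ∈ p.K := hpK (h0 i)
  have h3 := p.id (a0 i) h2
  have h4 : p.ρ (⟨a i, h1⟩ - ⟨a0 i, p.le _ h2⟩) = 0 := by
    rw [p.ker]
    exact p.B.coe_mem_nonunits_iff.1 (hbB i)
  rw [map_sub, h3, sub_eq_zero] at h4
  exact h4

end Pool.Agent.Lib.MP_ed661f_ag.S
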