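import Pool.Agent.Lib.MP_ed661f_ag.S.Lim

/-!
Division by a form which is monic in the last variable; primitive multiples.
-/

set_option autoImplicit false

open MvPolynomial

namespace Pool.Agent.Lib.MP_ed661f_ag.S.Hn

open Pool.Agent.Lib.MP_ed661f_ag.H

/-- division with remainder by a form which is monic in the last variable -/
theorem exists_rem {F : Poly 3} {d : ℕ} (hF : F.IsHomogeneous d)
    (hl : coeff (Finsupp.single 3 d) F ≠ 0) {m : ℕ} {G : Poly 3} (hG : G.IsHomogeneous m) :
    ∃ G' : Poly 3, F ∣ G - G' ∧ G'.IsHomogeneous m ∧ ∀ e ∈ G'.support, e 3 < d := by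
  classical
  let W : Submodule ℂ (Poly 3) :=
    { carrier := {G | ∃ G' : Poly 3, F ∣ G - G' ∧ G'.IsHomogeneous m ∧ ∀ e ∈ G'.support, e 3 < d}
      add_mem' := by
        rintro G1 G2 ⟨H1, a1, b1, c1⟩ ⟨H2, a2, b2, c2⟩
        refine ⟨H1 + H2, ?_, b1.add b2, ?_⟩
        · have : G1 + G2 - (H1 + H2) = (G1 - H1) + (G2 - H2) := by ring
          rw [this]
          exact dvd_add a1 a2
        · intro e he
          rcases Finset.mem_union.1 (support_add he) with h | h
          · exact c1 e h
          · exact c2 e h
      zero_mem' := ⟨0, by simp, isHomogeneous_zero _ _ _, by simp⟩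
      smul_mem' := by
        rintro r G1 ⟨H1, a1, b1, c1⟩
        refine ⟨r • H1, ?_, ?_, ?_⟩
        · rw [← smul_sub, smul_eq_C_mul]
          exact Dvd.dvd.mul_left a1 _
        · rw [smul_eq_C_mul]
          exact b1.C_mul r
        · intro e he
          exact c1 e (support_smul he) }
  have hmon : ∀ k : ℕ, ∀ e : Fin 4 →₀ ℕ, e.degree = m → e 3 = k → (monomial e 1 : Poly 3) ∈ W := by
    intro k
    induction k using Nat.strong_induction_on with
    | _ k ih =>
      intro e hem hek
      rcases Nat.lt_or_ge (e 3) d with hlt | hge
      · refine ⟨monomial e 1, by simp, isHomogeneous_monomial _ hem, ?_⟩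
        intro e' he'
        have := support_monomial_subset he'
        rw [Finset.mem_singleton] at this
        rw [this]
        exact hlt
      · set l := coeff (Finsupp.single 3 d) F with hldef
        set e' : Fin 4 →₀ ℕ := e - Finsupp.single 3 d with he'
        have hle : Finsupp.single 3 d ≤ e := by
          rw [Finsupp.single_le_iff]
          exact hge
        have hsum : e' + Finsupp.single 3 d = e := tsub_add_cancel_of_le hle
        -- subtract a multiple of `F`
        have h1 : (monomial e 1 : Poly 3) = l⁻¹ • (monomial e' 1 * F) -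
            l⁻¹ • ∑ c ∈ F.support.erase (Finsupp.single 3 d),
              coeff c F • (monomial (e' + c) 1 : Poly 3) := by
          have h2 : monomial e' (1 : ℂ) * F =
              ∑ c ∈ F.support, coeff c F • (monomial (e' + c) 1 : Poly 3) := by
            conv_lhs => rw [F.as_sum]
            rw [Finset.mul_sum]
            refine Finset.sum_congr rfl fun c _ => ?_
            rw [monomial_mul, one_mul, smul_monomial, smul_eq_mul, mul_one]
          have h3 : Finsupp.single 3 d ∈ F.support := mem_support_iff.2 hl
          rw [h2, ← Finset.add_sum_erase _ _ h3, smul_add, add_sub_cancel_right, hsum, smul_smul,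
            ← hldef, inv_mul_cancel₀ hl, one_smul]
        rw [h1]
        refine W.sub_mem (W.smul_mem _ ?_) (W.smul_mem _ (W.sum_mem fun c hc => W.smul_mem _ ?_))
        · exact ⟨0, by rw [sub_zero]; exact Dvd.intro_left _ rfl, isHomogeneous_zero _ _ _, by simp⟩
        · rw [Finset.mem_erase] at hc
          have hcd : c.degree = d := by
            have := hF (mem_support_iff.1 hc.2)
            rw [Finsupp.degree_eq_weight_one]
            exact this
          have hc3 : c 3 < d := by
            have h4 : c 0 + c 1 + c 2 + c 3 = d := by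
              rw [← hcd, Finsupp.degree_eq_sum, Fin.sum_univ_four]
            by_contra hcon
            apply hc.1
            ext i
            fin_cases i <;> simp <;> omega
          have he3 : e' 3 + d = e 3 := by
            have := DFunLike.congr_fun hsum 3
            rw [Finsupp.add_apply, Finsupp.single_eq_same] at this
            exact this
          refine ih (e' 3 + c 3) (by omega) (e' + c) ?_ (by rw [Finsupp.add_apply])
          rw [map_add, hcd]
          have := congrArg Finsupp.degree hsum
          rw [map_add, Finsupp.degree_single, hem] at this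
          exact this
  have hGW : G ∈ W := by
    rw [G.as_sum]
    refine W.sum_mem fun e he => ?_
    have h1 : e.degree = m := by
      have := hG (mem_support_iff.1 he)
      rw [Finsupp.degree_eq_weight_one]
      exact this
    have h2 : (monomial e (coeff e G) : Poly 3) = coeff e G • monomial e 1 := by
      rw [smul_monomial, smul_eq_mul, mul_one]
    rw [h2]
    exact W.smul_mem _ (hmon _ e h1 rfl)
  exact hGW

/-- scaling to a polynomial over the valuation ring with nonzero reduction -/
theorem exists_primitive (p : Place) {G : Poly 3} (hG : G ≠ 0) :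
    ∃ (r : ℂ) (GB : MvPolynomial (Fin 4) p.B), r ≠ 0 ∧ map p.B.subtype GB = C r * G ∧
      map p.ρ GB ≠ 0 := by
  classical
  have hs : G.support.Nonempty := support_nonempty.2 hG
  obtain ⟨a, ha, hmax⟩ := Finset.exists_max_image G.support
    (fun a => p.B.valuation (coeff a G)) hs
  have ha0 : coeff a G ≠ 0 := mem_support_iff.1 ha
  have hB : ∀ b, coeff b (C (coeff a G)⁻¹ * G) ∈ p.B := by
    intro b
    rw [coeff_C_mul, mul_comm]
    by_cases hb : b ∈ G.support
    · rw [← p.B.valuation_le_one_iff, map_mul, map_inv₀]
      have h1 : p.B.valuation (coeff a G) ≠ 0 := (map_ne_zero _).2 ha0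
      calc p.B.valuation (coeff b G) * (p.B.valuation (coeff a G))⁻¹
          ≤ p.B.valuation (coeff a G) * (p.B.valuation (coeff a G))⁻¹ :=
            mul_le_mul_left (hmax b hb) _
        _ = 1 := mul_inv_cancel₀ h1
    · rw [notMem_support_iff.1 hb, zero_mul]
      exact zero_mem _
  obtain ⟨GB, hGB⟩ := exists_lift (N := 3) p hB
  refine ⟨(coeff a G)⁻¹, GB, inv_ne_zero ha0, hGB, ?_⟩
  intro h
  have h2 := congrArg (coeff a) h
  have h3 : coeff a GB = 1 := by
    apply Subtype.ext
    have h4 := congrArg (coeff a) hGB
    rw [Place.emb, coeff_map, coeff_C_mul, inv_mul_cancel₀ ha0] at h4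
    exact h4
  rw [coeff_map, h3, map_one, coeff_zero] at h2
  exact one_ne_zero h2

end Pool.Agent.Lib.MP_ed661f_ag.S.Hn
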