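import Pool.Agent.Lib.MP_ed661f_ag.S.Pull
import Pool.Agent.Lib.MP_ed661f_ag.S.Multi
import Pool.Agent.Lib.MP_ed661f_ag.S.Indep
import Pool.Agent.Lib.MP_ed661f_ag.S.Rem
import Pool.Agent.Lib.MP_ed661f_ag.S.Iface

/-!
The inequality for forms on a very general surface of degree `d` at `n` points: if a form of
degree `m` which is not divisible by `F` vanishes to order `w` at the `n` points of the surface then
`n w² ≤ d m²`.
-/

set_option autoImplicit false

open MvPolynomial

namespace Pool.Agent.Lib.MP_ed661f_ag.S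

open Pool.Agent.Lib.MP_ed661f_ag.E Pool.Agent.Lib.MP_ed661f_ag.R Pool.Agent.Lib.MP_ed661f_ag.H

namespace Hn

/-- the order of vanishing is transferred to the pull back of the reduction -/
theorem transfer (p : Place) {FB GB : MvPolynomial (Fin 4) p.B} {d m : ℕ}
    (hFB : (map p.ρ FB).IsHomogeneous d) (hGB : (map p.ρ GB).IsHomogeneous m) {s t z : p.B}
    (hF : eval ![1, s, t, z] FB = 0) (hδ : p.ρ (eval ![1, s, t, z] (pderiv 3 FB)) ≠ 0)
    {f : Fin 4 → Pol} (hf : aeval f (map p.ρ FB) = 0) {y : Pt} (hy : eval y (f 0) ≠ 0)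
    (hs : eval y (f 1) = eval y (f 0) * p.ρ s) (ht : eval y (f 2) = eval y (f 0) * p.ρ t)
    (hz : eval y (f 3) = eval y (f 0) * p.ρ z) {w : ℕ}
    (hG : map p.B.subtype GB ∈ KK (map p.B.subtype FB) ![1, (s : ℂ), (t : ℂ), (z : ℂ)] (w + 1)) :
    Bz.Ord (w + 1) (tay y (aeval f (map p.ρ GB))) := by
  obtain ⟨ζ, h1, h2, h3⟩ := germ_reduce p hF hδ w hG
  refine ker_pow_le y (w + 1) (pull hFB hGB hf hy hs ht hz ?_ h1 h2 h3)
  have h4 : ∀ P : MvPolynomial (Fin 4) p.B, eval ![1, p.ρ s, p.ρ t, p.ρ z] (map p.ρ P) =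
      p.ρ (eval ![1, s, t, z] P) := by
    intro P
    have h : (eval ![1, p.ρ s, p.ρ t, p.ρ z]).comp (map p.ρ) = p.ρ.comp (eval ![1, s, t, z]) := by
      apply MvPolynomial.ringHom_ext
      · intro a
        simp
      · intro i
        fin_cases i <;> simp
    exact congrArg (fun φ => φ P) h
  rw [pderiv_map, h4]
  exact hδ

/-- the reduction argument for one form -/
theorem bound_of_place (p : Place) {n d : ℕ} (hd1 : 1 ≤ d) {y : Fin n → Pt} {f : Fin 4 → Pol}
    (hin : ∀ (m w : ℕ) (H : Poly 3), H.IsHomogeneous m → aeval f H ≠ 0 →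
      (∀ i, w ≤ mlt (y i) (aeval f H)) → n * w ^ 2 ≤ d * m ^ 2)
    {FB : MvPolynomial (Fin 4) p.B} (hFB : FB.IsHomogeneous d)
    (hl : coeff (Finsupp.single 3 d) (map p.ρ FB) ≠ 0) (hf0 : aeval f (map p.ρ FB) = 0)
    (hker : ∀ (m : ℕ) (H : Poly 3), H.IsHomogeneous m → aeval f H = 0 → map p.ρ FB ∣ H)
    {s t z : Fin n → p.B} (hF : ∀ i, eval ![1, s i, t i, z i] FB = 0)
    (hδ : ∀ i, p.ρ (eval ![1, s i, t i, z i] (pderiv 3 FB)) ≠ 0)
    (hy : ∀ i, eval (y i) (f 0) ≠ 0)
    (hs : ∀ i, eval (y i) (f 1) = eval (y i) (f 0) * p.ρ (s i))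
    (ht : ∀ i, eval (y i) (f 2) = eval (y i) (f 0) * p.ρ (t i))
    (hz : ∀ i, eval (y i) (f 3) = eval (y i) (f 0) * p.ρ (z i)) {m w : ℕ} {G : Poly 3}
    (hG : G.IsHomogeneous m)
    (hGK : ∀ i, G ∈ KK (map p.B.subtype FB) ![1, (s i : ℂ), (t i : ℂ), (z i : ℂ)] w)
    (hlt : d * m ^ 2 < n * w ^ 2) : map p.B.subtype FB ∣ G := by
  classical
  set F : Poly 3 := map p.B.subtype FB with hFdef
  have hw : w ≠ 0 := by
    rintro rfl
    simp at hlt
  obtain ⟨w, rfl⟩ := Nat.exists_eq_succ_of_ne_zero hw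
  by_contra hnd
  have hFh : F.IsHomogeneous d := hFB.map _
  have hlF : coeff (Finsupp.single 3 d) F ≠ 0 := by
    intro h
    apply hl
    rw [hFdef, coeff_map] at h
    have h1 : coeff (Finsupp.single 3 d) FB = 0 := Subtype.ext h
    rw [coeff_map, h1, map_zero]
  obtain ⟨G', hdvd, hG'h, hG's⟩ := exists_rem hFh hlF hG
  have hG'0 : G' ≠ 0 := by
    rintro rfl
    rw [sub_zero] at hdvd
    exact hnd hdvd
  obtain ⟨r, GB, hr, hGB, hGρ⟩ := exists_primitive p hG'0
  set G0 : Poly 3 := map p.ρ GB with hG0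
  -- `GB` is homogeneous of small degree in the last variable
  have hcoef : ∀ e, coeff e GB ≠ 0 → coeff e G' ≠ 0 := by
    intro e he h
    apply he
    have h1 := congrArg (coeff e) hGB
    rw [coeff_map, coeff_C_mul, h, mul_zero] at h1
    exact Subtype.ext h1
  have hGBh : GB.IsHomogeneous m := fun e he => hG'h (hcoef e he)
  have hG0h : G0.IsHomogeneous m := hGBh.map _
  have hG0s : ∀ e ∈ G0.support, e 3 < d := by
    intro e he
    apply hG's e
    rw [mem_support_iff] at he ⊢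
    apply hcoef
    intro h
    rw [hG0, coeff_map, h, map_zero] at he
    exact he rfl
  -- `F0` does not divide `G0`
  have hndvd : ¬ map p.ρ FB ∣ G0 := by
    rintro ⟨Q, hQ⟩
    have hF0 : map p.ρ FB ≠ 0 := by
      intro h
      rw [h, coeff_zero] at hl
      exact hl rfl
    have hQ0 : Q ≠ 0 := by
      rintro rfl
      rw [mul_zero] at hQ
      exact hGρ hQ
    have h1 : G0.degreeOf 3 = (map p.ρ FB).degreeOf 3 + Q.degreeOf 3 := by
      rw [hQ, degreeOf_mul_eq hF0 hQ0]
    have h2 : d ≤ (map p.ρ FB).degreeOf 3 := by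
      have := monomial_le_degreeOf 3 (mem_support_iff.2 hl)
      rwa [Finsupp.single_eq_same] at this
    have h3 : G0.degreeOf 3 < d := by
      rw [degreeOf_lt_iff hd1]
      exact hG0s
    omega
  have hg0 : aeval f G0 ≠ 0 := fun h => hndvd (hker m G0 hG0h h)
  have hgw : ∀ i, Bz.Ord (w + 1) (tay (y i) (aeval f G0)) := by
    intro i
    refine transfer p (hFB.map _) hG0h (hF i) (hδ i) hf0 (hy i) (hs i) (ht i) (hz i) ?_
    rw [hGB]
    refine Ideal.mul_mem_left _ _ ?_
    obtain ⟨Q, hQ⟩ := hdvd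
    have h1 : G' = G - F * Q := by rw [← hQ]; ring
    rw [h1]
    refine Ideal.sub_mem _ (hGK i) (Ideal.mul_mem_right _ _ ?_)
    exact Ideal.mem_sup_left (Ideal.mem_sup_left (Ideal.subset_span rfl))
  have h1 := hin m (w + 1) G0 hG0h hg0 fun i => (le_mlt_iff hg0 _).2 (hgw i)
  have h2 : n * (w + 1) ^ 2 = n * (w.succ) ^ 2 := rfl
  omega

/-- the exponents of degree `d` -/
abbrev Ex (d : ℕ) : Type := {e : Fin 4 →₀ ℕ // e.degree = d}

instance (d : ℕ) : Finite (Ex d) := by
  classical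
  refine Set.Finite.subset (Finset.finite_toSet
    ((Finset.univ : Finset (Fin 4)).finsuppAntidiag d)) ?_
  intro e he
  rw [Finset.mem_coe, Finset.mem_finsuppAntidiag]
  refine ⟨?_, Finset.subset_univ _⟩
  rw [← Finsupp.degree_eq_sum]
  exact he

theorem eval_map_comp {σ R R' : Type*} [CommRing R] [CommRing R'] (ψ : R →+* R') (v : σ → R)
    (P : MvPolynomial σ R) : eval (fun i => ψ (v i)) (map ψ P) = ψ (eval v P) := by
  rw [eval_map, ← Function.comp_def, eval₂_comp]

/-- generic points and further independent parameters -/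
theorem exists_params {d : ℕ} {K1 : Subfield ℂ} (hc : (K1 : Set ℂ).Countable) {f : Fin 4 → Pol}
    {F0 : Poly 3} (hfK : ∀ j e, coeff e (f j) ∈ K1) (hFK : ∀ e, coeff e F0 ∈ K1)
    (hd1 : 1 ≤ d) (h0 : F0.IsHomogeneous d) (hl : coeff (Finsupp.single 3 d) F0 ≠ 0)
    (hker : ∀ (m : ℕ) (H : Poly 3), H.IsHomogeneous m → aeval f H = 0 → F0 ∣ H)
    (hf0 : f 0 ≠ 0) (n : ℕ) :
    ∃ (K : Subfield ℂ) (y : Fin n → Pt) (A : Ex d ⊕ Fin n × Fin 2 → ℂ),
      AlgebraicIndependent K1 (fun q : Fin n × Fin 2 => y q.1 q.2) ∧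
      (∀ i, eval (y i) (f 0) ≠ 0) ∧
      (∀ i, eval (y i) (aeval f (pderiv 3 F0)) ≠ 0) ∧ (∀ e, coeff e F0 ∈ K) ∧
      (∀ i j, eval (y i) (f j) ∈ K) ∧ AlgebraicIndependent K A := by
  classical
  have : Countable K1 := hc.to_subtype
  obtain ⟨t, ht⟩ := exists_indep K1 (Fin n × Fin 2)
  set y : Fin n → Pt := fun i k => t (i, k) with hy
  have hyi : ∀ i, AlgebraicIndependent K1 (y i) := fun i =>
    ht.comp (fun k => (i, k)) (fun k k' h => (Prod.mk.inj h).2)
  -- lifts
  have hlift := fun j => exists_over (hfK j)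
  choose f' hf' using hlift
  obtain ⟨F0', hF0'⟩ := exists_over hFK
  have hpd : aeval f (pderiv 3 F0) = map K1.subtype (aeval f' (pderiv 3 F0')) := by
    have h1 : ∀ H : MvPolynomial (Fin 4) K1, aeval f (map K1.subtype H) =
        map K1.subtype (aeval f' H) := by
      intro H
      have h : (aeval f : Poly 3 →ₐ[ℂ] Pol).toRingHom.comp (map K1.subtype) =
          (map K1.subtype).comp (aeval f' : MvPolynomial (Fin 4) K1 →ₐ[K1] _).toRingHom := by
        apply MvPolynomial.ringHom_ext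
        · intro r
          simp
        · intro i
          simp [hf']
      exact congrArg (fun φ => φ H) h
    rw [← h1, ← pderiv_map, hF0']
  have hpd0 : aeval f (pderiv 3 F0) ≠ 0 := by
    intro h
    have hne : pderiv 3 F0 ≠ 0 := by
      intro h1
      have h2 := congrArg (coeff (Finsupp.single 3 (d - 1))) h1
      rw [coeff_pderiv, coeff_zero, ← Finsupp.single_add, Nat.sub_add_cancel hd1] at h2
      rcases mul_eq_zero.1 h2 with h3 | h3
      · exact hl h3
      · rw [Finsupp.single_eq_same] at h3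
        have : (((d - 1 + 1 : ℕ)) : ℂ) = 0 := by
          push_cast
          exact h3
        exact absurd (Nat.cast_eq_zero.1 this) (by omega)
    have hh : (pderiv 3 F0).IsHomogeneous (d - 1) := h0.pderiv
    obtain ⟨Q, hQ⟩ := hker _ _ hh h
    have hF00 : F0 ≠ 0 := by
      rintro rfl
      exact hl (coeff_zero _)
    have hQ0 : Q ≠ 0 := by
      rintro rfl
      rw [mul_zero] at hQ
      exact hne hQ
    have h1 := totalDegree_mul_of_isDomain hF00 hQ0
    rw [← hQ, hh.totalDegree hne, h0.totalDegree hF00] at h1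
    omega
  -- the second field
  set S2 : Set ℂ := K1 ∪ Set.range t with hS2
  have hS2c : S2.Countable := by
    exact hc.union (Set.countable_range _)
  set K2 := Subfield.closure S2 with hK2
  have : Countable K2 := countable_closure S2 hS2c
  have hsub2 : S2 ⊆ K2 := Subfield.subset_closure
  obtain ⟨A, hA⟩ := exists_indep K2 (Ex d ⊕ Fin n × Fin 2)
  refine ⟨K2, y, A, ht, ?_, ?_, ?_, ?_, hA⟩
  · intro i
    rw [← hf' 0]
    refine eval_ne_zero (hyi i) ?_
    rw [hf' 0]
    exact hf0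
  · intro i
    rw [hpd]
    refine eval_ne_zero (hyi i) ?_
    rw [← hpd]
    exact hpd0
  · intro e
    exact hsub2 (Or.inl (hFK e))
  · intro i j
    exact eval_mem_field (fun k => hsub2 (Or.inr ⟨(i, k), rfl⟩)) fun e => hsub2 (Or.inl (hfK j e))

/-- a form with prescribed coefficients -/
theorem exists_form {R : Type*} [CommRing R] {d : ℕ} (A : Ex d → R) :
    ∃ F : MvPolynomial (Fin 4) R, F.IsHomogeneous d ∧ ∀ e : Ex d, coeff e.1 F = A e := by
  classical
  have := Fintype.ofFinite (Ex d)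
  refine ⟨∑ e : Ex d, monomial e.1 (A e), ?_, ?_⟩
  · exact IsHomogeneous.sum _ _ _ fun e _ => isHomogeneous_monomial _ e.2
  · intro e
    rw [coeff_sum, Finset.sum_eq_single e]
    · rw [coeff_monomial, if_pos rfl]
    · intro e' _ hne
      rw [coeff_monomial, if_neg]
      intro h
      exact hne (Subtype.ext h)
    · intro h
      exact absurd (Finset.mem_univ e) h

theorem form_ext {R : Type*} [CommRing R] {d : ℕ} {F G : MvPolynomial (Fin 4) R}
    (hF : F.IsHomogeneous d) (hG : G.IsHomogeneous d)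
    (h : ∀ e : Ex d, coeff e.1 F = coeff e.1 G) : F = G := by
  ext e
  by_cases he : e.degree = d
  · exact h ⟨e, he⟩
  · rw [hF.coeff_eq_zero he, hG.coeff_eq_zero he]

end Hn

open Hn in
/-- **the inequality for forms** on a very general surface of degree `d` in three-space at `n` points -/
theorem forms_ineq {d n : ℕ} (hd1 : 1 ≤ d) (h : BaseD d n) :
    ∃ (F : Poly 3) (v : Fin n → Fin 4 → ℂ), F.IsHomogeneous d ∧
      AlgebraicIndependent ℚ (fun e : {e : Fin 4 →₀ ℕ // e.degree = d} => coeff e.1 F) ∧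
      Function.Injective v ∧ (∀ i, v i 0 = 1) ∧ (∀ i, eval (v i) F = 0) ∧
      (∀ i, eval (v i) (pderiv 3 F) ≠ 0) ∧ FI d F v := by
  classical
  obtain ⟨K1, f, F0, hc, hfK1, hFK1, h0, hl, hiff, hin⟩ := h
  have hker : ∀ (m : ℕ) (H : Poly 3), H.IsHomogeneous m → aeval f H = 0 → F0 ∣ H :=
    fun m H hH h => (hiff m H hH).1 h
  have hF0 : aeval f F0 = 0 := (hiff d F0 h0).2 dvd_rfl
  have hf0 : f 0 ≠ 0 := by
    intro h
    obtain ⟨Q, hQ⟩ := hker 1 (X 0) (isHomogeneous_X _ _) (by rw [aeval_X, h])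
    have hF00 : F0 ≠ 0 := by
      rintro rfl
      exact hl (coeff_zero _)
    have hQ0 : Q ≠ 0 := by
      rintro rfl
      rw [mul_zero] at hQ
      exact X_ne_zero 0 hQ
    have h1 : (X 0 : Poly 3).degreeOf 3 = F0.degreeOf 3 + Q.degreeOf 3 := by
      rw [hQ, degreeOf_mul_eq hF00 hQ0]
    have h2 : d ≤ F0.degreeOf 3 := by
      have := monomial_le_degreeOf 3 (mem_support_iff.2 hl)
      rwa [Finsupp.single_eq_same] at this
    have h3 : (X 0 : Poly 3).degreeOf 3 = 0 := by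
      rw [degreeOf_X_of_ne]
      decide
    omega
  obtain ⟨K, y, A, hgen, hy0, hyδ, hFK, hfK, hA⟩ :=
    exists_params hc hfK1 hFK1 hd1 h0 hl hker hf0 n
  -- the values of the parameters
  set A0 : Ex d ⊕ Fin n × Fin 2 → ℂ := Sum.elim (fun e => coeff e.1 F0)
    (fun q => eval (y q.1) (f (if q.2 = 0 then 1 else 2)) / eval (y q.1) (f 0)) with hA0
  have hA0K : ∀ i, A0 i ∈ K := by
    rintro (e | q)
    · exact hFK _
    · exact div_mem (hfK _ _) (hfK _ _)
  obtain ⟨p, hpK, hpA⟩ := exists_place_multi K hA hA0K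
  choose hAB hρ using hpA
  obtain ⟨FB, hFBh, hFBc⟩ := exists_form (fun e : Ex d => (⟨A (Sum.inl e), hAB _⟩ : p.B))
  have hred : map p.ρ FB = F0 := by
    refine form_ext (hFBh.map _) h0 fun e => ?_
    rw [coeff_map, hFBc, hρ]
    rfl
  set s : Fin n → p.B := fun i => ⟨A (Sum.inr (i, 0)), hAB _⟩ with hs
  set t : Fin n → p.B := fun i => ⟨A (Sum.inr (i, 1)), hAB _⟩ with ht
  have hsρ : ∀ i, p.ρ (s i) = eval (y i) (f 1) / eval (y i) (f 0) := by
    intro i
    rw [hs, hρ]
    simp [hA0]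
  have htρ : ∀ i, p.ρ (t i) = eval (y i) (f 2) / eval (y i) (f 0) := by
    intro i
    rw [ht, hρ]
    simp [hA0]
  have hz0K : ∀ i, eval (y i) (f 3) / eval (y i) (f 0) ∈ p.K := fun i =>
    hpK (div_mem (hfK _ _) (hfK _ _))
  set z0 : Fin n → p.B := fun i => ⟨_, p.le _ (hz0K i)⟩ with hz0
  have hz0ρ : ∀ i, p.ρ (z0 i) = eval (y i) (f 3) / eval (y i) (f 0) := fun i => p.id _ (hz0K i)
  -- the reduction of the values
  have hval : ∀ (i : Fin n) (z : p.B), p.ρ z = p.ρ (z0 i) → ∀ P : MvPolynomial (Fin 4) p.B,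
      p.ρ (eval ![1, s i, t i, z] P) =
        eval (fun j => (eval (y i) (f 0))⁻¹ * eval (y i) (f j)) (map p.ρ P) := by
    intro i z hz P
    rw [← eval_map_comp]
    congr 2
    funext j
    fin_cases j
    · change p.ρ 1 = (eval (y i) (f 0))⁻¹ * eval (y i) (f 0)
      rw [map_one, inv_mul_cancel₀ (hy0 i)]
    · change p.ρ (s i) = (eval (y i) (f 0))⁻¹ * eval (y i) (f 1)
      rw [hsρ, div_eq_inv_mul]
    · change p.ρ (t i) = (eval (y i) (f 0))⁻¹ * eval (y i) (f 2)
      rw [htρ, div_eq_inv_mul]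
    · change p.ρ z = (eval (y i) (f 0))⁻¹ * eval (y i) (f 3)
      rw [hz, hz0ρ, div_eq_inv_mul]
  have hhom : ∀ (i : Fin n) (k : ℕ) (H : Poly 3), H.IsHomogeneous k →
      eval (fun j => (eval (y i) (f 0))⁻¹ * eval (y i) (f j)) H =
        (eval (y i) (f 0))⁻¹ ^ k * eval (y i) (aeval f H) := by
    intro i k H hH
    have h1 := aeval_mul_hom (A := ℂ) (R := ℂ) hH (eval (y i) (f 0))⁻¹ fun j => eval (y i) (f j)
    change eval (fun j => (eval (y i) (f 0))⁻¹ * eval (y i) (f j)) H = _ at h1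
    rw [h1]
    congr 1
    have h2 : (eval (y i)).comp (aeval f : Poly 3 →ₐ[ℂ] Pol).toRingHom =
        eval (fun j => eval (y i) (f j)) := by
      apply MvPolynomial.ringHom_ext
      · intro r
        simp
      · intro j
        simp
    exact (congrArg (fun φ => φ H) h2).symm
  -- the third coordinate
  have hz : ∀ i, ∃ z : p.B, eval ![1, s i, t i, z] FB = 0 ∧ p.ρ z = p.ρ (z0 i) := by
    intro i
    have h1 : ∀ z : p.B, ∀ P : MvPolynomial (Fin 4) p.B,
        (uni ![1, s i, t i] P).eval z = eval ![1, s i, t i, z] P := by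
      intro z P
      rw [eval_uni]
      rfl
    obtain ⟨z, hz1, hz2⟩ := exists_root' p (uni ![1, s i, t i] FB) (z0 i)
      (by rw [h1, hval i _ rfl, hred, hhom i d F0 h0, hF0, map_zero, mul_zero])
      (by
        rw [derivative_uni, h1, hval i _ rfl, ← pderiv_map, hred, hhom i (d - 1) _ h0.pderiv]
        exact mul_ne_zero (pow_ne_zero _ (inv_ne_zero (hy0 i))) (hyδ i))
    exact ⟨z, by rw [← h1]; exact hz1, hz2⟩
  choose z hz1 hz2 using hz
  have hδ : ∀ i, p.ρ (eval ![1, s i, t i, z i] (pderiv 3 FB)) ≠ 0 := by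
    intro i
    rw [hval i _ (hz2 i), ← pderiv_map, hred, hhom i (d - 1) _ h0.pderiv]
    exact mul_ne_zero (pow_ne_zero _ (inv_ne_zero (hy0 i))) (hyδ i)
  have hcoe : ∀ (i : Fin n) (P : MvPolynomial (Fin 4) p.B),
      eval ![1, (s i : ℂ), (t i : ℂ), (z i : ℂ)] (map p.B.subtype P) =
        p.B.subtype (eval ![1, s i, t i, z i] P) := by
    intro i P
    rw [← eval_map_comp]
    congr 2
    funext j
    fin_cases j <;> rfl
  refine ⟨map p.B.subtype FB, fun i => ![1, (s i : ℂ), (t i : ℂ), (z i : ℂ)], hFBh.map _, ?_, ?_,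
    fun i => rfl, ?_, ?_, ?_⟩
  · have h1 : (fun e : {e : Fin 4 →₀ ℕ // e.degree = d} => coeff e.1 (map p.B.subtype FB)) =
        fun e => A (Sum.inl e) := by
      funext e
      rw [coeff_map, hFBc]
      rfl
    rw [h1]
    have h2 : AlgebraicIndependent K (fun e : Ex d => A (Sum.inl e)) :=
      hA.comp _ Sum.inl_injective
    exact h2.restrictScalars (algebraMap ℚ K).injective
  · intro i j hij
    have h1 : A (Sum.inr (i, 0)) = A (Sum.inr (j, 0)) := congrFun hij 1
    have h2 := hA.injective h1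
    simpa using h2
  · intro i
    rw [hcoe, hz1, map_zero]
  · intro i
    rw [pderiv_map, hcoe]
    intro h
    have h1 : eval ![1, s i, t i, z i] (pderiv 3 FB) = 0 := Subtype.ext h
    apply hδ i
    rw [h1, map_zero]
  · intro m w G hG hGK hlt
    refine bound_of_place p hd1 (hin y hgen) hFBh (by rw [hred]; exact hl)
      (by rw [hred]; exact hF0) (by rw [hred]; exact hker) hz1 hδ hy0 ?_ ?_ ?_ hG hGK hlt
    · intro i
      rw [hsρ, mul_div_cancel₀ _ (hy0 i)]
    · intro i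
      rw [htρ, mul_div_cancel₀ _ (hy0 i)]
    · intro i
      rw [hz2, hz0ρ, mul_div_cancel₀ _ (hy0 i)]

end Pool.Agent.Lib.MP_ed661f_ag.S
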