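import Mathlib
import Pool.Agent.Lib.MP_ed661f_ag.S.Lift
import Pool.Agent.Lib.MP_ed661f_ag.S.Fam.Defs

/-!
# From the special configuration over `ℚ` to generic centres (helper74)

`generic_of_special`: sections at a special configuration with rational coordinates, where the space
of sections has the expected dimension, lift to sections at every generic configuration with the same
absence of relations.
-/

set_option autoImplicit false

open MvPolynomial

namespace Pool.Agent.Lib.MP_ed661f_ag.S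

open R

theorem mem_SecK_iff {K : Type} [Field K] {a b : ℕ} {c : Fin 5 → ℕ} {x x' : Fin 5 → Fin 2 → K}
    {F : MvPolynomial (Fin 2) K} :
    F ∈ Fam.SecK a b c x x' ↔ F ∈ SecG K a b (Sum.elim c c) (Sum.elim x x') := by
  rw [Fam.mem_SecK, mem_SecG, degreeOf_le_iff, degreeOf_le_iff]
  constructor
  · rintro ⟨⟨h1, h2⟩, h3⟩
    refine ⟨fun e he => ?_, ?_⟩
    · by_contra h
      exact he ⟨h1 e (mem_support_iff.2 h), h2 e (mem_support_iff.2 h)⟩
    · rintro (j | j) e he
      · exact (h3 j).1 e he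
      · exact (h3 j).2 e he
  · rintro ⟨h1, h2⟩
    refine ⟨⟨fun e he => ?_, fun e he => ?_⟩, fun j => ⟨fun e he => ?_, fun e he => ?_⟩⟩
    · by_contra h
      exact (mem_support_iff.1 he) (h1 e fun h' => h h'.1)
    · by_contra h
      exact (mem_support_iff.1 he) (h1 e fun h' => h h'.2)
    · exact h2 (Sum.inl j) e he
    · exact h2 (Sum.inr j) e he

theorem SecK_eq {K : Type} [Field K] (a b : ℕ) (c : Fin 5 → ℕ) (x x' : Fin 5 → Fin 2 → K) :
    Fam.SecK a b c x x' = SecG K a b (Sum.elim c c) (Sum.elim x x') := by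
  ext F
  exact mem_SecK_iff

/-- Sections without relations at the special configuration lift to generic centres. -/
theorem generic_of_special {D0 : ℕ} {a b : ℕ} {c : Fin 5 → ℕ} {p p' : Fin 5 → Fin 2 → ℚ}
    {f : Fin 4 → MvPolynomial (Fin 2) ℚ} (hab : a + b = ∑ j, c j)
    (hD0 : a * b = ∑ j, c j ^ 2 + D0) (hf : ∀ i, f i ∈ Fam.SecK a b c p p')
    (hdim : Module.finrank ℚ (Fam.SecK a b c p p') = D0 + 1) (hrel : Fam.NoRel (2 * D0) f)
    (h3 : ∀ (n : ℕ) (H : MvPolynomial (Fin 3) ℚ), H.IsHomogeneous n →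
      aeval (fun i : Fin 3 => f i.castSucc) H = 0 → H = 0) {x x' : Fin 5 → Pt}
    (hz : AlgebraicIndependent ℚ
      (fun q : (Fin 5 ⊕ Fin 5) × Fin 2 => Sum.elim x x' q.1 q.2)) :
    ∃ F : Fin 4 → Pol, (∀ i, F i ∈ Sec a b c x x' 1) ∧
      (∀ m < 2 * D0, ∀ H : MvPolynomial (Fin 4) ℂ, H.IsHomogeneous m → aeval F H = 0 → H = 0) ∧
      ∀ (n : ℕ) (H : MvPolynomial (Fin 3) ℂ), H.IsHomogeneous n →
        aeval (fun i : Fin 3 => F i.castSucc) H = 0 → H = 0 := by
  classical
  let Q : Type := MvPolynomial ((Fin 5 ⊕ Fin 5) × Fin 2) ℚ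
  let α : Q →+* ℂ :=
    (aeval (R := ℚ) (fun q : (Fin 5 ⊕ Fin 5) × Fin 2 => Sum.elim x x' q.1 q.2)).toRingHom
  let β : Q →+* ℚ := eval (fun q : (Fin 5 ⊕ Fin 5) × Fin 2 => Sum.elim p p' q.1 q.2)
  have hα : Function.Injective α := hz
  have hβ : Function.Surjective β := fun y => ⟨C y, eval_C y⟩
  let z : Fin 5 ⊕ Fin 5 → Fin 2 → Q := fun i j => X (i, j)
  have hzβ : (fun i j => β (z i j)) = Sum.elim p p' := by
    funext i j
    exact eval_X _
  have hzα : (fun i j => α (z i j)) = Sum.elim x x' := by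
    funext i j
    exact aeval_X _ _
  have hsec : ∀ i, ∃ g ∈ SecG Q a b (Sum.elim c c) z, map β g = f i := by
    intro i
    refine exists_lift_section β hβ ?_ ?_
    · rw [hzβ, ← SecK_eq, hdim]
      simp only [Fintype.sum_sum_type, Sum.elim_inl, Sum.elim_inr]
      have h1 : ∑ j, c j * (c j + 1) = ∑ j, c j ^ 2 + ∑ j, c j := by
        rw [← Finset.sum_add_distrib]
        exact Finset.sum_congr rfl fun j _ => by ring
      rw [h1, ← hab]
      have h2 : (a + 1) * (b + 1) = a * b + (a + b) + 1 := by ring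
      rw [h2, hD0]
      omega
    · rw [hzβ]
      exact mem_SecK_iff.1 (hf i)
  choose g hg1 hg2 using hsec
  refine ⟨fun i => map α (g i), fun i => ?_, fun m hm => ?_, fun n => ?_⟩
  · rw [mem_Sec_iff_SecG, ← hzα]
    exact map_mem_SecG α (hg1 i)
  · refine no_relation_generic β α hβ hα ?_
    simp only [hg2]
    exact hrel m hm
  · refine no_relation_generic (g := fun i : Fin 3 => g i.castSucc) β α hβ hα ?_
    simp only [hg2]
    exact h3 n

end Pool.Agent.Lib.MP_ed661f_ag.S
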