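import Mathlib

/-!
Places of the field of complex numbers.
-/

set_option autoImplicit false

open Polynomial

namespace Pool.Agent.Lib.MP_ed661f_ag.S

/-- a place of `ℂ`: a valuation ring `B` of `ℂ` together with a subfield `K` of `B` which maps
isomorphically onto the residue field; `ρ` is the residue map with values in `K` -/
structure Place where
  B : ValuationSubring ℂ
  K : Subfield ℂ
  le : ∀ x ∈ K, x ∈ B
  ρ : B →+* ℂ
  mem : ∀ x, ρ x ∈ K
  id : ∀ (x : ℂ) (h : x ∈ K), ρ ⟨x, le x h⟩ = x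
  ker : ∀ x : B, ρ x = 0 ↔ x ∈ IsLocalRing.maximalIdeal B

namespace Place

variable (p : Place)

theorem inv_mem {x : p.B} (h : p.ρ x ≠ 0) : (x : ℂ)⁻¹ ∈ p.B := by
  have h1 : x ∉ IsLocalRing.maximalIdeal p.B := fun hx => h ((p.ker x).2 hx)
  rw [IsLocalRing.mem_maximalIdeal, mem_nonunits_iff, not_not] at h1
  obtain ⟨u, hu⟩ := h1
  have h2 : (x : ℂ) * ((u⁻¹ : p.Bˣ) : p.B) = 1 := by
    rw [← hu]
    have := u.mul_inv
    exact_mod_cast congrArg (fun y : p.B => (y : ℂ)) this
  rw [← eq_inv_of_mul_eq_one_right h2]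
  exact ((u⁻¹ : p.Bˣ) : p.B).2

theorem inv_not_mem {x : p.B} (hx : (x : ℂ) ≠ 0) (h : p.ρ x = 0) : (x : ℂ)⁻¹ ∉ p.B := by
  intro hi
  have h1 : x * ⟨(x : ℂ)⁻¹, hi⟩ = 1 := by
    apply Subtype.ext
    change (x : ℂ) * (x : ℂ)⁻¹ = 1
    exact mul_inv_cancel₀ hx
  have h2 := congrArg p.ρ h1
  rw [map_mul, h, zero_mul, map_one] at h2
  exact one_ne_zero h2.symm

theorem zero_of_inv_not_mem {x : ℂ} (h : x⁻¹ ∉ p.B) : ∃ hx : x ∈ p.B, p.ρ ⟨x, hx⟩ = 0 := by
  rcases p.B.mem_or_inv_mem x with hx | hx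
  · refine ⟨hx, ?_⟩
    by_contra h0
    exact h (p.inv_mem h0)
  · exact absurd hx h

end Place

/-- the subfield `K` of the valuation ring is maximal -/
theorem exists_max (B : ValuationSubring ℂ) (K₀ : Subfield ℂ)
    (h : (K₀ : Set ℂ) ⊆ B) : ∃ K : Subfield ℂ, K₀ ≤ K ∧ (K : Set ℂ) ⊆ B ∧
      ∀ K' : Subfield ℂ, K ≤ K' → (K' : Set ℂ) ⊆ B → K' ≤ K := by
  obtain ⟨K, hK, hmax⟩ := zorn_le_nonempty₀ {K : Subfield ℂ | (K : Set ℂ) ⊆ B}
    (fun c hc hchain y hy => by
      refine ⟨sSup c, ?_, fun z hz => le_sSup hz⟩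
      intro x hx
      rw [SetLike.mem_coe, Subfield.mem_sSup_of_directedOn ⟨y, hy⟩ hchain.directedOn] at hx
      obtain ⟨s, hs, hxs⟩ := hx
      exact hc hs hxs) K₀ h
  exact ⟨K, hK, hmax.1, fun K' h1 h2 => hmax.2 h2 h1⟩

/-- a valuation ring of `ℂ` contains the elements which are integral over it -/
theorem mem_of_int (B : ValuationSubring ℂ) {x : ℂ} (h : IsIntegral B x) : x ∈ B := by
  obtain ⟨y, hy⟩ := (IsIntegrallyClosed.isIntegral_iff (R := B) (K := ℂ)).1 h
  rw [← hy]
  exact y.2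

/-- a maximal subfield is algebraically closed -/
theorem alg_mem (B : ValuationSubring ℂ) (K : Subfield ℂ) (hK : (K : Set ℂ) ⊆ B)
    (hmax : ∀ K' : Subfield ℂ, K ≤ K' → (K' : Set ℂ) ⊆ B → K' ≤ K) {x : ℂ}
    (hx : IsIntegral K x) : x ∈ K := by
  set L : IntermediateField K ℂ := IntermediateField.adjoin K {x} with hL
  have h1 : K ≤ L.toSubfield := fun y hy => L.algebraMap_mem ⟨y, hy⟩
  have h2 : (L.toSubfield : Set ℂ) ⊆ B := by
    intro y hy
    have h3 : IsIntegral K y := by
      have halg : Algebra.IsAlgebraic K L := IntermediateField.isAlgebraic_adjoin (by simpa using hx)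
      have := (halg.isAlgebraic (⟨y, hy⟩ : L)).isIntegral
      exact (isIntegral_algHom_iff L.val L.val.injective).2 this
    apply mem_of_int B
    obtain ⟨q, hq, hq0⟩ := h3
    let i : K →+* B := ⟨⟨⟨fun z => ⟨z, hK z.2⟩, rfl⟩, fun _ _ => rfl⟩, rfl, fun _ _ => rfl⟩
    refine ⟨q.map i, hq.map i, ?_⟩
    rw [eval₂_map]
    exact hq0
  exact hmax _ h1 h2 (IntermediateField.mem_adjoin_simple_self K x)

/-- every element of the valuation ring is congruent to an element of the maximal subfield -/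
theorem exists_res (B : ValuationSubring ℂ) (K : Subfield ℂ) (hK : (K : Set ℂ) ⊆ B)
    (hmax : ∀ K' : Subfield ℂ, K ≤ K' → (K' : Set ℂ) ⊆ B → K' ≤ K) {x : ℂ} (hx : x ∈ B) :
    ∃ c : K, x - c ∈ B.nonunits := by
  -- some nonzero polynomial over `K` has a value at `x` which is not a unit
  have h1 : ∃ q : Polynomial K, q ≠ 0 ∧ aeval x q ∈ B.nonunits := by
    by_contra hcon
    push Not at hcon
    set L : IntermediateField K ℂ := IntermediateField.adjoin K {x} with hL
    have hev : ∀ q : Polynomial K, aeval x q ∈ B := by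
      intro q
      rw [aeval_eq_sum_range]
      refine sum_mem fun j _ => ?_
      rw [Algebra.smul_def]
      exact mul_mem (hK (q.coeff j).2) (pow_mem hx j)
    have h2 : (L.toSubfield : Set ℂ) ⊆ B := by
      intro y hy
      obtain ⟨r, s, rfl⟩ := (IntermediateField.mem_adjoin_simple_iff K y).1 hy
      rcases eq_or_ne s 0 with rfl | hs
      · simp only [map_zero, div_zero]
        exact zero_mem B
      · have h3 := hcon s hs
        rw [ValuationSubring.mem_nonunits_iff_or, not_or, not_not] at h3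
        rw [div_eq_mul_inv]
        exact mul_mem (hev r) h3.2
    have h4 : x ∈ K := hmax _ (fun y hy => L.algebraMap_mem ⟨y, hy⟩) h2
      (IntermediateField.mem_adjoin_simple_self K x)
    refine hcon (X - C ⟨x, h4⟩) (X_sub_C_ne_zero _) ?_
    rw [ValuationSubring.mem_nonunits_iff_or]
    left
    simp only [map_sub, aeval_X, aeval_C]
    exact sub_self x
  obtain ⟨q, hq, hqx⟩ := h1
  -- `K` is algebraically closed
  have hsplit : Splits (q.map (algebraMap K ℂ)) := IsAlgClosed.splits _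
  have hroot : ∀ r ∈ (q.map (algebraMap K ℂ)).roots, r ∈ K := by
    intro r hr
    refine alg_mem B K hK hmax ?_
    have : IsAlgebraic K r := ⟨q, hq, by
      rw [mem_roots_map hq] at hr
      rw [aeval_def]
      exact hr⟩
    exact this.isIntegral
  have hprod : aeval x q = algebraMap K ℂ q.leadingCoeff *
      ((q.map (algebraMap K ℂ)).roots.map fun r => x - r).prod := by
    have h5 := congrArg (eval x) hsplit.eq_prod_roots
    rw [eval_mul, eval_C, eval_multiset_prod, Multiset.map_map] at h5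
    rw [aeval_def, ← eval_map, h5]
    simp only [leadingCoeff_map, Function.comp_def, eval_sub, eval_X, eval_C]
  by_contra hcon
  push Not at hcon
  -- the value would be a unit
  have hinv : ∀ s : Multiset ℂ, (∀ r ∈ s, r ∈ K) → ((s.map fun r => x - r).prod)⁻¹ ∈ B ∧
      (s.map fun r => x - r).prod ≠ 0 := by
    intro s
    induction s using Multiset.induction_on with
    | empty => intro _; simp [one_mem]
    | cons a s ih =>
      intro hs
      obtain ⟨h6, h7⟩ := ih fun r hr => hs r (Multiset.mem_cons_of_mem hr)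
      have h8 := hcon ⟨a, hs a (Multiset.mem_cons_self a s)⟩
      rw [ValuationSubring.mem_nonunits_iff_or, not_or, not_not] at h8
      rw [Multiset.map_cons, Multiset.prod_cons, mul_inv]
      exact ⟨mul_mem h8.2 h6, mul_ne_zero h8.1 h7⟩
  obtain ⟨h9, h10⟩ := hinv _ hroot
  rw [ValuationSubring.mem_nonunits_iff_or, hprod, mul_inv] at hqx
  rcases hqx with h | h
  · rcases mul_eq_zero.1 h with h | h
    · exact hq (leadingCoeff_eq_zero.1 ((map_eq_zero _).1 h))
    · exact h10 h
  · refine h (mul_mem ?_ h9)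
    rw [← map_inv₀]
    exact hK (q.leadingCoeff⁻¹).2

/-- **places of `ℂ`**: over every subfield `K₀` over which `τ` is transcendental there is a place
which is the identity on `K₀` and sends `τ` to `0` -/
theorem exists_place (K₀ : Subfield ℂ) {τ : ℂ} (hτ : Transcendental K₀ τ) :
    ∃ p : Place, K₀ ≤ p.K ∧ ∃ h : τ ∈ p.B, p.ρ ⟨τ, h⟩ = 0 := by
  set A : Subalgebra K₀ ℂ := Algebra.adjoin K₀ {τ} with hA
  have hτA : τ ∈ A := Algebra.subset_adjoin rfl
  obtain ⟨B, hAB, hB⟩ := Ideal.image_subset_nonunits_valuationSubring (K := ℂ) (A := A.toSubring)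
    (Ideal.span {⟨τ, hτA⟩}) (by
      intro htop
      rw [Ideal.span_singleton_eq_top, isUnit_iff_exists_inv] at htop
      obtain ⟨⟨a, ha⟩, hab⟩ := htop
      have h1 : τ * a = 1 := congrArg Subtype.val hab
      have h2 : a ∈ Algebra.adjoin K₀ {τ} := ha
      rw [Algebra.adjoin_singleton_eq_range_aeval] at h2
      obtain ⟨q, hq⟩ := h2
      apply hτ
      refine ⟨X * q - 1, ?_, ?_⟩
      · intro h0
        have h3 := congrArg (eval 0) h0
        simp at h3
      · rw [map_sub, map_mul, aeval_X, map_one]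
        have h4 : aeval τ q = a := hq
        rw [h4, h1, sub_self])
  have hτB : τ ∈ B.nonunits := hB ⟨⟨τ, hτA⟩, Ideal.subset_span rfl, rfl⟩
  obtain ⟨K, hK₀, hK, hmax⟩ := exists_max B K₀ (fun x hx => hAB (A.algebraMap_mem ⟨x, hx⟩))
  let i : K →+* B := ⟨⟨⟨fun z => ⟨z, hK z.2⟩, rfl⟩, fun _ _ => rfl⟩, rfl, fun _ _ => rfl⟩
  let φ : K →+* IsLocalRing.ResidueField B := (IsLocalRing.residue B).comp i
  have hφ : Function.Bijective φ := by
    refine ⟨φ.injective, ?_⟩
    intro y
    obtain ⟨x, rfl⟩ := IsLocalRing.residue_surjective y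
    obtain ⟨c, hc⟩ := exists_res B K hK hmax x.2
    refine ⟨c, ?_⟩
    symm
    change IsLocalRing.residue B x = IsLocalRing.residue B (i c)
    rw [← sub_eq_zero, ← map_sub, IsLocalRing.residue_eq_zero_iff]
    exact B.coe_mem_nonunits_iff.1 hc
  let e : K ≃+* IsLocalRing.ResidueField B := RingEquiv.ofBijective φ hφ
  let ρ : B →+* ℂ := K.subtype.comp ((e.symm : _ →+* K).comp (IsLocalRing.residue B))
  have hρ : ∀ x, ρ x = ((e.symm (IsLocalRing.residue B x) : K) : ℂ) := fun x => rfl
  have hker : ∀ x : B, ρ x = 0 ↔ x ∈ IsLocalRing.maximalIdeal B := by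
    intro x
    rw [hρ, ← IsLocalRing.residue_eq_zero_iff]
    constructor
    · intro h
      have h1 : e.symm (IsLocalRing.residue B x) = 0 := Subtype.ext h
      rwa [EmbeddingLike.map_eq_zero_iff] at h1
    · intro h
      rw [h, map_zero]
      rfl
  refine ⟨⟨B, K, fun x hx => hK hx, ρ, fun x => (e.symm (IsLocalRing.residue B x)).2, ?_, hker⟩,
    hK₀, B.nonunits_subset hτB, ?_⟩
  · intro x hx
    rw [hρ]
    have h1 : IsLocalRing.residue B ⟨x, hK hx⟩ = e ⟨x, hx⟩ := rfl
    rw [h1, RingEquiv.symm_apply_apply]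
  · rw [hker]
    exact B.coe_mem_nonunits_iff.1 hτB

/-- Hensel's lemma over a place of `ℂ`: a simple root of the reduction at `0` -/
theorem Place.exists_root (p : Place) {g : ℂ[X]} (hg : ∀ j, g.coeff j ∈ p.B)
    (h0 : p.ρ ⟨g.coeff 0, hg 0⟩ = 0) (h1 : p.ρ ⟨g.coeff 1, hg 1⟩ ≠ 0) :
    ∃ (w : ℂ) (hw : w ∈ p.B), eval w g = 0 ∧ p.ρ ⟨w, hw⟩ = 0 := by
  rcases eq_or_ne (g.coeff 0) 0 with hc | hc
  · refine ⟨0, zero_mem _, ?_, ?_⟩
    · rw [← coeff_zero_eq_eval_zero, hc]
    · exact map_zero p.ρ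
  · by_contra hcon
    push Not at hcon
    -- the inverses of all the roots lie in the valuation ring
    have hr : ∀ r ∈ g.roots, r⁻¹ ∈ p.B := by
      intro r hr
      rcases p.B.mem_or_inv_mem r with h | h
      · exact p.inv_mem (hcon r h ((mem_roots'.1 hr).2))
      · exact h
    have hr0 : ∀ r ∈ g.roots, r ≠ 0 := by
      rintro r hr rfl
      have := (mem_roots'.1 hr).2
      rw [IsRoot.def, ← coeff_zero_eq_eval_zero] at this
      exact hc this
    -- the quotient of the two coefficients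
    have key : ∀ s : Multiset ℂ, (∀ r ∈ s, r⁻¹ ∈ p.B) → (∀ r ∈ s, r ≠ 0) →
        ((s.map fun r => X - C r).prod).coeff 0 ≠ 0 ∧
        ((s.map fun r => X - C r).prod).coeff 1 / ((s.map fun r => X - C r).prod).coeff 0 ∈ p.B := by
      intro s
      induction s using Multiset.induction_on with
      | empty => intro _ _; simp [coeff_one, zero_mem]
      | cons a s ih =>
        intro hs hs0
        obtain ⟨h6, h7⟩ := ih (fun r hr => hs r (Multiset.mem_cons_of_mem hr))
          (fun r hr => hs0 r (Multiset.mem_cons_of_mem hr))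
        have ha := hs a (Multiset.mem_cons_self a s)
        have ha0 := hs0 a (Multiset.mem_cons_self a s)
        rw [Multiset.map_cons, Multiset.prod_cons]
        set P := (s.map fun r => X - C r).prod with hP
        have e0 : ((X - C a) * P).coeff 0 = -a * P.coeff 0 := by
          rw [mul_coeff_zero]; simp
        have e1 : ((X - C a) * P).coeff 1 = P.coeff 0 - a * P.coeff 1 := by
          rw [sub_mul, coeff_sub, coeff_X_mul, coeff_C_mul]
        rw [e0, e1]
        refine ⟨mul_ne_zero (neg_ne_zero.2 ha0) h6, ?_⟩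
        have e2 : (P.coeff 0 - a * P.coeff 1) / (-a * P.coeff 0) =
            P.coeff 1 / P.coeff 0 - a⁻¹ := by
          field_simp
          ring
        rw [e2]
        exact sub_mem h7 ha
    obtain ⟨h6, h7⟩ := key g.roots hr hr0
    have hsplit := (IsAlgClosed.splits g).eq_prod_roots
    set P := (g.roots.map fun r => X - C r).prod with hP
    have hl : g.leadingCoeff ≠ 0 := by
      intro h
      rw [leadingCoeff_eq_zero] at h
      rw [h] at hc
      exact hc (coeff_zero 0)
    have e0 : g.coeff 0 = g.leadingCoeff * P.coeff 0 := by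
      conv_lhs => rw [hsplit]
      rw [coeff_C_mul]
    have e1 : g.coeff 1 = g.leadingCoeff * P.coeff 1 := by
      conv_lhs => rw [hsplit]
      rw [coeff_C_mul]
    have h8 : g.coeff 1 / g.coeff 0 ∈ p.B := by
      rw [e0, e1, mul_div_mul_left _ _ hl]
      exact h7
    have h9 : (g.coeff 0)⁻¹ ∈ p.B := by
      have h10 := mul_mem (p.inv_mem h1) h8
      have h11 : g.coeff 1 ≠ 0 := by
        intro h
        apply h1
        have : (⟨g.coeff 1, hg 1⟩ : p.B) = 0 := Subtype.ext h
        rw [this, map_zero]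
      have h12 : (g.coeff 1)⁻¹ * (g.coeff 1 / g.coeff 0) = (g.coeff 0)⁻¹ := by
        field_simp
      rwa [h12] at h10
    exact p.inv_not_mem (x := ⟨g.coeff 0, hg 0⟩) hc h0 h9

end Pool.Agent.Lib.MP_ed661f_ag.S
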