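import Pool.Agent.Lib.MP_ed661f_ag.S.Hens
import Pool.Agent.Lib.MP_ed661f_ag.S.Place
import Pool.Agent.Lib.MP_ed661f_ag.H.Defs
import Pool.Agent.Lib.MP_ed661f_ag.R.Bez

/-!
The order of vanishing of a form on a surface at a smooth point does not drop under the residue
map of a place, and is at least the order at `y` of the pull back.
-/

set_option autoImplicit false

open MvPolynomial

namespace Pool.Agent.Lib.MP_ed661f_ag.S.Hn

open Pool.Agent.Lib.MP_ed661f_ag.E Pool.Agent.Lib.MP_ed661f_ag.R Pool.Agent.Lib.MP_ed661f_ag.H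

/-- the ideal of the forms which vanish to order `w` at the point `v` of the surface `F = 0`,
in the chart `X 0 = 1` -/
noncomputable def KK (F : Poly 3) (v : Fin 4 → ℂ) (w : ℕ) : Ideal (Poly 3) :=
  Ideal.span {F} ⊔ vecIdeal v ^ w ⊔ Ideal.span {X 0 - 1}

section

variable {R : Type*} [CommRing R]

/-- `(1, s + σ, t + τ)` -/
noncomputable def base (s t : R) : Fin 3 → MvPolynomial (Fin 2) R := ![1, C s + X 0, C t + X 1]

/-- the ideal of the variables -/
noncomputable abbrev II (R : Type*) [CommRing R] : Ideal (MvPolynomial (Fin 2) R) :=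
  idealOfVars (Fin 2) R

theorem mem_II {u : MvPolynomial (Fin 2) R} : u ∈ II R ↔ constantCoeff u = 0 := by
  have h := mem_pow_idealOfVars_iff' (σ := Fin 2) (R := R) 1 u
  rw [pow_one] at h
  rw [h]
  constructor
  · intro h1
    exact h1 0 (by simp)
  · intro h1 e he
    have : e = 0 := by
      rw [← Finsupp.degree_eq_zero_iff]
      omega
    rw [this]
    exact h1

theorem const_ev (s t : R) (ζ : MvPolynomial (Fin 2) R) (F : MvPolynomial (Fin 4) R) :
    constantCoeff (ev (base s t) ζ F) = eval ![1, s, t, constantCoeff ζ] F := by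
  have h : (constantCoeff.comp (ev (R := R) (base s t) ζ).toRingHom) =
      eval ![1, s, t, constantCoeff ζ] := by
    apply MvPolynomial.ringHom_ext
    · intro a
      simp [ev]
    · intro i
      fin_cases i <;> simp [ev, base]
  exact congrArg (fun φ => φ F) h

theorem map_ev {R' : Type*} [CommRing R'] (ψ : R →+* R') (s t : R)
    (ζ : MvPolynomial (Fin 2) R) (F : MvPolynomial (Fin 4) R) :
    map ψ (ev (base s t) ζ F) = ev (base (ψ s) (ψ t)) (map ψ ζ) (map ψ F) := by
  have h : ((map ψ).comp (ev (R := R) (base s t) ζ).toRingHom) =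
      ((ev (R := R') (base (ψ s) (ψ t)) (map ψ ζ)).toRingHom).comp (map ψ) := by
    apply MvPolynomial.ringHom_ext
    · intro a
      simp [ev]
    · intro i
      fin_cases i <;> simp [ev, base]
  exact congrArg (fun φ => φ F) h

/-- the germ `x_3 = ζ(σ,τ)` of the surface modulo `(σ,τ)^(w+1)` over any ring -/
theorem exists_germ (F : MvPolynomial (Fin 4) R) {s t z : R} (hF : eval ![1, s, t, z] F = 0)
    (hδ : IsUnit (eval ![1, s, t, z] (pderiv 3 F))) (w : ℕ) :
    ∃ ζ : MvPolynomial (Fin 2) R, constantCoeff ζ = z ∧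
      ev (base s t) ζ F ∈ II R ^ (w + 1) := by
  obtain ⟨δ, hδ⟩ := hδ
  obtain ⟨ζ, h1, h2⟩ := newton_exists (II R) (uni (base s t) F) (z := C z)
    (u := C ((δ⁻¹ : Rˣ) : R))
    (by rw [eval_uni, mem_II, const_ev, constantCoeff_C, hF])
    (by
      rw [derivative_uni, eval_uni, mem_II, map_sub, map_mul, const_ev, constantCoeff_C,
        constantCoeff_C, ← hδ, Units.mul_inv, map_one, sub_self]) w
  refine ⟨ζ, ?_, ?_⟩
  · rw [mem_II, map_sub, constantCoeff_C, sub_eq_zero] at h1
    exact h1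
  · rwa [eval_uni] at h2

end

/-- membership in `KK` in terms of the germ -/
theorem germ_of_mem {F G : Poly 3} {s t z : ℂ} {ζ : MvPolynomial (Fin 2) ℂ} {w : ℕ}
    (hζ : constantCoeff ζ = z) (hF : ev (base s t) ζ F ∈ II ℂ ^ w)
    (hG : G ∈ KK F ![1, s, t, z] w) : ev (base s t) ζ G ∈ II ℂ ^ w := by
  have key : KK F ![1, s, t, z] w ≤ (II ℂ ^ w).comap (ev (R := ℂ) (base s t) ζ).toRingHom := by
    unfold KK
    refine sup_le (sup_le ?_ ?_) ?_
    · rw [Ideal.span_singleton_le_iff_mem]
      exact hF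
    · rw [← Ideal.map_le_iff_le_comap, Ideal.map_pow]
      refine Ideal.pow_right_mono ?_ w
      rw [Ideal.map_le_iff_le_comap]
      intro H hH
      rw [Ideal.mem_comap]
      show ev (base s t) ζ H ∈ II ℂ
      rw [mem_II, const_ev, hζ]
      exact hH
    · rw [Ideal.span_singleton_le_iff_mem, Ideal.mem_comap]
      have : (ev (R := ℂ) (base s t) ζ).toRingHom (X 0 - 1) = 0 := by
        simp [ev, base]
      rw [this]
      exact Ideal.zero_mem _
  exact key hG

/-- coefficients in the valuation ring and their reductions -/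
theorem germ_reduce (p : Place) {FB GB : MvPolynomial (Fin 4) p.B} {s t z : p.B}
    (hF : eval ![1, s, t, z] FB = 0) (hδ : p.ρ (eval ![1, s, t, z] (pderiv 3 FB)) ≠ 0) (w : ℕ)
    (hG : map p.B.subtype GB ∈ KK (map p.B.subtype FB) ![1, (s : ℂ), (t : ℂ), (z : ℂ)] (w + 1)) :
    ∃ ζ : MvPolynomial (Fin 2) ℂ, constantCoeff ζ = p.ρ z ∧
      ev (base (p.ρ s) (p.ρ t)) ζ (map p.ρ FB) ∈ II ℂ ^ (w + 1) ∧
      ev (base (p.ρ s) (p.ρ t)) ζ (map p.ρ GB) ∈ II ℂ ^ (w + 1) := by
  have hu : IsUnit (eval ![1, s, t, z] (pderiv 3 FB)) := by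
    have h1 := mt (p.ker _).2 hδ
    rw [IsLocalRing.mem_maximalIdeal, mem_nonunits_iff, not_not] at h1
    exact h1
  obtain ⟨ζ, h1, h2⟩ := exists_germ FB hF hu w
  refine ⟨map p.ρ ζ, ?_, ?_, ?_⟩
  · rw [constantCoeff_map, h1]
  · rw [← map_ev]
    rw [mem_pow_idealOfVars_iff'] at h2 ⊢
    intro e he
    rw [coeff_map, h2 e he, map_zero]
  · have h3 : ev (base (s : ℂ) (t : ℂ)) (map p.B.subtype ζ) (map p.B.subtype GB) ∈
        II ℂ ^ (w + 1) := by
      refine germ_of_mem (z := (z : ℂ)) ?_ ?_ hG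
      · rw [constantCoeff_map, h1]
        rfl
      · have h4 := map_ev p.B.subtype s t ζ FB
        change map p.B.subtype (ev (base s t) ζ FB) =
          ev (base (s : ℂ) (t : ℂ)) (map p.B.subtype ζ) (map p.B.subtype FB) at h4
        rw [← h4]
        rw [mem_pow_idealOfVars_iff'] at h2 ⊢
        intro e he
        rw [coeff_map, h2 e he, map_zero]
    have h5 : ev (base s t) ζ GB ∈ II p.B ^ (w + 1) := by
      have h4 := map_ev p.B.subtype s t ζ GB
      change map p.B.subtype (ev (base s t) ζ GB) =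
        ev (base (s : ℂ) (t : ℂ)) (map p.B.subtype ζ) (map p.B.subtype GB) at h4
      rw [← h4] at h3
      rw [mem_pow_idealOfVars_iff'] at h3 ⊢
      intro e he
      have h6 := h3 e he
      rw [coeff_map] at h6
      exact Subtype.ext h6
    rw [← map_ev]
    rw [mem_pow_idealOfVars_iff'] at h5 ⊢
    intro e he
    rw [coeff_map, h5 e he, map_zero]

end Pool.Agent.Lib.MP_ed661f_ag.S.Hn
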