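import Mathlib

/-!
Newton's method modulo powers of an ideal, and its use for the germ of a surface `F = 0` in
three-space at a smooth point: the function `x_3 = ζ(σ,τ)` modulo `(σ,τ)^w`, over any ring.
-/

set_option autoImplicit false

open MvPolynomial

namespace Pool.Agent.Lib.MP_ed661f_ag.S.Hn

section Newton

variable {R : Type*} [CommRing R]

theorem eval_sub_mem (I : Ideal R) (P : Polynomial R) {x y : R} (h : x - y ∈ I) :
    P.eval x - P.eval y ∈ I := by
  obtain ⟨z, hz⟩ := P.evalSubFactor x y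
  rw [hz]
  exact I.mul_mem_left z h

/-- Newton's method: a root modulo `I ^ w` -/
theorem newton_exists (I : Ideal R) (P : Polynomial R) {z u : R} (hz : P.eval z ∈ I)
    (hu : P.derivative.eval z * u - 1 ∈ I) (w : ℕ) :
    ∃ ζ : R, ζ - z ∈ I ∧ P.eval ζ ∈ I ^ (w + 1) := by
  induction w with
  | zero => exact ⟨z, by rw [sub_self]; exact I.zero_mem, by rwa [zero_add, pow_one]⟩
  | succ w ih =>
    obtain ⟨ζ, h1, h2⟩ := ih
    have h2' : P.eval ζ ∈ I := Ideal.pow_le_self (by omega) h2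
    refine ⟨ζ + -(u * P.eval ζ), ?_, ?_⟩
    · have : ζ + -(u * P.eval ζ) - z = (ζ - z) - u * P.eval ζ := by ring
      rw [this]
      exact I.sub_mem h1 (I.mul_mem_left u h2')
    · obtain ⟨k, hk⟩ := P.binomExpansion ζ (-(u * P.eval ζ))
      rw [hk]
      have h3 : P.derivative.eval ζ * u - 1 ∈ I := by
        have h4 := eval_sub_mem I P.derivative h1
        have : P.derivative.eval ζ * u - 1 =
            (P.derivative.eval ζ - P.derivative.eval z) * u + (P.derivative.eval z * u - 1) := by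
          ring
        rw [this]
        exact I.add_mem (I.mul_mem_right u h4) hu
      have h5 : P.eval ζ + P.derivative.eval ζ * -(u * P.eval ζ) + k * (-(u * P.eval ζ)) ^ 2 =
          -(P.eval ζ * (P.derivative.eval ζ * u - 1)) + (k * u ^ 2) * (P.eval ζ * P.eval ζ) := by
        ring
      rw [h5]
      refine Ideal.add_mem _ (Ideal.neg_mem_iff _ |>.2 ?_) (Ideal.mul_mem_left _ _ ?_)
      · rw [pow_succ]
        exact Ideal.mul_mem_mul h2 h3
      · rw [pow_succ]
        exact Ideal.mul_mem_mul h2 h2'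

/-- the root modulo `I ^ w` is unique -/
theorem newton_unique (I : Ideal R) (P : Polynomial R) {ζ ξ u : R} (w : ℕ)
    (h1 : P.eval ζ ∈ I ^ w) (h2 : P.eval ξ ∈ I ^ w) (h : ζ - ξ ∈ I)
    (hu : P.derivative.eval ξ * u - 1 ∈ I) : ζ - ξ ∈ I ^ w := by
  obtain ⟨k, hk⟩ := P.binomExpansion ξ (ζ - ξ)
  have e1 : ξ + (ζ - ξ) = ζ := by ring
  rw [e1] at hk
  set i : R := -((P.derivative.eval ξ * u - 1) + (ζ - ξ) * (k * u)) with hi
  have hiI : i ∈ I := by
    rw [hi]
    exact (Ideal.neg_mem_iff _).2 (I.add_mem hu (I.mul_mem_right _ h))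
  have h3 : (ζ - ξ) * (1 - i) ∈ I ^ w := by
    have : (ζ - ξ) * (1 - i) = (P.eval ζ - P.eval ξ) * u := by
      rw [hk, hi]
      ring
    rw [this]
    exact Ideal.mul_mem_right _ _ (Ideal.sub_mem _ h1 h2)
  have h4 : (ζ - ξ) * (1 - i ^ w) ∈ I ^ w := by
    have h5 : (1 : R) - i ∣ 1 - i ^ w := by
      have := sub_dvd_pow_sub_pow (1 : R) i w
      rwa [one_pow] at this
    obtain ⟨c, hc⟩ := h5
    rw [hc, ← mul_assoc]
    exact Ideal.mul_mem_right _ _ h3
  have h6 : ζ - ξ = (ζ - ξ) * (1 - i ^ w) + (ζ - ξ) * i ^ w := by ring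
  rw [h6]
  exact Ideal.add_mem _ h4 (Ideal.mul_mem_left _ _ (Ideal.pow_mem_pow hiI w))

/-- a unit modulo `I` can be cancelled modulo `I ^ w` -/
theorem cancel_unit (I : Ideal R) {g u x : R} (w : ℕ) (hu : g * u - 1 ∈ I)
    (h : g * x ∈ I ^ w) : x ∈ I ^ w := by
  set i : R := -(g * u - 1) with hi
  have hiI : i ∈ I := (Ideal.neg_mem_iff _).2 hu
  have h3 : x * (1 - i) ∈ I ^ w := by
    have : x * (1 - i) = (g * x) * u := by
      rw [hi]
      ring
    rw [this]
    exact Ideal.mul_mem_right _ _ h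
  have h4 : x * (1 - i ^ w) ∈ I ^ w := by
    have h5 : (1 : R) - i ∣ 1 - i ^ w := by
      have := sub_dvd_pow_sub_pow (1 : R) i w
      rwa [one_pow] at this
    obtain ⟨c, hc⟩ := h5
    rw [hc, ← mul_assoc]
    exact Ideal.mul_mem_right _ _ h3
  have h6 : x = x * (1 - i ^ w) + x * i ^ w := by ring
  rw [h6]
  exact Ideal.add_mem _ h4 (Ideal.mul_mem_left _ _ (Ideal.pow_mem_pow hiI w))

/-- inverses modulo `I ^ w` -/
theorem exists_inv_mod (I : Ideal R) {g u : R} (w : ℕ) (hu : g * u - 1 ∈ I) :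
    ∃ v : R, g * v - 1 ∈ I ^ w := by
  set i : R := -(g * u - 1) with hi
  have hiI : i ∈ I := (Ideal.neg_mem_iff _).2 hu
  have h5 : (1 : R) - i ∣ 1 - i ^ w := by
    have := sub_dvd_pow_sub_pow (1 : R) i w
    rwa [one_pow] at this
  obtain ⟨c, hc⟩ := h5
  refine ⟨u * c, ?_⟩
  have : g * (u * c) - 1 = -i ^ w := by
    have h1 : g * u = 1 - i := by rw [hi]; ring
    rw [← mul_assoc, h1, ← hc]
    ring
  rw [this]
  exact (Ideal.neg_mem_iff _).2 (Ideal.pow_mem_pow hiI w)

end Newton

section Sub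

variable {R : Type*} [CommRing R] {A : Type*} [CommRing A] [Algebra R A]

/-- `F(r_0, r_1, r_2, X)` -/
noncomputable def uni (r : Fin 3 → A) : MvPolynomial (Fin 4) R →ₐ[R] Polynomial A :=
  aeval ![Polynomial.C (r 0), Polynomial.C (r 1), Polynomial.C (r 2), Polynomial.X]

/-- `F(r_0, r_1, r_2, ζ)` -/
noncomputable def ev (r : Fin 3 → A) (ζ : A) : MvPolynomial (Fin 4) R →ₐ[R] A :=
  aeval ![r 0, r 1, r 2, ζ]

theorem eval_uni (r : Fin 3 → A) (ζ : A) (F : MvPolynomial (Fin 4) R) :
    (uni r F).eval ζ = ev r ζ F := by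
  have h : (Polynomial.evalRingHom ζ).comp (uni (R := R) r).toRingHom = (ev r ζ).toRingHom := by
    apply MvPolynomial.ringHom_ext
    · intro a
      simp [uni, ev]
    · intro i
      fin_cases i <;> simp [uni, ev]
  exact congrArg (fun φ => φ F) h

theorem derivative_uni (r : Fin 3 → A) (F : MvPolynomial (Fin 4) R) :
    (uni r F).derivative = uni r (pderiv 3 F) := by
  induction F using MvPolynomial.induction_on with
  | C a =>
    rw [pderiv_C, map_zero]
    have : uni (A := A) r (C a : MvPolynomial (Fin 4) R) = algebraMap R (Polynomial A) a := by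
      rw [uni, aeval_C]
    rw [this, IsScalarTower.algebraMap_apply R A (Polynomial A), ← Polynomial.C_eq_algebraMap,
      Polynomial.derivative_C]
  | add p q hp hq => rw [map_add, map_add, map_add, map_add, hp, hq]
  | mul_X p i hp =>
    rw [map_mul, Polynomial.derivative_mul, hp, Derivation.leibniz, smul_eq_mul, smul_eq_mul,
      map_add, map_mul, map_mul]
    have h1 : (uni (A := A) r (X i : MvPolynomial (Fin 4) R)).derivative =
        uni r (pderiv 3 (X i : MvPolynomial (Fin 4) R)) := by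
      fin_cases i <;> simp [uni, pderiv_X]
    rw [h1]
    ring

end Sub

end Pool.Agent.Lib.MP_ed661f_ag.S.Hn
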