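import Pool.Agent.Lib.MP_ed661f_ag.S.Collide

/-!
Surfaces in projective space through the four coordinate points: from four weighted points to
`n` points.
-/

set_option autoImplicit false

open MvPolynomial
open scoped ENNReal

namespace Pool.Agent.Lib.MP_ed661f_ag.S

open H

/-- the vectors of the four coordinate points -/
def cvec (i : Fin 4) : Fin (3 + 1) → ℂ := Pi.single i 1

/-- the surface `F = 0` passes through the coordinate point `i` and is smooth there, with local
coordinates `X (i + 1)`, `X (i + 2)` -/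
def SmoothAt (F : Poly 3) (d : ℕ) (i : Fin 4) : Prop :=
  F.coeff (Finsupp.single i d) = 0 ∧
    F.coeff (Finsupp.single i (d - 1) + Finsupp.single (i + 3) 1) ≠ 0

/- PROOFS (Hyp.lean). `smooth_cvec`: `F ∈ I`; modulo `X i - 1`, `(X (i+1), X (i+2))` and
`vecIdeal ^ 2` the polynomial `F` is `coeff * X (i+3)` (every monomial of degree `d` other than
`X i ^ d`, `X i ^ (d-1) * X j` lies in `vecIdeal ^ 2`); `vecIdeal (cvec i)` is generated by `X i - 1`
and the `X j`, `j ≠ i`.
`exists_grid`: `y a b = e_i + τ (a+1) e_{i+1} + τ (b+1) e_{i+2} + w_ab e_{i+3}` where `w_ab` is a root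
of `g(W) = F(e_i + τ (a+1) e_{i+1} + τ (b+1) e_{i+2} + W e_{i+3})` from `Place.exists_root`
(`ρ (g.coeff 0) = F(e_i) = 0`, `ρ (g.coeff 1) = coeff (x_i^{d-1} x_{i+3}) ≠ 0`).
`le_eps`: `exists_place`, `collide`, `Projectivization.mk`, `H.mult_smul` and `H.deg_curve` as in
`H.le_eps_of_jetSep`; the points of different grids are different because the `i`-th coordinate of
`y i a b` is `1` and the other ones reduce to `0`; `Fin n ≃ Σ i, Fin (k i) × Fin (k i)`. -/

/-- the point with coordinates `1, s, t, w` at `i, i + 1, i + 2, i + 3` -/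
private def hypVec {R : Type} [CommRing R] (i : Fin 4) (s t w : R) (j : Fin (3 + 1)) : R :=
  if j = i then 1 else if j = i + 1 then s else if j = i + 2 then t else w

/-- the restriction of a polynomial to the line `(1, s, t, W)` -/
private noncomputable def hypLine {R : Type} [CommRing R] (i : Fin 4) (s t : R) :
    MvPolynomial (Fin (3 + 1)) R →ₐ[R] Polynomial R :=
  aeval (hypVec i (Polynomial.C s) (Polynomial.C t) Polynomial.X)

private theorem hypLine_map {R S : Type} [CommRing R] [CommRing S] (f : R →+* S) (i : Fin 4)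
    (s t : R) (G : MvPolynomial (Fin (3 + 1)) R) :
    (hypLine i s t G).map f = hypLine i (f s) (f t) (MvPolynomial.map f G) := by
  induction G using MvPolynomial.induction_on with
  | C a => simp [hypLine, Polynomial.algebraMap_eq]
  | add p q hp hq => simp only [map_add, Polynomial.map_add, hp, hq]
  | mul_X p j hp =>
    simp only [map_mul, Polynomial.map_mul, hp, MvPolynomial.map_X]
    congr 1
    simp only [hypLine, aeval_X, hypVec]
    split_ifs <;> simp

private theorem hypLine_eval {R : Type} [CommRing R] (i : Fin 4)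
    (s t w : R) (G : MvPolynomial (Fin (3 + 1)) R) :
    Polynomial.eval w (hypLine i s t G) = MvPolynomial.eval (hypVec i s t w) G := by
  induction G using MvPolynomial.induction_on with
  | C a => simp [hypLine, Polynomial.algebraMap_eq]
  | add p q hp hq => simp only [map_add, Polynomial.eval_add, hp, hq]
  | mul_X p j hp =>
    simp only [map_mul, Polynomial.eval_mul, hp, MvPolynomial.eval_X]
    congr 1
    simp only [hypLine, aeval_X, hypVec]
    split_ifs <;> simp

private theorem hypLine_coeff {F : Poly 3} {d : ℕ} (hF : F.IsHomogeneous d) (i : Fin 4) {n : ℕ}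
    (hn : n ≤ d) : (hypLine i (0 : ℂ) 0 F).coeff n =
      F.coeff (Finsupp.single i (d - n) + Finsupp.single (i + 3) n) := by
  have hmon : ∀ m : Fin (3 + 1) →₀ ℕ, m ∈ F.support →
      (hypLine i (0 : ℂ) 0 (monomial m (F.coeff m))).coeff n =
        if m = Finsupp.single i (d - n) + Finsupp.single (i + 3) n then F.coeff m else 0 := by
    intro m hm
    have hdeg : m.degree = d := by
      by_contra h
      exact (mem_support_iff.1 hm) (hF.coeff_eq_zero h)
    rw [hypLine, aeval_monomial, Finsupp.prod_fintype _ _ (fun j => pow_zero _),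
      Polynomial.algebraMap_eq, Polynomial.coeff_C_mul]
    rw [Finsupp.degree_eq_sum, Fin.sum_univ_four] at hdeg
    have hiff : m = Finsupp.single i (d - n) + Finsupp.single (i + 3) n ↔
        (m (i + 1) = 0 ∧ m (i + 2) = 0 ∧ m (i + 3) = n) := by
      constructor
      · rintro rfl
        fin_cases i <;> simp
      · rintro ⟨h1, h2, h3⟩
        ext j
        fin_cases i <;> fin_cases j <;> simp_all <;> omega
    by_cases h : m = Finsupp.single i (d - n) + Finsupp.single (i + 3) n
    · rw [if_pos h]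
      obtain ⟨h1, h2, h3⟩ := hiff.1 h
      have hp : ∏ j, hypVec i (Polynomial.C (0 : ℂ)) (Polynomial.C 0) Polynomial.X j ^ m j =
          Polynomial.X ^ n := by
        rw [Fin.prod_univ_four]
        fin_cases i <;> simp_all [hypVec]
      rw [hp, Polynomial.coeff_X_pow_self, mul_one]
    · rw [if_neg h]
      rw [hiff] at h
      by_cases h1 : m (i + 1) = 0
      · by_cases h2 : m (i + 2) = 0
        · have h3 : m (i + 3) ≠ n := fun h3 => h ⟨h1, h2, h3⟩
          have hp : ∏ j, hypVec i (Polynomial.C (0 : ℂ)) (Polynomial.C 0) Polynomial.X j ^ m j =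
              Polynomial.X ^ (m (i + 3)) := by
            rw [Fin.prod_univ_four]
            fin_cases i <;> simp_all [hypVec]
          rw [hp, Polynomial.coeff_X_pow, if_neg h3.symm, mul_zero]
        · have hp : ∏ j, hypVec i (Polynomial.C (0 : ℂ)) (Polynomial.C 0) Polynomial.X j ^ m j =
              0 := by
            refine Finset.prod_eq_zero (Finset.mem_univ (i + 2)) ?_
            have h4 : i + 2 ≠ i := by fin_cases i <;> decide
            have h5 : i + 2 ≠ i + 1 := by fin_cases i <;> decide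
            rw [hypVec, if_neg h4, if_neg h5, if_pos rfl, Polynomial.C_0, zero_pow h2]
          rw [hp, Polynomial.coeff_zero, mul_zero]
      · have hp : ∏ j, hypVec i (Polynomial.C (0 : ℂ)) (Polynomial.C 0) Polynomial.X j ^ m j =
            0 := by
          refine Finset.prod_eq_zero (Finset.mem_univ (i + 1)) ?_
          have h4 : i + 1 ≠ i := by fin_cases i <;> decide
          rw [hypVec, if_neg h4, if_pos rfl, Polynomial.C_0, zero_pow h1]
        rw [hp, Polynomial.coeff_zero, mul_zero]
  have h1 : (hypLine i (0 : ℂ) 0 F).coeff n =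
      ∑ m ∈ F.support, (hypLine i (0 : ℂ) 0 (monomial m (F.coeff m))).coeff n := by
    conv_lhs => rw [F.as_sum, map_sum, Polynomial.finsetSum_coeff]
  rw [h1, Finset.sum_congr rfl hmon, Finset.sum_ite_eq']
  split_ifs with h
  · rfl
  · exact (notMem_support_iff.1 h).symm

private theorem fin4_cases (i j : Fin 4) : j = i ∨ j = i + 1 ∨ j = i + 2 ∨ j = i + 3 := by
  revert i j
  decide

/-- smoothness at the coordinate point in the form which is used -/
theorem smooth_cvec {F : Poly 3} {d : ℕ} (hd : 1 ≤ d) (hF : F.IsHomogeneous d) {i : Fin 4}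
    (h : SmoothAt F d i) :
    Smooth (Ideal.span {F}) (cvec i) (X i) (X (i + 1)) (X (i + 2)) := by
  have hi1 : i + 1 ≠ i := by fin_cases i <;> decide
  have hi2 : i + 2 ≠ i := by fin_cases i <;> decide
  have hi3 : i + 3 ≠ i := by fin_cases i <;> decide
  have hi4 : i + 3 ≠ i + 1 := by fin_cases i <;> decide
  have hi5 : i + 3 ≠ i + 2 := by fin_cases i <;> decide
  refine ⟨?_, ?_, ?_, ?_⟩
  · rw [eval_X, cvec, Pi.single_eq_same]
  · rw [eval_X, cvec, Pi.single_eq_of_ne hi1]
  · rw [eval_X, cvec, Pi.single_eq_of_ne hi2]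
  set J : Ideal (Poly 3) := Ideal.span {F} ⊔ Ideal.span {X i - 1} ⊔
    Ideal.span {X (i + 1), X (i + 2)} ⊔ vecIdeal (cvec i) ^ 2 with hJ
  have hF' : F ∈ J := Ideal.mem_sup_left (Ideal.mem_sup_left (Ideal.mem_sup_left
    (Ideal.mem_span_singleton_self F)))
  have h0 : (X i - 1 : Poly 3) ∈ J := Ideal.mem_sup_left (Ideal.mem_sup_left (Ideal.mem_sup_right
    (Ideal.mem_span_singleton_self _)))
  have h1 : (X (i + 1) : Poly 3) ∈ J := Ideal.mem_sup_left (Ideal.mem_sup_right
    (Ideal.subset_span (by simp)))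
  have h2 : (X (i + 2) : Poly 3) ∈ J := Ideal.mem_sup_left (Ideal.mem_sup_right
    (Ideal.subset_span (by simp)))
  have h3m : (X (i + 3) : Poly 3) ∈ vecIdeal (cvec i) := by
    rw [vecIdeal, RingHom.mem_ker, eval_X, cvec, Pi.single_eq_of_ne hi3]
  have h3s : (X (i + 3) : Poly 3) ^ 2 ∈ J := Ideal.mem_sup_right (Ideal.pow_mem_pow h3m 2)
  -- modulo `J` a polynomial is its restriction to the line
  have hline : ∀ G : Poly 3, G - Polynomial.aeval (X (i + 3) : Poly 3) (hypLine i (0 : ℂ) 0 G) ∈
      J := by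
    intro G
    induction G using MvPolynomial.induction_on with
    | C a =>
      simp [hypLine, MvPolynomial.algebraMap_eq]
    | add p q hp hq =>
      rw [map_add, map_add]
      have := J.add_mem hp hq
      convert this using 1
      ring
    | mul_X p j hp =>
      rw [map_mul, map_mul]
      have hj : (X j - Polynomial.aeval (X (i + 3) : Poly 3) (hypLine i (0 : ℂ) 0 (X j)) : Poly 3)
          ∈ J := by
        rw [hypLine, aeval_X]
        rcases fin4_cases i j with rfl | rfl | rfl | rfl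
        · rw [hypVec, if_pos rfl, map_one]
          exact h0
        · rw [hypVec, if_neg hi1, if_pos rfl, Polynomial.C_0, map_zero, sub_zero]
          exact h1
        · have h6 : i + 2 ≠ i + 1 := by fin_cases i <;> decide
          rw [hypVec, if_neg hi2, if_neg h6, if_pos rfl, Polynomial.C_0, map_zero, sub_zero]
          exact h2
        · rw [hypVec, if_neg hi3, if_neg hi4, if_neg hi5, Polynomial.aeval_X, sub_self]
          exact J.zero_mem
      have := J.add_mem (J.mul_mem_right (X j) hp) (J.mul_mem_left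
        (Polynomial.aeval (X (i + 3) : Poly 3) (hypLine i (0 : ℂ) 0 p)) hj)
      convert this using 1
      ring
  -- the last coordinate
  have h3 : (X (i + 3) : Poly 3) ∈ J := by
    set g := hypLine i (0 : ℂ) 0 F with hg
    have hg0 : g.coeff 0 = 0 := by
      rw [hg, hypLine_coeff hF i (Nat.zero_le d)]
      simpa using h.1
    have hg1 : g.coeff 1 ≠ 0 := by
      rw [hg, hypLine_coeff hF i hd]
      exact h.2
    have h4 : Polynomial.aeval (X (i + 3) : Poly 3) g ∈ J := by
      have := J.sub_mem hF' (hline F)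
      rwa [sub_sub_cancel] at this
    have h5 : g = Polynomial.X ^ 2 * g.divX.divX + Polynomial.C (g.coeff 1) * Polynomial.X := by
      have e1 := Polynomial.divX_mul_X_add g
      have e2 := Polynomial.divX_mul_X_add g.divX
      rw [Polynomial.coeff_divX, zero_add] at e2
      rw [hg0, Polynomial.C_0, add_zero] at e1
      conv_lhs => rw [← e1, ← e2]
      ring
    rw [h5, map_add, map_mul, map_mul, map_pow, Polynomial.aeval_X, Polynomial.aeval_C] at h4
    have h6 := J.sub_mem h4 (J.mul_mem_right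
      (Polynomial.aeval (X (i + 3) : Poly 3) g.divX.divX) h3s)
    rw [add_sub_cancel_left] at h6
    have h7 := J.mul_mem_left (algebraMap ℂ (Poly 3) (g.coeff 1)⁻¹) h6
    rw [← mul_assoc, ← map_mul, inv_mul_cancel₀ hg1, map_one, one_mul] at h7
    exact h7
  have hall : ∀ G : Poly 3, G - C (eval (cvec i) G) ∈ J := by
    intro G
    induction G using MvPolynomial.induction_on with
    | C a => simp
    | add p q hp hq =>
      rw [map_add, C_add]
      have := J.add_mem hp hq
      convert this using 1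
      ring
    | mul_X p j hp =>
      rw [map_mul, C_mul, eval_X]
      have hj : (X j - C (cvec i j) : Poly 3) ∈ J := by
        rcases fin4_cases i j with rfl | rfl | rfl | rfl
        · rw [cvec, Pi.single_eq_same, C_1]
          exact h0
        · rw [cvec, Pi.single_eq_of_ne hi1, C_0, sub_zero]
          exact h1
        · rw [cvec, Pi.single_eq_of_ne hi2, C_0, sub_zero]
          exact h2
        · rw [cvec, Pi.single_eq_of_ne hi3, C_0, sub_zero]
          exact h3
      have := J.add_mem (J.mul_mem_right (X j) hp) (J.mul_mem_left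
        (C (eval (cvec i) p)) hj)
      convert this using 1
      ring
  intro G hG
  have h8 := hall G
  rw [vecIdeal, RingHom.mem_ker] at hG
  rwa [hG, C_0, sub_zero] at h8

/-- grids of points on the surface which collide at the coordinate points -/
theorem exists_grid (p : Place) {τ : ℂ} (hτ : τ ∈ p.B) (hτ0 : p.ρ ⟨τ, hτ⟩ = 0) (hτ1 : τ ≠ 0)
    {F : Poly 3} {d : ℕ} (hd : 1 ≤ d) (hF : F.IsHomogeneous d) (hFK : Over p.K F) {i : Fin 4}
    (h : SmoothAt F d i) (k : ℕ) :
    ∃ y : Fin k → Fin k → Fin (3 + 1) → ℂ,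
      Grid p (cvec i) (X i) (X (i + 1)) (X (i + 2)) k y ∧ ∀ a b, eval (y a b) F = 0 := by
  have hi1 : i + 1 ≠ i := by fin_cases i <;> decide
  have hi2 : i + 2 ≠ i := by fin_cases i <;> decide
  have hi3 : i + 3 ≠ i := by fin_cases i <;> decide
  have hi4 : i + 3 ≠ i + 1 := by fin_cases i <;> decide
  have hi5 : i + 3 ≠ i + 2 := by fin_cases i <;> decide
  have hi6 : i + 2 ≠ i + 1 := by fin_cases i <;> decide
  obtain ⟨G, hG1, hG2⟩ := exists_lift_over p hFK
  -- the root on every line
  have hroot : ∀ s t : p.B, p.ρ s = 0 → p.ρ t = 0 →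
      ∃ w : p.B, p.ρ w = 0 ∧ eval (hypVec i (s : ℂ) (t : ℂ) (w : ℂ)) F = 0 := by
    intro s t hs ht
    have hg : hypLine i (s : ℂ) (t : ℂ) F = (hypLine i s t G).map p.B.subtype := by
      rw [hypLine_map, ← hG1]
      rfl
    have hc : ∀ j, (hypLine i (s : ℂ) (t : ℂ) F).coeff j =
        (((hypLine i s t G).coeff j : p.B) : ℂ) := by
      intro j
      rw [hg, Polynomial.coeff_map]
      rfl
    have hmem : ∀ j, (hypLine i (s : ℂ) (t : ℂ) F).coeff j ∈ p.B := by
      intro j
      rw [hc]
      exact ((hypLine i s t G).coeff j).2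
    have hρ : ∀ j, p.ρ ⟨(hypLine i (s : ℂ) (t : ℂ) F).coeff j, hmem j⟩ =
        (hypLine i (0 : ℂ) 0 F).coeff j := by
      intro j
      have e1 : (⟨(hypLine i (s : ℂ) (t : ℂ) F).coeff j, hmem j⟩ : p.B) =
          (hypLine i s t G).coeff j := Subtype.ext (hc j)
      have e2 : (hypLine i s t G).map p.ρ = hypLine i (0 : ℂ) 0 F := by
        rw [hypLine_map, hs, ht]
        congr 1
      rw [e1, ← e2, Polynomial.coeff_map]
    obtain ⟨w, hw, hw1, hw2⟩ := p.exists_root hmem
      (by rw [hρ, hypLine_coeff hF i (Nat.zero_le d)]; simpa using h.1)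
      (by rw [hρ, hypLine_coeff hF i hd]; exact h.2)
    refine ⟨⟨w, hw⟩, hw2, ?_⟩
    rw [← hypLine_eval]
    exact hw1
  have hτn : ∀ a : Fin k, ∃ s : p.B, (s : ℂ) = τ * ((a : ℕ) + 1) ∧ p.ρ s = 0 := by
    intro a
    refine ⟨⟨τ, hτ⟩ * (((a : ℕ) : p.B) + 1), ?_, ?_⟩
    · push_cast
      rfl
    · rw [map_mul, hτ0, zero_mul]
  choose s hs1 hs2 using hτn
  choose w hw1 hw2 using fun a b : Fin k => hroot (s a) (s b) (hs2 a) (hs2 b)
  have hsinj : ∀ a a' : Fin k, (s a : ℂ) = s a' → a = a' := by
    intro a a' haa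
    rw [hs1, hs1] at haa
    have h1 := mul_left_cancel₀ hτ1 haa
    have h2 : ((a : ℕ) : ℂ) = ((a' : ℕ) : ℂ) := by linear_combination h1
    exact Fin.ext (by exact_mod_cast h2)
  have hv0 : ∀ s t w : ℂ, hypVec i s t w i = 1 := fun s t w => by rw [hypVec, if_pos rfl]
  have hv1 : ∀ s t w : ℂ, hypVec i s t w (i + 1) = s := fun s t w => by
    rw [hypVec, if_neg hi1, if_pos rfl]
  have hv2 : ∀ s t w : ℂ, hypVec i s t w (i + 2) = t := fun s t w => by
    rw [hypVec, if_neg hi2, if_neg hi6, if_pos rfl]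
  have hv3 : ∀ s t w : ℂ, hypVec i s t w (i + 3) = w := fun s t w => by
    rw [hypVec, if_neg hi3, if_neg hi4, if_neg hi5]
  refine ⟨fun a b => hypVec i (s a : ℂ) (s b : ℂ) (w a b : ℂ), ?_, hw2⟩
  have hmem : ∀ a b j, hypVec i (s a : ℂ) (s b : ℂ) (w a b : ℂ) j ∈ p.B := by
    intro a b j
    rcases fin4_cases i j with rfl | rfl | rfl | rfl
    · rw [hv0]; exact one_mem _
    · rw [hv1]; exact (s a).2
    · rw [hv2]; exact (s b).2
    · rw [hv3]; exact (w a b).2
  refine ⟨hmem, ?_, ?_, ?_, ?_, ?_⟩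
  · intro a b j
    rcases fin4_cases i j with rfl | rfl | rfl | rfl
    · have e1 : (⟨hypVec j (s a : ℂ) (s b : ℂ) (w a b : ℂ) j, hmem a b j⟩ : p.B) = 1 :=
        Subtype.ext (hv0 _ _ _)
      rw [e1, map_one, cvec, Pi.single_eq_same]
    · have e1 : (⟨hypVec i (s a : ℂ) (s b : ℂ) (w a b : ℂ) (i + 1), hmem a b (i + 1)⟩ : p.B) =
          s a := Subtype.ext (hv1 _ _ _)
      rw [e1, hs2, cvec, Pi.single_eq_of_ne hi1]
    · have e1 : (⟨hypVec i (s a : ℂ) (s b : ℂ) (w a b : ℂ) (i + 2), hmem a b (i + 2)⟩ : p.B) =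
          s b := Subtype.ext (hv2 _ _ _)
      rw [e1, hs2, cvec, Pi.single_eq_of_ne hi2]
    · have e1 : (⟨hypVec i (s a : ℂ) (s b : ℂ) (w a b : ℂ) (i + 3), hmem a b (i + 3)⟩ : p.B) =
          w a b := Subtype.ext (hv3 _ _ _)
      rw [e1, hw1, cvec, Pi.single_eq_of_ne hi3]
  · intro a b a' b' hab
    have e1 := congrFun hab (i + 1)
    have e2 := congrFun hab (i + 2)
    simp only [hv1] at e1
    simp only [hv2] at e2
    exact ⟨hsinj _ _ e1, hsinj _ _ e2⟩
  · intro a b
    rw [eval_X, hv0]
  · intro a b b'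
    rw [eval_X, eval_X, hv1, hv1]
  · intro a a' b
    rw [eval_X, eval_X, hv2, hv2]

/-- **from four weighted points to `n` points**: `K₀` is a subfield over which `ℂ` is not
algebraic (for example a countable subfield) -/
theorem le_eps {K₀ : Subfield ℂ} {τ : ℂ} (hτ : Transcendental K₀ τ) {F : Poly 3} {d : ℕ}
    (hd : 1 ≤ d) (hF : F.IsHomogeneous d) (hFK : Over K₀ F) (hI : IsSurface (Ideal.span {F}))
    (hsm : ∀ i, SmoothAt F d i) {w : Fin 4 → ℝ}
    (hW : ∀ Q, IsCurveOn (Ideal.span {F}) Q → Bd (fun i => X i) cvec w Q)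
    {k : Fin 4 → ℕ} {s : ℝ} (hs : 0 ≤ s) (hsw : ∀ i, s * k i ≤ w i) {n : ℕ}
    (hn : n = ∑ i, k i ^ 2) :
    ENNReal.ofReal s ≤ eps (Ideal.span {F}) n := by
  obtain ⟨p, hpK, hτB, hτ0⟩ := exists_place K₀ hτ
  have hτ1 : τ ≠ 0 := by
    rintro rfl
    exact hτ isAlgebraic_zero
  have hFp : Over p.K F := fun m => hpK (hFK m)
  choose y hy hyF using fun i => exists_grid p hτB hτ0 hτ1 hd hF hFp (hsm i) (k i)
  have hX : ∀ j : Fin (3 + 1), Over p.K (X j : Poly 3) := by
    intro j m
    rw [coeff_X]
    split_ifs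
    · exact one_mem _
    · exact zero_mem _
  have hcol := fun P (hP : IsCurveOn (Ideal.span {F}) P) =>
    collide p hI (S := {F}) rfl (by rintro _ rfl; exact hFp) (e := cvec)
      (l := fun i => X i) (u := fun i => X (i + 1)) (v := fun i => X (i + 2))
      (fun i => isHomogeneous_X ℂ i) (fun i => hX i) (fun i => hX (i + 1)) (fun i => hX (i + 2))
      (fun i => smooth_cvec hd hF (hsm i)) hW hy hs hsw hP
  -- the points
  let T : Type := (i : Fin 4) × (Fin (k i) × Fin (k i))
  have hcard : Fintype.card T = n := by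
    rw [Fintype.card_sigma, hn]
    refine Finset.sum_congr rfl fun i _ => ?_
    rw [Fintype.card_prod, Fintype.card_fin, sq]
  let E : Fin n ≃ T := (Fintype.equivFinOfCardEq hcard).symm
  let V : T → Fin (3 + 1) → ℂ := fun t => y t.1 t.2.1 t.2.2
  have hV1 : ∀ t : T, V t t.1 = 1 := by
    intro t
    have := (hy t.1).l1 t.2.1 t.2.2
    rwa [eval_X] at this
  have hVB : ∀ (t : T) j, V t j ∈ p.B := fun t j => (hy t.1).mem t.2.1 t.2.2 j
  have hVρ : ∀ (t : T) j, p.ρ ⟨V t j, hVB t j⟩ = cvec t.1 j := fun t j =>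
    (hy t.1).red t.2.1 t.2.2 j
  have hV0 : ∀ t, V t ≠ 0 := by
    intro t h0
    have := hV1 t
    rw [h0] at this
    exact zero_ne_one this
  have hVI : ∀ t, ∀ G ∈ Ideal.span {F}, eval (V t) G = 0 := by
    intro t G hG
    obtain ⟨q, rfl⟩ := Ideal.mem_span_singleton.1 hG
    rw [map_mul, hyF, zero_mul]
  let x : Fin n → Projectivization ℂ (Fin (3 + 1) → ℂ) := fun a =>
    Projectivization.mk ℂ (V (E a)) (hV0 _)
  have hrep : ∀ a, ∃ c : ℂ, c ≠ 0 ∧ (x a).rep = c • V (E a) := by
    intro a
    obtain ⟨c, hc⟩ := Projectivization.exists_smul_eq_mk_rep ℂ (V (E a)) (hV0 _)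
    exact ⟨c, c.ne_zero, by rw [← hc]; rfl⟩
  have hVinj : ∀ (t t' : T) (c : ℂ), c • V t' = V t → t = t' := by
    intro t t' c hc
    by_cases htt : t.1 = t'.1
    · have h1 := congrFun hc t.1
      rw [Pi.smul_apply, smul_eq_mul, hV1 t] at h1
      rw [htt, hV1 t', mul_one] at h1
      rw [h1, one_smul] at hc
      obtain ⟨i, a, b⟩ := t
      obtain ⟨i', a', b'⟩ := t'
      simp only at htt
      subst htt
      obtain ⟨rfl, rfl⟩ := (hy i).inj a b a' b' hc.symm
      rfl
    · exfalso
      have h1 := congrFun hc t'.1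
      rw [Pi.smul_apply, smul_eq_mul, hV1 t', mul_one] at h1
      have h2 := congrFun hc t.1
      rw [Pi.smul_apply, smul_eq_mul, hV1 t] at h2
      have h3 : (⟨V t t'.1, hVB t t'.1⟩ : p.B) * ⟨V t' t.1, hVB t' t.1⟩ = 1 := by
        apply Subtype.ext
        change V t t'.1 * V t' t.1 = 1
        rw [← h1]
        exact h2
      have h4 := congrArg p.ρ h3
      rw [map_mul, hVρ, cvec, Pi.single_eq_of_ne (fun h => htt h.symm), zero_mul, map_one] at h4
      exact zero_ne_one h4
  have hxinj : Function.Injective x := by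
    intro a b hab
    have hab' : Projectivization.mk ℂ (V (E a)) (hV0 _) =
      Projectivization.mk ℂ (V (E b)) (hV0 _) := hab
    rw [Projectivization.mk_eq_mk_iff'] at hab'
    obtain ⟨c, hc⟩ := hab'
    exact E.injective (hVinj _ _ c hc)
  have hxI : ∀ a, OnVar (Ideal.span {F}) (x a) := by
    intro a G hG
    obtain ⟨c, -, hc⟩ := hrep a
    rw [hc, ← eval_scaleHom]
    exact hVI _ _ (scaleHom_mem hI.homogeneous c hG)
  have hmain : ENNReal.ofReal s ≤ seshadri (Ideal.span {F}) x := by
    unfold seshadri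
    refine le_iInf fun P => le_iInf fun hP => le_iInf fun _ => ?_
    obtain ⟨hd0, hd1⟩ := deg_curve hP
    rw [ENNReal.le_div_iff_mul_le (Or.inr hd0) (Or.inr hd1)]
    have h1 : ∀ a, mult P (x a).rep = mult P (V (E a)) := by
      intro a
      obtain ⟨c, hc0, hc⟩ := hrep a
      rw [hc, mult_smul hP.homogeneous _ hc0]
    simp only [h1]
    rw [Equiv.sum_comp E (fun t => mult P (V t)), Fintype.sum_sigma]
    simp only [Fintype.sum_prod_type]
    exact hcol P hP
  exact le_trans hmain (le_iSup_of_le x (le_iSup_of_le hxinj (le_iSup_of_le hxI le_rfl)))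

end Pool.Agent.Lib.MP_ed661f_ag.S
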