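import Pool.Agent.Lib.MP_ed661f_ag.S.VG
import Pool.Agent.Lib.MP_ed661f_ag.H.Krull

/-!
Very general forms in four variables are irreducible, and their zero sets are surfaces.
-/

set_option autoImplicit false

open MvPolynomial

namespace Pool.Agent.Lib.MP_ed661f_ag.S

open H

theorem degreeOf_tform (d : ℕ) : degreeOf 0 (tform d) ≤ 1 := by
  unfold tform
  refine (degreeOf_add_le 0 _ _).trans (max_le ?_ ?_)
  · refine (degreeOf_mul_le 0 _ _).trans ?_
    rw [degreeOf_X, if_pos rfl]
    have h := degreeOf_pow_le (0 : Fin 4) (X 1 : Poly 3) (d - 1)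
    rw [degreeOf_X, if_neg (by decide)] at h
    omega
  · have h := degreeOf_pow_le (0 : Fin 4) (X 2 : Poly 3) d
    rw [degreeOf_X, if_neg (by decide)] at h
    omega

theorem tform_ne_zero (d : ℕ) : tform d ≠ 0 := by
  intro h
  have h1 := congrArg (coeff (Finsupp.single 2 d)) h
  unfold tform at h1
  rw [coeff_add, coeff_X_pow, if_pos rfl, coeff_zero, coeff_X_mul', if_neg, zero_add] at h1
  · exact one_ne_zero h1
  · intro h2
    have := Finsupp.support_single_subset h2
    rw [Finset.mem_singleton] at this
    exact absurd this (by decide)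

theorem pderiv_tform (d : ℕ) : pderiv 0 (tform d) = X 1 ^ (d - 1) := by
  unfold tform
  rw [map_add, pderiv_mul, pderiv_X_self, one_mul, pderiv_pow, pderiv_pow,
    pderiv_X_of_ne (by decide : (0 : Fin 4) ≠ 1).symm, pderiv_X_of_ne (by decide : (0 : Fin 4) ≠ 2).symm]
  ring

theorem tform_aux {d : ℕ} (hd : 1 ≤ d) {G H : Poly 3} (h : tform d = G * H)
    (hH : degreeOf 0 H = 0) : IsUnit H := by
  have h1 : pderiv 0 H = 0 := by
    apply pderiv_eq_zero_of_notMem_vars
    intro h2
    obtain ⟨m, hm, hm0⟩ := (mem_vars 0).1 h2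
    have h3 := degreeOf_le_iff.1 hH.le m hm
    exact (Finsupp.mem_support_iff.1 hm0) (Nat.le_zero.1 h3)
  have h2 : H ∣ X 1 ^ (d - 1) := by
    rw [← pderiv_tform d, h, pderiv_mul, h1, mul_zero, add_zero]
    exact dvd_mul_left _ _
  have h3 : H ∣ X 2 ^ d := by
    have h4 : (X 2 ^ d : Poly 3) = tform d - X 0 * X 1 ^ (d - 1) := by
      unfold tform
      ring
    rw [h4]
    exact dvd_sub (h ▸ dvd_mul_left _ _) (h2.mul_left _)
  have h4 : IsRelPrime (X 1 : Poly 3) (X 2) := by
    have h5 : Irreducible (X 1 : Poly 3) := (X_prime (i := 1)).irreducible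
    rw [h5.isRelPrime_iff_not_dvd, X_dvd_X]
    decide
  exact (h4.pow : IsRelPrime ((X 1 : Poly 3) ^ (d - 1)) (X 2 ^ d)) h2 h3

theorem tform_factor {d : ℕ} (hd : 1 ≤ d) {G H : Poly 3} (h : tform d = G * H) :
    IsUnit G ∨ IsUnit H := by
  have hne : G * H ≠ 0 := h ▸ tform_ne_zero d
  have h1 := degreeOf_mul_eq (n := 0) (left_ne_zero_of_mul hne) (right_ne_zero_of_mul hne)
  have h2 := degreeOf_tform d
  rw [h] at h2
  rcases Nat.eq_zero_or_pos (degreeOf 0 H) with h3 | h3
  · exact Or.inr (tform_aux hd h h3)
  · left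
    refine tform_aux hd (G := H) (h.trans (mul_comm G H)) ?_
    omega

theorem degree_zero_of_isUnit {G : Poly 3} {a : ℕ} (hG : G.IsHomogeneous a) (hu : IsUnit G) :
    a = 0 := by
  have h1 := (isUnit_iff_totalDegree_of_isReduced.1 hu).2
  have h2 := hG.totalDegree hu.ne_zero
  omega

theorem isUnit_of_degree_zero {G : Poly 3} (hG : G.IsHomogeneous 0) (h0 : G ≠ 0) : IsUnit G := by
  have h1 : G.totalDegree = 0 := hG.totalDegree h0
  rw [totalDegree_eq_zero_iff_eq_C] at h1
  rw [h1]
  apply IsUnit.map
  rw [isUnit_iff_ne_zero]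
  intro h2
  rw [h2, C_0] at h1
  exact h0 h1

theorem ne_zero_of_veryGeneral {d : ℕ} {F : Poly 3} (hF : VeryGeneral d F) : F ≠ 0 := by
  rintro rfl
  have h1 := hF.2.ne_zero ⟨Finsupp.single 0 d, by simp⟩
  exact h1 (coeff_zero _)

/-- **very general forms are irreducible** -/
theorem irreducible_of_veryGeneral {d : ℕ} (hd : 1 ≤ d) {F : Poly 3} (hF : VeryGeneral d F) :
    Irreducible F := by
  have hF0 := ne_zero_of_veryGeneral hF
  refine ⟨fun hu => ?_, ?_⟩
  · have := degree_zero_of_isUnit hF.1 hu
    omega
  · intro G H hGH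
    have hne : G * H ≠ 0 := hGH ▸ hF0
    obtain ⟨a, b, hG, hH, hab⟩ := homogeneous_of_mul (hGH ▸ hF.1) hne
    obtain ⟨p, F', -, hF', hred⟩ := exists_spec Q0 hF.1 (algInd_Q0 hF.2) (tform_homogeneous hd)
      (coeff_tform d)
    obtain ⟨G', H', c, c', hc, hc', hG', hH', hmul⟩ := red_of_mul p (hF'.trans hGH) (by
      rw [hred]
      exact tform_ne_zero d)
    rw [hred] at hmul
    have hGa : (p.red G').IsHomogeneous a := red_homogeneous p (hG' ▸ hG.C_mul c)
    have hHb : (p.red H').IsHomogeneous b := red_homogeneous p (hH' ▸ hH.C_mul c')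
    rcases tform_factor hd hmul with hu | hu
    · left
      have := degree_zero_of_isUnit hGa hu
      subst this
      exact isUnit_of_degree_zero hG (left_ne_zero_of_mul hne)
    · right
      have := degree_zero_of_isUnit hHb hu
      subst this
      exact isUnit_of_degree_zero hH (right_ne_zero_of_mul hne)

section

attribute [local instance] MvPolynomial.gradedAlgebra

theorem homog_span_form {d : ℕ} {F : Poly 3} (hF : F.IsHomogeneous d) :
    ∀ G ∈ Ideal.span {F}, ∀ k, homogeneousComponent k G ∈ Ideal.span {F} := by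
  intro G hG k
  refine homogeneousComponent_mem_of_mem ?_ hG k
  apply Ideal.homogeneous_span
  rintro x hx
  rw [Set.mem_singleton_iff] at hx
  rw [hx]
  exact ⟨d, hF⟩

end

/-- evaluation at the last coordinate point -/
theorem eval_last {d : ℕ} {F : Poly 3} (hF : F.IsHomogeneous d) :
    eval (Pi.single 3 1) F = coeff (Finsupp.single 3 d) F := by
  classical
  rw [eval_eq', Finset.sum_eq_single (Finsupp.single 3 d)]
  · have : ∏ i : Fin 4, (Pi.single 3 1 : Fin 4 → ℂ) i ^ (Finsupp.single (3 : Fin 4) d) i = 1 := by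
      refine Finset.prod_eq_one fun i _ => ?_
      by_cases h : i = 3
      · rw [h, Pi.single_eq_same, one_pow]
      · rw [Finsupp.single_eq_of_ne h, pow_zero]
    rw [this, mul_one]
  · intro e he hne
    have hdeg : e.degree = d := by
      by_contra h
      exact (mem_support_iff.1 he) (hF.coeff_eq_zero h)
    obtain ⟨i, hi, hei⟩ : ∃ i : Fin 4, i ≠ 3 ∧ e i ≠ 0 := by
      by_contra hcon
      push Not at hcon
      apply hne
      have h1 : e = Finsupp.single 3 (e 3) := by
        ext i
        by_cases h : i = 3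
        · rw [h, Finsupp.single_eq_same]
        · rw [hcon i h, Finsupp.single_eq_of_ne h]
      rw [h1, Finsupp.degree_single] at hdeg
      rw [h1, hdeg]
    rw [Finset.prod_eq_zero (Finset.mem_univ i), mul_zero]
    rw [Pi.single_eq_of_ne hi, zero_pow hei]
  · intro h
    rw [notMem_support_iff.1 h, zero_mul]

/-- the projection from the last coordinate point -/
noncomputable def pr (F : Poly 3) : MvPolynomial (Fin 3) ℂ →+* Poly 3 ⧸ Ideal.span {F} :=
  (Ideal.Quotient.mk (Ideal.span {F})).comp (rename Fin.castSucc).toRingHom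

theorem pr_apply (F : Poly 3) (G : MvPolynomial (Fin 3) ℂ) :
    pr F G = Ideal.Quotient.mk (Ideal.span {F}) (rename Fin.castSucc G) := rfl

theorem degreeOf_rename_last (G : MvPolynomial (Fin 3) ℂ) :
    degreeOf 3 (rename Fin.castSucc G : Poly 3) = 0 := by
  rw [← Nat.le_zero, degreeOf_le_iff]
  intro m hm
  rw [Nat.le_zero]
  by_contra h
  have h1 : (3 : Fin 4) ∈ (rename Fin.castSucc G : Poly 3).vars :=
    (mem_vars 3).2 ⟨m, hm, Finsupp.mem_support_iff.2 h⟩
  have h2 := vars_rename Fin.castSucc G h1
  obtain ⟨j, -, hj⟩ := Finset.mem_image.1 h2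
  exact absurd hj (by
    have := j.2
    intro h
    have h4 := congrArg Fin.val h
    simp at h4
    omega)

theorem pr_injective {d : ℕ} {F : Poly 3} (hd : 1 ≤ d)
    (h3 : coeff (Finsupp.single 3 d) F ≠ 0) : Function.Injective (pr F) := by
  rw [injective_iff_map_eq_zero]
  intro G hG
  rw [pr_apply, Ideal.Quotient.eq_zero_iff_mem, Ideal.mem_span_singleton] at hG
  obtain ⟨Q, hQ⟩ := hG
  by_contra h0
  have h1 : (rename Fin.castSucc G : Poly 3) ≠ 0 := by
    intro h
    exact h0 (rename_injective _ (Fin.castSucc_injective 3) (h.trans (map_zero _).symm))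
  have hne : F * Q ≠ 0 := hQ ▸ h1
  have h2 := degreeOf_mul_eq (n := 3) (left_ne_zero_of_mul hne) (right_ne_zero_of_mul hne)
  rw [← hQ, degreeOf_rename_last] at h2
  have h4 := monomial_le_degreeOf 3 (mem_support_iff.2 h3)
  rw [Finsupp.single_eq_same] at h4
  omega

theorem pr_finite {d : ℕ} {F : Poly 3} (hF : F.IsHomogeneous d)
    (h3 : coeff (Finsupp.single 3 d) F ≠ 0) : (pr F).Finite := by
  apply RingHom.IsIntegral.to_finite
  · refine isIntegral_of_gens (pr F) (Ideal.Quotient.mk (Ideal.span {F}))
      (RingHom.IsIntegral.of_finite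
        (RingHom.Finite.of_surjective _ Ideal.Quotient.mk_surjective)) ?_ ?_
    · intro x
      have : Ideal.Quotient.mk (Ideal.span {F}) (C x) = pr F (C x) := by
        rw [pr_apply, rename_C]
      rw [this]
      exact RingHom.isIntegralElem_map _
    · intro i
      refine Fin.lastCases ?_ (fun i => ?_) i
      · -- the last variable is a root of a monic polynomial
        set z : Fin 4 → MvPolynomial (Fin 3) ℂ := Fin.snoc (fun i => X i) 0 with hz
        set c : Fin 4 → ℂ := Pi.single 3 1 with hc
        obtain ⟨hq1, hq2⟩ := natDegree_coeff_subst z c hF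
        set q : Polynomial (MvPolynomial (Fin 3) ℂ) := aeval (fun i => Polynomial.C (z i) +
          Polynomial.C (algebraMap ℂ (MvPolynomial (Fin 3) ℂ) (c i)) * Polynomial.X) F with hq
        set u : ℂ := coeff (Finsupp.single 3 d) F with hu
        rw [eval_last hF] at hq2
        refine ⟨Polynomial.C (C u⁻¹) * q, ?_, ?_⟩
        · have h5 : (Polynomial.C (C u⁻¹) * q).natDegree ≤ d :=
            (Polynomial.natDegree_C_mul_le _ _).trans hq1
          refine Polynomial.monic_of_natDegree_le_of_coeff_eq_one d h5 ?_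
          rw [Polynomial.coeff_C_mul, hq2]
          change C u⁻¹ * C u = 1
          rw [← C_mul, inv_mul_cancel₀ h3, C_1]
        · have h6 : ((Polynomial.eval₂RingHom (pr F) (Ideal.Quotient.mk (Ideal.span {F})
              (X (Fin.last 3)))).comp (aeval (fun i => Polynomial.C (z i) +
              Polynomial.C (algebraMap ℂ (MvPolynomial (Fin 3) ℂ) (c i)) *
                Polynomial.X)).toRingHom) = Ideal.Quotient.mk (Ideal.span {F}) := by
            apply MvPolynomial.ringHom_ext
            · intro r
              have e1 : (aeval (fun i => Polynomial.C (z i) +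
                Polynomial.C (algebraMap ℂ (MvPolynomial (Fin 3) ℂ) (c i)) *
                Polynomial.X)) (C r) = Polynomial.C (C r) := by
                rw [show (C r : Poly 3) = algebraMap ℂ _ r from rfl, AlgHom.commutes]
                rfl
              change Polynomial.eval₂ (pr F) _ ((aeval (fun i => Polynomial.C (z i) +
                Polynomial.C (algebraMap ℂ (MvPolynomial (Fin 3) ℂ) (c i)) *
                Polynomial.X)) (C r)) = _
              rw [e1, Polynomial.eval₂_C, pr_apply, rename_C]
            · intro i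
              change Polynomial.eval₂ (pr F) _ ((aeval (fun i => Polynomial.C (z i) +
                Polynomial.C (algebraMap ℂ (MvPolynomial (Fin 3) ℂ) (c i)) *
                Polynomial.X)) (X i)) = _
              rw [aeval_X, Polynomial.eval₂_add, Polynomial.eval₂_mul, Polynomial.eval₂_C,
                Polynomial.eval₂_C, Polynomial.eval₂_X]
              refine Fin.lastCases ?_ (fun i => ?_) i
              · have e2 : z (Fin.last 3) = 0 := by rw [hz, Fin.snoc_last]
                have e3 : c (Fin.last 3) = 1 := by rw [hc]; exact Pi.single_eq_same _ _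
                rw [e2, e3, map_zero, map_one, map_one, one_mul, zero_add]
              · have e2 : z i.castSucc = X i := by rw [hz, Fin.snoc_castSucc]
                have e3 : c i.castSucc = 0 := by
                  rw [hc]
                  apply Pi.single_eq_of_ne
                  exact Fin.castSucc_ne_last i
                rw [e2, e3, map_zero, map_zero, zero_mul, add_zero, pr_apply, rename_X]
          have h7 := congrArg (fun g : Poly 3 →+* _ => g F) h6
          have h8 : Polynomial.eval₂ (pr F) (Ideal.Quotient.mk (Ideal.span {F})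
              (X (Fin.last 3))) q = Ideal.Quotient.mk (Ideal.span {F}) F := h7
          rw [Polynomial.eval₂_mul, h8, Ideal.Quotient.eq_zero_iff_mem.2
            (Ideal.mem_span_singleton_self F), mul_zero]
      · have : Ideal.Quotient.mk (Ideal.span {F}) (X i.castSucc) = pr F (X i) := by
          rw [pr_apply, rename_X]
        rw [this]
        exact RingHom.isIntegralElem_map _
  · have h : ((pr F).comp (C : ℂ →+* MvPolynomial (Fin 3) ℂ)).FiniteType := by
      have h1 : (pr F).comp (C : ℂ →+* MvPolynomial (Fin 3) ℂ) =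
          algebraMap ℂ (Poly 3 ⧸ Ideal.span {F}) := by
        ext r
        change pr F (C r) = _
        rw [pr_apply, rename_C]
        rfl
      rw [h1, RingHom.finiteType_algebraMap]
      infer_instance
    exact RingHom.FiniteType.of_comp_finiteType h

/-- the coordinate ring of a surface in projective three-space has dimension three -/
theorem dim_span {d : ℕ} {F : Poly 3} (hF : F.IsHomogeneous d) (hd : 1 ≤ d)
    (h3 : coeff (Finsupp.single 3 d) F ≠ 0) : ringKrullDim (Poly 3 ⧸ Ideal.span {F}) = 3 := by
  rw [← ringKrullDim_eq_of_finite (pr F) (pr_injective hd h3) (pr_finite hF h3),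
    ringKrullDim_mvPolynomial]
  rfl

theorem isSurface_of_irreducible {d : ℕ} {F : Poly 3} (hF : F.IsHomogeneous d) (hd : 1 ≤ d)
    (hirr : Irreducible F) (h3 : coeff (Finsupp.single 3 d) F ≠ 0) :
    IsSurface (Ideal.span {F}) where
  prime := (Ideal.span_singleton_prime hirr.ne_zero).2 hirr.prime
  homogeneous := homog_span_form hF
  dim := dim_span hF hd h3

theorem coeff_last_ne_zero {d : ℕ} {F : Poly 3} (hF : VeryGeneral d F) :
    coeff (Finsupp.single 3 d) F ≠ 0 :=
  hF.2.ne_zero ⟨Finsupp.single 3 d, by simp⟩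

theorem isSurface_of_veryGeneral {d : ℕ} (hd : 1 ≤ d) {F : Poly 3} (hF : VeryGeneral d F) :
    IsSurface (Ideal.span {F}) :=
  isSurface_of_irreducible hF.1 hd (irreducible_of_veryGeneral hd hF) (coeff_last_ne_zero hF)

end Pool.Agent.Lib.MP_ed661f_ag.S
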