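import Mathlib

/-!
The Jacobian criterion: three polynomials in two variables whose Jacobian determinant is not zero
satisfy no homogeneous relation.
-/

set_option autoImplicit false

open MvPolynomial

namespace Pool.Agent.Lib.MP_ed661f_ag.S

variable {K : Type*} [Field K] {σ τ : Type*} [Fintype τ]

/-- the chain rule -/
theorem deriv_aeval (f : τ → MvPolynomial σ K) (i : σ) (G : MvPolynomial τ K) :
    pderiv i (aeval f G) = ∑ j, aeval f (pderiv j G) * pderiv i (f j) := by
  classical
  induction G using MvPolynomial.induction_on with
  | C a => simp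
  | add p q hp hq =>
    simp only [map_add, hp, hq, add_mul, Finset.sum_add_distrib]
  | mul_X p n hp =>
    rw [map_mul, aeval_X, Derivation.leibniz, hp]
    have h : ∀ j, aeval f (pderiv j (p * X n)) * pderiv i (f j) =
        (if j = n then aeval f p * pderiv i (f n) else 0) +
          f n * (aeval f (pderiv j p) * pderiv i (f j)) := by
      intro j
      rw [Derivation.leibniz, pderiv_X]
      by_cases hj : j = n
      · subst hj
        simp
        ring
      · simp [hj, Ne.symm hj]
        ring
    rw [Finset.sum_congr rfl fun j _ => h j, Finset.sum_add_distrib, ← Finset.mul_sum]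
    simp

/-- the matrix of three polynomials in two variables and their derivatives -/
noncomputable def jac (f : Fin 3 → MvPolynomial (Fin 2) K) :
    Matrix (Fin 3) (Fin 3) (MvPolynomial (Fin 2) K) :=
  Matrix.of ![f, fun i => pderiv 0 (f i), fun i => pderiv 1 (f i)]

/-- **the Jacobian criterion** -/
theorem no_rel3 [CharZero K] {f : Fin 3 → MvPolynomial (Fin 2) K} (h : (jac f).det ≠ 0) :
    ∀ (m : ℕ) (G : MvPolynomial (Fin 3) K), G.IsHomogeneous m → aeval f G = 0 → G = 0 := by
  intro m
  induction m with
  | zero =>
    intro G hG h0
    rw [← totalDegree_zero_iff_isHomogeneous, totalDegree_eq_zero_iff_eq_C] at hG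
    rw [hG, aeval_C, algebraMap_eq, C_eq_zero] at h0
    rw [hG, h0, C_0]
  | succ m ih =>
    intro G hG h0
    have hd : ∀ i : Fin 2, ∑ j, pderiv i (f j) * aeval f (pderiv j G) = 0 := by
      intro i
      have h2 := deriv_aeval f i G
      rw [h0, map_zero] at h2
      rw [h2]
      exact Finset.sum_congr rfl fun j _ => mul_comm _ _
    have h1 : (jac f).mulVec (fun j => aeval f (pderiv j G)) = 0 := by
      funext i
      fin_cases i
      · have h2 := congrArg (aeval f) hG.sum_X_mul_pderiv
        simp only [map_sum, map_mul, aeval_X, map_nsmul, h0, smul_zero] at h2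
        exact h2
      · exact hd 0
      · exact hd 1
    have h2 := Matrix.eq_zero_of_mulVec_eq_zero h h1
    have h3 : ∀ j, pderiv j G = 0 := fun j => ih _ hG.pderiv (congrFun h2 j)
    have h4 := hG.sum_X_mul_pderiv
    simp only [h3, mul_zero, Finset.sum_const_zero] at h4
    exact (smul_eq_zero.1 h4.symm).resolve_left (Nat.succ_ne_zero m)

end Pool.Agent.Lib.MP_ed661f_ag.S
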