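import Mathlib

/-!
# Transfer from a special point to the generic point: linear algebra

`Q` is the ring of the polynomials in the coordinates, `β : Q → k` the evaluation at the special
point (surjective), `α : Q → K` the evaluation at the generic point (injective).
-/

set_option autoImplicit false

open Matrix

namespace Pool.Agent.Lib.MP_ed661f_ag.S

variable {Q k K : Type*} [CommRing Q] [Field k] [Field K] (β : Q →+* k) (α : Q →+* K)

/-- **T1.** Vectors over `Q` whose values at the special point are linearly independent are linearly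
independent at the generic point. -/
theorem linearIndependent_generic (hβ : Function.Surjective β) (hα : Function.Injective α)
    {I J : Type*} [Fintype I] [Fintype J] {G : I → J → Q}
    (h : LinearIndependent k fun i j => β (G i j)) : LinearIndependent K fun i j => α (G i j) := by
  classical
  -- a left inverse over `k`
  have h1 : LinearMap.ker (Fintype.linearCombination k fun i j => β (G i j)) = ⊥ :=
    LinearMap.ker_eq_bot.2 h.fintypeLinearCombination_injective
  obtain ⟨g, hg⟩ := LinearMap.exists_leftInverse_of_injective _ h1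
  have h2 : ∀ i, g (fun j => β (G i j)) = Pi.single i 1 := by
    intro i
    have h3 := congrArg (fun l => l (Pi.single i (1 : k))) hg
    simpa [Fintype.linearCombination_apply, Pi.single_apply] using h3
  -- its matrix, lifted to `Q`
  choose L hL using fun (j : J) (i : I) => hβ (g (Pi.single j 1) i)
  have h4 : ∀ i i', ∑ j, β (G i j) * β (L j i') = (1 : Matrix I I k) i i' := by
    intro i i'
    have h5 : g (fun j => β (G i j)) = ∑ j, β (G i j) • g (Pi.single j 1) := by
      conv_lhs => rw [pi_eq_sum_univ (fun j => β (G i j))]
      rw [map_sum]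
      refine Finset.sum_congr rfl fun j _ => ?_
      rw [map_smul]
      congr 2
      funext l
      rw [Pi.single_apply]
      simp only [eq_comm]
    have h6 := congrFun ((h2 i).symm.trans h5) i'
    rw [Finset.sum_apply] at h6
    simp only [Pi.smul_apply, smul_eq_mul, hL] at h6 ⊢
    rw [← h6, Matrix.one_apply, Pi.single_apply]
    simp only [eq_comm]
  set GM : Matrix I J Q := Matrix.of G with hGM
  set LM : Matrix J I Q := Matrix.of L with hLM
  have h7 : β (GM * LM).det = 1 := by
    rw [RingHom.map_det]
    have : β.mapMatrix (GM * LM) = 1 := by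
      ext i i'
      rw [RingHom.mapMatrix_apply, Matrix.map_apply, Matrix.mul_apply, map_sum, ← h4 i i']
      exact Finset.sum_congr rfl fun j _ => by rw [map_mul]; rfl
    rw [this, Matrix.det_one]
  have h8 : α (GM * LM).det ≠ 0 := by
    intro h9
    have h10 : (GM * LM).det = 0 := (injective_iff_map_eq_zero α).1 hα _ h9
    rw [h10, map_zero] at h7
    exact zero_ne_one h7
  rw [Fintype.linearIndependent_iff]
  intro c hc
  have h9 : c ᵥ* (α.mapMatrix (GM * LM)) = 0 := by
    have h10 : α.mapMatrix (GM * LM) = GM.map α * LM.map α := by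
      rw [RingHom.mapMatrix_apply, Matrix.map_mul]
    rw [h10, ← Matrix.vecMul_vecMul]
    have h11 : c ᵥ* GM.map α = 0 := by
      funext j
      have h12 := congrFun hc j
      rw [Finset.sum_apply] at h12
      rw [Matrix.vecMul, dotProduct]
      simpa [hGM] using h12
    rw [h11, Matrix.zero_vecMul]
  have h10 : IsUnit (α.mapMatrix (GM * LM)).det := by
    rw [← RingHom.map_det]
    exact isUnit_iff_ne_zero.2 h8
  have h11 := Matrix.eq_zero_of_vecMul_eq_zero (by rw [← RingHom.map_det]; exact h8) h9
  exact fun i => congrFun h11 i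

/-- **T2.** A solution at the special point of a system of linear equations whose matrix has full
rank at the special point lifts to a solution over `Q`. -/
theorem exists_lift_solution (hβ : Function.Surjective β) {R C : Type*} [Fintype R] [Fintype C]
    {T : R → C → Q} (hT : ∀ v : R → k, ∃ w : C → k, ∀ r, ∑ c, β (T r c) * w c = v r)
    {f : C → k} (hf : ∀ r, ∑ c, β (T r c) * f c = 0) :
    ∃ g : C → Q, (∀ c, β (g c) = f c) ∧ ∀ r, ∑ c, T r c * g c = 0 := by
  classical
  choose w hw using hT
  choose S hS using fun (c : C) (r : R) => hβ (w (Pi.single r 1) c)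
  choose f' hf' using fun c : C => hβ (f c)
  set TM : Matrix R C Q := Matrix.of T with hTM
  set SM : Matrix C R Q := Matrix.of S with hSM
  have h1 : β.mapMatrix (TM * SM) = 1 := by
    ext r r'
    rw [RingHom.mapMatrix_apply, Matrix.map_apply, Matrix.mul_apply, map_sum]
    have h2 := hw (Pi.single r' 1) r
    rw [Matrix.one_apply]
    have h3 : ∑ c, β (TM r c * SM c r') = ∑ c, β (T r c) * w (Pi.single r' 1) c := by
      refine Finset.sum_congr rfl fun c _ => ?_
      rw [map_mul, hTM, hSM, Matrix.of_apply, Matrix.of_apply, hS]
    rw [h3, h2, Pi.single_apply]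
  have hdet : β (TM * SM).det = 1 := by
    rw [RingHom.map_det, h1, Matrix.det_one]
  set u : R → Q := TM *ᵥ f' with hu
  have hu0 : ∀ r, β (u r) = 0 := by
    intro r
    rw [hu, Matrix.mulVec, dotProduct, map_sum, ← hf r]
    refine Finset.sum_congr rfl fun c _ => ?_
    rw [map_mul, hf', hTM, Matrix.of_apply]
  set g : C → Q := (TM * SM).det • f' - SM *ᵥ ((TM * SM).adjugate *ᵥ u) with hg
  refine ⟨g, fun c => ?_, fun r => ?_⟩
  · rw [hg, Pi.sub_apply, Pi.smul_apply, smul_eq_mul, map_sub, map_mul, hdet, one_mul, hf']
    have h2 : β ((SM *ᵥ ((TM * SM).adjugate *ᵥ u)) c) = 0 := by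
      rw [Matrix.mulVec, dotProduct, map_sum]
      refine Finset.sum_eq_zero fun r _ => ?_
      rw [map_mul, Matrix.mulVec, dotProduct, map_sum]
      have : ∑ r', β ((TM * SM).adjugate r r' * u r') = 0 := by
        refine Finset.sum_eq_zero fun r' _ => ?_
        rw [map_mul, hu0, mul_zero]
      rw [this, mul_zero]
    rw [h2, sub_zero]
  · have h2 : (TM *ᵥ g) r = 0 := by
      rw [hg, Matrix.mulVec_sub, Matrix.mulVec_smul, Matrix.mulVec_mulVec, Matrix.mulVec_mulVec,
        Matrix.mul_adjugate, Matrix.smul_mulVec, Matrix.one_mulVec, ← hu, sub_self]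
      rfl
    exact h2

end Pool.Agent.Lib.MP_ed661f_ag.S
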