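import Pool.Agent.Lib.MP_ed661f_ag.S.Place
import Pool.Agent.Lib.MP_ed661f_ag.H.HilbMul
import Pool.Agent.Lib.MP_ed661f_ag.H.QDefs

/-!
The limit of a homogeneous ideal along a place of the complex numbers.
-/

set_option autoImplicit false

open MvPolynomial

namespace Pool.Agent.Lib.MP_ed661f_ag.S

open H

variable {N : ℕ}

/-- the coefficients of the polynomial lie in the subfield `K` -/
def Over (K : Subfield ℂ) (F : Poly N) : Prop := ∀ d, F.coeff d ∈ K

/-- the inclusion of the polynomials with coefficients in the valuation ring -/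
noncomputable def Place.emb (p : Place) : MvPolynomial (Fin (N + 1)) p.B →+* Poly N :=
  MvPolynomial.map p.B.subtype

/-- the reduction of the polynomials with coefficients in the valuation ring -/
noncomputable def Place.red (p : Place) : MvPolynomial (Fin (N + 1)) p.B →+* Poly N :=
  MvPolynomial.map p.ρ

/-- the limit of the ideal `P`: the ideal generated by the reductions of the elements of `P` with
coefficients in the valuation ring -/
noncomputable def Place.lim (p : Place) (P : Ideal (Poly N)) : Ideal (Poly N) :=
  (P.comap p.emb).map p.red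

variable (p : Place)

theorem exists_lift {F : Poly N} (h : ∀ d, F.coeff d ∈ p.B) :
    ∃ G : MvPolynomial (Fin (N + 1)) p.B, p.emb G = F := by
  classical
  refine ⟨∑ d ∈ F.support, monomial d ⟨F.coeff d, h d⟩, ?_⟩
  rw [Place.emb, map_sum]
  simp only [map_monomial]
  exact F.support_sum_monomial_coeff

/-- polynomials over the subfield are lifted by themselves -/
theorem exists_lift_over {F : Poly N} (h : Over p.K F) :
    ∃ G : MvPolynomial (Fin (N + 1)) p.B, p.emb G = F ∧ p.red G = F := by
  classical
  refine ⟨∑ d ∈ F.support, monomial d ⟨F.coeff d, p.le _ (h d)⟩, ?_, ?_⟩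
  · rw [Place.emb, map_sum]
    simp only [map_monomial]
    exact F.support_sum_monomial_coeff
  · rw [Place.red, map_sum]
    simp only [map_monomial]
    rw [Finset.sum_congr rfl fun d _ => by rw [p.id _ (h d)]]
    exact F.support_sum_monomial_coeff

private theorem comp_map {A A' : Type*} [CommRing A] [CommRing A'] (f : A →+* A')
    (F : MvPolynomial (Fin (N + 1)) A) (k : ℕ) :
    homogeneousComponent k (MvPolynomial.map f F) =
      MvPolynomial.map f (homogeneousComponent k F) := by
  ext d
  rw [coeff_homogeneousComponent, coeff_map, coeff_map, coeff_homogeneousComponent]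
  split_ifs
  · rfl
  · rw [map_zero]

/-- ideals generated by sets which are stable under homogeneous components -/
private theorem homog_span {S : Set (Poly N)} (hS : ∀ F ∈ S, ∀ k, homogeneousComponent k F ∈ S) :
    Homog (Ideal.span S) := by
  intro F hF
  induction hF using Submodule.span_induction with
  | mem x hx => exact fun k => Ideal.subset_span (hS x hx k)
  | zero => intro k; rw [map_zero]; exact Ideal.zero_mem _
  | add x y _ _ hx hy => intro k; rw [map_add]; exact Ideal.add_mem _ (hx k) (hy k)
  | smul a x _ hx =>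
    intro k
    -- write `x` and `a` as sums of their components
    rw [smul_eq_mul]
    have h1 : a * x = ∑ i ∈ Finset.range (a.totalDegree + 1),
        ∑ j ∈ Finset.range (x.totalDegree + 1),
          homogeneousComponent i a * homogeneousComponent j x := by
      rw [← Finset.sum_mul_sum, sum_homogeneousComponent, sum_homogeneousComponent]
    rw [h1, map_sum]
    refine Ideal.sum_mem _ fun i _ => ?_
    rw [map_sum]
    refine Ideal.sum_mem _ fun j _ => ?_
    have h2 : homogeneousComponent i a * homogeneousComponent j x ∈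
        homogeneousSubmodule (Fin (N + 1)) ℂ (i + j) :=
      (homogeneousComponent_isHomogeneous i a).mul (homogeneousComponent_isHomogeneous j x)
    rw [homogeneousComponent_of_mem h2]
    split_ifs
    · exact Ideal.mul_mem_left _ _ (hx j)
    · exact Ideal.zero_mem _

theorem lim_homog {P : Ideal (Poly N)} (h : Homog P) : Homog (p.lim P) := by
  unfold Place.lim Ideal.map
  apply homog_span
  rintro _ ⟨G, hG, rfl⟩ k
  refine ⟨homogeneousComponent k G, ?_, ?_⟩
  · change p.emb _ ∈ P
    rw [Place.emb, ← comp_map]
    exact h _ hG k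
  · rw [Place.red, comp_map]

theorem span_le_lim {P : Ideal (Poly N)} {S : Set (Poly N)} (hS : ∀ F ∈ S, Over p.K F)
    (hP : Ideal.span S ≤ P) : Ideal.span S ≤ p.lim P := by
  rw [Ideal.span_le]
  intro F hF
  obtain ⟨G, h1, h2⟩ := exists_lift_over p (hS F hF)
  have h3 : G ∈ P.comap p.emb := by
    rw [Ideal.mem_comap, h1]
    exact hP (Ideal.subset_span hF)
  have h4 := Ideal.mem_map_of_mem p.red h3
  rw [h2] at h4
  exact h4

/-- among finitely many numbers there is one which divides the other ones in the valuation
ring -/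
private theorem exists_dvd (B : ValuationSubring ℂ) {α : Type*} (s : Finset α) (hs : s.Nonempty)
    (f : α → ℂ) (hf : ∀ a ∈ s, f a ≠ 0) : ∃ a ∈ s, ∀ b ∈ s, f b * (f a)⁻¹ ∈ B := by
  obtain ⟨a, ha, hmax⟩ := Finset.exists_max_image s (fun a => B.valuation (f a)) hs
  refine ⟨a, ha, fun b hb => ?_⟩
  rw [← B.valuation_le_one_iff, map_mul, map_inv₀]
  have h1 : B.valuation (f a) ≠ 0 := (map_ne_zero _).2 (hf a ha)
  calc B.valuation (f b) * (B.valuation (f a))⁻¹
      ≤ B.valuation (f a) * (B.valuation (f a))⁻¹ := mul_le_mul_left (hmax b hb) _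
    _ = 1 := mul_inv_cancel₀ h1

/-- the lemma of Gauss -/
private theorem gauss : ∀ (m : ℕ) (U : Submodule ℂ (Poly N)), Module.finrank ℂ U = m →
    Module.Finite ℂ U →
    ∃ w : Fin m → MvPolynomial (Fin (N + 1)) p.B, (∀ i, p.emb (w i) ∈ U) ∧
      LinearIndependent ℂ fun i => p.red (w i) := by
  intro m
  induction m with
  | zero => exact fun U _ _ => ⟨Fin.elim0, fun i => i.elim0, linearIndependent_empty_type⟩
  | succ m ih =>
    intro U hU hfin
    -- a nonzero vector
    obtain ⟨u, hu, hu0⟩ : ∃ u ∈ U, u ≠ 0 := by
      apply Submodule.exists_mem_ne_zero_of_ne_bot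
      rintro rfl
      rw [finrank_bot] at hU
      omega
    have hsupp : u.support.Nonempty := support_nonempty.2 hu0
    obtain ⟨d, hd, hdmax⟩ := exists_dvd p.B u.support hsupp (fun d => u.coeff d)
      fun a ha => mem_support_iff.1 ha
    have hd0 : u.coeff d ≠ 0 := mem_support_iff.1 hd
    set u' : Poly N := (u.coeff d)⁻¹ • u with hu'
    have hu'U : u' ∈ U := U.smul_mem _ hu
    have hu'B : ∀ b, u'.coeff b ∈ p.B := by
      intro b
      rw [hu', coeff_smul, smul_eq_mul, mul_comm]
      by_cases hb : b ∈ u.support
      · exact hdmax b hb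
      · rw [notMem_support_iff.1 hb, zero_mul]
        exact zero_mem _
    have hu'd : u'.coeff d = 1 := by
      rw [hu', coeff_smul, smul_eq_mul, inv_mul_cancel₀ hd0]
    obtain ⟨g, hg⟩ := exists_lift p hu'B
    -- the subspace of the polynomials whose coefficient at `d` is zero
    let φ : U →ₗ[ℂ] ℂ := (MvPolynomial.lcoeff ℂ d).comp U.subtype
    have hφ : ∀ x : U, φ x = coeff d (x : Poly N) := fun x => rfl
    have hφs : Function.Surjective φ := by
      intro c
      refine ⟨c • ⟨u', hu'U⟩, ?_⟩
      rw [map_smul, hφ, hu'd, smul_eq_mul, mul_one]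
    have hrank := φ.finrank_range_add_finrank_ker
    rw [LinearMap.range_eq_top.2 hφs, finrank_top, Module.finrank_self, hU] at hrank
    set U' : Submodule ℂ (Poly N) := (LinearMap.ker φ).map U.subtype with hU'
    have hU'r : Module.finrank ℂ U' = m := by
      rw [hU', Submodule.finrank_map_subtype_eq]
      omega
    have hU'f : Module.Finite ℂ U' := by
      rw [hU']
      infer_instance
    have hU'U : U' ≤ U := by
      rintro _ ⟨x, -, rfl⟩
      exact x.2
    have hU'd : ∀ x ∈ U', x.coeff d = 0 := by
      rintro _ ⟨x, hx, rfl⟩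
      exact hx
    obtain ⟨w, hw, hwi⟩ := ih U' hU'r hU'f
    refine ⟨Fin.cons g w, ?_, ?_⟩
    · intro i
      refine Fin.cases ?_ (fun i => ?_) i
      · rw [Fin.cons_zero, hg]
        exact hu'U
      · rw [Fin.cons_succ]
        exact hU'U (hw i)
    · have h1 : (fun i => p.red ((Fin.cons g w : Fin (m + 1) → _) i)) =
          Fin.cons (p.red g) fun i => p.red (w i) := by
        funext i
        refine Fin.cases ?_ (fun i => ?_) i
        · rw [Fin.cons_zero, Fin.cons_zero]
        · rw [Fin.cons_succ, Fin.cons_succ]
      rw [h1, linearIndependent_finCons]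
      refine ⟨hwi, fun hmem => ?_⟩
      have h2 : ∀ x ∈ Submodule.span ℂ (Set.range fun i => p.red (w i)), x.coeff d = 0 := by
        intro x hx
        induction hx using Submodule.span_induction with
        | mem x hx =>
          obtain ⟨i, rfl⟩ := hx
          have h3 := hU'd _ (hw i)
          rw [Place.emb, coeff_map] at h3
          have h4 : (w i).coeff d = 0 := Subtype.ext h3
          change coeff d (p.red (w i)) = 0
          rw [Place.red, coeff_map, h4, map_zero]
        | zero => exact coeff_zero d
        | add x y _ _ hx hy => rw [coeff_add, hx, hy, add_zero]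
        | smul a x _ hx => rw [coeff_smul, hx, smul_zero]
      have h3 := h2 _ hmem
      rw [Place.red, coeff_map] at h3
      have h4 : g.coeff d = 1 := by
        apply Subtype.ext
        have h5 := congrArg (coeff d) hg
        rw [Place.emb, coeff_map, hu'd] at h5
        exact h5
      rw [h4, map_one] at h3
      exact one_ne_zero h3

/-- the forms of degree `k` in the ideal -/
private noncomputable def Fk (J : Ideal (Poly N)) (k : ℕ) : Submodule ℂ (Poly N) :=
  homogeneousSubmodule (Fin (N + 1)) ℂ k ⊓ J.restrictScalars ℂ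

private theorem hilb_add (J : Ideal (Poly N)) (k : ℕ) :
    hilb J k + Module.finrank ℂ (Fk J k) =
      Module.finrank ℂ (homogeneousSubmodule (Fin (N + 1)) ℂ k) := by
  have hfin := finite_formsN (N := N) k
  set V := homogeneousSubmodule (Fin (N + 1)) ℂ k with hV
  set π := (Ideal.Quotient.mkₐ ℂ J).toLinearMap with hπ
  have h1 := (π.domRestrict V).finrank_range_add_finrank_ker
  have h2 : LinearMap.range (π.domRestrict V) = V.map π := LinearMap.range_domRestrict V π
  have h3 : Fk J k = (LinearMap.ker (π.domRestrict V)).map V.subtype := by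
    ext x
    constructor
    · rintro ⟨hx, hx'⟩
      exact ⟨⟨x, hx⟩, Ideal.Quotient.eq_zero_iff_mem.2 hx', rfl⟩
    · rintro ⟨y, hy, rfl⟩
      exact ⟨y.2, Ideal.Quotient.eq_zero_iff_mem.1 hy⟩
  rw [h3, Submodule.finrank_map_subtype_eq, ← h1, h2]
  rfl

/-- **(L1)** the Hilbert function of the limit is not larger -/
theorem hilb_lim_le {P : Ideal (Poly N)} (_ : Homog P) (k : ℕ) :
    hilb (p.lim P) k ≤ hilb P k := by
  have hfin := finite_formsN (N := N) k
  have hf : ∀ J : Ideal (Poly N), Module.Finite ℂ (Fk J k) := fun J =>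
    Submodule.finiteDimensional_of_le (inf_le_left : Fk J k ≤ _)
  obtain ⟨w, hw, hwi⟩ := gauss p _ (Fk P k) rfl (hf P)
  have h1 : ∀ i, p.red (w i) ∈ Fk (p.lim P) k := by
    intro i
    refine ⟨?_, ?_⟩
    · have h2 : (p.emb (w i)).IsHomogeneous k := (hw i).1
      change (p.red (w i)).IsHomogeneous k
      have h3 : (w i).IsHomogeneous k := by
        intro d hd
        refine h2 (d := d) fun h0 => hd ?_
        rw [Place.emb, coeff_map] at h0
        exact Subtype.ext h0
      exact h3.map _
    · exact Ideal.mem_map_of_mem p.red (show p.emb (w i) ∈ P from (hw i).2)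
  have h2 : Module.finrank ℂ (Fk P k) ≤ Module.finrank ℂ (Fk (p.lim P) k) := by
    have := hf (p.lim P)
    have h3 : LinearIndependent ℂ (fun i => (⟨p.red (w i), h1 i⟩ : Fk (p.lim P) k)) :=
      LinearIndependent.of_comp (Fk (p.lim P) k).subtype hwi
    have h4 := h3.fintype_card_le_finrank
    rwa [Fintype.card_fin] at h4
  have h3 := hilb_add P k
  have h4 := hilb_add (p.lim P) k
  omega

end Pool.Agent.Lib.MP_ed661f_ag.S
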