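import Pool.Agent.Lib.MP_ed661f_ag.S.Spread
import Pool.Agent.Lib.MP_ed661f_ag.S.FinPts
import Pool.Agent.Lib.MP_ed661f_ag.H.Slice

/-!
Collision of a grid of points: the jets of a curve at the points of the grid and the jets of its
limit at the limit point.
-/

set_option autoImplicit false

open MvPolynomial

namespace Pool.Agent.Lib.MP_ed661f_ag.S

open H

variable {N : ℕ}

/-- the variety with ideal `I`, its affine piece `l = 1` and the point `e`: the functions `u`, `v`
generate the cotangent space at `e` (the point is smooth on the surface) -/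
structure Smooth (I : Ideal (Poly N)) (e : Fin (N + 1) → ℂ) (l u v : Poly N) : Prop where
  le : eval e l = 1
  ue : eval e u = 0
  ve : eval e v = 0
  sup : vecIdeal e ≤ I ⊔ Ideal.span {l - 1} ⊔ Ideal.span {u, v} ⊔ vecIdeal e ^ 2

/-- a grid of `k ^ 2` points with coordinates in the valuation ring, which all reduce to `e` -/
structure Grid (p : Place) (e : Fin (N + 1) → ℂ) (l u v : Poly N) (k : ℕ)
    (y : Fin k → Fin k → Fin (N + 1) → ℂ) : Prop where
  mem : ∀ a b i, y a b i ∈ p.B
  red : ∀ a b i, p.ρ ⟨y a b i, mem a b i⟩ = e i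
  inj : ∀ a b a' b', y a b = y a' b' → a = a' ∧ b = b'
  l1 : ∀ a b, eval (y a b) l = 1
  u1 : ∀ a b b', eval (y a b) u = eval (y a b') u
  v1 : ∀ a a' b, eval (y a b) v = eval (y a' b) v

/- PROOF of `sum_lam_le`. `k = 0`: the sum is empty. `k ≥ 1`: let `α a = u(y a b)`, `β b = v(y a b)`
(Grid.u1, v1; they lie in `B` and reduce to `u(e) = 0`, `v(e) = 0` because `u`, `v` are over `K`),
`A = ∏ a (u - α a)`, `B' = ∏ b (v - β b)`, `T = t + 1`, and in `B[x]` (lifts of `l, u, v`)
`J = P.comap emb ⊔ (A, B')^t ⊔ ∏_{a,b} (X i - y a b i)_i ^ T ⊔ (l - 1)`.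
(1) `J.map emb ≤ J_ab := P ⊔ vecIdeal (y a b) ^ t ⊔ (l - 1)`, because `A` and `B'` vanish at
`y a b`; the `J_ab` are pairwise coprime (`H.isCoprime_of_ne`, Grid.inj), each `ℂ[x]/J_ab` is finite
(`H.finite_quot`), `Ideal.pi_quotient_surjective`: `∑ lam P l (y a b) t ≤ finrank (ℂ[x]/J.map emb)`
(see the proof of `H.sum_finrank_le_hilb`; `ℂ[x]/J.map emb` is finite because `J.map emb` contains
the product of the `vecIdeal (y a b) ^ T`; or from Spread/FinPts).
(2) `Spread.finrank_emb_le_red` and `FinPts.finite_of_points`.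
(3) `lim P ⊔ vecIdeal e ^ (k (t+1)) ⊔ (l - 1) ≤ J.map red`: with `J' = J.map red`, `c = (u, v)`:
`I ≤ lim P ≤ J'` (`span_le_lim`), `l - 1 ∈ J'`, `c ^ (k(t+1)) ≤ (u^k, v^k)^t ≤ J'`
(`u^i v^j`, `i + j = k(t+1)`: `i / k + j / k ≥ t`), `vecIdeal e ^ (k² T) ≤ J'`; from Smooth.sup:
`vecIdeal e ^ s ≤ I ⊔ (l-1) ⊔ c ^ s ⊔ vecIdeal e ^ (s+1)` for all `s` (`c ≤ vecIdeal e`), iterate from
`s = k(t+1)` to `k² T ≥ s`. -/

/-! ### ideals -/

private theorem limJet_mul_pow_le {R : Type*} [CommRing R] (a b Q : Ideal R) (n : ℕ) :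
    ∀ i0 j0 : ℕ, (∀ i j, i + j = n → a ^ (i0 + i) * b ^ (j0 + j) ≤ Q) →
      a ^ i0 * b ^ j0 * (a ⊔ b) ^ n ≤ Q := by
  induction n with
  | zero =>
    intro i0 j0 h
    have := h 0 0 rfl
    simpa using this
  | succ n ih =>
    intro i0 j0 h
    have h1 : a ^ i0 * b ^ j0 * (a ⊔ b) ^ (n + 1) =
        a ^ (i0 + 1) * b ^ j0 * (a ⊔ b) ^ n ⊔ a ^ i0 * b ^ (j0 + 1) * (a ⊔ b) ^ n := by
      rw [pow_succ (a ⊔ b) n, ← mul_assoc, Ideal.mul_sup, pow_succ a i0, pow_succ b j0]
      congr 1
      · ring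
      · ring
    rw [h1]
    refine sup_le (ih _ _ fun i j hij => ?_) (ih _ _ fun i j hij => ?_)
    · have := h (i + 1) j (by omega)
      rwa [show i0 + 1 + i = i0 + (i + 1) by ring]
    · have := h i (j + 1) (by omega)
      rwa [show j0 + 1 + j = j0 + (j + 1) by ring]

private theorem limJet_sup_pow_le {R : Type*} [CommRing R] (a b : Ideal R) {k : ℕ} (hk : 1 ≤ k)
    (t : ℕ) : (a ⊔ b) ^ (k * (t + 1)) ≤ (a ^ k ⊔ b ^ k) ^ t := by
  have h := limJet_mul_pow_le a b ((a ^ k ⊔ b ^ k) ^ t) (k * (t + 1)) 0 0 (by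
    intro i j hij
    rw [zero_add, zero_add]
    have h1 : a ^ i ≤ (a ^ k) ^ (i / k) := by
      rw [← pow_mul]
      exact Ideal.pow_le_pow_right (Nat.mul_div_le i k)
    have h2 : b ^ j ≤ (b ^ k) ^ (j / k) := by
      rw [← pow_mul]
      exact Ideal.pow_le_pow_right (Nat.mul_div_le j k)
    have h3 : t ≤ i / k + j / k := by
      by_contra hcon
      have e1 := Nat.div_add_mod i k
      have e2 := Nat.div_add_mod j k
      have e3 := Nat.mod_lt i (Nat.lt_of_lt_of_le Nat.zero_lt_one hk)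
      have e4 := Nat.mod_lt j (Nat.lt_of_lt_of_le Nat.zero_lt_one hk)
      have e5 : i / k + j / k + 1 ≤ t := by omega
      nlinarith [Nat.mul_le_mul_left k e5]
    calc a ^ i * b ^ j ≤ (a ^ k) ^ (i / k) * (b ^ k) ^ (j / k) := Ideal.mul_mono h1 h2
      _ ≤ (a ^ k ⊔ b ^ k) ^ (i / k) * (a ^ k ⊔ b ^ k) ^ (j / k) :=
        Ideal.mul_mono (Ideal.pow_right_mono le_sup_left _) (Ideal.pow_right_mono le_sup_right _)
      _ = (a ^ k ⊔ b ^ k) ^ (i / k + j / k) := by rw [pow_add]
      _ ≤ (a ^ k ⊔ b ^ k) ^ t := Ideal.pow_le_pow_right h3)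
  simpa using h

private theorem limJet_step {R : Type*} [CommRing R] {W c m : Ideal R} (hcm : c ≤ m)
    (h : m ≤ W ⊔ c ⊔ m ^ 2) (s : ℕ) : m ^ s ≤ W ⊔ c ^ s ⊔ m ^ (s + 1) := by
  induction s with
  | zero =>
    rw [pow_zero, pow_zero]
    exact le_sup_right.trans le_sup_left
  | succ s ih =>
    have hW : W ≤ W ⊔ c ^ (s + 1) ⊔ m ^ (s + 1 + 1) := le_sup_left.trans le_sup_left
    have hC : c ^ s * c ≤ W ⊔ c ^ (s + 1) ⊔ m ^ (s + 1 + 1) := by
      rw [← pow_succ]
      exact le_sup_right.trans le_sup_left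
    have hM : ∀ x : Ideal R, x ≤ m ^ (s + 1 + 1) → x ≤ W ⊔ c ^ (s + 1) ⊔ m ^ (s + 1 + 1) :=
      fun x hx => hx.trans le_sup_right
    have h1 : c ^ s * m ^ 2 ≤ m ^ (s + 1 + 1) := by
      refine (Ideal.mul_mono (Ideal.pow_right_mono hcm s) le_rfl).trans (le_of_eq ?_)
      rw [← pow_add]
    have h2 : m ^ (s + 1) * c ≤ m ^ (s + 1 + 1) := by
      refine (Ideal.mul_mono le_rfl hcm).trans (le_of_eq ?_)
      rw [← pow_succ]
    have h3 : m ^ (s + 1) * m ^ 2 ≤ m ^ (s + 1 + 1) := by
      rw [← pow_add]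
      exact Ideal.pow_le_pow_right (by omega)
    have h4 : m ^ (s + 1) ≤ (W ⊔ c ^ s ⊔ m ^ (s + 1)) * (W ⊔ c ⊔ m ^ 2) := by
      have := Ideal.mul_mono ih h
      rwa [← pow_succ] at this
    refine h4.trans ?_
    clear h4 ih
    generalize W ⊔ c ^ (s + 1) ⊔ m ^ (s + 1 + 1) = Q at *
    rw [Ideal.sup_mul, Ideal.sup_mul, Ideal.mul_sup (c ^ s), Ideal.mul_sup (c ^ s),
      Ideal.mul_sup (m ^ (s + 1)), Ideal.mul_sup (m ^ (s + 1))]
    exact sup_le (sup_le (le_trans Ideal.mul_le_left hW)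
      (sup_le (sup_le (le_trans Ideal.mul_le_right hW) hC) (hM _ h1)))
      (sup_le (sup_le (le_trans Ideal.mul_le_right hW) (hM _ h2)) (hM _ h3))

private theorem limJet_iter {R : Type*} [CommRing R] {W c m J : Ideal R} (hcm : c ≤ m)
    (h : m ≤ W ⊔ c ⊔ m ^ 2) (hW : W ≤ J) {s0 : ℕ} (hc : c ^ s0 ≤ J) (j : ℕ) :
    m ^ s0 ≤ J ⊔ m ^ (s0 + j) := by
  induction j with
  | zero => exact le_sup_right
  | succ j ih =>
    refine ih.trans (sup_le le_sup_left ?_)
    refine (limJet_step hcm h (s0 + j)).trans ?_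
    refine sup_le (sup_le (hW.trans le_sup_left) ?_) le_sup_right
    exact ((Ideal.pow_le_pow_right (Nat.le_add_right s0 j)).trans hc).trans le_sup_left

private theorem limJet_vec_le (e : Fin (N + 1) → ℂ) :
    vecIdeal e ≤ Ideal.span (Set.range fun i => (X i - C (e i) : Poly N)) := by
  set Q := Ideal.span (Set.range fun i => (X i - C (e i) : Poly N)) with hQ
  intro F hF
  have h1 : (Ideal.Quotient.mk Q) = ((Ideal.Quotient.mk Q).comp C).comp (MvPolynomial.eval e) := by
    apply MvPolynomial.ringHom_ext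
    · intro r
      simp
    · intro i
      simp only [RingHom.comp_apply, MvPolynomial.eval_X]
      rw [← sub_eq_zero, ← map_sub, Ideal.Quotient.eq_zero_iff_mem]
      exact Ideal.subset_span ⟨i, rfl⟩
  have h2 := congrArg (fun f => f F) h1
  simp only [RingHom.comp_apply] at h2
  rw [vecIdeal, RingHom.mem_ker] at hF
  rw [hF, map_zero, map_zero] at h2
  exact Ideal.Quotient.eq_zero_iff_mem.1 h2

private theorem limJet_le_vec (y : Fin (N + 1) → ℂ) :
    Ideal.span (Set.range fun i => (X i - C (y i) : Poly N)) ≤ vecIdeal y := by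
  rw [Ideal.span_le]
  rintro _ ⟨i, rfl⟩
  rw [SetLike.mem_coe, vecIdeal, RingHom.mem_ker]
  simp

/-- the Chinese remainder theorem, dimensions -/
private theorem limJet_crt {ι : Type*} [Fintype ι] {J : Ideal (Poly N)} {K : ι → Ideal (Poly N)}
    (hJK : ∀ i, J ≤ K i) (hfJ : Module.Finite ℂ (Poly N ⧸ J))
    (hcop : Pairwise fun i j => IsCoprime (K i) (K j)) :
    ∑ i, Module.finrank ℂ (Poly N ⧸ K i) ≤ Module.finrank ℂ (Poly N ⧸ J) := by
  classical
  have hfin : ∀ i, Module.Finite ℂ (Poly N ⧸ K i) := fun i =>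
    Module.Finite.of_surjective ((Ideal.Quotient.factorₐ ℂ (hJK i)).toLinearMap)
      (Ideal.Quotient.factor_surjective (hJK i))
  let T := ∀ i, Poly N ⧸ K i
  have hT : Module.finrank ℂ T = ∑ i, Module.finrank ℂ (Poly N ⧸ K i) := by
    simpa [T] using Module.finrank_pi_fintype ℂ (M := fun i => Poly N ⧸ K i)
  rw [← hT]
  let Ψ : (Poly N ⧸ J) →ₗ[ℂ] T :=
    LinearMap.pi fun i => (Ideal.Quotient.factorₐ ℂ (hJK i)).toLinearMap
  have hΨ : Function.Surjective Ψ := by
    intro x
    obtain ⟨r, hr⟩ := Ideal.pi_quotient_surjective hcop x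
    refine ⟨Ideal.Quotient.mk J r, ?_⟩
    funext i
    exact hr i
  exact LinearMap.finrank_le_finrank_of_surjective hΨ

/-- **(L2)** the jets of `P` at the points of the grid are bounded by the jets of the limit of
`P` -/
theorem sum_lam_le (p : Place) {I P : Ideal (Poly N)} {S : Set (Poly N)} (hI : I = Ideal.span S)
    (hS : ∀ F ∈ S, Over p.K F) (hIP : I ≤ P) {e : Fin (N + 1) → ℂ} {l u v : Poly N}
    (hl : Over p.K l) (hu : Over p.K u) (hv : Over p.K v) (hsm : Smooth I e l u v) {k : ℕ}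
    {y : Fin k → Fin k → Fin (N + 1) → ℂ} (hy : Grid p e l u v k y) (t : ℕ) :
    ∑ a, ∑ b, lam P l (y a b) t ≤ lam (p.lim P) l e (k * (t + 1)) := by
  rcases Nat.eq_zero_or_pos k with rfl | hk
  · simp
  -- lifts
  obtain ⟨Lm, hLe, hLr⟩ := exists_lift_over p hl
  obtain ⟨Um, hUe, hUr⟩ := exists_lift_over p hu
  obtain ⟨Vm, hVe, hVr⟩ := exists_lift_over p hv
  let b0 : Fin k := ⟨0, hk⟩
  let yB : Fin k → Fin k → Fin (N + 1) → p.B := fun a b i => ⟨y a b i, hy.mem a b i⟩
  have hevE : ∀ (a b : Fin k) (G : MvPolynomial (Fin (N + 1)) p.B),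
      ((eval (yB a b) G : p.B) : ℂ) = eval (y a b) (p.emb G) := by
    intro a b G
    unfold Place.emb
    rw [MvPolynomial.eval_map]
    exact MvPolynomial.eval₂_comp_left p.B.subtype (RingHom.id _) (yB a b) G
  have hevR : ∀ (a b : Fin k) (G : MvPolynomial (Fin (N + 1)) p.B),
      p.ρ (eval (yB a b) G) = eval e (p.red G) := by
    intro a b G
    unfold Place.red
    rw [MvPolynomial.eval_map]
    have h1 := MvPolynomial.eval₂_comp_left p.ρ (RingHom.id _) (yB a b) G
    have h2 : (p.ρ ∘ yB a b) = e := by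
      funext i
      exact hy.red a b i
    rw [h2] at h1
    exact h1
  let α : Fin k → p.B := fun a => eval (yB a b0) Um
  let β : Fin k → p.B := fun b => eval (yB b0 b) Vm
  let A : MvPolynomial (Fin (N + 1)) p.B := ∏ a, (Um - C (α a))
  let B' : MvPolynomial (Fin (N + 1)) p.B := ∏ b, (Vm - C (β b))
  let vB : Fin k × Fin k → Ideal (MvPolynomial (Fin (N + 1)) p.B) := fun ab =>
    Ideal.span (Set.range fun i => (X i - C (yB ab.1 ab.2 i) : MvPolynomial (Fin (N + 1)) p.B))
  let T : ℕ := t + 1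
  let J : Ideal (MvPolynomial (Fin (N + 1)) p.B) :=
    P.comap p.emb ⊔ Ideal.span {A, B'} ^ t ⊔ (∏ ab, vB ab ^ T) ⊔ Ideal.span {Lm - 1}
  have hJ1 : P.comap p.emb ≤ J := (le_sup_left.trans le_sup_left).trans le_sup_left
  have hJ2 : Ideal.span {A, B'} ^ t ≤ J := (le_sup_right.trans le_sup_left).trans le_sup_left
  have hJ3 : (∏ ab, vB ab ^ T) ≤ J := le_sup_right.trans le_sup_left
  have hJ4 : Ideal.span {Lm - 1} ≤ J := le_sup_right
  have hvBe : ∀ ab, (vB ab).map p.emb =
      Ideal.span (Set.range fun i => (X i - C (y ab.1 ab.2 i) : Poly N)) := by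
    intro ab
    rw [Ideal.map_span]
    congr 1
    rw [← Set.range_comp]
    congr 1
    funext i
    simp only [Function.comp_apply, Place.emb, map_sub, MvPolynomial.map_X, MvPolynomial.map_C]
    rfl
  have hvBr : ∀ ab, (vB ab).map p.red =
      Ideal.span (Set.range fun i => (X i - C (e i) : Poly N)) := by
    intro ab
    rw [Ideal.map_span]
    congr 1
    rw [← Set.range_comp]
    congr 1
    funext i
    simp only [Function.comp_apply, Place.red, map_sub, MvPolynomial.map_X, MvPolynomial.map_C]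
    rw [hy.red]
  -- (1)
  have hK : ∀ ab : Fin k × Fin k, J.map p.emb ≤
      P ⊔ vecIdeal (y ab.1 ab.2) ^ t ⊔ Ideal.span {l - 1} := by
    rintro ⟨a, b⟩
    change (P.comap p.emb ⊔ Ideal.span {A, B'} ^ t ⊔ (∏ ab, vB ab ^ T) ⊔
      Ideal.span {Lm - 1}).map p.emb ≤ P ⊔ vecIdeal (y a b) ^ t ⊔ Ideal.span {l - 1}
    rw [Ideal.map_sup, Ideal.map_sup, Ideal.map_sup]
    refine sup_le (sup_le (sup_le ?_ ?_) ?_) ?_
    · exact Ideal.map_comap_le.trans (le_sup_left.trans le_sup_left)
    · refine le_trans ?_ (le_sup_right.trans le_sup_left)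
      rw [Ideal.map_pow, Ideal.map_span]
      refine Ideal.pow_right_mono ?_ t
      rw [Ideal.span_le]
      rintro _ ⟨G, hG, rfl⟩
      rw [SetLike.mem_coe, vecIdeal, RingHom.mem_ker, ← hevE]
      rcases hG with rfl | hG
      · have h1 : eval (yB a b) A = 0 := by
          simp only [A]
          rw [map_prod]
          refine Finset.prod_eq_zero (Finset.mem_univ a) ?_
          rw [map_sub, eval_C, sub_eq_zero]
          apply Subtype.ext
          simp only [α]
          rw [hevE, hevE, hUe]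
          exact hy.u1 a b b0
        rw [h1]
        rfl
      · rw [Set.mem_singleton_iff] at hG
        subst hG
        have h1 : eval (yB a b) B' = 0 := by
          simp only [B']
          rw [map_prod]
          refine Finset.prod_eq_zero (Finset.mem_univ b) ?_
          rw [map_sub, eval_C, sub_eq_zero]
          apply Subtype.ext
          simp only [β]
          rw [hevE, hevE, hVe]
          exact hy.v1 a b0 b
        rw [h1]
        rfl
    · refine le_trans ?_ (le_sup_right.trans le_sup_left)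
      have h1 : (∏ ab, vB ab ^ T) ≤ vB (a, b) ^ T :=
        Ideal.prod_le_inf.trans (Finset.inf_le (Finset.mem_univ (a, b)))
      refine (Ideal.map_mono h1).trans ?_
      rw [Ideal.map_pow, hvBe]
      exact (Ideal.pow_right_mono (limJet_le_vec _) _).trans
        (Ideal.pow_le_pow_right (Nat.le_succ t))
    · refine le_trans ?_ le_sup_right
      rw [Ideal.map_span, Set.image_singleton, map_sub, hLe, map_one]
  have hfE : Module.Finite ℂ (Poly N ⧸ J.map p.emb) := by
    refine finite_of_points (Finset.univ : Finset (Fin k × Fin k)) (fun ab => y ab.1 ab.2) T ?_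
    refine le_trans (le_of_eq ?_) (Ideal.map_mono hJ3)
    have h6 : (∏ ab, vB ab ^ T).map p.emb = ∏ ab, (vB ab ^ T).map p.emb :=
      map_prod (Ideal.mapHom p.emb) (fun ab => vB ab ^ T) Finset.univ
    rw [h6]
    refine Finset.prod_congr rfl fun ab _ => ?_
    rw [Ideal.map_pow, hvBe]
  have h1 : ∑ a, ∑ b, lam P l (y a b) t ≤ Module.finrank ℂ (Poly N ⧸ J.map p.emb) := by
    have h2 := limJet_crt (K := fun ab : Fin k × Fin k =>
      P ⊔ vecIdeal (y ab.1 ab.2) ^ t ⊔ Ideal.span {l - 1}) hK hfE (by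
        rintro ⟨a, b⟩ ⟨a', b'⟩ hne
        refine isCoprime_of_ne (v := y a b) (v' := y a' b') (s := t) (s' := t) ?_ ?_ ?_
        · intro he
          obtain ⟨h3, h4⟩ := hy.inj a b a' b' he
          exact hne (Prod.ext h3 h4)
        · exact le_sup_right.trans le_sup_left
        · exact le_sup_right.trans le_sup_left)
    rw [Fintype.sum_prod_type] at h2
    exact h2
  -- (2)
  have hfB : Module.Finite p.B (MvPolynomial (Fin (N + 1)) p.B ⧸ J) :=
    finite_of_points (Finset.univ : Finset (Fin k × Fin k)) (fun ab => yB ab.1 ab.2) T hJ3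
  have h2 := finrank_emb_le_red p J hfB
  -- (3)
  have hres : p.lim P ⊔ vecIdeal e ^ (k * (t + 1)) ⊔ Ideal.span {l - 1} ≤ J.map p.red := by
    have hlim : p.lim P ≤ J.map p.red := Ideal.map_mono hJ1
    have hl1 : Ideal.span {l - 1} ≤ J.map p.red := by
      refine le_trans (le_of_eq ?_) (Ideal.map_mono hJ4)
      rw [Ideal.map_span, Set.image_singleton, map_sub, hLr, map_one]
    refine sup_le (sup_le hlim ?_) hl1
    have hI1 : I ≤ J.map p.red := by
      rw [hI] at hIP ⊢
      exact (span_le_lim p hS hIP).trans hlim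
    have hcm : Ideal.span {u, v} ≤ vecIdeal e := by
      rw [Ideal.span_le]
      rintro x (rfl | hx)
      · exact hsm.ue
      · rw [Set.mem_singleton_iff] at hx
        rw [hx]
        exact hsm.ve
    have hred : ∀ (G : MvPolynomial (Fin (N + 1)) p.B) (γ : Fin k → p.B),
        (∀ a, p.ρ (γ a) = 0) → p.red (∏ a, (G - C (γ a))) = p.red G ^ k := by
      intro G γ hγ
      rw [map_prod]
      have : ∀ a ∈ (Finset.univ : Finset (Fin k)), p.red (G - C (γ a)) = p.red G := by
        intro a _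
        rw [map_sub]
        have h5 : p.red (C (γ a) : MvPolynomial (Fin (N + 1)) p.B) = C (p.ρ (γ a)) := by
          unfold Place.red
          rw [MvPolynomial.map_C]
        rw [h5, hγ, map_zero, sub_zero]
      rw [Finset.prod_congr rfl this, Finset.prod_const, Finset.card_univ, Fintype.card_fin]
    have hA : p.red A = u ^ k := by
      have := hred Um α (fun a => by
        simp only [α]
        rw [hevR, hUr]
        exact hsm.ue)
      rw [hUr] at this
      exact this
    have hB : p.red B' = v ^ k := by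
      have := hred Vm β (fun b => by
        simp only [β]
        rw [hevR, hVr]
        exact hsm.ve)
      rw [hVr] at this
      exact this
    have hc : Ideal.span {u, v} ^ (k * (t + 1)) ≤ J.map p.red := by
      refine le_trans ?_ (Ideal.map_mono hJ2)
      rw [Ideal.map_pow, Ideal.map_span, Set.image_pair, hA, hB, Ideal.span_insert,
        Ideal.span_insert]
      have := limJet_sup_pow_le (Ideal.span {u}) (Ideal.span {v}) hk t
      rwa [Ideal.span_singleton_pow, Ideal.span_singleton_pow] at this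
    have hm : vecIdeal e ^ (k * k * T) ≤ J.map p.red := by
      refine le_trans ?_ (Ideal.map_mono hJ3)
      have h6 : (∏ ab, vB ab ^ T).map p.red = ∏ ab, (vB ab ^ T).map p.red :=
        map_prod (Ideal.mapHom p.red) (fun ab => vB ab ^ T) Finset.univ
      rw [h6]
      have h5 : ∀ ab ∈ (Finset.univ : Finset (Fin k × Fin k)), (vB ab ^ T).map p.red =
          Ideal.span (Set.range fun i => (X i - C (e i) : Poly N)) ^ T := by
        intro ab _
        rw [Ideal.map_pow, hvBr]
      rw [Finset.prod_congr rfl h5, Finset.prod_const, Finset.card_univ, Fintype.card_prod,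
        Fintype.card_fin, ← pow_mul, mul_comm T (k * k)]
      exact Ideal.pow_right_mono (limJet_vec_le e) _
    have h6 := limJet_iter hcm hsm.sup (sup_le hI1 hl1) hc (k * k * T)
    refine h6.trans (sup_le le_rfl ?_)
    exact (Ideal.pow_le_pow_right (Nat.le_add_left _ _)).trans hm
  have hfl : Module.Finite ℂ (Poly N ⧸
      (p.lim P ⊔ vecIdeal e ^ (k * (t + 1)) ⊔ Ideal.span {l - 1})) :=
    finite_quot (v := e) (s := k * (t + 1)) (le_sup_right.trans le_sup_left)
  exact h1.trans (h2.trans (slice_finrank_anti hres))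

end Pool.Agent.Lib.MP_ed661f_ag.S
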