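import Pool.Agent.Lib.MP_ed661f_ag.H.Basis
import Pool.Agent.Lib.MP_ed661f_ag.H.Growth
import Pool.Agent.Lib.MP_ed661f_ag.H.Degrees
import Pool.Agent.Lib.MP_ed661f_ag.S.Irr

/-!
From the inequality for all curves to the lower bound for the Seshadri constant.
-/

set_option autoImplicit false

open MvPolynomial Filter
open scoped ENNReal

namespace Pool.Agent.Lib.MP_ed661f_ag.S

open H

/-- the degree of a curve is positive and finite -/
theorem degree_curve {N : ℕ} {I P : Ideal (Poly N)} (h : IsCurveOn I P) :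
    deg P ≠ 0 ∧ deg P ≠ ⊤ := by
  obtain ⟨y, h1, h2, h3⟩ := exists_noether (J := P) h.prime.ne_top h.homogeneous (r := 2)
    (by rw [h.dim]; norm_num)
  obtain ⟨d, e, a, q, b, -, he, -, hq, hqb, hF⟩ := exists_basis h.prime h.homogeneous h1 h2 h3
  exact deg_ne (d := d) (b := b)
    (fun k => hilb_le h.prime h.homogeneous (by norm_num) h1 h2 he hq hqb hF k)
    (fun k => le_hilb h1 h2 k)

/-- the square of the inequality in `ℝ≥0∞` -/
theorem sqrt_mul_le {d n : ℕ} (hn : 1 ≤ n) {s t : ℝ≥0∞} (h : (d : ℝ≥0∞) * s ^ 2 ≤ n * t ^ 2) :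
    ENNReal.ofReal (Real.sqrt ((d : ℝ) / n)) * s ≤ t := by
  have hn0 : (n : ℝ≥0∞) ≠ 0 := by
    have : n ≠ 0 := by omega
    exact_mod_cast this
  have hn1 : (n : ℝ≥0∞) ≠ ⊤ := ENNReal.natCast_ne_top n
  rw [← ENNReal.pow_le_pow_left_iff (two_ne_zero), mul_pow]
  have h1 : ENNReal.ofReal (Real.sqrt ((d : ℝ) / n)) ^ 2 = (d : ℝ≥0∞) / n := by
    rw [← ENNReal.ofReal_pow (Real.sqrt_nonneg _), Real.sq_sqrt (by positivity),
      ENNReal.ofReal_div_of_pos (by exact_mod_cast hn), ENNReal.ofReal_natCast,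
      ENNReal.ofReal_natCast]
  rw [h1, ENNReal.div_eq_inv_mul, mul_assoc]
  calc (n : ℝ≥0∞)⁻¹ * (d * s ^ 2) ≤ (n : ℝ≥0∞)⁻¹ * (n * t ^ 2) := by gcongr
    _ = t ^ 2 := by rw [← mul_assoc, ENNReal.inv_mul_cancel hn0 hn1, one_mul]

/-- **the lower bound** from the inequality for the curves through `n` points of the affine piece
`x₀ = 1` -/
theorem le_eps_of_curves {d e n : ℕ} (hn : 1 ≤ n) {F : Poly 3} (hF : F.IsHomogeneous e)
    {v : Fin n → Fin 4 → ℂ} (hinj : Function.Injective v) (h1 : ∀ i, v i 0 = 1)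
    (h2 : ∀ i, eval (v i) F = 0)
    (h : ∀ P, IsCurveOn (Ideal.span {F}) P →
      (d : ℝ≥0∞) * (∑ i, mult P (v i)) ^ 2 ≤ n * (deg P) ^ 2) :
    ENNReal.ofReal (Real.sqrt ((d : ℝ) / n)) ≤ eps (Ideal.span {F}) n := by
  have hv0 : ∀ i, v i ≠ 0 := by
    intro i h0
    have h3 := h1 i
    rw [h0] at h3
    exact one_ne_zero h3.symm
  set x : Fin n → Projectivization ℂ (Fin 4 → ℂ) := fun i =>
    Projectivization.mk ℂ (v i) (hv0 i) with hx
  have hrep : ∀ i, ∃ c : ℂ, c ≠ 0 ∧ (x i).rep = c • v i := by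
    intro i
    obtain ⟨c, hc⟩ := Projectivization.exists_smul_eq_mk_rep ℂ (v i) (hv0 i)
    exact ⟨c, c.ne_zero, by rw [hx, ← hc]; rfl⟩
  have hxinj : Function.Injective x := by
    intro i j hij
    rw [hx] at hij
    simp only at hij
    rw [Projectivization.mk_eq_mk_iff'] at hij
    obtain ⟨c, hc⟩ := hij
    apply hinj
    have h3 := congrFun hc 0
    rw [Pi.smul_apply, smul_eq_mul, h1, h1, mul_one] at h3
    rw [← hc, h3, one_smul]
  have hxI : ∀ i, OnVar (Ideal.span {F}) (x i) := by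
    intro i G hG
    obtain ⟨c, -, hc⟩ := hrep i
    rw [hc]
    obtain ⟨Q, rfl⟩ := Ideal.mem_span_singleton.1 hG
    rw [map_mul, eval_smul_form hF, h2, mul_zero, zero_mul]
  have hmain : ENNReal.ofReal (Real.sqrt ((d : ℝ) / n)) ≤ seshadri (Ideal.span {F}) x := by
    unfold seshadri
    refine le_iInf fun P => le_iInf fun hP => le_iInf fun _ => ?_
    obtain ⟨hd0, hd1⟩ := degree_curve hP
    rw [ENNReal.le_div_iff_mul_le (Or.inr hd0) (Or.inr hd1)]
    have h3 : ∀ i, mult P (x i).rep = mult P (v i) := by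
      intro i
      obtain ⟨c, hc0, hc⟩ := hrep i
      rw [hc, mult_smul hP.homogeneous (v i) hc0]
    simp only [h3]
    exact sqrt_mul_le hn (h P hP)
  exact le_trans hmain (le_iSup_of_le x (le_iSup_of_le hxinj (le_iSup_of_le hxI le_rfl)))

end Pool.Agent.Lib.MP_ed661f_ag.S
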