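import Pool.Agent.Lib.MP_ed661f_ag.S.Irr
import Pool.Agent.Lib.MP_ed661f_ag.H.Degrees

/-!
The degree of the surface `F = 0`.
-/

set_option autoImplicit false

open MvPolynomial Filter
open scoped ENNReal Topology

namespace Pool.Agent.Lib.MP_ed661f_ag.S

open H

/-- the Hilbert function of the surface `F = 0` -/
theorem hilb_span_add {d : ℕ} {F : Poly 3} (hF : F.IsHomogeneous d) (hF0 : F ≠ 0) {k : ℕ}
    (hk : d ≤ k) : hilb (Ideal.span {F}) k +
      Module.finrank ℂ (homogeneousSubmodule (Fin 4) ℂ (k - d)) =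
      Module.finrank ℂ (homogeneousSubmodule (Fin 4) ℂ k) := by
  have hfin := finite_formsN (N := 3) k
  set V := homogeneousSubmodule (Fin 4) ℂ k with hV
  set π := (Ideal.Quotient.mkₐ ℂ (Ideal.span {F})).toLinearMap with hπ
  have h1 := (π.domRestrict V).finrank_range_add_finrank_ker
  have h2 : LinearMap.range (π.domRestrict V) = V.map π := LinearMap.range_domRestrict V π
  rw [h2] at h1
  have h3 : hilb (Ideal.span {F}) k = Module.finrank ℂ (V.map π) := rfl
  rw [h3, ← h1]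
  congr 1
  -- multiplication by `F`
  have hmem : ∀ Q : homogeneousSubmodule (Fin 4) ℂ (k - d), F * Q.1 ∈ V := by
    intro Q
    have h := hF.mul Q.2
    rw [Nat.add_sub_cancel' hk] at h
    exact h
  let g : homogeneousSubmodule (Fin 4) ℂ (k - d) →ₗ[ℂ] LinearMap.ker (π.domRestrict V) :=
    { toFun := fun Q => ⟨⟨F * Q.1, hmem Q⟩, by
        rw [LinearMap.mem_ker]
        exact Ideal.Quotient.eq_zero_iff_mem.2
          (Ideal.mul_mem_right _ _ (Ideal.mem_span_singleton_self F))⟩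
      map_add' := fun Q Q' => by
        apply Subtype.ext
        apply Subtype.ext
        exact mul_add F Q.1 Q'.1
      map_smul' := fun c Q => by
        apply Subtype.ext
        apply Subtype.ext
        exact mul_smul_comm c F Q.1 }
  refine (LinearEquiv.ofBijective g ⟨?_, ?_⟩).finrank_eq
  · intro Q Q' h
    apply Subtype.ext
    have h4 : F * Q.1 = F * Q'.1 :=
      congrArg (fun z : LinearMap.ker (π.domRestrict V) => ((z : V) : Poly 3)) h
    exact mul_left_cancel₀ hF0 h4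
  · rintro ⟨⟨G, hG⟩, hGk⟩
    have h4 : G ∈ Ideal.span {F} := Ideal.Quotient.eq_zero_iff_mem.1 hGk
    obtain ⟨Q, hQ⟩ := Ideal.mem_span_singleton.1 h4
    rcases eq_or_ne G 0 with h0 | h0
    · refine ⟨0, ?_⟩
      rw [map_zero]
      apply Subtype.ext
      apply Subtype.ext
      exact h0.symm
    · have hne : F * Q ≠ 0 := hQ ▸ h0
      obtain ⟨a, b, ha, hb, hab⟩ := homogeneous_of_mul (hQ ▸ hG : (F * Q).IsHomogeneous k) hne
      have hda : a = d := ha.inj_right hF hF0
      refine ⟨⟨Q, ?_⟩, ?_⟩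
      · have : b = k - d := by omega
        rw [← this]
        exact hb
      · apply Subtype.ext
        apply Subtype.ext
        exact hQ.symm

/-- the degree of the surface `F = 0` is the degree of `F` -/
theorem surfDeg_span {d : ℕ} {F : Poly 3} (hF : F.IsHomogeneous d) (hF0 : F ≠ 0) :
    surfDeg (Ideal.span {F}) = d := by
  have h1 : ∀ k : ℕ, d ≤ k → 2 * (hilb (Ideal.span {F}) k : ℝ) =
      d * (k : ℝ) ^ 2 + (4 * d - d ^ 2) * k + (d ^ 3 - 6 * d ^ 2 + 11 * d) / 3 := by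
    intro k hk
    have h2 := hilb_span_add hF hF0 hk
    have h3 : ((hilb (Ideal.span {F}) k : ℕ) : ℝ) +
        (Module.finrank ℂ (homogeneousSubmodule (Fin 4) ℂ (k - d)) : ℕ) =
        (Module.finrank ℂ (homogeneousSubmodule (Fin 4) ℂ k) : ℕ) := by exact_mod_cast h2
    rw [finrank_forms4, finrank_forms4, Nat.cast_sub hk] at h3
    linear_combination 2 * h3
  have h2 : Tendsto (fun k : ℕ => (d : ℝ) + (4 * d - d ^ 2) / k +
      ((d ^ 3 - 6 * d ^ 2 + 11 * d) / 3) / (k : ℝ) ^ 2) atTop (𝓝 ((d : ℝ) + 0 + 0)) := by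
    refine (tendsto_const_nhds.add (tendsto_const_div_atTop_nhds_zero_nat _)).add ?_
    have h3 : Tendsto (fun k : ℕ => (k : ℝ) ^ 2) atTop atTop :=
      (tendsto_pow_atTop (by norm_num)).comp tendsto_natCast_atTop_atTop
    exact tendsto_const_nhds.div_atTop h3
  rw [add_zero, add_zero] at h2
  have h3 : ∀ᶠ k : ℕ in atTop, 2 * (hilb (Ideal.span {F}) k : ℝ≥0∞) / (k : ℝ≥0∞) ^ 2 =
      ENNReal.ofReal ((d : ℝ) + (4 * d - d ^ 2) / k +
      ((d ^ 3 - 6 * d ^ 2 + 11 * d) / 3) / (k : ℝ) ^ 2) := by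
    filter_upwards [eventually_ge_atTop (d + 1)] with k hk
    have e1 : 2 * (hilb (Ideal.span {F}) k : ℝ≥0∞) / (k : ℝ≥0∞) ^ 2 =
        ((2 * hilb (Ideal.span {F}) k : ℕ) : ℝ≥0∞) / ((k ^ 2 : ℕ) : ℝ≥0∞) := by push_cast; rfl
    rw [e1, cast_div_eq (Nat.one_le_pow _ _ (by omega))]
    congr 1
    push_cast
    rw [h1 k (by omega)]
    have hk' : (k : ℝ) ≠ 0 := by
      have : 0 < k := by omega
      positivity
    field_simp
  have h4 := (ENNReal.tendsto_ofReal h2).congr' (h3.mono fun k hk => hk.symm)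
  rw [ENNReal.ofReal_natCast] at h4
  exact h4.liminf_eq

end Pool.Agent.Lib.MP_ed661f_ag.S
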