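import Pool.Agent.Lib.MP_ed661f_ag.S.BaseOf
import Pool.Agent.Lib.MP_ed661f_ag.R.GenW3

/-!
Sections with one more base point (odd degrees): dimension, relations, base datum.
-/

set_option autoImplicit false

open MvPolynomial

namespace Pool.Agent.Lib.MP_ed661f_ag.S

open E R H

/-- the polynomials of order at least `k` at `p` -/
noncomputable def OrdS (k : ℕ) (p : Pt) : Submodule ℂ Pol where
  carrier := {F | Bz.Ord k (tay p F)}
  add_mem' := by
    intro F G h1 h2
    change Bz.Ord k (tay p (F + G))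
    rw [Bz.tay_add]
    exact Bz.Ord.add h1 h2
  zero_mem' := by
    intro e _
    simp [tay]
  smul_mem' := by
    intro r F h e he
    have h3 : tay p (r • F) = r • tay p F := by
      unfold tay
      rw [map_smul]
    rw [h3, coeff_smul, h e he, smul_zero]

/-- the sections of `m (L - β E_w)` -/
noncomputable def SecW (a b : ℕ) (c : Fin 5 → ℕ) (β : ℕ) (x x' : Fin 5 → Pt) (w : Pt) (m : ℕ) :
    Submodule ℂ Pol := Sec a b c x x' m ⊓ OrdS (m * β) w

variable {a b β : ℕ} {c : Fin 5 → ℕ} {x x' : Fin 5 → Pt} {w : Pt}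

theorem mem_SecW {m : ℕ} {F : Pol} : F ∈ SecW a b c β x x' w m ↔
    F ∈ Sec a b c x x' m ∧ Bz.Ord (m * β) (tay w F) := Iff.rfl

theorem SecW_mul {m k : ℕ} {F G : Pol} (hF : F ∈ SecW a b c β x x' w m)
    (hG : G ∈ SecW a b c β x x' w k) : F * G ∈ SecW a b c β x x' w (m + k) := by
  refine ⟨Sec_mul hF.1 hG.1, ?_⟩
  change Bz.Ord ((m + k) * β) (tay w (F * G))
  rw [add_mul, Bz.tay_mul]
  exact Bz.Ord.mul hF.2 hG.2

theorem SecW_one : (1 : Pol) ∈ SecW a b c β x x' w 0 := by
  refine ⟨Sec_one, ?_⟩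
  change Bz.Ord (0 * β) (tay w 1)
  rw [zero_mul]
  exact Bz.ord_zero _

theorem SecW_pow {m : ℕ} {F : Pol} (hF : F ∈ SecW a b c β x x' w m) (k : ℕ) :
    F ^ k ∈ SecW a b c β x x' w (k * m) := by
  induction k with
  | zero =>
    rw [pow_zero, zero_mul]
    exact SecW_one
  | succ k ih =>
    rw [pow_succ, add_mul, one_mul]
    exact SecW_mul ih hF

/-- the forms of degree `m` in sections of `L` are sections of `m L` -/
theorem aeval_mem_SecW {σ : Type} [Fintype σ] {f : σ → Pol}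
    (hf : ∀ i, f i ∈ SecW a b c β x x' w 1)
    {m : ℕ} {H : MvPolynomial σ ℂ} (hH : H.IsHomogeneous m) :
    aeval f H ∈ SecW a b c β x x' w m := by
  classical
  rw [H.as_sum, map_sum]
  refine Submodule.sum_mem _ fun e he => ?_
  have h1 : e.degree = m := by
    have := hH (mem_support_iff.1 he)
    rw [Finsupp.degree_eq_weight_one]
    exact this
  rw [aeval_monomial, ← Algebra.smul_def]
  refine Submodule.smul_mem _ _ ?_
  have h2 : ∀ s : Finset σ, (∏ i ∈ s, f i ^ e i) ∈ SecW a b c β x x' w (∑ i ∈ s, e i) := by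
    intro s
    induction s using Finset.induction_on with
    | empty => exact SecW_one
    | insert i s hi ih =>
      rw [Finset.prod_insert hi, Finset.sum_insert hi]
      refine SecW_mul ?_ ih
      have := SecW_pow (hf i) (e i)
      rwa [mul_one] at this
  have h3 := h2 Finset.univ
  rw [← Finsupp.degree_eq_sum, h1] at h3
  have h4 : (e.prod fun i k => f i ^ k) = ∏ i, f i ^ e i := by
    rw [Finsupp.prod_fintype]
    intro i
    rw [pow_zero]
  rw [h4]
  exact h3

/-- the inequality for the sections of `m (L - β E_w)` at generic points -/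
theorem SecW_nef {n k0 k1 k2 : ℕ} (hn : k0 ^ 2 + k1 ^ 2 + k2 ^ 2 = n) {y : Fin (n + 1) → Pt}
    (hz : Generic (Sum.elim x (Sum.elim x' y))) (hab : a + b = ∑ j, c j) {d : ℕ}
    (hd : d + β ^ 2 + 2 * ∑ j, c j ^ 2 = 2 * (a * b)) {m : ℕ} {F : Pol}
    (hF : F ∈ SecW a b c β x x' (y 0) m) (hF0 : F ≠ 0) {r : ℝ} (hr : 0 ≤ r) (hr2 : n * r ^ 2 ≤ d) :
    r * ∑ i : Fin n, (mlt (y i.succ) F : ℝ) ≤ m * d := by
  have hdR : (d : ℝ) + β ^ 2 + 2 * ∑ j, (c j : ℝ) ^ 2 = 2 * ((a : ℝ) * b) := by exact_mod_cast hd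
  have h1 := nef_genericW3 hn hz a b (fun j => (c j : ℝ)) r β (Nat.cast_nonneg _)
    (Nat.cast_nonneg _) hr (Nat.cast_nonneg _) (fun j => Nat.cast_nonneg _)
    (by exact_mod_cast hab) (by linarith) hF0
  obtain ⟨⟨h2, h3⟩, h0⟩ := hF
  rw [mem_Box] at h2
  have h4 : ∀ j, ((m * c j : ℕ) : ℝ) ≤ mlt (x j) F := fun j => by
    exact_mod_cast (le_mlt_iff hF0 _).2 (h3 j).1
  have h5 : ∀ j, ((m * c j : ℕ) : ℝ) ≤ mlt (x' j) F := fun j => by
    exact_mod_cast (le_mlt_iff hF0 _).2 (h3 j).2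
  have h4w : ((m * β : ℕ) : ℝ) ≤ mlt (y 0) F := by
    exact_mod_cast (le_mlt_iff hF0 _).2 h0
  push_cast at h4w
  have h6 : ∑ j, (c j : ℝ) * (m * c j + m * c j) ≤
      ∑ j, (c j : ℝ) * ((mlt (x j) F : ℝ) + mlt (x' j) F) := by
    refine Finset.sum_le_sum fun j _ => ?_
    have h4' := h4 j
    have h5' := h5 j
    push_cast at h4' h5'
    exact mul_le_mul_of_nonneg_left (add_le_add h4' h5') (Nat.cast_nonneg _)
  have h7 : ∑ j, (c j : ℝ) * (m * c j + m * c j) = 2 * m * ∑ j, (c j : ℝ) ^ 2 := by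
    rw [Finset.mul_sum]
    exact Finset.sum_congr rfl fun j _ => by ring
  have h8 : (F.degreeOf 1 : ℝ) ≤ m * b := by exact_mod_cast h2.2
  have h9 : (F.degreeOf 0 : ℝ) ≤ m * a := by exact_mod_cast h2.1
  have h10 : (a : ℝ) * F.degreeOf 1 ≤ a * (m * b) :=
    mul_le_mul_of_nonneg_left h8 (Nat.cast_nonneg _)
  have h11 : (b : ℝ) * F.degreeOf 0 ≤ b * (m * a) :=
    mul_le_mul_of_nonneg_left h9 (Nat.cast_nonneg _)
  have h12 : (β : ℝ) * (m * β) ≤ β * mlt (y 0) F :=
    mul_le_mul_of_nonneg_left h4w (Nat.cast_nonneg _)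
  have h13 : (m : ℝ) * (d + β ^ 2 + 2 * ∑ j, (c j : ℝ) ^ 2) = m * (2 * ((a : ℝ) * b)) := by rw [hdR]
  nlinarith

/-- the dimension of the space of the sections -/
theorem finrank_SecW {p : Pt}
    (hz : Generic (Sum.elim x (Sum.elim x' ![w, p]))) (hab : a + b = ∑ j, c j) {d : ℕ}
    (hd1 : 1 ≤ d) (hd : d + β ^ 2 + 2 * ∑ j, c j ^ 2 = 2 * (a * b)) : ∃ C : ℝ, ∀ m : ℕ,
      (Module.finrank ℂ (SecW a b c β x x' w m) : ℝ) ≤ (d / 2 : ℝ) * m ^ 2 + C * m + C := by
  have hdpos : (0 : ℝ) < d := by exact_mod_cast hd1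
  set r : ℝ := Real.sqrt d with hr
  have hr0 : 0 < r := Real.sqrt_pos.2 hdpos
  have hr2 : r ^ 2 = d := Real.sq_sqrt hdpos.le
  refine ⟨2 * r + 1, fun m => ?_⟩
  set k : ℕ := ⌊(m : ℝ) * r⌋₊ + 1 with hk
  have hk1 : (m : ℝ) * r < k := by
    rw [hk]
    push_cast
    exact Nat.lt_floor_add_one _
  have hk2 : (k : ℝ) ≤ m * r + 1 := by
    rw [hk]
    push_cast
    have := Nat.floor_le (a := (m : ℝ) * r) (by positivity)
    linarith
  -- the jets at the generic point
  let J : SecW a b c β x x' w m →ₗ[ℂ] ({e : Fin 2 →₀ ℕ // e ∈ Bz.S k k} → ℂ) :=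
    { toFun := fun F e => coeff e.1 (tay p F.1)
      map_add' := fun F G => by
        funext e
        simp [Bz.tay_add]
      map_smul' := fun s F => by
        funext e
        have h3 : tay p (s • F.1) = s • tay p F.1 := by
          unfold tay
          rw [map_smul]
        simp only [Submodule.coe_smul, h3, coeff_smul, Pi.smul_apply, RingHom.id_apply] }
  have hJ : Function.Injective J := by
    rw [← LinearMap.ker_eq_bot, LinearMap.ker_eq_bot']
    intro F hF
    by_contra hne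
    have hF0 : F.1 ≠ 0 := fun h => hne (Subtype.ext h)
    have h1 : k ≤ mlt p F.1 := by
      rw [le_mlt_iff hF0]
      intro e he
      have h2 : e ∈ Bz.S k k := by
        rw [Bz.mem_S]
        rw [Bz.degree_two'] at he
        exact ⟨he, by omega⟩
      exact congrFun hF ⟨e, h2⟩
    have h2 := SecW_nef (n := 1) (k0 := 1) (k1 := 0) (k2 := 0) (by norm_num) hz hab hd F.2 hF0
      hr0.le (by rw [hr2]; norm_num)
    have h3 : (k : ℝ) ≤ mlt p F.1 := by exact_mod_cast h1
    have h4 : r * (mlt p F.1 : ℝ) ≤ m * d := by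
      simpa using h2
    have h5 : r * (mlt p F.1 : ℝ) ≤ r * (m * r) := by
      have : r * (m * r) = m * d := by
        rw [← hr2]
        ring
      rw [this]
      exact h4
    have h6 := le_of_mul_le_mul_left h5 hr0
    linarith
  have h1 := LinearMap.finrank_le_finrank_of_injective hJ
  rw [Module.finrank_pi, Fintype.card_coe] at h1
  have h2 := Bz.card_S (le_refl k)
  have h3 : 2 * (Module.finrank ℂ (SecW a b c β x x' w m) : ℝ) ≤ k * (k + 1) := by
    have h4 : 2 * Module.finrank ℂ (SecW a b c β x x' w m) ≤ k * (k + 1) := by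
      have h5 : 2 * k + 1 - k = k + 1 := by omega
      rw [h5] at h2
      omega
    exact_mod_cast h4
  have hk0 : (0 : ℝ) ≤ k := Nat.cast_nonneg _
  have hm0 : (0 : ℝ) ≤ m := Nat.cast_nonneg _
  have h4 : (k : ℝ) * (k + 1) ≤ (m * r + 1) * (m * r + 2) :=
    mul_le_mul hk2 (by linarith) (by linarith) (by positivity)
  have h5 : ((m : ℝ) * r + 1) * (m * r + 2) = m ^ 2 * d + 3 * r * m + 2 := by
    rw [← hr2]
    ring
  have h7 : 0 ≤ r * m := by positivity
  nlinarith

/-- the tuple with more points -/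
private theorem generic_of_towerW {n : ℕ} {x x' : Fin 5 → Pt} {w : Pt} {y : Fin n → Pt}
    (hz : Generic (Sum.elim (Sum.elim x x') (fun _ : Fin 1 => w))) {K0 : Subfield ℂ}
    (hx : ∀ i k, x i k ∈ K0) (hx' : ∀ i k, x' i k ∈ K0) (hw : ∀ k, w k ∈ K0)
    (hy : AlgebraicIndependent K0 (fun q : Fin n × Fin 2 => y q.1 q.2)) :
    Generic (Sum.elim x (Sum.elim x' (Fin.cons w y : Fin (n + 1) → Pt))) := by
  have h1 : AlgebraicIndependent ℚ (Sum.elim (fun q : Fin n × Fin 2 => y q.1 q.2)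
      (fun q : ((Fin 5 ⊕ Fin 5) ⊕ Fin 1) × Fin 2 =>
        Sum.elim (Sum.elim x x') (fun _ : Fin 1 => w) q.1 q.2)) := by
    refine AlgebraicIndependent.sumElim_of_tower (S := K0) hz ?_ hy
    rintro _ ⟨⟨(i | i) | i, k⟩, rfl⟩
    · exact ⟨⟨_, hx i k⟩, rfl⟩
    · exact ⟨⟨_, hx' i k⟩, rfl⟩
    · exact ⟨⟨_, hw k⟩, rfl⟩
  let u : Fin (n + 1) → (Fin n ⊕ Fin 1) := Fin.cases (Sum.inr 0) Sum.inl
  have hu : Function.Injective u := by
    intro i j h
    induction i using Fin.cases with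
    | zero =>
      induction j using Fin.cases with
      | zero => rfl
      | succ j => simp [u] at h
    | succ i =>
      induction j using Fin.cases with
      | zero => simp [u] at h
      | succ j => simpa [u] using h
  let g : (Fin 5 ⊕ (Fin 5 ⊕ Fin (n + 1))) × Fin 2 →
      (Fin n × Fin 2) ⊕ (((Fin 5 ⊕ Fin 5) ⊕ Fin 1) × Fin 2) :=
    fun q => match q with
      | (Sum.inl i, k) => Sum.inr (Sum.inl (Sum.inl i), k)
      | (Sum.inr (Sum.inl i), k) => Sum.inr (Sum.inl (Sum.inr i), k)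
      | (Sum.inr (Sum.inr i), k) => (u i).elim (fun j => Sum.inl (j, k))
          (fun j => Sum.inr (Sum.inr j, k))
  have hg : Function.Injective g := by
    rintro ⟨i | i | i, k⟩ ⟨j | j | j, l⟩ h
    · simpa [g] using h
    · simp [g] at h
    · induction j using Fin.cases <;> simp [g, u] at h
    · simp [g] at h
    · simpa [g] using h
    · induction j using Fin.cases <;> simp [g, u] at h
    · induction i using Fin.cases <;> simp [g, u] at h
    · induction i using Fin.cases <;> simp [g, u] at h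
    · induction i using Fin.cases <;> induction j using Fin.cases <;> simp [g, u] at h ⊢ <;>
        exact h
  have h2 := h1.comp g hg
  unfold Generic
  convert h2 using 1
  funext q
  rcases q with ⟨i | i | i, k⟩
  · rfl
  · rfl
  · induction i using Fin.cases <;> rfl

/-- **the base datum in odd degrees** -/
theorem baseD_of_secW (hz : Generic (Sum.elim (Sum.elim x x') (fun _ : Fin 1 => w)))
    (hab : a + b = ∑ j, c j) {d : ℕ} (hd1 : 1 ≤ d)
    (hd : d + β ^ 2 + 2 * ∑ j, c j ^ 2 = 2 * (a * b)) {f : Fin 4 → Pol}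
    (hf : ∀ i, f i ∈ SecW a b c β x x' w 1)
    (h3 : ∀ (m : ℕ) (G : MvPolynomial (Fin 3) ℂ), G.IsHomogeneous m →
      aeval (fun i : Fin 3 => f i.castSucc) G = 0 → G = 0)
    (h4 : ∀ (m : ℕ) (H : Poly 3), m < d → H.IsHomogeneous m → aeval f H = 0 → H = 0)
    {n k0 k1 k2 : ℕ} (hn : k0 ^ 2 + k1 ^ 2 + k2 ^ 2 = n) : BaseD d n := by
  classical
  -- the kernel
  obtain ⟨p, hp⟩ := exists_extend hz
  have hz1 : Generic (Sum.elim x (Sum.elim x' ![w, p])) := by
    have h1 : Generic (Sum.elim (Sum.elim (Sum.elim x x') (fun _ : Fin 1 => w))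
      (fun _ : Fin 1 => p)) := hp
    let u : Fin 5 ⊕ (Fin 5 ⊕ Fin 2) → ((Fin 5 ⊕ Fin 5) ⊕ Fin 1) ⊕ Fin 1 := fun q => match q with
      | Sum.inl i => Sum.inl (Sum.inl (Sum.inl i))
      | Sum.inr (Sum.inl i) => Sum.inl (Sum.inl (Sum.inr i))
      | Sum.inr (Sum.inr i) => if i = 0 then Sum.inl (Sum.inr 0) else Sum.inr 0
    have hu : Function.Injective u := by
      rintro (i | i | i) (j | j | j) h
      · simpa [u] using h
      · simp [u] at h
      · fin_cases j <;> simp [u] at h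
      · simp [u] at h
      · simpa [u] using h
      · fin_cases j <;> simp [u] at h
      · fin_cases i <;> simp [u] at h
      · fin_cases i <;> simp [u] at h
      · fin_cases i <;> fin_cases j <;> simp [u] at h ⊢
    have h2 := h1.comp u hu
    convert h2 using 1
    funext q
    rcases q with i | i | i
    · rfl
    · rfl
    · fin_cases i <;> rfl
  obtain ⟨C, hC⟩ := finrank_SecW hz1 hab hd1 hd
  have hfin : ∀ m, Module.Finite ℂ (SecW a b c β x x' w m) := by
    intro m
    have h1 : SecW a b c β x x' w m ≤ Box (m * a) (m * b) := fun F hF => hF.1.1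
    exact Module.Finite.of_injective (Submodule.inclusion h1) (Submodule.inclusion_injective h1)
  have hdim : ∀ m : ℕ, (Module.finrank ℂ (LinearMap.range (sub4 (K := ℂ) f m)) : ℝ) ≤
      (d / 2 : ℝ) * m ^ 2 + C * m + C := by
    intro m
    refine le_trans ?_ (hC m)
    have h1 : LinearMap.range (sub4 (K := ℂ) f m) ≤ SecW a b c β x x' w m := by
      rintro _ ⟨H, rfl⟩
      exact aeval_mem_SecW hf H.2
    have := hfin m
    exact_mod_cast Submodule.finrank_mono h1
  obtain ⟨δ, F0, hirr, hF0, -, hδ, hker⟩ := exists_relation (K := ℂ) hdim h3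
  have hδd : δ = d := by
    refine le_antisymm (by
      have : (δ : ℝ) ≤ d := by linarith
      exact_mod_cast this) ?_
    by_contra hlt
    have h1 : aeval f F0 = 0 := (hker δ F0 hF0).2 dvd_rfl
    exact hirr.ne_zero (h4 δ F0 (not_le.1 hlt) hF0 h1)
  subst hδd
  set K0 : Subfield ℂ := Subfield.closure (((Set.range fun q : Fin 5 × Fin 2 => x q.1 q.2) ∪
    Set.range fun q : Fin 5 × Fin 2 => x' q.1 q.2) ∪ Set.range w) with hK0
  refine baseD_of_kernel (K0 := K0) (countable_closure (((Set.countable_range _).union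
    (Set.countable_range _)).union (Set.countable_range _))) hF0 hirr.ne_zero hker ?_
  intro y hy m v H hH hne hv
  have hg := generic_of_towerW hz (K0 := K0)
    (fun i k => Subfield.subset_closure (Or.inl (Or.inl ⟨(i, k), rfl⟩)))
    (fun i k => Subfield.subset_closure (Or.inl (Or.inr ⟨(i, k), rfl⟩)))
    (fun k => Subfield.subset_closure (Or.inr ⟨k, rfl⟩)) hy
  rcases Nat.eq_zero_or_pos n with rfl | hn1
  · simp
  set F : Pol := aeval f H with hF
  have hn0 : (0 : ℝ) < n := by exact_mod_cast hn1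
  have hd0 : (0 : ℝ) < δ := by exact_mod_cast hd1
  set r : ℝ := Real.sqrt (δ / n) with hr
  have hr0 : 0 < r := Real.sqrt_pos.2 (div_pos hd0 hn0)
  have hr2 : r ^ 2 = δ / n := Real.sq_sqrt (div_pos hd0 hn0).le
  have h1 := SecW_nef hn hg hab hd (aeval_mem_SecW hf hH) hne hr0.le (by
    rw [hr2, mul_div_cancel₀ _ hn0.ne'])
  simp only [Fin.cons_succ] at h1
  have h15 : (n : ℝ) * v ≤ ∑ i, (mlt (y i) F : ℝ) := by
    have : ∑ _i : Fin n, (v : ℝ) ≤ ∑ i, (mlt (y i) F : ℝ) :=
      Finset.sum_le_sum fun i _ => by exact_mod_cast hv i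
    simpa using this
  have h16 : r * (n * v) ≤ m * δ := (mul_le_mul_of_nonneg_left h15 hr0.le).trans h1
  have h19 : (n : ℝ) * v ^ 2 ≤ δ * m ^ 2 := by
    have h20 : (r * (n * v)) ^ 2 ≤ (m * δ) ^ 2 :=
      pow_le_pow_left₀ (by positivity) h16 2
    have h21 : (r * (n * v)) ^ 2 = δ * (n * v ^ 2) := by
      rw [mul_pow, hr2]
      field_simp
    rw [h21] at h20
    have h22 : ((m : ℝ) * δ) ^ 2 = δ * (δ * m ^ 2) := by ring
    rw [h22] at h20
    exact le_of_mul_le_mul_left h20 hd0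
  exact_mod_cast h19

end Pool.Agent.Lib.MP_ed661f_ag.S
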