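import Pool.Agent.Lib.MP_ed661f_ag.S.Lim

/-!
Primitive vectors and primitive polynomials with respect to a place.
-/

set_option autoImplicit false

open MvPolynomial

namespace Pool.Agent.Lib.MP_ed661f_ag.S

open H

variable {N : ℕ} (p : Place)

theorem exists_dvd_all (B : ValuationSubring ℂ) {α : Type*} (s : Finset α) (hs : s.Nonempty)
    (f : α → ℂ) (hf : ∀ a ∈ s, f a ≠ 0) : ∃ a ∈ s, ∀ b ∈ s, (f a)⁻¹ * f b ∈ B := by
  obtain ⟨a, ha, hmax⟩ := Finset.exists_max_image s (fun a => B.valuation (f a)) hs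
  refine ⟨a, ha, fun b hb => ?_⟩
  rw [mul_comm, ← B.valuation_le_one_iff, map_mul, map_inv₀]
  have h1 : B.valuation (f a) ≠ 0 := (map_ne_zero _).2 (hf a ha)
  calc B.valuation (f b) * (B.valuation (f a))⁻¹
      ≤ B.valuation (f a) * (B.valuation (f a))⁻¹ := mul_le_mul_left (hmax b hb) _
    _ = 1 := mul_inv_cancel₀ h1

/-- a nonzero vector is proportional to a primitive one -/
theorem exists_prim_vec {ι : Type*} [Finite ι] {v : ι → ℂ} (hv : v ≠ 0) :
    ∃ (c : ℂ) (w : ι → p.B), c ≠ 0 ∧ (∀ i, (w i : ℂ) = c * v i) ∧ ∃ i, p.ρ (w i) ≠ 0 := by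
  classical
  have := Fintype.ofFinite ι
  have hs : (Finset.univ.filter fun i => v i ≠ 0).Nonempty := by
    obtain ⟨i, hi⟩ := Function.ne_iff.1 hv
    exact ⟨i, by simpa using hi⟩
  obtain ⟨a, ha, hd⟩ := exists_dvd_all p.B _ hs v fun a ha => (Finset.mem_filter.1 ha).2
  have ha0 : v a ≠ 0 := (Finset.mem_filter.1 ha).2
  have hall : ∀ i, (v a)⁻¹ * v i ∈ p.B := by
    intro i
    by_cases hi : v i = 0
    · rw [hi, mul_zero]
      exact zero_mem _
    · exact hd i (by simpa using hi)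
  refine ⟨(v a)⁻¹, fun i => ⟨_, hall i⟩, inv_ne_zero ha0, fun i => rfl, a, ?_⟩
  have h1 : (⟨(v a)⁻¹ * v a, hall a⟩ : p.B) = 1 := Subtype.ext (inv_mul_cancel₀ ha0)
  change p.ρ ⟨(v a)⁻¹ * v a, hall a⟩ ≠ 0
  rw [h1, map_one]
  exact one_ne_zero

/-- a nonzero polynomial is proportional to a primitive one -/
theorem exists_prim {G : Poly N} (hG : G ≠ 0) :
    ∃ (c : ℂ) (G' : MvPolynomial (Fin (N + 1)) p.B), c ≠ 0 ∧ p.emb G' = C c * G ∧
      p.red G' ≠ 0 := by
  obtain ⟨a, ha, hd⟩ := exists_dvd_all p.B G.support (support_nonempty.2 hG)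
    (fun d => G.coeff d) fun a ha => mem_support_iff.1 ha
  have ha0 : G.coeff a ≠ 0 := mem_support_iff.1 ha
  have hall : ∀ d, (C (G.coeff a)⁻¹ * G).coeff d ∈ p.B := by
    intro d
    rw [coeff_C_mul]
    by_cases h : d ∈ G.support
    · exact hd d h
    · rw [notMem_support_iff.1 h, mul_zero]
      exact zero_mem _
  obtain ⟨G', hG'⟩ := exists_lift p hall
  refine ⟨(G.coeff a)⁻¹, G', inv_ne_zero ha0, hG', ?_⟩
  intro h0
  have h1 : G'.coeff a = 1 := by
    apply Subtype.ext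
    have h2 := congrArg (coeff a) hG'
    rw [Place.emb, coeff_map, coeff_C_mul, inv_mul_cancel₀ ha0] at h2
    exact h2
  have h3 := congrArg (coeff a) h0
  rw [Place.red, coeff_map, h1, map_one, coeff_zero] at h3
  exact one_ne_zero h3

theorem emb_injective : Function.Injective (p.emb (N := N)) :=
  MvPolynomial.map_injective _ Subtype.val_injective

theorem emb_C (a : p.B) : p.emb (C a : MvPolynomial (Fin (N + 1)) p.B) = C (a : ℂ) := by
  rw [Place.emb, map_C]
  rfl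

theorem red_C (a : p.B) : p.red (C a : MvPolynomial (Fin (N + 1)) p.B) = C (p.ρ a) := by
  rw [Place.red, map_C]

/-- forms are reduced to forms -/
theorem red_homogeneous {G : MvPolynomial (Fin (N + 1)) p.B} {m : ℕ}
    (h : (p.emb G).IsHomogeneous m) : (p.red G).IsHomogeneous m := by
  intro d hd
  refine h (d := d) fun h0 => hd ?_
  rw [Place.emb, coeff_map] at h0
  have h1 : G.coeff d = 0 := Subtype.ext h0
  rw [Place.red, coeff_map, h1, map_zero]

/-- the lemma of Gauss for the factors of a polynomial with a nonzero reduction -/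
theorem red_of_mul {F : MvPolynomial (Fin (N + 1)) p.B} {G H : Poly N} (hF : p.emb F = G * H)
    (hF0 : p.red F ≠ 0) : ∃ (G' H' : MvPolynomial (Fin (N + 1)) p.B) (c c' : ℂ), c ≠ 0 ∧ c' ≠ 0 ∧
      p.emb G' = C c * G ∧ p.emb H' = C c' * H ∧ p.red F = p.red G' * p.red H' := by
  have hFne : F ≠ 0 := by
    rintro rfl
    exact hF0 (map_zero _)
  have hGH : G * H ≠ 0 := by
    rw [← hF]
    intro h
    exact hFne (emb_injective p (h.trans (map_zero _).symm))
  obtain ⟨c, G', hc, hG', hG0⟩ := exists_prim p (left_ne_zero_of_mul hGH)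
  obtain ⟨c', H', hc', hH', hH0⟩ := exists_prim p (right_ne_zero_of_mul hGH)
  -- the product `c c'` is a unit
  have h1 : p.emb (G' * H') = C (c * c') * p.emb F := by
    rw [map_mul, hG', hH', hF, C_mul]
    ring
  obtain ⟨d, hd⟩ : ∃ d, coeff d (p.red F) ≠ 0 := by
    by_contra hcon
    push Not at hcon
    exact hF0 (MvPolynomial.ext _ _ fun d => by rw [hcon d, coeff_zero])
  rw [Place.red, coeff_map] at hd
  have hu := p.inv_mem hd
  have hfd : ((F.coeff d : p.B) : ℂ) ≠ 0 := by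
    intro h
    apply hd
    have : F.coeff d = 0 := Subtype.ext h
    rw [this, map_zero]
  have hcc : c * c' ∈ p.B := by
    have h2 := congrArg (coeff d) h1
    rw [Place.emb, coeff_map, coeff_C_mul, coeff_map] at h2
    have h3 : c * c' = ((G' * H').coeff d : p.B) * ((F.coeff d : p.B) : ℂ)⁻¹ := by
      have h4 : (((G' * H').coeff d : p.B) : ℂ) = c * c' * ((F.coeff d : p.B) : ℂ) := h2
      rw [h4, mul_assoc, mul_inv_cancel₀ hfd, mul_one]
    rw [h3]
    exact mul_mem ((G' * H').coeff d).2 hu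
  have h2 : G' * H' = C ⟨c * c', hcc⟩ * F := by
    apply emb_injective p
    rw [h1]
    conv_rhs => rw [map_mul, emb_C]
  have h3 : p.red G' * p.red H' = C (p.ρ ⟨c * c', hcc⟩) * p.red F := by
    rw [← map_mul, h2, map_mul, red_C]
  have h4 : p.ρ ⟨c * c', hcc⟩ ≠ 0 := by
    intro h
    rw [h, C_0, zero_mul] at h3
    exact mul_ne_zero hG0 hH0 h3
  have h5 := p.inv_mem h4
  -- divide the second factor by `c c'`
  refine ⟨G', C ⟨(c * c')⁻¹, h5⟩ * H', c, (c * c')⁻¹ * c', hc, ?_, hG', ?_, ?_⟩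
  · exact mul_ne_zero (inv_ne_zero (mul_ne_zero hc hc')) hc'
  · rw [map_mul, hH', C_mul, mul_assoc, emb_C]
  · have h6 : (⟨(c * c')⁻¹, h5⟩ : p.B) * ⟨c * c', hcc⟩ = 1 :=
      Subtype.ext (inv_mul_cancel₀ (mul_ne_zero hc hc'))
    have h7 : p.ρ ⟨(c * c')⁻¹, h5⟩ * p.ρ ⟨c * c', hcc⟩ = 1 := by
      rw [← map_mul, h6, map_one]
    rw [map_mul, red_C]
    calc p.red F = C (p.ρ ⟨(c * c')⁻¹, h5⟩ * p.ρ ⟨c * c', hcc⟩) * p.red F := by
          rw [h7, C_1, one_mul]
      _ = C (p.ρ ⟨(c * c')⁻¹, h5⟩) * (C (p.ρ ⟨c * c', hcc⟩) * p.red F) := by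
          rw [C_mul, mul_assoc]
      _ = C (p.ρ ⟨(c * c')⁻¹, h5⟩) * (p.red G' * p.red H') := by rw [h3]
      _ = p.red G' * (C (p.ρ ⟨(c * c')⁻¹, h5⟩) * p.red H') := by ring

end Pool.Agent.Lib.MP_ed661f_ag.S
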