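import Pool.Agent.Lib.MP_ed661f_ag.S.VDefs
import Pool.Agent.Lib.MP_ed661f_ag.S.Prim
import Pool.Agent.Lib.MP_ed661f_ag.S.Multi
import Pool.Agent.Lib.MP_ed661f_ag.S.KernAlg
import Pool.Agent.Lib.MP_ed661f_ag.H.Scale

/-!
Very general forms in four variables: smooth and irreducible.
-/

set_option autoImplicit false

open MvPolynomial

namespace Pool.Agent.Lib.MP_ed661f_ag.S

open H

/-- the prime field as a subfield -/
noncomputable def Q0 : Subfield ℂ := (algebraMap ℚ ℂ).fieldRange

theorem algInd_Q0 {ι : Type*} {a : ι → ℂ} (ha : AlgebraicIndependent ℚ a) :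
    AlgebraicIndependent Q0 a := by
  rw [algebraicIndependent_iff]
  intro q hq
  -- the rational numbers are isomorphic to the prime field
  let e : ℚ →+* Q0 := (algebraMap ℚ ℂ).rangeRestrictField
  have he : Function.Bijective e := (algebraMap ℚ ℂ).rangeRestrictField_bijective
  obtain ⟨q', rfl⟩ := MvPolynomial.map_surjective e he.2 q
  have h1 : aeval a q' = 0 := by
    rw [← hq, aeval_def, aeval_def, eval₂_map]
    rfl
  have h2 := (algebraicIndependent_iff.1 ha) q' h1
  rw [h2, map_zero]

/-- specialisation of a very general form to a given form with coefficients in the subfield -/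
theorem exists_spec (K₀ : Subfield ℂ) {d : ℕ} {F F₁ : Poly 3} (hF : F.IsHomogeneous d)
    (ha : AlgebraicIndependent K₀ fun e : {e : Fin 4 →₀ ℕ // e.degree = d} => coeff e.1 F)
    (hF₁ : F₁.IsHomogeneous d) (h1 : ∀ e, coeff e F₁ ∈ K₀) :
    ∃ (p : Place) (F' : MvPolynomial (Fin 4) p.B), K₀ ≤ p.K ∧ p.emb F' = F ∧ p.red F' = F₁ := by
  obtain ⟨p, hp, h2⟩ := exists_place_multi K₀ ha (a0 := fun e => coeff e.1 F₁) fun e => h1 e.1
  have h3 : ∀ e, coeff e F ∈ p.B := by
    intro e
    by_cases he : e.degree = d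
    · obtain ⟨h, -⟩ := h2 ⟨e, he⟩
      exact h
    · rw [hF.coeff_eq_zero he]
      exact zero_mem _
  obtain ⟨F', hF'⟩ := exists_lift p h3
  refine ⟨p, F', hp, hF', ?_⟩
  ext e
  have h4 : ((coeff e F' : p.B) : ℂ) = coeff e F := by
    rw [← hF', Place.emb, coeff_map]
    rfl
  rw [Place.red, coeff_map]
  by_cases he : e.degree = d
  · obtain ⟨h, h5⟩ := h2 ⟨e, he⟩
    have h6 : coeff e F' = ⟨coeff e F, h⟩ := Subtype.ext h4
    rw [h6]
    exact h5
  · have h6 : coeff e F' = 0 := by
      apply Subtype.ext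
      rw [h4, hF.coeff_eq_zero he]
      rfl
    rw [h6, map_zero, hF₁.coeff_eq_zero he]

/-- the form of Fermat -/
noncomputable def fermat (d : ℕ) : Poly 3 := ∑ i, X i ^ d

theorem fermat_homogeneous (d : ℕ) : (fermat d).IsHomogeneous d := by
  unfold fermat
  refine IsHomogeneous.sum _ _ _ fun i _ => ?_
  have := (isHomogeneous_X ℂ i).pow d
  rwa [one_mul] at this

theorem coeff_fermat (d : ℕ) (e : Fin 4 →₀ ℕ) : coeff e (fermat d) ∈ Q0 := by
  unfold fermat
  rw [coeff_sum]
  refine sum_mem fun i _ => ?_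
  rw [coeff_X_pow]
  split_ifs
  · exact one_mem _
  · exact zero_mem _

theorem eval_emb (p : Place) (G : MvPolynomial (Fin 4) p.B) (w : Fin 4 → p.B) :
    eval (fun i => (w i : ℂ)) (p.emb G) = ((eval w G : p.B) : ℂ) := by
  rw [Place.emb, eval_map]
  have h := eval₂_comp_left p.B.subtype (RingHom.id p.B) w G
  rw [RingHom.comp_id] at h
  exact h.symm

theorem eval_red (p : Place) (G : MvPolynomial (Fin 4) p.B) (w : Fin 4 → p.B) :
    eval (fun i => p.ρ (w i)) (p.red G) = p.ρ (eval w G) := by
  rw [Place.red, eval_map]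
  have h := eval₂_comp_left p.ρ (RingHom.id p.B) w G
  rw [RingHom.comp_id] at h
  exact h.symm

theorem eval_smul_form {m : ℕ} {G : Poly 3} (hG : G.IsHomogeneous m) (c : ℂ) (v : Fin 4 → ℂ) :
    eval (c • v) G = c ^ m * eval v G := by
  rw [← eval_scaleHom, scaleHom_homogeneous c hG, smul_eval]

/-- **very general forms are smooth** -/
theorem smooth_of_veryGeneral {d : ℕ} (hd : 1 ≤ d) {F : Poly 3} (hF : VeryGeneral d F) :
    IsSmooth F := by
  intro v hv _
  by_contra hcon
  push Not at hcon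
  obtain ⟨p, F', -, hF', hred⟩ := exists_spec Q0 hF.1 (algInd_Q0 hF.2) (fermat_homogeneous d)
    (coeff_fermat d)
  obtain ⟨c, w, hc, hw, j, hj⟩ := exists_prim_vec p hv
  -- the partial derivative at the scaled point
  have h1 : eval w (pderiv j F') = 0 := by
    apply Subtype.ext
    rw [← eval_emb]
    have h2 : p.emb (pderiv j F') = pderiv j F := by
      rw [← hF']
      unfold Place.emb
      exact pderiv_map.symm
    have h3 : (fun i => (w i : ℂ)) = c • v := by
      funext i
      rw [hw, Pi.smul_apply, smul_eq_mul]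
    rw [h2, h3, eval_smul_form hF.1.pderiv, hcon j, mul_zero]
    rfl
  have h6 := eval_red p (pderiv j F') w
  rw [h1, map_zero] at h6
  have h7 : p.red (pderiv j F') = pderiv j (fermat d) := by
    rw [← hred]
    unfold Place.red
    exact pderiv_map.symm
  rw [h7] at h6
  have h8 : eval (fun i => p.ρ (w i)) (pderiv j (fermat d)) = d * p.ρ (w j) ^ (d - 1) := by
    unfold fermat
    rw [map_sum, Finset.sum_eq_single j]
    · rw [pderiv_pow, pderiv_X_self, mul_one, map_mul, map_pow, eval_X, map_natCast]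
    · intro i _ hi
      rw [pderiv_pow, pderiv_X_of_ne hi, mul_zero]
    · intro h
      exact absurd (Finset.mem_univ j) h
  rw [h8] at h6
  have h9 : (d : ℂ) ≠ 0 := by exact_mod_cast (by omega : d ≠ 0)
  exact mul_ne_zero h9 (pow_ne_zero _ hj) h6

/-- an irreducible form with coefficients `0` and `1` -/
noncomputable def tform (d : ℕ) : Poly 3 := X 0 * X 1 ^ (d - 1) + X 2 ^ d

theorem tform_homogeneous {d : ℕ} (hd : 1 ≤ d) : (tform d).IsHomogeneous d := by
  unfold tform
  refine IsHomogeneous.add ?_ ?_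
  · have h := (isHomogeneous_X ℂ (0 : Fin 4)).mul ((isHomogeneous_X ℂ (1 : Fin 4)).pow (d - 1))
    have e : 1 + 1 * (d - 1) = d := by omega
    rwa [e] at h
  · have := (isHomogeneous_X ℂ (2 : Fin 4)).pow d
    rwa [one_mul] at this

theorem coeff_tform (d : ℕ) (e : Fin 4 →₀ ℕ) : coeff e (tform d) ∈ Q0 := by
  unfold tform
  rw [coeff_add, coeff_X_pow, coeff_X_mul']
  refine add_mem ?_ ?_
  · split_ifs
    · rw [coeff_X_pow]
      split_ifs
      · exact one_mem _
      · exact zero_mem _
    · exact zero_mem _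
  · split_ifs
    · exact one_mem _
    · exact zero_mem _

end Pool.Agent.Lib.MP_ed661f_ag.S
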