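import Pool.Agent.Lib.MP_ed661f_ag.S.Iface
import Pool.Agent.Lib.MP_ed661f_ag.S.VG
import Pool.Agent.Lib.MP_ed661f_ag.S.Aut
import Pool.Agent.Lib.MP_ed661f_ag.H.FormsDim

/-!
The forms inequality for one very general form implies the forms inequality for every very
general form: transport by a field automorphism of `ℂ`.
-/

set_option autoImplicit false

open MvPolynomial

namespace Pool.Agent.Lib.MP_ed661f_ag.S

open H

instance finite_expo (d : ℕ) : Finite {e : Fin 4 →₀ ℕ // e.degree = d} := by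
  have h : {e : Fin 4 →₀ ℕ | e.degree = d} =
      ((Finset.univ : Finset (Fin 4)).finsuppAntidiag d : Set (Fin 4 →₀ ℕ)) := by
    ext e
    rw [Finset.mem_coe, mem_antidiag_univ]
    rfl
  have h1 : {e : Fin 4 →₀ ℕ | e.degree = d}.Finite := by
    rw [h]
    exact Finset.finite_toSet _
  exact h1.to_subtype

theorem eval_map_equiv (φ : ℂ ≃+* ℂ) (v : Fin 4 → ℂ) (G : Poly 3) :
    eval (fun i => φ (v i)) (map (φ : ℂ →+* ℂ) G) = φ (eval v G) := by
  rw [eval_map]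
  have h := eval₂_comp_left (φ : ℂ →+* ℂ) (RingHom.id ℂ) v G
  rw [RingHom.comp_id] at h
  exact h.symm

theorem eval_map_symm (φ : ℂ ≃+* ℂ) (v : Fin 4 → ℂ) (G : Poly 3) :
    eval v (map (φ.symm : ℂ →+* ℂ) G) = φ.symm (eval (fun i => φ (v i)) G) := by
  have h := eval_map_equiv φ.symm (fun i => φ (v i)) G
  simp only [RingEquiv.symm_apply_apply] at h
  exact h

theorem map_map_symm (φ : ℂ ≃+* ℂ) (G : Poly 3) :
    map (φ.symm : ℂ →+* ℂ) (map (φ : ℂ →+* ℂ) G) = G := by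
  rw [map_map, RingEquiv.symm_comp, map_id]

theorem map_symm_map (φ : ℂ ≃+* ℂ) (G : Poly 3) :
    map (φ : ℂ →+* ℂ) (map (φ.symm : ℂ →+* ℂ) G) = G := by
  rw [map_map, RingEquiv.comp_symm, map_id]

theorem mem_map_symm (φ : ℂ ≃+* ℂ) {F G : Poly 3} {v : Fin 4 → ℂ} {w : ℕ}
    (h : G ∈ Ideal.span {map (φ : ℂ →+* ℂ) F} ⊔ vecIdeal (fun i => φ (v i)) ^ w ⊔
      Ideal.span {X 0 - 1}) :
    map (φ.symm : ℂ →+* ℂ) G ∈ Ideal.span {F} ⊔ vecIdeal v ^ w ⊔ Ideal.span {X 0 - 1} := by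
  set σ : Poly 3 →+* Poly 3 := map (φ.symm : ℂ →+* ℂ) with hσ
  have h1 := Ideal.mem_map_of_mem σ h
  refine (?_ : Ideal.map σ _ ≤ _) h1
  rw [Ideal.map_sup, Ideal.map_sup, Ideal.map_pow, Ideal.map_span, Ideal.map_span,
    Set.image_singleton, Set.image_singleton]
  have e1 : σ (map (φ : ℂ →+* ℂ) F) = F := map_map_symm φ F
  have e2 : σ (X 0 - 1) = X 0 - 1 := by
    rw [map_sub, hσ, map_X, map_one]
  rw [e1, e2]
  refine sup_le_sup_right (sup_le_sup_left (Ideal.pow_right_mono ?_ w) _) _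
  rw [Ideal.map_le_iff_le_comap]
  intro H hH
  rw [Ideal.mem_comap]
  change eval v (σ H) = 0
  rw [hσ, eval_map_symm]
  have h2 : eval (fun i => φ (v i)) H = 0 := hH
  rw [h2, map_zero]

theorem FI.map (φ : ℂ ≃+* ℂ) {d n : ℕ} {F : Poly 3} {v : Fin n → Fin 4 → ℂ} (h : FI d F v) :
    FI d (map (φ : ℂ →+* ℂ) F) (fun i j => φ (v i j)) := by
  intro m w G hG hmem hlt
  have h1 := h m w (MvPolynomial.map (φ.symm : ℂ →+* ℂ) G) (hG.map _)
    (fun i => mem_map_symm φ (hmem i)) hlt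
  have h2 := map_dvd (MvPolynomial.map (φ : ℂ →+* ℂ)) h1
  rwa [map_symm_map] at h2

/-- **transport of the forms inequality to every very general form** -/
theorem exists_points {d n : ℕ} {F0 F : Poly 3} (h0 : VeryGeneral d F0) (h : VeryGeneral d F)
    {v : Fin n → Fin 4 → ℂ} (hinj : Function.Injective v) (h1 : ∀ i, v i 0 = 1)
    (h2 : ∀ i, eval (v i) F0 = 0) (h3 : ∀ i, eval (v i) (pderiv 3 F0) ≠ 0) (hFI : FI d F0 v) :
    ∃ v' : Fin n → Fin 4 → ℂ, Function.Injective v' ∧ (∀ i, v' i 0 = 1) ∧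
      (∀ i, eval (v' i) F = 0) ∧ (∀ i, eval (v' i) (pderiv 3 F) ≠ 0) ∧ FI d F v' := by
  obtain ⟨φ, hφ⟩ := exists_aut h0.2 h.2
  have hF : map (φ : ℂ →+* ℂ) F0 = F := by
    ext e
    rw [coeff_map]
    by_cases he : e.degree = d
    · exact hφ ⟨e, he⟩
    · rw [h0.1.coeff_eq_zero he, h.1.coeff_eq_zero he, map_zero]
  refine ⟨fun i j => φ (v i j), ?_, ?_, ?_, ?_, ?_⟩
  · intro i i' hii
    apply hinj
    funext j
    exact φ.injective (congrFun hii j)
  · intro i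
    change φ (v i 0) = 1
    rw [h1, map_one]
  · intro i
    rw [← hF, eval_map_equiv, h2, map_zero]
  · intro i
    rw [← hF, pderiv_map, eval_map_equiv]
    intro hz
    exact h3 i ((map_eq_zero_iff φ φ.injective).1 hz)
  · rw [← hF]
    exact hFI.map φ

end Pool.Agent.Lib.MP_ed661f_ag.S
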