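import Pool.Agent.Lib.MP_ed661f_ag.S.Lower
import Pool.Agent.Lib.MP_ed661f_ag.S.SDeg
import Pool.Agent.Lib.MP_ed661f_ag.S.Transport
import Pool.Agent.Lib.MP_ed661f_ag.S.BaseOf
import Pool.Agent.Lib.MP_ed661f_ag.S.FormsIneq
import Pool.Agent.Lib.MP_ed661f_ag.S.Up.Upper
import Pool.Agent.Lib.MP_ed661f_ag.S.Fam.Fin
import Pool.Agent.Lib.MP_ed661f_ag.S.Fam.FinW
import Pool.Agent.Lib.MP_ed661f_ag.S.SecW
import Pool.Agent.Lib.MP_ed661f_ag.T.Curves

/-!
The multipoint Seshadri constants of very general surfaces in the projective space of dimension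
three.
-/

set_option autoImplicit false

open MvPolynomial Filter
open scoped ENNReal

namespace Pool.Agent.Lib.MP_ed661f_ag.S

open H R E

/-- the conclusion of `FormsIneq` -/
def FormsOut (d n : ℕ) : Prop :=
  ∃ (F : Poly 3) (v : Fin n → Fin 4 → ℂ), VeryGeneral d F ∧ Function.Injective v ∧
    (∀ i, v i 0 = 1) ∧ (∀ i, eval (v i) F = 0) ∧ (∀ i, eval (v i) (pderiv 3 F) ≠ 0) ∧ FI d F v

/-- the conclusion of `curves_of_forms` -/
def CurvesOf (d n : ℕ) : Prop :=
  ∀ (F : Poly 3) (v : Fin n → Fin 4 → ℂ), F.IsHomogeneous d → Irreducible F →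
    coeff (Finsupp.single 3 d) F ≠ 0 → (∀ i, v i 0 = 1) → (∀ i, eval (v i) F = 0) →
    (∀ i, eval (v i) (pderiv 3 F) ≠ 0) → FI d F v →
    ∀ P, IsCurveOn (Ideal.span {F}) P → (d : ℝ≥0∞) * (∑ i, mult P (v i)) ^ 2 ≤ n * (deg P) ^ 2

/-- **the equality for every very general form** -/
theorem eps_eq {d n : ℕ} (hd : 1 ≤ d) (hn : 1 ≤ n) (h1 : FormsOut d n) (h2 : CurvesOf d n)
    {F : Poly 3} (hF : VeryGeneral d F) :
    eps (Ideal.span {F}) n = ENNReal.ofReal (Real.sqrt ((d : ℝ) / n)) := by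
  have hirr := irreducible_of_veryGeneral hd hF
  apply le_antisymm
  · exact Up.eps_le hn hF.1 hirr
  · obtain ⟨F0, v0, hF0, a1, a2, a3, a4, a5⟩ := h1
    obtain ⟨v, b1, b2, b3, b4, b5⟩ := exists_points hF0 hF a1 a2 a3 a4 a5
    exact le_eps_of_curves hn hF.1 b1 b2 b3
      (h2 F v hF.1 hirr (coeff_last_ne_zero hF) b2 b3 b4 b5)

/-- the inequality for all curves from the inequality for all forms -/
theorem curvesOf (d : ℕ) {n : ℕ} (hn : 1 ≤ n) : CurvesOf d n := by
  intro F v hF hirr hm h0 hv hs hFI P hP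
  have hn0 : (0 : ℝ) < n := by exact_mod_cast hn
  have hr2 : Real.sqrt ((d : ℝ) / n) ^ 2 = d / n := Real.sq_sqrt (by positivity)
  have h1 := T.curves_of_forms (n := n) hF hirr hm h0 hv hs
    (ρ := fun _ => Real.sqrt ((d : ℝ) / n)) (fun _ => Real.sqrt_nonneg _)
    (by
      rw [Finset.sum_const, Finset.card_univ, Fintype.card_fin, hr2, nsmul_eq_mul]
      field_simp)
    (fun m w G hG hw hGK => by
      rcases Nat.eq_zero_or_pos n with h | h
      · omega
      · -- the smallest order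
        obtain ⟨i0, -, hi0⟩ := Finset.exists_min_image (Finset.univ : Finset (Fin n)) w
          ⟨⟨0, h⟩, Finset.mem_univ _⟩
        refine hFI m (w i0) G hG (fun i => ?_) ?_
        · have h2 : vecIdeal (v i) ^ w i ≤ vecIdeal (v i) ^ w i0 :=
            Ideal.pow_le_pow_right (hi0 i (Finset.mem_univ i))
          exact sup_le_sup_right (sup_le_sup_left h2 _) _ (hGK i)
        · have h3 := hw i0
          have h4 : (0 : ℝ) ≤ Real.sqrt ((d : ℝ) / n) * m := by positivity
          have h5 : (Real.sqrt ((d : ℝ) / n) * m) ^ 2 < (w i0 : ℝ) ^ 2 :=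
            pow_lt_pow_left₀ h3 h4 two_ne_zero
          rw [mul_pow, hr2, div_mul_eq_mul_div, div_lt_iff₀ hn0] at h5
          have h6 : ((d * m ^ 2 : ℕ) : ℝ) < ((n * w i0 ^ 2 : ℕ) : ℝ) := by
            push_cast
            linarith
          exact_mod_cast h6) hP
  rw [← Finset.mul_sum] at h1
  have h2 := pow_le_pow_left₀ zero_le h1 2
  rw [mul_pow, ← ENNReal.ofReal_pow (Real.sqrt_nonneg _), hr2,
    ENNReal.ofReal_div_of_pos hn0, ENNReal.ofReal_natCast, ENNReal.ofReal_natCast] at h2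
  have hn1 : (n : ℝ≥0∞) ≠ 0 := by
    have : n ≠ 0 := by omega
    exact_mod_cast this
  have hn2 : (n : ℝ≥0∞) ≠ ⊤ := ENNReal.natCast_ne_top n
  calc (d : ℝ≥0∞) * (∑ i, mult P (v i)) ^ 2
      = n * ((d : ℝ≥0∞) / n * (∑ i, mult P (v i)) ^ 2) := by
        rw [← mul_assoc, ENNReal.mul_div_cancel hn1 hn2]
    _ ≤ n * (deg P) ^ 2 := by gcongr

/-- points of the plane with algebraically independent coordinates -/
theorem exists_generic : ∀ n : ℕ, ∃ z : Fin n → Pt, Generic z := by
  intro n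
  induction n with
  | zero =>
    refine ⟨fun _ => 0, ?_⟩
    unfold Generic
    rw [algebraicIndependent_empty_type_iff]
    exact (algebraMap ℚ ℂ).injective
  | succ n ih =>
    obtain ⟨z, hz⟩ := ih
    obtain ⟨p, hp⟩ := exists_extend hz
    have hp' : Generic (Sum.elim z (fun _ : Fin 1 => p)) := hp
    exact ⟨fun i => Sum.elim z (fun _ : Fin 1 => p) (finSumFinEquiv.symm i),
      hp'.comp finSumFinEquiv.symm (Equiv.injective _)⟩

/-- **the base data** for all even degrees from `6` on -/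
theorem baseD {d : ℕ} (hd : 6 ≤ d) (he : Even d) (n : ℕ) : BaseD d n := by
  obtain ⟨D0, rfl⟩ := he
  obtain ⟨a, b, c, -, hab, hD, hgen⟩ := Fam.family_generic (D0 := D0) (by omega)
  obtain ⟨z, hz⟩ := exists_generic 10
  have hz2 : Generic (Sum.elim (fun i : Fin 5 => z (finSumFinEquiv (m := 5) (n := 5) (Sum.inl i)))
      (fun i : Fin 5 => z (finSumFinEquiv (m := 5) (n := 5) (Sum.inr i)))) := by
    have h1 := hz.comp (finSumFinEquiv (m := 5) (n := 5)) (Equiv.injective _)
    convert h1 using 1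
    funext q
    rcases q with i | i <;> rfl
  obtain ⟨f, hf, h4, h3⟩ := hgen _ _ hz2
  exact baseD_of_sec hz2 hab (d := D0 + D0) (by omega) (by rw [hD]; ring) hf h3
    (fun m H hm hH h => h4 m (by omega) H hH h) n

/-- **the base data** for all odd degrees from `7` on and sums of three squares -/
theorem baseD_three {d : ℕ} (hd : 7 ≤ d) (ho : Odd d) {n k0 k1 k2 : ℕ}
    (hn : k0 ^ 2 + k1 ^ 2 + k2 ^ 2 = n) : BaseD d n := by
  obtain ⟨D1, rfl⟩ := ho
  obtain ⟨a, b, c, -, hab, hD, hgen⟩ := Fam.family_genericW (D0 := D1 + 1) (by omega)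
  obtain ⟨z, hz⟩ := exists_generic 11
  let e : (Fin 5 ⊕ Fin 5) ⊕ Fin 1 ≃ Fin 11 :=
    (Equiv.sumCongr (finSumFinEquiv (m := 5) (n := 5)) (Equiv.refl (Fin 1))).trans
      (finSumFinEquiv (m := 10) (n := 1))
  have hz2 : Generic (Sum.elim (Sum.elim (fun i : Fin 5 => z (e (Sum.inl (Sum.inl i))))
      (fun i : Fin 5 => z (e (Sum.inl (Sum.inr i))))) (fun _ : Fin 1 => z (e (Sum.inr 0)))) := by
    have h1 := hz.comp e (Equiv.injective _)
    convert h1 using 1
    funext q
    rcases q with (i | i) | i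
    · rfl
    · rfl
    · rw [Subsingleton.elim i 0]
      rfl
  obtain ⟨f, hf, h4, h3⟩ := hgen _ _ _ hz2
  exact baseD_of_secW hz2 hab (d := 2 * D1 + 1) (β := 1) (by omega) (by rw [hD]; ring) hf h3
    (fun m H hm hH h => h4 m (by omega) H hH h) hn

/-- **the base data** for all degrees from `6` on: all `n` in even degree, sums of three squares in
odd degree -/
theorem baseD_all {d : ℕ} (hd : 6 ≤ d) {n : ℕ}
    (hn : Even d ∨ ∃ k0 k1 k2 : ℕ, k0 ^ 2 + k1 ^ 2 + k2 ^ 2 = n) : BaseD d n := by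
  rcases Nat.even_or_odd d with he | ho
  · exact baseD hd he n
  · rcases hn with he | ⟨k0, k1, k2, h⟩
    · exact absurd ho (Nat.not_odd_iff_even.2 he)
    · have : d ≠ 6 := by
        rintro rfl
        exact absurd ho (by decide)
      exact baseD_three (by omega) ho h

/-- **the inequality for all forms** -/
theorem formsOut {d : ℕ} (hd : 6 ≤ d) {n : ℕ} (h : BaseD d n) : FormsOut d n := by
  obtain ⟨F, v, h1, h2, h3⟩ := forms_ineq (by omega) h
  exact ⟨F, v, ⟨h1, h2⟩, h3⟩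

/-- very general forms exist in every degree -/
theorem exists_veryGeneral {d : ℕ} (hd : 6 ≤ d) : ∃ F : Poly 3, VeryGeneral d F := by
  obtain ⟨F, -, h, -⟩ := formsOut hd (baseD_all hd (n := 1) (Or.inr ⟨1, 0, 0, rfl⟩))
  exact ⟨F, h⟩

/-- **Theorem.** Let `F` be a very general form of degree `d ≥ 6` in four variables. Then `F = 0` is
a smooth irreducible surface of degree `d` and its multipoint Seshadri constants have the largest
possible value, for all `n` if `d` is even and for all sums `n` of three squares if `d` is odd. -/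
theorem main {d : ℕ} (hd : 6 ≤ d) {F : Poly 3} (hF : VeryGeneral d F) :
    IsSurface (Ideal.span {F}) ∧ IsSmooth F ∧ surfDeg (Ideal.span {F}) = d ∧
      ∀ n : ℕ, 1 ≤ n → (Even d ∨ ∃ k0 k1 k2 : ℕ, k0 ^ 2 + k1 ^ 2 + k2 ^ 2 = n) →
        eps (Ideal.span {F}) n = ENNReal.ofReal (Real.sqrt ((d : ℝ) / n)) :=
  ⟨isSurface_of_veryGeneral (by omega) hF, smooth_of_veryGeneral (by omega) hF,
    surfDeg_span hF.1 (irreducible_of_veryGeneral (by omega) hF).ne_zero,
    fun _ hn h => eps_eq (by omega) hn (formsOut hd (baseD_all hd h)) (curvesOf d hn) hF⟩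

end Pool.Agent.Lib.MP_ed661f_ag.S
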