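import Pool.Agent.Lib.MP_ed661f_ag.S.Main
import Pool.Agent.Lib.MP_ed661f_ag.S.Fam.FinW

/-!
Very general surfaces of odd degree: all numbers of points which are sums of three squares.
-/

set_option autoImplicit false

open MvPolynomial

namespace Pool.Agent.Lib.MP_ed661f_ag.S

open H R E

/-- **the base data** for all odd degrees from `7` on -/
theorem baseD_odd {d : ℕ} (hd : 7 ≤ d) (ho : Odd d) {n k0 k1 k2 : ℕ}
    (hn : k0 ^ 2 + k1 ^ 2 + k2 ^ 2 = n) : BaseD d n := by
  obtain ⟨t, rfl⟩ := ho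
  obtain ⟨a, b, c, -, hab, hD, hgen⟩ := Fam.family_genericW (D0 := t + 1) (by omega)
  obtain ⟨z, hz⟩ := exists_generic 10
  have hz2 : Generic (Sum.elim (fun i : Fin 5 => z (finSumFinEquiv (m := 5) (n := 5) (Sum.inl i)))
      (fun i : Fin 5 => z (finSumFinEquiv (m := 5) (n := 5) (Sum.inr i)))) := by
    have h1 := hz.comp (finSumFinEquiv (m := 5) (n := 5)) (Equiv.injective _)
    convert h1 using 1
    funext q
    rcases q with i | i <;> rfl
  obtain ⟨w, hw⟩ := exists_extend hz2
  obtain ⟨f, hf, h4, h3⟩ := hgen _ _ w hw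
  refine baseD_of_secW hw hab (d := 2 * t + 1) (by omega) ?_ hf h3
    (fun m H hm hH h => h4 m (by omega) H hH h) hn
  rw [hD]
  ring

/-- **the inequality for all forms**, odd degree -/
theorem formsOut_odd {d : ℕ} (hd : 7 ≤ d) (ho : Odd d) {n k0 k1 k2 : ℕ}
    (hn : k0 ^ 2 + k1 ^ 2 + k2 ^ 2 = n) : FormsOut d n := by
  obtain ⟨F, v, h1, h2, h3⟩ := forms_ineq (by omega) (baseD_odd hd ho hn)
  exact ⟨F, v, ⟨h1, h2⟩, h3⟩

/-- **Theorem.** Let `F` be a very general form of degree `d ≥ 6` in four variables. Then `F = 0` is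
a smooth irreducible surface of degree `d`, and its `n`-point Seshadri constant has the largest
possible value `√(d/n)` for every `n ≥ 1` if `d` is even, and for every `n ≥ 1` which is a sum of
three squares (in particular for `n = 1`) if `d` is odd. -/
theorem main_all {d : ℕ} (hd : 6 ≤ d) {F : Poly 3} (hF : VeryGeneral d F) :
    IsSurface (Ideal.span {F}) ∧ IsSmooth F ∧ surfDeg (Ideal.span {F}) = d ∧
      ∀ n : ℕ, 1 ≤ n → (Even d ∨ ∃ k0 k1 k2 : ℕ, k0 ^ 2 + k1 ^ 2 + k2 ^ 2 = n) →
        eps (Ideal.span {F}) n = ENNReal.ofReal (Real.sqrt ((d : ℝ) / n)) := by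
  refine ⟨isSurface_of_veryGeneral (by omega) hF, smooth_of_veryGeneral (by omega) hF,
    surfDeg_span hF.1 (irreducible_of_veryGeneral (by omega) hF).ne_zero, fun n hn h => ?_⟩
  rcases Nat.even_or_odd d with he | ho
  · exact eps_eq (by omega) hn (formsOut hd he n) (curvesOf d hn) hF
  · rcases h with he | ⟨k0, k1, k2, hk⟩
    · exact absurd he (Nat.not_even_iff_odd.2 ho)
    · have h7 : 7 ≤ d := by
        obtain ⟨t, rfl⟩ := ho
        omega
      exact eps_eq (by omega) hn (formsOut_odd h7 ho hk) (curvesOf d hn) hF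

end Pool.Agent.Lib.MP_ed661f_ag.S
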