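import Pool.Agent.Lib.MP_ed661f_ag.S.Germ

/-!
The order at `y` of the pull back `G(f_0, f_1, f_2, f_3)` of a form `G` which vanishes to order
`w` on the surface `F = 0` at the image of `y`.
-/

set_option autoImplicit false

open MvPolynomial

namespace Pool.Agent.Lib.MP_ed661f_ag.S.Hn

open Pool.Agent.Lib.MP_ed661f_ag.E Pool.Agent.Lib.MP_ed661f_ag.R Pool.Agent.Lib.MP_ed661f_ag.H

theorem aeval_mul_hom {σ A R : Type*} [CommRing R] [CommRing A] [Algebra R A]
    {G : MvPolynomial σ R} {m : ℕ}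
    (hG : G.IsHomogeneous m) (v : A) (f : σ → A) :
    aeval (fun i => v * f i) G = v ^ m * aeval f G := by
  rw [aeval_def, aeval_def, eval₂_eq, eval₂_eq, Finset.mul_sum]
  refine Finset.sum_congr rfl fun e he => ?_
  have h1 : e.degree = m := by
    have := hG (mem_support_iff.1 he)
    rw [Finsupp.degree_eq_weight_one]
    exact this
  have h2 : ∏ i ∈ e.support, (v * f i) ^ e i = v ^ m * ∏ i ∈ e.support, f i ^ e i := by
    rw [← h1, Finsupp.degree_apply, ← Finset.prod_pow_eq_pow_sum, ← Finset.prod_mul_distrib]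
    exact Finset.prod_congr rfl fun i _ => mul_pow _ _ _
  rw [h2]
  ring

theorem aeval_sub_mem {σ A R : Type*} [CommRing R] [CommRing A] [Algebra R A] (I : Ideal A)
    {r r' : σ → A} (h : ∀ i, r i - r' i ∈ I) (G : MvPolynomial σ R) :
    aeval r G - aeval r' G ∈ I := by
  rw [← Ideal.Quotient.mk_eq_mk_iff_sub_mem]
  have h1 : ((Ideal.Quotient.mkₐ R I).comp (aeval r)) = (Ideal.Quotient.mkₐ R I).comp (aeval r') := by
    apply MvPolynomial.algHom_ext
    intro i
    simp only [AlgHom.comp_apply, aeval_X, Ideal.Quotient.mkₐ_eq_mk]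
    rw [Ideal.Quotient.mk_eq_mk_iff_sub_mem]
    exact h i
  exact congrArg (fun φ => φ G) h1

/-- powers of the ideal of `y` -/
theorem ker_pow_le (y : Pt) (k : ℕ) {u : Pol} (hu : u ∈ RingHom.ker (eval y) ^ k) :
    Bz.Ord k (tay y u) := by
  have key : RingHom.ker (eval y) ^ k ≤ Bz.OI y k := by
    clear hu
    induction k with
    | zero => exact fun u _ => Bz.ord_zero _
    | succ k ih =>
      rw [pow_succ, Ideal.mul_le]
      intro r hr s hs
      have h1 : s ∈ Bz.OI y 1 := by
        rw [Bz.mem_OI]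
        intro e he
        have h3 : e = 0 := by
          rw [← Finsupp.degree_eq_zero_iff]
          omega
        rw [h3]
        have h4 : (constantCoeff.comp ((aeval (fun i => X i + C (y i)) :
            MvPolynomial (Fin 2) ℂ →ₐ[ℂ] MvPolynomial (Fin 2) ℂ)).toRingHom) = eval y := by
          ext i <;> simp
        have h5 : constantCoeff (tay y s) = eval y s := congrArg (fun φ => φ s) h4
        rw [RingHom.mem_ker] at hs
        rw [← constantCoeff_eq, h5, hs]
      rw [Bz.mem_OI, Bz.tay_mul]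
      exact Bz.Ord.mul (ih hr) h1
  exact key hu

/-- substitution `σ, τ` of elements of the ideal -/
theorem subst_mem {J : Ideal Pol} {a b : Pol} (ha : a ∈ J) (hb : b ∈ J) {w : ℕ}
    {u : MvPolynomial (Fin 2) ℂ} (hu : u ∈ II ℂ ^ w) : aeval ![a, b] u ∈ J ^ w := by
  have h1 : (II ℂ).map (aeval ![a, b] : MvPolynomial (Fin 2) ℂ →ₐ[ℂ] Pol).toRingHom ≤ J := by
    rw [Ideal.map_le_iff_le_comap]
    unfold II idealOfVars
    rw [Ideal.span_le]
    rintro _ ⟨i, rfl⟩
    show aeval ![a, b] (X i : MvPolynomial (Fin 2) ℂ) ∈ J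
    rw [aeval_X]
    fin_cases i
    · exact ha
    · exact hb
  have h2 : (II ℂ ^ w).map (aeval ![a, b] : MvPolynomial (Fin 2) ℂ →ₐ[ℂ] Pol).toRingHom ≤ J ^ w := by
    rw [Ideal.map_pow]
    exact Ideal.pow_right_mono h1 w
  exact h2 (Ideal.mem_map_of_mem _ hu)

theorem eval_ev {y : Pt} (r : Fin 3 → Pol) (ζ : Pol) (F : Poly 3) :
    eval y (ev r ζ F) = eval ![eval y (r 0), eval y (r 1), eval y (r 2), eval y ζ] F := by
  have h : (eval y).comp (ev (R := ℂ) r ζ).toRingHom =
      eval ![eval y (r 0), eval y (r 1), eval y (r 2), eval y ζ] := by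
    apply MvPolynomial.ringHom_ext
    · intro a
      simp [ev]
    · intro i
      fin_cases i <;> simp [ev]
  exact congrArg (fun φ => φ F) h

/-- the order of the pull back -/
theorem pull {F0 G0 : Poly 3} {d m : ℕ} (hF0 : F0.IsHomogeneous d) (hG0 : G0.IsHomogeneous m)
    {f : Fin 4 → Pol} (hf : aeval f F0 = 0) {y : Pt} (hy : eval y (f 0) ≠ 0) {s t z : ℂ}
    (hs : eval y (f 1) = eval y (f 0) * s) (ht : eval y (f 2) = eval y (f 0) * t)
    (hz : eval y (f 3) = eval y (f 0) * z) (hδ : eval ![1, s, t, z] (pderiv 3 F0) ≠ 0)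
    {ζ : MvPolynomial (Fin 2) ℂ} (hζ : constantCoeff ζ = z) {w : ℕ}
    (h1 : ev (base s t) ζ F0 ∈ II ℂ ^ (w + 1)) (h2 : ev (base s t) ζ G0 ∈ II ℂ ^ (w + 1)) :
    aeval f G0 ∈ RingHom.ker (eval y) ^ (w + 1) := by
  set J : Ideal Pol := RingHom.ker (eval y) with hJ
  have mJ : ∀ u : Pol, u ∈ J ↔ eval y u = 0 := fun u => RingHom.mem_ker
  set c0 : ℂ := eval y (f 0) with hc0
  obtain ⟨v, hv⟩ := exists_inv_mod J (g := f 0) (u := C c0⁻¹) (w + 1) (by
    rw [mJ, map_sub, map_mul, eval_C, map_one, ← hc0, mul_inv_cancel₀ hy, sub_self])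
  have hv1 : eval y v = c0⁻¹ := by
    have h3 : f 0 * v - 1 ∈ J := Ideal.pow_le_self (by omega) hv
    rw [mJ, map_sub, map_mul, map_one, ← hc0, sub_eq_zero] at h3
    exact eq_inv_of_mul_eq_one_right h3
  set r : Fin 3 → Pol := ![1, v * f 1, v * f 2] with hr
  set r3 : Pol := v * f 3 with hr3
  -- modulo the ideal
  have hvf : ∀ i, (![1, v * f 1, v * f 2, v * f 3] : Fin 4 → Pol) i - v * f i ∈ J ^ (w + 1) := by
    intro i
    fin_cases i
    · have : (1 : Pol) - v * f 0 = -(f 0 * v - 1) := by ring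
      change (1 : Pol) - v * f 0 ∈ _
      rw [this]
      exact (Ideal.neg_mem_iff _).2 hv
    · change v * f 1 - v * f 1 ∈ _
      rw [sub_self]
      exact Ideal.zero_mem _
    · change v * f 2 - v * f 2 ∈ _
      rw [sub_self]
      exact Ideal.zero_mem _
    · change v * f 3 - v * f 3 ∈ _
      rw [sub_self]
      exact Ideal.zero_mem _
  have hev : ∀ G : Poly 3, ev r r3 G = aeval (![1, v * f 1, v * f 2, v * f 3] : Fin 4 → Pol) G := by
    intro G
    rfl
  have hF1 : ev r r3 F0 ∈ J ^ (w + 1) := by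
    have h3 := aeval_sub_mem (R := ℂ) _ hvf F0
    rw [aeval_mul_hom hF0, hf, mul_zero, sub_zero] at h3
    rw [hev]
    exact h3
  -- the germ
  have hs' : eval y (v * f 1) = s := by
    rw [map_mul, hv1, hs, inv_mul_cancel_left₀ hy]
  have ht' : eval y (v * f 2) = t := by
    rw [map_mul, hv1, ht, inv_mul_cancel_left₀ hy]
  have hz' : eval y (v * f 3) = z := by
    rw [map_mul, hv1, hz, inv_mul_cancel_left₀ hy]
  set a : Pol := v * f 1 - C s with ha
  set b : Pol := v * f 2 - C t with hb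
  have haJ : a ∈ J := by rw [mJ, ha, map_sub, hs', eval_C, sub_self]
  have hbJ : b ∈ J := by rw [mJ, hb, map_sub, ht', eval_C, sub_self]
  set ξ : Pol := aeval ![a, b] ζ with hξ
  have hsub : ∀ G : Poly 3, ev r ξ G = aeval ![a, b] (ev (base s t) ζ G) := by
    intro G
    have h : ev (R := ℂ) r ξ = (aeval ![a, b]).comp (ev (base s t) ζ) := by
      apply MvPolynomial.algHom_ext
      intro i
      fin_cases i
      · simp [ev, base, hr]
      · simp [ev, base, hr, ha]
      · simp [ev, base, hr, hb]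
      · simp [ev, hξ]
    rw [h]
    rfl
  have hξz : eval y ξ = z := by
    have h3 : eval y ξ = constantCoeff ζ := by
      have h : (eval y).comp (aeval ![a, b] : MvPolynomial (Fin 2) ℂ →ₐ[ℂ] Pol).toRingHom =
          constantCoeff := by
        apply MvPolynomial.ringHom_ext
        · intro x
          simp
        · intro i
          fin_cases i
          · simpa using (mJ a).1 haJ
          · simpa using (mJ b).1 hbJ
      exact congrArg (fun φ => φ ζ) h
    rw [h3, hζ]
  have hF2 : ev r ξ F0 ∈ J ^ (w + 1) := by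
    rw [hsub]
    exact subst_mem haJ hbJ h1
  have hG2 : ev r ξ G0 ∈ J ^ (w + 1) := by
    rw [hsub]
    exact subst_mem haJ hbJ h2
  have hdiff : r3 - ξ ∈ J ^ (w + 1) := by
    refine newton_unique J (uni r F0) (u := C (eval ![1, s, t, z] (pderiv 3 F0))⁻¹) (w + 1)
      (by rw [eval_uni]; exact hF1) (by rw [eval_uni]; exact hF2) ?_ ?_
    · rw [mJ, map_sub, hz', hξz, sub_self]
    · rw [derivative_uni, eval_uni, mJ, map_sub, map_mul, eval_ev, eval_C, map_one, hξz]
      have h3 : (![eval y (r 0), eval y (r 1), eval y (r 2), z] : Fin 4 → ℂ) = ![1, s, t, z] := by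
        have e0 : eval y (r 0) = 1 := by simp [hr]
        have e1 : eval y (r 1) = s := hs'
        have e2 : eval y (r 2) = t := ht'
        rw [e0, e1, e2]
      rw [h3, mul_inv_cancel₀ hδ, sub_self]
  have hG1 : ev r r3 G0 ∈ J ^ (w + 1) := by
    have h3 := eval_sub_mem (J ^ (w + 1)) (uni r G0) hdiff
    rw [eval_uni, eval_uni] at h3
    have h4 : ev r r3 G0 = (ev r r3 G0 - ev r ξ G0) + ev r ξ G0 := by ring
    rw [h4]
    exact Ideal.add_mem _ h3 hG2
  have h3 : aeval (fun i => v * f i) G0 ∈ J ^ (w + 1) := by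
    have h4 := aeval_sub_mem (R := ℂ) _ hvf G0
    rw [← hev] at h4
    have h5 : aeval (fun i => v * f i) G0 =
        ev r r3 G0 - (ev r r3 G0 - aeval (fun i => v * f i) G0) := by ring
    rw [h5]
    exact Ideal.sub_mem _ hG1 h4
  rw [aeval_mul_hom hG0] at h3
  refine cancel_unit J (g := v ^ m) (u := f 0 ^ m) (w + 1) ?_ h3
  rw [← mul_pow, mJ, map_sub, map_pow, map_mul, hv1, ← hc0, inv_mul_cancel₀ hy, one_pow, map_one,
    sub_self]

end Pool.Agent.Lib.MP_ed661f_ag.S.Hn
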