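import Pool.Agent.Lib.MP_ed661f_ag.S.Lim

/-!
Semicontinuity of the dimension of a finite quotient.
-/

set_option autoImplicit false

open MvPolynomial

namespace Pool.Agent.Lib.MP_ed661f_ag.S

open H

variable {N : ℕ}

/- PROOF. Let `K = p.K`, `J₁ = J.map (map of ρ : B → K)` in `K[x]`, so `J₁.map (K ⊂ ℂ) = J.map red`.
Let `D = finrank ℂ (ℂ[x]/J.map red)`, choose `D` monomials which are a `ℂ`-basis of it.
(1) they span `K[x]/J₁` over `K`: let `π : ℂ → K` be a `K`-linear retraction, applied to the
coefficients it is `K[x]`-linear; apply it to `x^μ = ∑ c_i x^{μ_i} + ∑ h_j g_j`, `g_j ∈ J₁`.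
(2) so `B[x] = span_B (the D monomials) + J + 𝔪 B[x]`, and Nakayama
(`Submodule.le_of_le_smul_of_le_jacobson_bot` for the finite module `B[x]/J`) gives
`B[x] = span_B (the D monomials) + J`. (3) so the `D` monomials span `ℂ[x]/J.map emb`.
(Here: by base change to the residue field, with the tensor products of Mathlib.) -/

section

open TensorProduct

/-- the quotient by the extended ideal is the base change of the quotient -/
private theorem spread_finrank {R L : Type} [CommRing R] [Field L] [Algebra R L] {σ : Type}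
    (J : Ideal (MvPolynomial σ R)) :
    Module.finrank L (MvPolynomial σ L ⧸ J.map (MvPolynomial.map (algebraMap R L))) =
      Module.finrank L (L ⊗[R] (MvPolynomial σ R ⧸ J)) := by
  have e1 : L ⊗[R] (MvPolynomial σ R ⧸ J) ≃ₐ[L]
      (L ⊗[R] MvPolynomial σ R) ⧸ J.map (Algebra.TensorProduct.includeRight (A := L) (R := R)) :=
    Algebra.TensorProduct.tensorQuotientEquiv (R := R) L (MvPolynomial σ R) L J
  have e2 : ((L ⊗[R] MvPolynomial σ R) ⧸
      J.map (Algebra.TensorProduct.includeRight (A := L) (R := R))) ≃ₐ[L]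
      (MvPolynomial σ L ⧸ J.map (MvPolynomial.map (algebraMap R L))) := by
    refine Ideal.quotientEquivAlg _ _ (MvPolynomial.algebraTensorAlgEquiv R L) ?_
    have e3 : J.map (Algebra.TensorProduct.includeRight (A := L) (R := R)) =
        J.map (Algebra.TensorProduct.includeRight :
          MvPolynomial σ R →ₐ[R] L ⊗[R] MvPolynomial σ R).toRingHom := rfl
    rw [e3, Ideal.map_map]
    congr 1
    refine RingHom.ext fun x => ?_
    change MvPolynomial.map (algebraMap R L) x =
      MvPolynomial.algebraTensorAlgEquiv R L (1 ⊗ₜ x)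
    rw [MvPolynomial.algebraTensorAlgEquiv_tmul, one_smul]
  exact ((e1.trans e2).toLinearEquiv.finrank_eq).symm

/-- the generic fibre -/
private theorem spread_le {R L M : Type} [CommRing R] [Field L] [Algebra R L] [AddCommGroup M]
    [Module R M] [Module.Finite R M] :
    Module.finrank L (L ⊗[R] M) ≤ (⊤ : Submodule R M).spanFinrank := by
  rw [Module.finrank_eq_spanFinrank_of_free, ← Submodule.baseChange_top]
  exact Submodule.FG.spanFinrank_baseChange_le ⊤ Module.Finite.fg_top

/-- the special fibre -/
private theorem spread_ge {R L M : Type} [CommRing R] [IsLocalRing R] [Field L] [Algebra R L]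
    [IsLocalHom (algebraMap R L)] [AddCommGroup M] [Module R M] [Module.Finite R M] :
    (⊤ : Submodule R M).spanFinrank ≤ Module.finrank L (L ⊗[R] M) := by
  let _ : Algebra (IsLocalRing.ResidueField R) L :=
    (IsLocalRing.ResidueField.lift (algebraMap R L)).toAlgebra
  have hst : IsScalarTower R (IsLocalRing.ResidueField R) L :=
    IsScalarTower.of_algebraMap_eq fun x => rfl
  have e : L ⊗[IsLocalRing.ResidueField R] ((IsLocalRing.ResidueField R) ⊗[R] M) ≃ₗ[L] L ⊗[R] M :=
    TensorProduct.AlgebraTensorModule.cancelBaseChange R (IsLocalRing.ResidueField R) L L M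
  rw [← e.finrank_eq, Module.finrank_baseChange]
  have h1 := TensorProduct.spanFinrank_top_eq_of_residueField (⊤ : Submodule R M)
    Module.Finite.fg_top
  rw [← h1, ← Module.finrank_eq_spanFinrank_of_free]
  have e2 : (IsLocalRing.ResidueField R) ⊗[R] (⊤ : Submodule R M) ≃ₗ[IsLocalRing.ResidueField R]
      (IsLocalRing.ResidueField R) ⊗[R] M :=
    TensorProduct.AlgebraTensorModule.congr (LinearEquiv.refl _ _) Submodule.topEquiv
  exact e2.finrank_eq.le

end

/-- **(L2a)** semicontinuity: if the quotient of `B[x]` by `J` is a finitely generated module over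
the valuation ring `B`, then the dimension of the generic fibre is at most the dimension of the
special fibre -/
theorem finrank_emb_le_red (p : Place) (J : Ideal (MvPolynomial (Fin (N + 1)) p.B))
    (hfin : Module.Finite p.B (MvPolynomial (Fin (N + 1)) p.B ⧸ J)) :
    Module.finrank ℂ (Poly N ⧸ J.map p.emb) ≤ Module.finrank ℂ (Poly N ⧸ J.map p.red) := by
  have h1 : Module.finrank ℂ (Poly N ⧸ J.map p.emb) ≤
      (⊤ : Submodule p.B (MvPolynomial (Fin (N + 1)) p.B ⧸ J)).spanFinrank := by
    have h2 := spread_finrank (R := p.B) (L := ℂ) J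
    have h3 := spread_le (R := p.B) (L := ℂ) (M := MvPolynomial (Fin (N + 1)) p.B ⧸ J)
    rw [← h2] at h3
    exact h3
  have hloc : IsLocalHom p.ρ := by
    refine ⟨fun x hx => ?_⟩
    by_contra hcon
    have h4 : p.ρ x = 0 := (p.ker x).2 ((IsLocalRing.mem_maximalIdeal _).2 hcon)
    rw [h4] at hx
    exact not_isUnit_zero hx
  have h5 : (⊤ : Submodule p.B (MvPolynomial (Fin (N + 1)) p.B ⧸ J)).spanFinrank ≤
      Module.finrank ℂ (Poly N ⧸ J.map p.red) := by
    have h6 := @spread_finrank p.B ℂ _ _ p.ρ.toAlgebra (Fin (N + 1)) J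
    have h7 := @spread_ge p.B ℂ (MvPolynomial (Fin (N + 1)) p.B ⧸ J) _ _ _ p.ρ.toAlgebra hloc _ _ _
    rw [← h6] at h7
    exact h7
  exact h1.trans h5

end Pool.Agent.Lib.MP_ed661f_ag.S
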