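import Pool.Agent.Lib.MP_ed661f_ag.H.Defs

/-!
Very general and smooth forms in four variables: definitions.
-/

set_option autoImplicit false

open MvPolynomial

namespace Pool.Agent.Lib.MP_ed661f_ag.S

open H

/-- the form `F` of degree `d` in four variables is very general: its coefficients are
algebraically independent over the rational numbers -/
def VeryGeneral (d : ℕ) (F : Poly 3) : Prop :=
  F.IsHomogeneous d ∧
    AlgebraicIndependent ℚ fun e : {e : Fin 4 →₀ ℕ // e.degree = d} => coeff e.1 F

/-- the surface `F = 0` in the projective space of dimension `3` is smooth -/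
def IsSmooth (F : Poly 3) : Prop :=
  ∀ v : Fin 4 → ℂ, v ≠ 0 → eval v F = 0 → ∃ i, eval v (pderiv i F) ≠ 0

end Pool.Agent.Lib.MP_ed661f_ag.S
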